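import Pool.Agent.Lib.MP_1446ad_nt.SM.SpecF
import Pool.Agent.Lib.MP_5b6025_nt.RP.Mertens

set_option autoImplicit false

namespace Pool.Agent.Lib.MP_1446ad_nt.SM

namespace MRAM

open ArithmeticFunction Finset

theorem sum_log (N : ℕ) : ∑ m ∈ Ioc 0 N, Real.log (m : ℝ) = Real.log (N.factorial : ℝ) := by
  induction N with
  | zero => simp
  | succ N ih =>
    rw [sum_Ioc_succ_top (Nat.zero_le N), ih, Nat.factorial_succ]
    push_cast
    rw [Real.log_mul (by positivity) (by positivity)]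
    ring

theorem log_fact (N : ℕ) (hN : 1 ≤ N) :
    (N : ℝ) * Real.log N - N ≤ ∑ m ∈ Ioc 0 N, Real.log (m : ℝ) := by
  have hN' : (0 : ℝ) < N := by exact_mod_cast hN
  have hf : (0 : ℝ) < (N.factorial : ℝ) := by exact_mod_cast N.factorial_pos
  have h := Real.pow_div_factorial_le_exp (N : ℝ) hN'.le N
  have h1 := Real.log_le_log (by positivity) h
  rw [Real.log_exp, Real.log_div (by positivity) hf.ne', Real.log_pow] at h1
  rw [sum_log]
  linarith

theorem lower (N : ℕ) (hN : 1 ≤ N) :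
    Real.log N - 1 ≤ ∑ d ∈ Ioc 0 N, Λ d / (d : ℝ) := by
  have hN' : (0 : ℝ) < N := by exact_mod_cast hN
  have h1 : ∑ m ∈ Ioc 0 N, Real.log m = ∑ d ∈ Ioc 0 N, Λ d * ((N / d : ℕ) : ℝ) := by
    rw [← sum_Ioc_mul_zeta_eq_sum, vonMangoldt_mul_zeta]
    rfl
  have h2 : ∑ d ∈ Ioc 0 N, Λ d * ((N / d : ℕ) : ℝ) ≤ N * ∑ d ∈ Ioc 0 N, Λ d / (d : ℝ) := by
    rw [mul_sum]
    apply sum_le_sum
    intro d _
    have h3 : ((N / d : ℕ) : ℝ) ≤ (N : ℝ) / d := Nat.cast_div_le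
    calc Λ d * ((N / d : ℕ) : ℝ) ≤ Λ d * ((N : ℝ) / d) :=
          mul_le_mul_of_nonneg_left h3 vonMangoldt_nonneg
      _ = N * (Λ d / (d : ℝ)) := by ring
  have h3 := log_fact N hN
  have h4 : (N : ℝ) * (Real.log N - 1) ≤ N * ∑ d ∈ Ioc 0 N, Λ d / (d : ℝ) := by
    rw [mul_sub, mul_one]
    linarith
  exact le_of_mul_le_mul_left h4 hN'

theorem split (N : ℕ) :
    ∑ d ∈ Ioc 0 N, Λ d / (d : ℝ) =
      ∑ p ∈ (Ioc 0 N).filter Nat.Prime, Real.log p / (p : ℝ) +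
      ∑ d ∈ (Ioc 0 N).filter (fun d => ¬ d.Prime), Λ d / (d : ℝ) := by
  rw [← sum_filter_add_sum_filter_not (Ioc 0 N) Nat.Prime]
  congr 1
  apply sum_congr rfl
  intro p hp
  rw [mem_filter] at hp
  rw [vonMangoldt_apply_prime hp.2]

end MRAM

open MRAM Pool.Agent.Lib.MP5b6025.RP.MertensM in
theorem specMRA : SpecMRA := by
  obtain ⟨C1, hC1, h1⟩ := mertens_upper
  obtain ⟨C2, hC2, h2⟩ := nonprime_bd
  refine ⟨C1 + C2 + 1, by positivity, fun N hN => ?_⟩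
  have ha := h1 N hN
  have hb := h2 N
  have hc := lower N hN
  have hd := split N
  have he : 0 ≤ ∑ d ∈ (Finset.Ioc 0 N).filter (fun d => ¬ d.Prime),
      ArithmeticFunction.vonMangoldt d / (d : ℝ) := by
    apply Finset.sum_nonneg
    intro d _
    have := ArithmeticFunction.vonMangoldt_nonneg (n := d)
    positivity
  rw [abs_le]
  constructor <;> linarith

end Pool.Agent.Lib.MP_1446ad_nt.SM
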