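import Pool.Agent.Lib.MP_1446ad_nt.SM.SpecF
import Pool.Agent.Lib.MP_391708_nt.Div

/-!
# MP_1446ad_nt, module DIV: the divisor bound
-/

set_option autoImplicit false

namespace Pool.Agent.Lib.MP_1446ad_nt.SM

open Finset Filter

theorem specDIV : SpecDIV := by
  intro ε hε
  obtain ⟨C, hC, hdiv⟩ :=
    Pool.Agent.Lib.MP_391708_nt.Div.card_divisors_le_rpow (ε / 6) (by positivity)
  have h1 : ∀ᶠ x : ℝ in atTop, C ≤ x ^ (ε / 2) :=
    (tendsto_rpow_atTop (show 0 < ε / 2 by positivity)).eventually (eventually_ge_atTop C)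
  have h2 : ∀ᶠ x : ℝ in atTop, 2 ≤ x ^ ε :=
    (tendsto_rpow_atTop hε).eventually (eventually_ge_atTop 2)
  have h3 : ∀ᶠ x : ℝ in atTop, ‖Real.log x‖ ≤ 1 / 6 * ‖x ^ ε‖ :=
    (isLittleO_log_rpow_atTop hε).bound (by norm_num)
  have hc : Tendsto (fun n : ℕ => (n : ℝ)) atTop atTop := tendsto_natCast_atTop_atTop
  filter_upwards [hc.eventually h1, hc.eventually h2, hc.eventually h3, eventually_ge_atTop 1]
    with n g1 g2 g3 hn m hm hmn
  have hn0 : (0 : ℝ) < n := by exact_mod_cast hn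
  have hm0 : (0 : ℝ) < m := by exact_mod_cast hm
  have hmn' : (m : ℝ) ≤ (n : ℝ) ^ (3 : ℕ) := by exact_mod_cast hmn
  refine ⟨?_, ?_⟩
  · calc tau m ≤ C * (m : ℝ) ^ (ε / 6) := hdiv m hm
      _ ≤ C * (((n : ℝ) ^ (3 : ℕ)) ^ (ε / 6)) := by
          apply mul_le_mul_of_nonneg_left _ hC.le
          exact Real.rpow_le_rpow hm0.le hmn' (by positivity)
      _ = C * (n : ℝ) ^ (ε / 2) := by
          rw [← Real.rpow_natCast, ← Real.rpow_mul hn0.le]
          congr 2
          push_cast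
          ring
      _ ≤ (n : ℝ) ^ (ε / 2) * (n : ℝ) ^ (ε / 2) :=
          mul_le_mul_of_nonneg_right g1 (by positivity)
      _ = (n : ℝ) ^ ε := by
          rw [← Real.rpow_add hn0]
          congr 1
          ring
  · have h4 : Real.log m ≤ 3 * Real.log n := by
      calc Real.log m ≤ Real.log ((n : ℝ) ^ (3 : ℕ)) := Real.log_le_log hm0 hmn'
        _ = 3 * Real.log n := by rw [Real.log_pow]; norm_num
    have h5 : Real.log n ≤ 1 / 6 * (n : ℝ) ^ ε := by
      have h6 := le_trans (le_abs_self (Real.log n)) (by simpa [Real.norm_eq_abs] using g3 :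
        |Real.log n| ≤ 1 / 6 * |(n : ℝ) ^ ε|)
      rwa [abs_of_pos (by positivity : (0 : ℝ) < (n : ℝ) ^ ε)] at h6
    linarith

end Pool.Agent.Lib.MP_1446ad_nt.SM
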