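import Pool.Agent.Lib.MP_1446ad_nt.SM.SpecF

/-!
# MP_1446ad_nt, part F: module MRB, the sum of `1/p` over an interval
-/

set_option autoImplicit false

namespace Pool.Agent.Lib.MP_1446ad_nt.SM.MRBM

open Finset

/-- `∑_{p ≤ N} log p / p` -/
noncomputable def AA (N : ℕ) : ℝ := ∑ p ∈ (Ioc 0 N).filter Nat.Prime, Real.log p / (p : ℝ)

/-- `∑_{a < p ≤ b} 1 / p` -/
noncomputable def SS (a b : ℕ) : ℝ := ∑ p ∈ (Ioc a b).filter Nat.Prime, 1 / (p : ℝ)

lemma step (a b : ℕ) (ha : 2 ≤ a) (hab : a ≤ b) :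
    SS a (b + 1) = SS a b + (AA (b + 1) - AA b) / Real.log ((b + 1 : ℕ) : ℝ) := by
  unfold SS AA
  rw [sum_filter, sum_filter, sum_filter, sum_filter, sum_Ioc_succ_top hab,
    sum_Ioc_succ_top (Nat.zero_le b)]
  have hlog : Real.log ((b + 1 : ℕ) : ℝ) ≠ 0 := by
    apply (Real.log_pos _).ne'
    exact_mod_cast (by omega : 1 < b + 1)
  by_cases hp : (b + 1).Prime
  · rw [if_pos hp, if_pos hp]
    have h0 : ((b + 1 : ℕ) : ℝ) ≠ 0 := by positivity
    field_simp
    ring
  · rw [if_neg hp, if_neg hp]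
    simp

lemma main (C : ℝ) (hC : ∀ N : ℕ, 1 ≤ N → |AA N - Real.log N| ≤ C) (a b : ℕ) (ha : 2 ≤ a)
    (hab : a ≤ b) :
    SS a b ≤ Real.log (Real.log b / Real.log a) + (AA b - Real.log b) / Real.log b +
      C * (1 / Real.log a - 1 / Real.log b) - (AA a - Real.log a) / Real.log a := by
  have hla : 0 < Real.log a := Real.log_pos (by exact_mod_cast (by omega : 1 < a))
  induction b, hab using Nat.le_induction with
  | base =>
    unfold SS
    rw [div_self hla.ne']
    simp
  | succ b hb ih =>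
    rw [step a b ha hb]
    have hlb : 0 < Real.log b := Real.log_pos (by exact_mod_cast (by omega : 1 < b))
    have hlb1 : 0 < Real.log ((b + 1 : ℕ) : ℝ) :=
      Real.log_pos (by exact_mod_cast (by omega : 1 < b + 1))
    have hmono : Real.log b ≤ Real.log ((b + 1 : ℕ) : ℝ) :=
      Real.log_le_log (by exact_mod_cast (by omega : 0 < b)) (by push_cast; linarith)
    obtain ⟨x, hx⟩ : ∃ x, x = Real.log (b : ℝ) := ⟨_, rfl⟩
    obtain ⟨y, hy⟩ : ∃ y, y = Real.log ((b + 1 : ℕ) : ℝ) := ⟨_, rfl⟩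
    obtain ⟨z, hz⟩ : ∃ z, z = Real.log (a : ℝ) := ⟨_, rfl⟩
    have hR := hC b (by omega)
    rw [← hx] at hR hlb hmono ih
    rw [← hy] at hlb1 hmono ⊢
    rw [← hz] at hla ih ⊢
    -- the logarithm
    have h1 : (y - x) / y ≤ Real.log (y / x) := by
      have h2 := Real.one_sub_inv_le_log_of_pos (div_pos hlb1 hlb)
      rw [inv_div] at h2
      have h3 : (y - x) / y = 1 - x / y := by
        field_simp
      rw [h3]
      exact h2
    have h2 : Real.log (y / z) = Real.log (x / z) + Real.log (y / x) := by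
      rw [← Real.log_mul (div_pos hlb hla).ne' (div_pos hlb1 hlb).ne']
      congr 1
      field_simp
    have h3 : 0 ≤ 1 / x - 1 / y := by
      rw [sub_nonneg]
      exact one_div_le_one_div_of_le hlb hmono
    have h4 : (AA b - x) * (1 / x - 1 / y) ≤ C * (1 / x - 1 / y) :=
      mul_le_mul_of_nonneg_right ((abs_le.1 hR).2) h3
    have h5 : (AA (b + 1) - AA b) / y = (AA (b + 1) - y) / y - (AA b - x) / x +
        (AA b - x) * (1 / x - 1 / y) + (y - x) / y := by
      field_simp
      ring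
    rw [h5, h2]
    linarith

theorem specMRB (hMRA : SpecMRA) : SpecMRB := by
  obtain ⟨C, hC0, hC⟩ := hMRA
  refine ⟨2 * C, by positivity, ?_⟩
  intro a b ha hab
  have h1 := main C hC a b ha hab
  have hla : 0 < Real.log a := Real.log_pos (by exact_mod_cast (by omega : 1 < a))
  have hlb : 0 < Real.log b := Real.log_pos (by exact_mod_cast (by omega : 1 < b))
  have h2 : (AA b - Real.log b) / Real.log b ≤ C / Real.log b :=
    div_le_div_of_nonneg_right (abs_le.1 (hC b (by omega))).2 hlb.le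
  have h3 : -C / Real.log a ≤ (AA a - Real.log a) / Real.log a :=
    div_le_div_of_nonneg_right (abs_le.1 (hC a (by omega))).1 hla.le
  have h4 : C * (1 / Real.log a - 1 / Real.log b) = C / Real.log a - C / Real.log b := by ring
  have h5 : 2 * C / Real.log a = C / Real.log a + C / Real.log a := by ring
  have h6 : -C / Real.log a = -(C / Real.log a) := by ring
  unfold SS at h1
  rw [h4] at h1
  rw [h6] at h3
  rw [h5]
  linarith

end Pool.Agent.Lib.MP_1446ad_nt.SM.MRBM

namespace Pool.Agent.Lib.MP_1446ad_nt.SM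

theorem specMRB (hMRA : SpecMRA) : SpecMRB := MRBM.specMRB hMRA

end Pool.Agent.Lib.MP_1446ad_nt.SM
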