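import Pool.Agent.Lib.MP_1446ad_nt.SM.SpecF

/-!
# MP_1446ad_nt, part F: module NSM, numbers with a large prime factor in an interval
-/

set_option autoImplicit false

namespace Pool.Agent.Lib.MP_1446ad_nt.SM.NSMM

open Finset Filter Topology
open scoped Classical

lemma card_dvd (x h p : ℕ) (hp : 0 < p) :
    (((Ioc x (x + h)).filter (fun k => p ∣ k)).card : ℝ) ≤ (h : ℝ) * (1 / (p : ℝ)) + 1 := by
  have h1 : (Ioc 0 (x + h)).filter (fun k => p ∣ k) =
      (Ioc 0 x).filter (fun k => p ∣ k) ∪ (Ioc x (x + h)).filter (fun k => p ∣ k) := by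
    rw [← filter_union, Ioc_union_Ioc_eq_Ioc (Nat.zero_le x) (Nat.le_add_right x h)]
  have h2 : Disjoint ((Ioc 0 x).filter (fun k => p ∣ k))
      ((Ioc x (x + h)).filter (fun k => p ∣ k)) := by
    apply disjoint_filter_filter
    rw [disjoint_left]
    intro a ha hb
    rw [mem_Ioc] at ha hb
    omega
  have h3 := congrArg card h1
  rw [card_union_of_disjoint h2, Nat.Ioc_filter_dvd_card_eq_div, Nat.Ioc_filter_dvd_card_eq_div]
    at h3
  have hp' : (0 : ℝ) < p := by exact_mod_cast hp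
  have h4 : (((x + h) / p : ℕ) : ℝ) ≤ ((x + h : ℕ) : ℝ) / p := Nat.cast_div_le
  have h5 : (x : ℝ) / p < ((x / p : ℕ) : ℝ) + 1 := by
    rw [div_lt_iff₀ hp']
    have h6 := Nat.div_add_mod x p
    have h7 := Nat.mod_lt x hp
    have h8 : x < (x / p + 1) * p := by
      nlinarith [h6, h7]
    exact_mod_cast h8
  have h9 : (((x + h) / p : ℕ) : ℝ) = ((x / p : ℕ) : ℝ) +
      (((Ioc x (x + h)).filter (fun k => p ∣ k)).card : ℝ) := by
    exact_mod_cast h3
  push_cast at h4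
  rw [add_div] at h4
  have h10 : (h : ℝ) * (1 / (p : ℝ)) = (h : ℝ) / p := by ring
  rw [h10]
  linarith

lemma card_big (n : ℕ) (θ κ : ℝ) (x h : ℕ) (hx : (x : ℝ) + h ≤ (n : ℝ) ^ κ) :
    (((Ioc x (x + h)).filter (fun k : ℕ => ∃ p : ℕ, p.Prime ∧ p ∣ k ∧ (n : ℝ) ^ θ < p)).card : ℝ)
      ≤ (h : ℝ) * (∑ p ∈ (Ioc ⌊(n : ℝ) ^ θ⌋₊ ⌊(n : ℝ) ^ κ⌋₊).filter Nat.Prime, 1 / (p : ℝ)) +
        (Nat.primeCounting ⌊(n : ℝ) ^ κ⌋₊ : ℝ) := by
  set a := ⌊(n : ℝ) ^ θ⌋₊ with ha
  set b := ⌊(n : ℝ) ^ κ⌋₊ with hb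
  have hsub : (Ioc x (x + h)).filter
      (fun k : ℕ => ∃ p : ℕ, p.Prime ∧ p ∣ k ∧ (n : ℝ) ^ θ < p) ⊆
      ((Ioc a b).filter Nat.Prime).biUnion
        (fun p => (Ioc x (x + h)).filter (fun k => p ∣ k)) := by
    intro k hk
    rw [mem_filter, mem_Ioc] at hk
    obtain ⟨⟨hk1, hk2⟩, p, hp, hpk, hnp⟩ := hk
    rw [mem_biUnion]
    refine ⟨p, ?_, ?_⟩
    · rw [mem_filter, mem_Ioc]
      refine ⟨⟨?_, ?_⟩, hp⟩
      · rw [ha, Nat.floor_lt (by positivity)]
        exact hnp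
      · rw [hb]
        apply Nat.le_floor
        have h1 : p ≤ k := Nat.le_of_dvd (by omega) hpk
        have h2 : (p : ℝ) ≤ (x : ℝ) + h := by exact_mod_cast h1.trans hk2
        linarith
    · rw [mem_filter, mem_Ioc]
      exact ⟨⟨hk1, hk2⟩, hpk⟩
  have h1 := (card_le_card hsub).trans card_biUnion_le
  have h2 : (((Ioc x (x + h)).filter
      (fun k : ℕ => ∃ p : ℕ, p.Prime ∧ p ∣ k ∧ (n : ℝ) ^ θ < p)).card : ℝ) ≤
      ∑ p ∈ (Ioc a b).filter Nat.Prime,
        (((Ioc x (x + h)).filter (fun k => p ∣ k)).card : ℝ) := by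
    exact_mod_cast h1
  refine h2.trans ?_
  have h3 : ∑ p ∈ (Ioc a b).filter Nat.Prime,
        (((Ioc x (x + h)).filter (fun k => p ∣ k)).card : ℝ) ≤
      ∑ p ∈ (Ioc a b).filter Nat.Prime, ((h : ℝ) * (1 / (p : ℝ)) + 1) := by
    apply sum_le_sum
    intro p hp
    rw [mem_filter] at hp
    exact card_dvd x h p hp.2.pos
  refine h3.trans ?_
  rw [sum_add_distrib, ← mul_sum]
  have h4 : ∑ p ∈ (Ioc a b).filter Nat.Prime, (1 : ℝ) ≤ (Nat.primeCounting b : ℝ) := by
    rw [sum_const, nsmul_eq_mul, mul_one]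
    have h5 : ((Ioc a b).filter Nat.Prime).card ≤ Nat.primeCounting b := by
      rw [Nat.primeCounting, Nat.primeCounting', Nat.count_eq_card_filter_range]
      apply card_le_card
      intro p hp
      rw [mem_filter, mem_Ioc] at hp
      rw [mem_filter, mem_range]
      exact ⟨by omega, hp.2⟩
    exact_mod_cast h5
  linarith

lemma tend_log (θ κ C : ℝ) (hθ : 0 < θ) (hκ : 0 < κ) :
    Tendsto (fun L : ℝ => Real.log (κ * L / (θ * L - Real.log 2)) + C / (θ * L - Real.log 2))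
      atTop (𝓝 (Real.log (κ / θ))) := by
  have hden : Tendsto (fun L : ℝ => θ * L - Real.log 2) atTop atTop :=
    tendsto_atTop_add_const_right _ _ (Tendsto.const_mul_atTop hθ tendsto_id)
  have h1 : Tendsto (fun L : ℝ => κ / (θ - Real.log 2 / L)) atTop (𝓝 (κ / θ)) := by
    have h2 : Tendsto (fun L : ℝ => θ - Real.log 2 / L) atTop (𝓝 (θ - 0)) :=
      tendsto_const_nhds.sub (tendsto_const_nhds.div_atTop tendsto_id)
    rw [sub_zero] at h2
    exact tendsto_const_nhds.div h2 hθ.ne'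
  have h3 : Tendsto (fun L : ℝ => κ * L / (θ * L - Real.log 2)) atTop (𝓝 (κ / θ)) := by
    refine h1.congr' ?_
    filter_upwards [eventually_gt_atTop 0, hden.eventually_gt_atTop 0] with L hL hd
    have h4 : θ - Real.log 2 / L ≠ 0 := by
      have h5 : (θ - Real.log 2 / L) * L = θ * L - Real.log 2 := by
        field_simp
      intro h6
      rw [h6, zero_mul] at h5
      linarith
    field_simp
  have h4 := h3.log (div_pos hκ hθ).ne'
  have h5 : Tendsto (fun L : ℝ => C / (θ * L - Real.log 2)) atTop (𝓝 0) :=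
    tendsto_const_nhds.div_atTop hden
  simpa using h4.add h5

end Pool.Agent.Lib.MP_1446ad_nt.SM.NSMM

namespace Pool.Agent.Lib.MP_1446ad_nt.SM

open Finset Filter Topology NSMM
open scoped Classical

theorem specNSM (hMRB : SpecMRB) : SpecNSM := by
  intro θ κ ε c hθ hθκ hκ1 hε hc
  obtain ⟨C, hC0, hC⟩ := hMRB
  have hκ : 0 < κ := hθ.trans hθκ
  have hlogn : Tendsto (fun n : ℕ => Real.log (n : ℝ)) atTop atTop :=
    Real.tendsto_log_atTop.comp tendsto_natCast_atTop_atTop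
  have hpow : ∀ s : ℝ, 0 < s → Tendsto (fun n : ℕ => (n : ℝ) ^ s) atTop atTop := fun s hs =>
    (tendsto_rpow_atTop hs).comp tendsto_natCast_atTop_atTop
  have e1 : ∀ᶠ n : ℕ in atTop, Real.log (κ * Real.log n / (θ * Real.log n - Real.log 2)) +
      C / (θ * Real.log n - Real.log 2) < Real.log (κ / θ) + ε / 2 :=
    ((tend_log θ κ C hθ hκ).comp hlogn).eventually (eventually_lt_nhds (by linarith))
  have e2 : ∀ᶠ n : ℕ in atTop, (Nat.primeCounting ⌊(n : ℝ) ^ κ⌋₊ : ℝ) ≤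
      (Real.log 4 + 1) * (n : ℝ) ^ κ / Real.log ((n : ℝ) ^ κ) :=
    (hpow κ hκ).eventually (Chebyshev.eventually_primeCounting_le one_pos)
  have e3 : ∀ᶠ n : ℕ in atTop, (2 : ℝ) ≤ (n : ℝ) ^ θ := (hpow θ hθ).eventually_ge_atTop 2
  have e4 : ∀ᶠ n : ℕ in atTop, 2 * (Real.log 4 + 1) / (κ * (ε * c)) ≤ Real.log n :=
    hlogn.eventually_ge_atTop _
  have e5 : ∀ᶠ n : ℕ in atTop, (Real.log 2 + 1) / θ ≤ Real.log n := hlogn.eventually_ge_atTop _
  filter_upwards [e1, e2, e3, e4, e5, eventually_ge_atTop 2] with n h1 h2 h3 h4 h5 hn2 x h hx hch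
  have hn1 : (1 : ℝ) ≤ n := by exact_mod_cast (by omega : 1 ≤ n)
  have hn0 : (0 : ℝ) < n := by linarith
  have hL0 : 0 < Real.log n := Real.log_pos (by exact_mod_cast (by omega : 1 < n))
  have hh0 : (0 : ℝ) ≤ h := Nat.cast_nonneg h
  refine (card_big n θ κ x h hx).trans ?_
  set a := ⌊(n : ℝ) ^ θ⌋₊ with ha
  set b := ⌊(n : ℝ) ^ κ⌋₊ with hb
  have ha2 : 2 ≤ a := Nat.le_floor (by exact_mod_cast h3)
  have hab : a ≤ b := Nat.floor_mono (Real.rpow_le_rpow_of_exponent_le hn1 hθκ.le)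
  have hS := hC a b ha2 hab
  -- lower bound for log a
  have hθL : Real.log 2 + 1 ≤ θ * Real.log n := by
    rw [div_le_iff₀ hθ] at h5
    linarith
  have hda : 0 < θ * Real.log n - Real.log 2 := by linarith
  have haθ : (n : ℝ) ^ θ / 2 ≤ a := by
    have h6 : (n : ℝ) ^ θ < a + 1 := by
      rw [ha]
      exact Nat.lt_floor_add_one _
    have h7 : (2 : ℝ) ≤ a := by exact_mod_cast ha2
    linarith
  have hlogθ : Real.log ((n : ℝ) ^ θ / 2) = θ * Real.log n - Real.log 2 := by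
    rw [Real.log_div (by positivity) (by norm_num), Real.log_rpow hn0]
  have hla : θ * Real.log n - Real.log 2 ≤ Real.log a := by
    rw [← hlogθ]
    exact Real.log_le_log (by positivity) haθ
  have hla0 : 0 < Real.log a := hda.trans_le hla
  have hb0 : (0 : ℝ) < b := by exact_mod_cast (by omega : 0 < b)
  have hb2 : (2 : ℝ) ≤ b := by exact_mod_cast (by omega : 2 ≤ b)
  have hlb : Real.log b ≤ κ * Real.log n := by
    rw [← Real.log_rpow hn0]
    apply Real.log_le_log hb0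
    rw [hb]
    exact Nat.floor_le (by positivity)
  have hlb0 : 0 < Real.log b := Real.log_pos (by linarith)
  have hS2 : ∑ p ∈ (Ioc a b).filter Nat.Prime, 1 / (p : ℝ) ≤ Real.log (κ / θ) + ε / 2 := by
    have h6 : Real.log (Real.log b / Real.log a) ≤
        Real.log (κ * Real.log n / (θ * Real.log n - Real.log 2)) := by
      apply Real.log_le_log (by positivity)
      exact div_le_div₀ (by positivity) hlb hda hla
    have h7 : C / Real.log a ≤ C / (θ * Real.log n - Real.log 2) :=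
      div_le_div_of_nonneg_left hC0 hda hla
    linarith
  -- the prime counting part
  have hP : (Nat.primeCounting b : ℝ) ≤ ε / 2 * h := by
    have h6 : (Real.log 4 + 1) * (n : ℝ) ^ κ / Real.log ((n : ℝ) ^ κ) ≤
        ε / 2 * (c * (n : ℝ) ^ κ) := by
      rw [Real.log_rpow hn0, div_le_iff₀ (by positivity)]
      rw [div_le_iff₀ (by positivity)] at h4
      have h7 : 0 ≤ (n : ℝ) ^ κ := by positivity
      nlinarith [mul_le_mul_of_nonneg_right h4 h7]
    have h8 : ε / 2 * (c * (n : ℝ) ^ κ) ≤ ε / 2 * h :=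
      mul_le_mul_of_nonneg_left hch (by positivity)
    exact (h2.trans h6).trans h8
  have h9 := mul_le_mul_of_nonneg_left hS2 hh0
  calc (h : ℝ) * (∑ p ∈ (Ioc a b).filter Nat.Prime, 1 / (p : ℝ)) + (Nat.primeCounting b : ℝ)
      ≤ h * (Real.log (κ / θ) + ε / 2) + ε / 2 * h := by linarith
    _ = (Real.log (κ / θ) + ε) * h := by ring

end Pool.Agent.Lib.MP_1446ad_nt.SM
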