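import Pool.Agent.Lib.MP_1446ad_nt.SM.SpecF

set_option autoImplicit false

namespace Pool.Agent.Lib.MP_1446ad_nt.SM

namespace PIGM

open Finset Filter

theorem count (x : ℝ) (hx : 1 ≤ x) :
    Chebyshev.theta (4 * x) - Chebyshev.theta (x + 1) ≤
      (((Ioc ⌊x + 1⌋₊ ⌊4 * x⌋₊).filter Nat.Prime).card : ℝ) * Real.log (4 * x) := by
  unfold Chebyshev.theta
  have hle : ⌊x + 1⌋₊ ≤ ⌊4 * x⌋₊ := Nat.floor_mono (by linarith)
  rw [sum_filter, sum_filter, ← sum_Ioc_consecutive _ (Nat.zero_le _) hle, add_sub_cancel_left,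
    ← sum_filter]
  calc ∑ p ∈ (Ioc ⌊x + 1⌋₊ ⌊4 * x⌋₊).filter Nat.Prime, Real.log (p : ℝ)
      ≤ ∑ _p ∈ (Ioc ⌊x + 1⌋₊ ⌊4 * x⌋₊).filter Nat.Prime, Real.log (4 * x) := by
        apply sum_le_sum
        intro p hp
        rw [mem_filter, mem_Ioc] at hp
        have h1 : (p : ℝ) ≤ 4 * x := by
          have := hp.1.2
          exact (Nat.le_floor_iff (by linarith)).1 this
        exact Real.log_le_log (by exact_mod_cast hp.2.pos) h1
    _ = _ := by rw [sum_const, nsmul_eq_mul]

theorem big : ∃ x0 : ℝ, ∀ x : ℝ, x0 ≤ x →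
    x ≤ Chebyshev.theta (4 * x) - Chebyshev.theta (x + 1) := by
  have h := isLittleO_log_rpow_atTop (r := (1 / 2 : ℝ)) (by norm_num)
  have h2 := h.bound (show (0 : ℝ) < 1 / 100 by norm_num)
  rw [eventually_atTop] at h2
  obtain ⟨y0, hy0⟩ := h2
  refine ⟨max y0 100, fun x hx => ?_⟩
  have hx1 : y0 ≤ x := le_trans (le_max_left _ _) hx
  have hx2 : 100 ≤ x := le_trans (le_max_right _ _) hx
  have ha : Real.log (4 * x) ≤ 1 / 100 * √(4 * x) := by
    have := hy0 (4 * x) (by linarith)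
    rw [Real.norm_of_nonneg (Real.log_nonneg (by linarith)),
      Real.norm_of_nonneg (Real.rpow_nonneg (by linarith) _), ← Real.sqrt_eq_rpow] at this
    exact this
  have hb : Real.log (4 * x + 2) ≤ 1 / 100 * (4 * x + 2) := by
    have := hy0 (4 * x + 2) (by linarith)
    rw [Real.norm_of_nonneg (Real.log_nonneg (by linarith)),
      Real.norm_of_nonneg (Real.rpow_nonneg (by linarith) _), ← Real.sqrt_eq_rpow] at this
    have h3 : √(4 * x + 2) ≤ 4 * x + 2 := by
      rw [Real.sqrt_le_left (by linarith)]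
      nlinarith
    linarith
  have hc : 2 * √(4 * x) * Real.log (4 * x) ≤ 2 / 100 * (4 * x) := by
    have h3 : 0 ≤ √(4 * x) := Real.sqrt_nonneg _
    have h4 : √(4 * x) * √(4 * x) = 4 * x := Real.mul_self_sqrt (by linarith)
    nlinarith
  have h1 := Chebyshev.theta_ge' (x := 4 * x) (by linarith)
  have h2 := Chebyshev.theta_le_log4_mul_x (x := x + 1) (by linarith)
  have h4 : Real.log 4 = 2 * Real.log 2 := by
    rw [show (4 : ℝ) = 2 ^ 2 by norm_num, Real.log_pow]; norm_num
  rw [h4] at h2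
  have hl1 := Real.log_two_gt_d9
  have hl2 := Real.log_two_lt_d9
  nlinarith

end PIGM

open PIGM Finset in
theorem specPIG : SpecPIG := by
  intro ν hν hν1
  obtain ⟨x0, hx0⟩ := big
  set q : ℝ := 1 + ν / 2 with hq
  have hq1 : 1 < q := by rw [hq]; linarith
  obtain ⟨J, hJ⟩ := pow_unbounded_of_one_lt (4 : ℝ) hq1
  have hJ0 : 0 < J := by
    rcases Nat.eq_zero_or_pos J with rfl | h
    · rw [pow_zero] at hJ; linarith
    · exact h
  refine ⟨1 / (2 * J), max x0 (max (2 / ν) 4), by positivity, fun x hx => ?_⟩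
  have hxa : x0 ≤ x := le_trans (le_max_left _ _) hx
  have hxb : 2 / ν ≤ x := le_trans (le_trans (le_max_left _ _) (le_max_right _ _)) hx
  have hxc : 4 ≤ x := le_trans (le_trans (le_max_right _ _) (le_max_right _ _)) hx
  have hxb' : 1 ≤ x * (ν / 2) := by
    rw [div_le_iff₀ hν] at hxb; linarith
  have hx0' : 0 < x := by linarith
  -- the set of primes
  set P := (Ioc ⌊x + 1⌋₊ ⌊4 * x⌋₊).filter Nat.Prime with hP
  have hcard : x ≤ (P.card : ℝ) * Real.log (4 * x) := (hx0 x hxa).trans (count x (by linarith))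
  let X : ℕ → ℕ := fun i => ⌈x * q ^ i⌉₊
  let Wn : ℕ → Finset ℕ := fun i =>
    (Ioc (X i) (2 * X i)).filter (fun p : ℕ => p.Prime ∧ (p : ℝ) ≤ (1 + ν) * X i)
  let I : Finset ℕ := (range J).filter (fun i => q ^ i < 4)
  have hcov : P ⊆ I.biUnion Wn := by
    intro p hp
    rw [hP, mem_filter, mem_Ioc] at hp
    obtain ⟨⟨hp1, hp2⟩, hpp⟩ := hp
    have hp1' : x + 1 < p := (Nat.floor_lt (by linarith)).1 hp1
    have hp2' : (p : ℝ) ≤ 4 * x := (Nat.le_floor_iff (by linarith)).1 hp2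
    -- the least `i` with `p ≤ x q^(i+1) + 1`
    have hex : ∃ i : ℕ, (p : ℝ) ≤ x * q ^ i + 1 := ⟨J, by nlinarith⟩
    classical
    let k := Nat.find hex
    have hk : (p : ℝ) ≤ x * q ^ k + 1 := Nat.find_spec hex
    have hk0 : k ≠ 0 := by
      intro h0
      rw [h0, pow_zero, mul_one] at hk
      linarith
    obtain ⟨i, hi⟩ := Nat.exists_eq_succ_of_ne_zero hk0
    have hi1 : x * q ^ i + 1 < p := by
      have := Nat.find_min hex (m := i) (by show i < k; omega)
      exact not_le.1 this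
    rw [hi, Nat.succ_eq_add_one, pow_succ] at hk
    have hqi : q ^ i < 4 := by
      by_contra hcon
      rw [not_lt] at hcon
      nlinarith
    have hiJ : i < J := by
      by_contra hcon
      rw [not_lt] at hcon
      have := pow_le_pow_right₀ hq1.le hcon
      linarith
    have hqi0 : 1 ≤ q ^ i := one_le_pow₀ hq1.le
    have hX1 : x * q ^ i ≤ X i := Nat.le_ceil _
    have hX2 : (X i : ℝ) < x * q ^ i + 1 := Nat.ceil_lt_add_one (by positivity)
    have hpX : (p : ℝ) ≤ (1 + ν) * X i := by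
      have h1 : (1 + ν) * (x * q ^ i) ≤ (1 + ν) * X i :=
        mul_le_mul_of_nonneg_left hX1 (by linarith)
      have h2 : x * (q ^ i * q) + 1 ≤ (1 + ν) * (x * q ^ i) := by
        rw [hq]
        rw [hq] at hqi0
        nlinarith
      linarith
    rw [mem_biUnion]
    refine ⟨i, ?_, ?_⟩
    · rw [mem_filter, mem_range]; exact ⟨hiJ, hqi⟩
    · rw [mem_filter, mem_Ioc]
      refine ⟨⟨?_, ?_⟩, hpp, hpX⟩
      · have : (X i : ℝ) < p := by linarith
        exact_mod_cast this
      · have h3 : (p : ℝ) ≤ 2 * X i := by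
          refine hpX.trans ?_
          apply mul_le_mul_of_nonneg_right _ (Nat.cast_nonneg _)
          linarith
        exact_mod_cast h3
  have hsum : (P.card : ℝ) ≤ ∑ i ∈ I, ((Wn i).card : ℝ) := by
    have h1 := (card_le_card hcov).trans card_biUnion_le
    exact_mod_cast h1
  have hlog4 : 0 < Real.log (4 * x) := Real.log_pos (by linarith)
  have hlogx : 0 < Real.log x := Real.log_pos (by linarith)
  have hlog : Real.log (4 * x) ≤ 2 * Real.log x := by
    rw [Real.log_mul (by norm_num) hx0'.ne']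
    have := Real.log_le_log (by norm_num) hxc
    linarith
  have hI : I.card ≤ J := by
    have := card_filter_le (range J) (fun i => q ^ i < 4)
    rwa [card_range] at this
  -- pigeonhole
  obtain ⟨i, hiI, hi⟩ : ∃ i ∈ I, 1 / (2 * (J : ℝ)) * x / Real.log x ≤ ((Wn i).card : ℝ) := by
    by_contra hcon
    push Not at hcon
    have hJR : (0 : ℝ) < J := by exact_mod_cast hJ0
    have h0I : 0 ∈ I := by
      rw [mem_filter, mem_range, pow_zero]
      exact ⟨hJ0, by norm_num⟩
    have h1 : ∑ i ∈ I, ((Wn i).card : ℝ) < ∑ i ∈ I, 1 / (2 * (J : ℝ)) * x / Real.log x :=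
      sum_lt_sum_of_nonempty ⟨0, h0I⟩ hcon
    rw [sum_const, nsmul_eq_mul] at h1
    have h2 : (I.card : ℝ) * (1 / (2 * (J : ℝ)) * x / Real.log x) ≤
        (J : ℝ) * (1 / (2 * (J : ℝ)) * x / Real.log x) := by
      apply mul_le_mul_of_nonneg_right (by exact_mod_cast hI) (by positivity)
    have h3 : (J : ℝ) * (1 / (2 * (J : ℝ)) * x / Real.log x) = x / (2 * Real.log x) := by
      field_simp
    have h4 : (P.card : ℝ) < x / (2 * Real.log x) := by linarith
    rw [lt_div_iff₀ (by linarith)] at h4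
    have h5 : (P.card : ℝ) * Real.log (4 * x) ≤ (P.card : ℝ) * (2 * Real.log x) :=
      mul_le_mul_of_nonneg_left hlog (Nat.cast_nonneg _)
    linarith
  have hiI' : q ^ i < 4 := by
    have := (mem_filter.1 hiI).2
    exact this
  refine ⟨X i, ?_, ?_, hi⟩
  · have h1 : x * q ^ i ≤ X i := Nat.le_ceil _
    have h2 : 1 ≤ q ^ i := one_le_pow₀ hq1.le
    nlinarith
  · have h2 : (X i : ℝ) < x * q ^ i + 1 := Nat.ceil_lt_add_one (by positivity)
    nlinarith

end Pool.Agent.Lib.MP_1446ad_nt.SM
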