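import Pool.Agent.Lib.MP_1446ad_nt.SM.SpecK

set_option autoImplicit false

namespace Pool.Agent.Lib.MP_1446ad_nt.SM.AVGM

open Finset

theorem harm (X : ℕ) : ∑ d ∈ Ioc 0 X, 1 / (d : ℝ) ≤ 1 + Real.log X := by
  have h := harmonic_le_one_add_log X
  have e : ((harmonic X : ℚ) : ℝ) = ∑ d ∈ Ioc 0 X, 1 / (d : ℝ) := by
    rw [harmonic_eq_sum_Icc]
    push_cast
    have : Finset.Icc 1 X = Ioc 0 X := by
      ext x; simp [Finset.mem_Icc, Finset.mem_Ioc]; omega
    rw [this]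
    apply Finset.sum_congr rfl
    intro x _
    rw [one_div]
  rw [← e]
  exact h

theorem cnt (X m : ℕ) (w : ℝ) (hm : 0 < m) (hw : 0 ≤ w) :
    ∑ P ∈ Ioc 0 X, (if m ∣ P then w else 0) ≤ X / m * w := by
  rw [← Finset.sum_filter, Finset.sum_const, Nat.Ioc_filter_dvd_card_eq_div, nsmul_eq_mul]
  apply mul_le_mul_of_nonneg_right _ hw
  exact Nat.cast_div_le

/-- the summand over the triples -/
noncomputable def tr (P d b g : ℕ) : ℝ :=
  if d ^ 2 * b * g ∣ P then (d : ℝ) * √(b : ℝ) * √(g : ℝ) else 0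

theorem tr_nonneg (P d b g : ℕ) : 0 ≤ tr P d b g := by
  unfold tr
  split_ifs
  · positivity
  · exact le_rfl

/-- all the triples -/
noncomputable def TS (X c P : ℕ) : ℝ :=
  ∑ d ∈ Ioc 0 X, ∑ b ∈ d.divisors, ∑ g ∈ c.divisors, tr P d b g

theorem le_TS (X c P d b g : ℕ) (hd0 : 0 < d) (hdX : d ≤ X) (hb : b ∣ d) (hg : g ∣ c) (hc : c ≠ 0)
    (h : d ^ 2 * b * g ∣ P) : (d : ℝ) * √(b : ℝ) * √(g : ℝ) ≤ TS X c P := by
  unfold TS
  have h1 : (d : ℝ) * √(b : ℝ) * √(g : ℝ) = tr P d b g := by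
    unfold tr; rw [if_pos h]
  rw [h1]
  calc tr P d b g ≤ ∑ g ∈ c.divisors, tr P d b g :=
        Finset.single_le_sum (f := fun g => tr P d b g) (fun g _ => tr_nonneg P d b g)
          (Nat.mem_divisors.2 ⟨hg, hc⟩)
    _ ≤ ∑ b ∈ d.divisors, ∑ g ∈ c.divisors, tr P d b g :=
        Finset.single_le_sum (f := fun b => ∑ g ∈ c.divisors, tr P d b g)
          (fun b _ => Finset.sum_nonneg fun g _ => tr_nonneg P d b g)
          (Nat.mem_divisors.2 ⟨hb, hd0.ne'⟩)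
    _ ≤ _ :=
        Finset.single_le_sum (f := fun d => ∑ b ∈ d.divisors, ∑ g ∈ c.divisors, tr P d b g)
          (fun d _ => Finset.sum_nonneg fun b _ => Finset.sum_nonneg fun g _ => tr_nonneg P d b g)
          (Finset.mem_Ioc.2 ⟨hd0, hdX⟩)

theorem sum_tr (X d b g : ℕ) (hd : 0 < d) (hb : 0 < b) (hg : 0 < g) :
    ∑ P ∈ Ioc 0 X, tr P d b g ≤ X * (1 / (d : ℝ)) := by
  unfold tr
  have h1 := cnt X (d ^ 2 * b * g) ((d : ℝ) * √(b : ℝ) * √(g : ℝ)) (by positivity) (by positivity)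
  refine h1.trans ?_
  have hd' : (1 : ℝ) ≤ d := by exact_mod_cast hd
  have hb' : (1 : ℝ) ≤ b := by exact_mod_cast hb
  have hg' : (1 : ℝ) ≤ g := by exact_mod_cast hg
  have sb : √(b : ℝ) ≤ b := by
    rw [Real.sqrt_le_left (by positivity)]; nlinarith
  have sg : √(g : ℝ) ≤ g := by
    rw [Real.sqrt_le_left (by positivity)]; nlinarith
  push_cast
  have h2 : (d : ℝ) * √(b : ℝ) * √(g : ℝ) ≤ d * b * g :=
    mul_le_mul (mul_le_mul_of_nonneg_left sb (by positivity)) sg (by positivity) (by positivity)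
  calc (X : ℝ) / ((d : ℝ) ^ 2 * b * g) * ((d : ℝ) * √(b : ℝ) * √(g : ℝ))
      ≤ (X : ℝ) / ((d : ℝ) ^ 2 * b * g) * (d * b * g) :=
        mul_le_mul_of_nonneg_left h2 (by positivity)
    _ = X * (1 / (d : ℝ)) := by
        field_simp

theorem sum_TS (T : ℝ) (X c : ℕ) (hX : 1 ≤ X) (hc : c ≠ 0)
    (hT : ∀ m : ℕ, 0 < m → m ≤ X → tau m ≤ T ∧ 1 + Real.log m ≤ T) (hTc : tau c ≤ T) :
    ∑ P ∈ Ioc 0 X, TS X c P ≤ X * T ^ 3 := by
  have hT1 : 1 ≤ T := by
    have := (hT 1 one_pos hX).1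
    unfold tau at this
    simpa using this
  unfold TS
  rw [Finset.sum_comm]
  have h1 : ∀ d ∈ Ioc 0 X, ∑ P ∈ Ioc 0 X, ∑ b ∈ d.divisors, ∑ g ∈ c.divisors, tr P d b g
      ≤ (X * T ^ 2) * (1 / (d : ℝ)) := by
    intro d hd
    obtain ⟨hd0, hdX⟩ := Finset.mem_Ioc.1 hd
    rw [Finset.sum_comm]
    have h2 : ∀ b ∈ d.divisors, ∑ P ∈ Ioc 0 X, ∑ g ∈ c.divisors, tr P d b g
        ≤ T * (X * (1 / (d : ℝ))) := by
      intro b hb
      have hb0 := Nat.pos_of_mem_divisors hb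
      rw [Finset.sum_comm]
      have h3 : ∀ g ∈ c.divisors, ∑ P ∈ Ioc 0 X, tr P d b g ≤ X * (1 / (d : ℝ)) :=
        fun g hg => sum_tr X d b g hd0 hb0 (Nat.pos_of_mem_divisors hg)
      refine (Finset.sum_le_card_nsmul _ _ _ h3).trans ?_
      rw [nsmul_eq_mul]
      exact mul_le_mul_of_nonneg_right hTc (by positivity)
    refine (Finset.sum_le_card_nsmul _ _ _ h2).trans ?_
    rw [nsmul_eq_mul]
    have h4 : (d.divisors.card : ℝ) ≤ T := (hT d hd0 hdX).1
    calc (d.divisors.card : ℝ) * (T * (X * (1 / (d : ℝ))))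
        ≤ T * (T * (X * (1 / (d : ℝ)))) := mul_le_mul_of_nonneg_right h4 (by positivity)
      _ = _ := by ring
  refine (Finset.sum_le_sum h1).trans ?_
  rw [← Finset.mul_sum]
  have h5 : ∑ d ∈ Ioc 0 X, 1 / (d : ℝ) ≤ T := (harm X).trans (hT X hX le_rfl).2
  calc (X * T ^ 2) * ∑ d ∈ Ioc 0 X, 1 / (d : ℝ) ≤ (X * T ^ 2) * T :=
        mul_le_mul_of_nonneg_left h5 (by positivity)
    _ = _ := by ring

end AVGM

open AVGM Finset in
theorem specAVG (hDEC : SpecDEC) : SpecAVG := by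
  intro T X c hX hc hT hTc
  have hT1 : 1 ≤ T := by
    have := (hT 1 one_pos hX).1
    unfold tau at this
    simpa using this
  have hcn : c.natAbs ≠ 0 := Int.natAbs_ne_zero.2 hc
  have key : ∀ P ∈ Ioc 0 X, er P c ≤ (2 * T ^ 4 * √(X : ℝ)) * TS X c.natAbs P := by
    intro P hP
    obtain ⟨hP0, hPX⟩ := Finset.mem_Ioc.1 hP
    obtain ⟨e1, e2, e3, d, b, e4, e5⟩ := hDEC P hP0
    have hv0 : 0 < vv P := by
      rcases Nat.eq_zero_or_pos (vv P) with h | h
      · rw [h, mul_zero] at e1; omega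
      · exact h
    have hu0 : 0 < uu P := by
      rcases Nat.eq_zero_or_pos (uu P) with h | h
      · rw [h, zero_mul] at e1; omega
      · exact h
    have hd0 : 0 < d := by
      rcases Nat.eq_zero_or_pos d with h | h
      · rw [h] at e4; simp at e4; omega
      · exact h
    have hb0 : 0 < b := Nat.pos_of_dvd_of_pos e5 hd0
    have hvP : vv P ≤ P := by
      calc vv P = 1 * vv P := (one_mul _).symm
        _ ≤ uu P * vv P := Nat.mul_le_mul_right _ hu0
        _ = P := e1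
    have hdX : d ≤ X := by
      have h1 : d ≤ d ^ 2 * b := by nlinarith
      omega
    set g := Int.gcd c (uu P) with hg
    have hgu : g ∣ uu P := by
      have := Int.gcd_dvd_right (a := c) (b := (uu P : ℤ))
      exact_mod_cast this
    have hgc : g ∣ c.natAbs := by
      rw [hg, Int.gcd_eq_natAbs]
      exact Nat.gcd_dvd_left _ _
    have hdvd : d ^ 2 * b * g ∣ P := by
      rw [← e4, mul_comm]
      calc g * vv P ∣ uu P * vv P := Nat.mul_dvd_mul_right hgu _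
        _ = P := e1
    have h1 := le_TS X c.natAbs P d b g hd0 hdX e5 hgc hcn hdvd
    have hvs : √(vv P : ℝ) = d * √(b : ℝ) := by
      rw [e4]
      push_cast
      rw [Real.sqrt_mul (by positivity), Real.sqrt_sq (by positivity)]
    have hsq : √(uu P : ℝ) * (vv P : ℝ) = √(P : ℝ) * √(vv P : ℝ) := by
      have h2 : (P : ℝ) = (uu P : ℝ) * (vv P : ℝ) := by exact_mod_cast e1.symm
      rw [h2, Real.sqrt_mul (by positivity), mul_assoc, Real.mul_self_sqrt (by positivity)]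
    have hPs : √(P : ℝ) ≤ √(X : ℝ) := Real.sqrt_le_sqrt (by exact_mod_cast hPX)
    obtain ⟨t1, t2⟩ := hT P hP0 hPX
    have t0 : 0 ≤ tau P := by unfold tau; positivity
    have l0 : 0 ≤ 1 + Real.log (P : ℝ) := by
      have : 0 ≤ Real.log (P : ℝ) := Real.log_natCast_nonneg P
      linarith
    unfold er
    rw [← hg]
    calc 2 * tau P ^ 2 * (1 + Real.log P) ^ 2 * √(uu P : ℝ) * (vv P : ℝ) * √(g : ℝ)
        = (2 * (tau P ^ 2 * (1 + Real.log P) ^ 2)) * ((√(uu P : ℝ) * (vv P : ℝ)) * √(g : ℝ)) := by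
          ring
      _ = (2 * (tau P ^ 2 * (1 + Real.log P) ^ 2)) * (√(P : ℝ) * (d * √(b : ℝ) * √(g : ℝ))) := by
          rw [hsq, hvs]; ring
      _ ≤ (2 * (T ^ 2 * T ^ 2)) * (√(X : ℝ) * TS X c.natAbs P) := by
          apply mul_le_mul
          · apply mul_le_mul_of_nonneg_left _ (by norm_num)
            exact mul_le_mul (pow_le_pow_left₀ t0 t1 2) (pow_le_pow_left₀ l0 t2 2) (by positivity)
              (by positivity)
          · exact mul_le_mul hPs h1 (by positivity) (by positivity)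
          · positivity
          · positivity
      _ = _ := by ring
  refine (Finset.sum_le_sum key).trans ?_
  rw [← Finset.mul_sum]
  have h2 := sum_TS T X c.natAbs hX hcn hT hTc
  calc (2 * T ^ 4 * √(X : ℝ)) * ∑ P ∈ Ioc 0 X, TS X c.natAbs P
      ≤ (2 * T ^ 4 * √(X : ℝ)) * (X * T ^ 3) := mul_le_mul_of_nonneg_left h2 (by positivity)
    _ = _ := by ring

end Pool.Agent.Lib.MP_1446ad_nt.SM
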