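import Pool.Agent.Lib.MP_1446ad_nt.SM.SpecD

/-!
# MP_1446ad_nt, part D: the trivial bound for the off-diagonal part (module BIG)
-/

set_option autoImplicit false

namespace Pool.Agent.Lib.MP_1446ad_nt.SM

open Finset
open scoped Classical

namespace BIGM

/-- The sum over `P` of the numbers of `Q`. -/
theorem sum_cnt_le {T : ℝ} {S S' B0 lo hi b M : ℕ}
    (hS2 : S' ≤ 2 * S) (hM : 0 < M)
    (hT : ∀ m : ℕ, 0 < m → m ≤ 8 * B0 * S → tau m ≤ T)
    (hb : ∀ Q ∈ Ioc S S', b * Q + M ≤ 8 * B0 * S) (hT0 : 0 ≤ T) :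
    ∑ P ∈ Ioc lo hi, (((Ioc S S').filter (fun Q => P ∣ b * Q + M)).card : ℝ) ≤ S * T := by
  have h1 : ∀ P ∈ Ioc lo hi, (((Ioc S S').filter (fun Q => P ∣ b * Q + M)).card : ℝ) =
      ∑ Q ∈ Ioc S S', if P ∣ b * Q + M then (1 : ℝ) else 0 := by
    intro P _
    rw [card_filter]
    push_cast
    rfl
  rw [sum_congr rfl h1, sum_comm]
  have h2 : ∀ Q ∈ Ioc S S', (∑ P ∈ Ioc lo hi, if P ∣ b * Q + M then (1 : ℝ) else 0) ≤ T := by
    intro Q hQ
    have h3 : (∑ P ∈ Ioc lo hi, if P ∣ b * Q + M then (1 : ℝ) else 0) =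
        (((Ioc lo hi).filter (fun P => P ∣ b * Q + M)).card : ℝ) := by
      rw [card_filter]
      push_cast
      rfl
    rw [h3]
    have h4 : ((Ioc lo hi).filter (fun P => P ∣ b * Q + M)) ⊆ (b * Q + M).divisors := by
      intro P hP
      rw [mem_filter] at hP
      rw [Nat.mem_divisors]
      exact ⟨hP.2, by omega⟩
    have h5 : (((Ioc lo hi).filter (fun P => P ∣ b * Q + M)).card : ℝ) ≤ tau (b * Q + M) := by
      unfold tau
      exact_mod_cast card_le_card h4
    exact h5.trans (hT _ (by omega) (hb Q hQ))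
  have h6 := sum_le_sum h2
  refine h6.trans ?_
  rw [sum_const, Nat.card_Ioc, nsmul_eq_mul]
  have h7 : ((S' - S : ℕ) : ℝ) ≤ S := by
    have : S' - S ≤ S := by omega
    exact_mod_cast this
  exact mul_le_mul_of_nonneg_right h7 hT0

/-- The number of `t`. -/
theorem card_t {B0 Dl hi : ℕ} (hB : 0 < B0) :
    (((Icc 1 hi).filter (fun t => t * B0 < Dl)).card : ℝ) ≤ (Dl : ℝ) / B0 := by
  have h1 : ((Icc 1 hi).filter (fun t => t * B0 < Dl)) ⊆ Icc 1 (Dl / B0) := by
    intro t ht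
    rw [mem_filter, mem_Icc] at ht
    rw [mem_Icc]
    refine ⟨ht.1.1, ?_⟩
    rw [Nat.le_div_iff_mul_le hB]
    omega
  have h2 := card_le_card h1
  rw [Nat.card_Icc] at h2
  have h3 : (((Icc 1 hi).filter (fun t => t * B0 < Dl)).card : ℝ) ≤ ((Dl / B0 : ℕ) : ℝ) :=
    Nat.cast_le.mpr (by simpa using h2)
  exact h3.trans Nat.cast_div_le

/-- The number of `b`. -/
theorem card_b {B0 e : ℕ} (he : 0 < e) :
    (((Ioc 0 (2 * B0)).filter (fun b => B0 < e * b ∧ e * b ≤ 2 * B0)).card : ℝ) ≤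
      3 * (B0 : ℝ) / e := by
  have he' : (0 : ℝ) < e := by exact_mod_cast he
  by_cases hbig : 2 * B0 < e
  · have h0 : ((Ioc 0 (2 * B0)).filter (fun b => B0 < e * b ∧ e * b ≤ 2 * B0)) = ∅ := by
      rw [filter_eq_empty_iff]
      intro b hb h
      rw [mem_Ioc] at hb
      have h1 : e * 1 ≤ e * b := Nat.mul_le_mul_left _ hb.1
      omega
    rw [h0, card_empty]
    push_cast
    positivity
  · have h1 : ((Ioc 0 (2 * B0)).filter (fun b => B0 < e * b ∧ e * b ≤ 2 * B0)) ⊆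
        Ioc (B0 / e) (2 * B0 / e) := by
      intro b hb
      rw [mem_filter] at hb
      rw [mem_Ioc]
      refine ⟨?_, ?_⟩
      · rw [Nat.div_lt_iff_lt_mul he, mul_comm]
        exact hb.2.1
      · rw [Nat.le_div_iff_mul_le he, mul_comm]
        exact hb.2.2
    have h2 := card_le_card h1
    rw [Nat.card_Ioc] at h2
    have h3 : ((2 * B0 / e : ℕ) : ℝ) ≤ 2 * (B0 : ℝ) / e := by
      have := @Nat.cast_div_le ℝ _ _ _ (2 * B0) e
      push_cast at this
      exact this
    have h4 : (B0 : ℝ) / e - 1 < ((B0 / e : ℕ) : ℝ) := by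
      have h5 : B0 < (B0 / e + 1) * e := by
        rw [add_mul, one_mul]
        have h6 := Nat.div_add_mod B0 e
        have h7 := Nat.mod_lt B0 he
        have h8 : e * (B0 / e) = B0 / e * e := mul_comm _ _
        omega
      have h6 : (B0 : ℝ) < (((B0 / e : ℕ) : ℝ) + 1) * e := by exact_mod_cast h5
      rw [sub_lt_iff_lt_add, div_lt_iff₀ he']
      exact h6
    have h5 : B0 / e ≤ 2 * B0 / e := Nat.div_le_div_right (by omega)
    have h6 : (((2 * B0 / e - B0 / e : ℕ)) : ℝ) = ((2 * B0 / e : ℕ) : ℝ) - ((B0 / e : ℕ) : ℝ) := by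
      rw [Nat.cast_sub h5]
    have h7 : (((Ioc 0 (2 * B0)).filter (fun b => B0 < e * b ∧ e * b ≤ 2 * B0)).card : ℝ) ≤
        ((2 * B0 / e : ℕ) : ℝ) - ((B0 / e : ℕ) : ℝ) := by
      rw [← h6]
      exact_mod_cast h2
    have h8 : (1 : ℝ) ≤ 2 * (B0 : ℝ) / e := by
      rw [le_div_iff₀ he', one_mul]
      have : e ≤ 2 * B0 := by omega
      exact_mod_cast this
    have h9 : 3 * (B0 : ℝ) / e = 2 * (B0 : ℝ) / e + (B0 : ℝ) / e := by ring
    have h10 : 2 * (B0 : ℝ) / e = 2 * ((B0 : ℝ) / e) := by ring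
    rw [h10] at h3 h8 h9
    linarith

end BIGM

open BIGM in
theorem specBIG (hGGB : SpecGGB) : SpecBIG := by
  intro T Y Y0 S S' B0 I N lo hi Dl e M hH hI heM
  have hS0 := hH.S0
  have hB0 := hH.B00
  have hN0 := hH.N0
  have he : 0 < e := by
    rcases Nat.eq_zero_or_pos e with h | h
    · rw [h, zero_mul] at heM
      omega
    · exact h
  have hM : 0 < M := by
    rcases Nat.eq_zero_or_pos M with h | h
    · rw [h, mul_zero] at heM
      omega
    · exact h
  have hBS : 1 ≤ 8 * B0 * S := Nat.mul_pos (by omega) hS0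
  have hT1 : 1 ≤ T := by
    have h := (hH.T1 1 (by norm_num) hBS).1
    unfold tau at h
    simpa using h
  have hT0 : 0 ≤ T := by linarith
  have hYB : Y0 ≤ B0 := by
    have h1 : 1 * Y0 ≤ I * Y0 := Nat.mul_le_mul_right _ hH.I1
    have h2 := hH.IYB
    omega
  have hhi : hi ≤ 8 * B0 * S := by
    have h1 := hI.hi4
    have h2 : Y0 * S ≤ B0 * S := Nat.mul_le_mul_right _ hYB
    have h3 : 8 * B0 * S = 8 * (B0 * S) := by ring
    omega
  have hgg : ∀ P : ℕ, lo < P → P ≤ hi → |gg Y S S' P| ≤ 2 * T := by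
    intro P h1 h2
    exact (hGGB T Y Y0 S S' B0 I N hH).2 P (by omega) (by omega)
  have hTm : ∀ m : ℕ, 0 < m → m ≤ 8 * B0 * S → tau m ≤ T := fun m h1 h2 => (hH.T1 m h1 h2).1
  -- bound of the terms
  have hterm : ∀ t ∈ Icc 1 hi, ∀ P ∈ Ioc lo hi, ∀ b ∈ Ioc 0 (2 * B0),
      |(if B0 < e * b ∧ e * b ≤ 2 * B0 ∧ P + t * (e * b) ≤ hi then
        gg Y S S' P * gg Y S S' (P + t * (e * b)) *
        (((Ioc S S').filter (fun Q => P ∣ b * Q + M ∧
          Q + t * (e * ((b * Q + M) / P)) ≤ S')).card : ℝ) else 0)| ≤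
      (if t * B0 < Dl then
        (if B0 < e * b ∧ e * b ≤ 2 * B0 then
          4 * T ^ 2 * (((Ioc S S').filter (fun Q => P ∣ b * Q + M)).card : ℝ) else 0) else 0) := by
    intro t ht P hP b hb
    rw [mem_Icc] at ht
    rw [mem_Ioc] at hP hb
    by_cases hc : B0 < e * b ∧ e * b ≤ 2 * B0 ∧ P + t * (e * b) ≤ hi
    · rw [if_pos hc]
      have h1 : t * B0 < Dl := by
        have h2 : t * B0 < t * (e * b) := (Nat.mul_lt_mul_left (by omega)).mpr hc.1
        have h3 := hI.len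
        omega
      rw [if_pos h1, if_pos ⟨hc.1, hc.2.1⟩]
      rw [abs_mul, abs_mul]
      have h4 : |gg Y S S' P| ≤ 2 * T := hgg P hP.1 hP.2
      have h5 : |gg Y S S' (P + t * (e * b))| ≤ 2 * T := hgg _ (by omega) hc.2.2
      have h6 : |gg Y S S' P| * |gg Y S S' (P + t * (e * b))| ≤ 4 * T ^ 2 := by
        have h7 := mul_le_mul h4 h5 (abs_nonneg _) (by linarith : (0 : ℝ) ≤ 2 * T)
        calc _ ≤ 2 * T * (2 * T) := h7
          _ = 4 * T ^ 2 := by ring
      have h8 : |(((Ioc S S').filter (fun Q => P ∣ b * Q + M ∧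
          Q + t * (e * ((b * Q + M) / P)) ≤ S')).card : ℝ)| ≤
          (((Ioc S S').filter (fun Q => P ∣ b * Q + M)).card : ℝ) := by
        rw [Nat.abs_cast]
        have : ((Ioc S S').filter (fun Q => P ∣ b * Q + M ∧
            Q + t * (e * ((b * Q + M) / P)) ≤ S')) ⊆
            ((Ioc S S').filter (fun Q => P ∣ b * Q + M)) := by
          intro Q hQ
          rw [mem_filter] at hQ ⊢
          exact ⟨hQ.1, hQ.2.1⟩
        exact_mod_cast card_le_card this
      exact mul_le_mul h6 h8 (abs_nonneg _) (by positivity)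
    · rw [if_neg hc, abs_zero]
      split_ifs <;> positivity
  have hsum : |OffE Y S S' B0 lo hi e M| ≤
      ∑ t ∈ Icc 1 hi, ∑ P ∈ Ioc lo hi, ∑ b ∈ Ioc 0 (2 * B0),
        (if t * B0 < Dl then
          (if B0 < e * b ∧ e * b ≤ 2 * B0 then
            4 * T ^ 2 * (((Ioc S S').filter (fun Q => P ∣ b * Q + M)).card : ℝ) else 0)
          else 0) := by
    unfold OffE
    refine (abs_sum_le_sum_abs _ _).trans (sum_le_sum fun t ht => ?_)
    refine (abs_sum_le_sum_abs _ _).trans (sum_le_sum fun P hP => ?_)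
    refine (abs_sum_le_sum_abs _ _).trans (sum_le_sum fun b hb => ?_)
    exact hterm t ht P hP b hb
  have hin : ∀ t ∈ Icc 1 hi, (∑ P ∈ Ioc lo hi, ∑ b ∈ Ioc 0 (2 * B0),
        (if t * B0 < Dl then
          (if B0 < e * b ∧ e * b ≤ 2 * B0 then
            4 * T ^ 2 * (((Ioc S S').filter (fun Q => P ∣ b * Q + M)).card : ℝ) else 0)
          else 0)) ≤
      (if t * B0 < Dl then 4 * T ^ 2 * (3 * (B0 : ℝ) / e * (S * T)) else 0) := by
    intro t ht
    by_cases hc : t * B0 < Dl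
    · simp only [if_pos hc]
      rw [sum_comm]
      have h1 : ∀ b ∈ Ioc 0 (2 * B0), (∑ P ∈ Ioc lo hi,
          (if B0 < e * b ∧ e * b ≤ 2 * B0 then
            4 * T ^ 2 * (((Ioc S S').filter (fun Q => P ∣ b * Q + M)).card : ℝ) else 0)) ≤
          (if B0 < e * b ∧ e * b ≤ 2 * B0 then 4 * T ^ 2 * (S * T) else 0) := by
        intro b hb
        by_cases hb2 : B0 < e * b ∧ e * b ≤ 2 * B0
        · simp only [if_pos hb2]
          rw [← mul_sum]
          refine mul_le_mul_of_nonneg_left ?_ (by positivity)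
          refine sum_cnt_le hH.S2 hM hTm ?_ hT0
          intro Q hQ
          rw [mem_Ioc] at hQ
          have h2 : e * (b * Q + M) ≤ 8 * B0 * S := by
            have h3 : e * (b * Q + M) = (e * b) * Q + N := by rw [← heM]; ring
            have h4 : (e * b) * Q ≤ (2 * B0) * (2 * S) :=
              Nat.mul_le_mul hb2.2 (hQ.2.trans hH.S2)
            have h5 := hH.N4
            have h6 : 8 * B0 * S = (2 * B0) * (2 * S) + 4 * B0 * S := by ring
            omega
          have h3 : 1 * (b * Q + M) ≤ e * (b * Q + M) := Nat.mul_le_mul_right _ he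
          omega
        · simp only [if_neg hb2, sum_const_zero, le_refl]
      refine (sum_le_sum h1).trans ?_
      rw [← sum_filter, sum_const, nsmul_eq_mul]
      have h2 := mul_le_mul_of_nonneg_right (card_b (B0 := B0) he)
        (by positivity : (0 : ℝ) ≤ 4 * T ^ 2 * (S * T))
      refine h2.trans (le_of_eq ?_)
      ring
    · simp only [if_neg hc, sum_const_zero, le_refl]
  refine hsum.trans ((sum_le_sum hin).trans ?_)
  rw [← sum_filter, sum_const, nsmul_eq_mul]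
  have hB' : (0 : ℝ) < B0 := by exact_mod_cast hB0
  have he' : (0 : ℝ) < e := by exact_mod_cast he
  have h1 := mul_le_mul_of_nonneg_right (card_t (Dl := Dl) (hi := hi) hB0)
    (by positivity : (0 : ℝ) ≤ 4 * T ^ 2 * (3 * (B0 : ℝ) / e * (S * T)))
  refine h1.trans (le_of_eq ?_)
  field_simp
  ring

end Pool.Agent.Lib.MP_1446ad_nt.SM
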