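import Pool.Agent.Lib.MP_1446ad_nt.SM.SpecW

/-!
# BND: the bound for Kloosterman sums over fields of square order
-/

set_option autoImplicit false

namespace Pool.Agent.Lib.MP_1446ad_nt.SM

open scoped Classical

theorem specBND (hSTP : SpecSTP) : SpecBND := by
  intro p _ K _ _ _ e ψ a b hp2 he hcard hψ ha
  have hp : p.Prime := Fact.out
  set T : K → ZMod p := fun x => Algebra.trace (ZMod p) K
      (algebraMap (ZMod p) K a * x + algebraMap (ZMod p) K b * x⁻¹) with hT
  set N : ZMod p → Finset K := fun j => (Finset.univ.filter fun x : K => x ≠ 0 ∧ T x = j) with hN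
  have hNs : ∀ j, ((N j).card : ℝ) ≤ (p : ℝ) ^ (2 * e - 1) + 4 * (p : ℝ) ^ e := by
    intro j
    have h := hSTP p K e a b j hp2 he hcard ha
    have h1 : {x : K | x ≠ 0 ∧ Algebra.trace (ZMod p) K
      (algebraMap (ZMod p) K a * x + algebraMap (ZMod p) K b * x⁻¹) = j} = (N j : Set K) := by
      ext x
      simp [hN, hT]
    rw [h1, Set.ncard_coe_finset] at h
    exact_mod_cast h
  have hS : kl (trc K ψ) (algebraMap (ZMod p) K a) (algebraMap (ZMod p) K b) =
      ∑ j : ZMod p, ((N j).card : ℂ) * ψ j := by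
    rw [kl, ← Finset.sum_fiberwise Finset.univ T]
    refine Finset.sum_congr rfl fun j _ => ?_
    have h1 : ∀ x ∈ Finset.univ.filter (fun x : K => T x = j),
        (if x = 0 then (0 : ℂ) else trc K ψ (algebraMap (ZMod p) K a * x +
          algebraMap (ZMod p) K b * x⁻¹)) = if x ≠ 0 then ψ j else 0 := by
      intro x hx
      have hx' : T x = j := (Finset.mem_filter.1 hx).2
      by_cases h0 : x = 0
      · rw [if_pos h0, if_neg (not_not.2 h0)]
      · rw [if_neg h0, if_pos h0]
        change ψ (T x) = ψ j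
        rw [hx']
    rw [Finset.sum_congr rfl h1, ← Finset.sum_filter, Finset.sum_const, nsmul_eq_mul,
      Finset.filter_filter]
    congr 2
    refine congrArg Finset.card ?_
    ext x
    simp [hN, and_comm]
  set C : ℝ := (p : ℝ) ^ (2 * e - 1) + 4 * (p : ℝ) ^ e with hC
  have hz : ∑ j : ZMod p, ψ j = 0 := AddChar.sum_eq_zero_of_ne_one hψ
  have hS2 : kl (trc K ψ) (algebraMap (ZMod p) K a) (algebraMap (ZMod p) K b) =
      -∑ j : ZMod p, ((C - ((N j).card : ℝ) : ℝ) : ℂ) * ψ j := by
    rw [hS]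
    have : ∑ j : ZMod p, ((C - ((N j).card : ℝ) : ℝ) : ℂ) * ψ j =
        (C : ℂ) * ∑ j : ZMod p, ψ j - ∑ j : ZMod p, ((N j).card : ℂ) * ψ j := by
      rw [Finset.mul_sum, ← Finset.sum_sub_distrib]
      refine Finset.sum_congr rfl fun j _ => ?_
      push_cast
      ring
    rw [this, hz]
    ring
  have htot : ∑ j : ZMod p, ((N j).card : ℝ) = (p : ℝ) ^ (2 * e) - 1 := by
    have h1 : ∑ j : ZMod p, (N j).card = (Finset.univ.filter fun x : K => x ≠ 0).card := by
      rw [Finset.card_eq_sum_card_fiberwise (f := T) (t := Finset.univ) (fun x _ => by simp)]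
      refine Finset.sum_congr rfl fun j _ => ?_
      refine congrArg Finset.card ?_
      ext x
      simp [hN]
    have h2 : (Finset.univ.filter fun x : K => x ≠ 0).card + 1 = p ^ (2 * e) := by
      rw [← hcard, Finset.filter_ne', Finset.card_erase_of_mem (Finset.mem_univ _),
        Finset.card_univ]
      exact Nat.sub_add_cancel Fintype.card_pos
    have h3 : ((∑ j : ZMod p, (N j).card : ℕ) : ℝ) + 1 = (p : ℝ) ^ (2 * e) := by
      rw [h1]
      exact_mod_cast h2
    push_cast at h3
    linarith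
  have hp1 : (1 : ℝ) ≤ p := by exact_mod_cast hp.one_le
  have hr : (1 : ℝ) ≤ (p : ℝ) ^ e := one_le_pow₀ hp1
  have hpp : (p : ℝ) * (p : ℝ) ^ (2 * e - 1) = (p : ℝ) ^ (2 * e) := by
    rw [← pow_succ']
    congr 1
    omega
  calc ‖kl (trc K ψ) (algebraMap (ZMod p) K a) (algebraMap (ZMod p) K b)‖
      ≤ ∑ j : ZMod p, ‖((C - ((N j).card : ℝ) : ℝ) : ℂ) * ψ j‖ := by
        rw [hS2, norm_neg]
        exact norm_sum_le _ _
    _ = ∑ j : ZMod p, (C - ((N j).card : ℝ)) := by
        refine Finset.sum_congr rfl fun j _ => ?_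
        rw [norm_mul, AddChar.norm_apply, mul_one, Complex.norm_real, Real.norm_eq_abs,
          abs_of_nonneg (sub_nonneg.2 (hNs j))]
    _ = p * C - ((p : ℝ) ^ (2 * e) - 1) := by
        rw [Finset.sum_sub_distrib, htot, Finset.sum_const, Finset.card_univ, ZMod.card,
          nsmul_eq_mul]
    _ = 4 * ((p : ℝ) * (p : ℝ) ^ e) + 1 := by
        rw [hC, mul_add, hpp]
        ring
    _ ≤ 9 * (p : ℝ) * (p : ℝ) ^ e := by
        nlinarith [mul_le_mul hp1 hr zero_le_one (by linarith)]

end Pool.Agent.Lib.MP_1446ad_nt.SM
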