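import Pool.Agent.Lib.MP_1446ad_nt.SM.SpecK

set_option autoImplicit false

namespace Pool.Agent.Lib.MP_1446ad_nt.SM

open Finset
open scoped Classical

namespace BOXM

/-- The least nonnegative residue of `b` modulo `P`. -/
noncomputable def rs (P : ℕ) (b : ℤ) : ℕ := (b % (P : ℤ)).toNat

theorem rs_cast (P : ℕ) [NeZero P] (b : ℤ) : ((rs P b : ℕ) : ℤ) = b % (P : ℤ) := by
  unfold rs
  exact Int.toNat_of_nonneg (Int.emod_nonneg _ (by exact_mod_cast NeZero.ne P))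

theorem rs_lt (P : ℕ) [NeZero P] (b : ℤ) : rs P b < P := by
  have h1 := rs_cast P b
  have h2 : b % (P : ℤ) < P :=
    Int.emod_lt_of_pos _ (by exact_mod_cast Nat.pos_of_ne_zero (NeZero.ne P))
  omega

theorem rs_zmod (P : ℕ) [NeZero P] (b : ℤ) : ((rs P b : ℕ) : ZMod P) = (b : ZMod P) := by
  have h : (((rs P b : ℕ) : ℤ) : ZMod P) = (b : ZMod P) := by
    rw [rs_cast, ZMod.intCast_mod]
  simpa using h

theorem rs_pos (P : ℕ) [NeZero P] (b : ℤ) (hb : ¬ (P : ℤ) ∣ b) : 0 < rs P b := by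
  rcases Nat.eq_zero_or_pos (rs P b) with h | h
  · exfalso
    apply hb
    have h1 := rs_cast P b
    rw [h] at h1
    exact Int.dvd_of_emod_eq_zero (by simpa using h1.symm)
  · exact h

theorem geo (hGEO : SpecGEO) (P : ℕ) [NeZero P] (W : ℕ) (a b : ℤ) (hb : ¬ (P : ℤ) ∣ b) :
    ‖∑ i ∈ range W, ZMod.stdAddChar (((a + b * (i : ℤ) : ℤ)) : ZMod P)‖ ≤
      (P : ℝ) / (2 * min (rs P b : ℝ) ((P : ℝ) - rs P b)) := by
  have h0 : 0 < rs P b := rs_pos P b hb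
  have h1 := hGEO P W (rs P b) h0 (rs_lt P b)
  have h2 : ∑ i ∈ range W, ZMod.stdAddChar (((a + b * (i : ℤ) : ℤ)) : ZMod P) =
      ZMod.stdAddChar ((a : ℤ) : ZMod P) *
        ∑ i ∈ range W, ZMod.stdAddChar (((rs P b * i : ℕ) : ZMod P)) := by
    rw [Finset.mul_sum]
    refine Finset.sum_congr rfl fun i _ => ?_
    rw [← AddChar.map_add_eq_mul]
    congr 1
    push_cast
    rw [rs_zmod]
  rw [h2, norm_mul, AddChar.norm_apply, one_mul]
  exact h1

theorem split {M : Type*} [AddCommMonoid M] (P : ℕ) (hP : 0 < P) (f : ℕ → M) :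
    ∑ h ∈ range P, f h = f 0 + ∑ h ∈ Ioo 0 P, f h := by
  have h : range P = insert 0 (Ioo 0 P) := by
    ext x
    simp only [mem_range, mem_insert, mem_Ioo]
    omega
  rw [h, sum_insert (by simp)]

theorem not_dvd (P : ℕ) (y : ℤ) (hy : Int.gcd y P = 1) (h : ℤ) (h0 : h ≠ 0) (h1 : |h| < P) :
    ¬ (P : ℤ) ∣ h * y := by
  intro hd
  have hc : IsCoprime (P : ℤ) y := by
    rw [Int.isCoprime_iff_gcd_eq_one, Int.gcd_comm]
    exact hy
  have h2 : (P : ℤ) ∣ h := hc.dvd_of_dvd_mul_right hd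
  have h3 := Int.le_of_dvd (abs_pos.mpr h0) ((dvd_abs _ _).mpr h2)
  omega

theorem gcd_rs (P : ℕ) [NeZero P] (y : ℤ) (hy : Int.gcd y P = 1) (h : ℕ) :
    Nat.gcd (rs P (-((h : ℤ) * y))) P = Nat.gcd h P := by
  have h1 : Int.gcd ((rs P (-((h : ℤ) * y)) : ℕ) : ℤ) P = Int.gcd (-((h : ℤ) * y)) P := by
    rw [rs_cast]
    exact Int.gcd_emod _ _
  have h2 : Nat.gcd (rs P (-((h : ℤ) * y))) P = Int.gcd (-((h : ℤ) * y)) P := by
    rw [← h1]; rfl
  rw [h2, Int.neg_gcd]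
  have h3 : Int.gcd ((h : ℤ) * y) P = Nat.gcd (h * y.natAbs) P := by
    simp [Int.gcd, Int.natAbs_mul]
  rw [h3]
  exact Nat.Coprime.gcd_mul_right_cancel _ hy

theorem sumF (hGEO : SpecGEO) (hGCS : SpecGCS) (P : ℕ) [NeZero P] (W : ℕ) (y β : ℤ)
    (hy : Int.gcd y P = 1) :
    ∑ h ∈ Ioo 0 P, ‖∑ i ∈ range W,
      ZMod.stdAddChar ((-((h : ℤ) * (β + y * (i : ℤ))) : ℤ) : ZMod P)‖ * √(Nat.gcd h P : ℝ) ≤
      (P : ℝ) * tau P * (1 + Real.log P) := by
  have hP : 0 < P := Nat.pos_of_ne_zero (NeZero.ne P)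
  have hPR : (0 : ℝ) < P := by exact_mod_cast hP
  set f : ℕ → ℝ := fun x => √(Nat.gcd x P : ℝ) / min (x : ℝ) ((P : ℝ) - x) with hf
  have hf0 : ∀ x ∈ Ioo 0 P, 0 ≤ f x := by
    intro x hx
    rw [mem_Ioo] at hx
    have hx1 : (x : ℝ) < P := by exact_mod_cast hx.2
    apply div_nonneg (Real.sqrt_nonneg _)
    apply le_min
    · positivity
    · linarith
  have hnd : ∀ h ∈ Ioo 0 P, ¬ (P : ℤ) ∣ -((h : ℤ) * y) := by
    intro h hh
    rw [mem_Ioo] at hh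
    rw [dvd_neg]
    apply not_dvd P y hy
    · omega
    · rw [abs_of_nonneg (by omega)]; omega
  have h1 : ∀ h ∈ Ioo 0 P, ‖∑ i ∈ range W,
      ZMod.stdAddChar ((-((h : ℤ) * (β + y * (i : ℤ))) : ℤ) : ZMod P)‖ * √(Nat.gcd h P : ℝ) ≤
      (P : ℝ) / 2 * f (rs P (-((h : ℤ) * y))) := by
    intro h hh
    have h2 := geo hGEO P W (-((h : ℤ) * β)) (-((h : ℤ) * y)) (hnd h hh)
    have h3 : ∀ i : ℕ, (-((h : ℤ) * (β + y * (i : ℤ))) : ℤ) =
        -((h : ℤ) * β) + -((h : ℤ) * y) * (i : ℤ) := by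
      intro i; ring
    simp only [h3]
    calc _ ≤ (P : ℝ) / (2 * min (rs P (-((h : ℤ) * y)) : ℝ) ((P : ℝ) - rs P (-((h : ℤ) * y)))) *
          √(Nat.gcd h P : ℝ) := mul_le_mul_of_nonneg_right h2 (Real.sqrt_nonneg _)
      _ = (P : ℝ) / 2 * f (rs P (-((h : ℤ) * y))) := by
        simp only [hf]
        rw [gcd_rs P y hy h]
        rw [div_mul_div_comm, div_mul_eq_mul_div]
  have hinj : Set.InjOn (fun h : ℕ => rs P (-((h : ℤ) * y))) (Ioo 0 P : Finset ℕ) := by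
    intro a ha b hb hab
    simp only [coe_Ioo, Set.mem_Ioo] at ha hb
    by_contra hne
    have h4 : (P : ℤ) ∣ ((a : ℤ) - b) * y := by
      have h5 : (-((a : ℤ) * y)) % (P : ℤ) = (-((b : ℤ) * y)) % (P : ℤ) := by
        rw [← rs_cast, ← rs_cast]
        simp only at hab
        rw [hab]
      have h6 : (P : ℤ) ∣ -((b : ℤ) * y) - -((a : ℤ) * y) := Int.ModEq.dvd h5
      have h7 : -((b : ℤ) * y) - -((a : ℤ) * y) = ((a : ℤ) - b) * y := by ring
      rwa [h7] at h6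
    refine not_dvd P y hy _ ?_ ?_ h4
    · omega
    · rw [abs_lt]; omega
  have himg : (Ioo 0 P).image (fun h : ℕ => rs P (-((h : ℤ) * y))) ⊆ Ioo 0 P := by
    intro x hx
    rw [mem_image] at hx
    obtain ⟨h, hh, rfl⟩ := hx
    rw [mem_Ioo]
    exact ⟨rs_pos P _ (hnd h hh), rs_lt P _⟩
  calc _ ≤ ∑ h ∈ Ioo 0 P, (P : ℝ) / 2 * f (rs P (-((h : ℤ) * y))) := sum_le_sum h1
    _ = (P : ℝ) / 2 * ∑ h ∈ Ioo 0 P, f (rs P (-((h : ℤ) * y))) := by rw [mul_sum]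
    _ = (P : ℝ) / 2 * ∑ x ∈ (Ioo 0 P).image (fun h : ℕ => rs P (-((h : ℤ) * y))), f x := by
        rw [sum_image hinj]
    _ ≤ (P : ℝ) / 2 * ∑ x ∈ Ioo 0 P, f x := by
        apply mul_le_mul_of_nonneg_left _ (by positivity)
        exact sum_le_sum_of_subset_of_nonneg himg (fun x hx _ => hf0 x hx)
    _ ≤ (P : ℝ) / 2 * (2 * tau P * (1 + Real.log P)) := by
        apply mul_le_mul_of_nonneg_left _ (by positivity)
        exact hGCS P hP
    _ = _ := by ring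

theorem harm (P : ℕ) : ∑ k ∈ Ioo 0 P, 1 / (k : ℝ) ≤ 1 + Real.log P := by
  have h1 := harmonic_le_one_add_log P
  have h2 : ∑ k ∈ Ioo 0 P, 1 / (k : ℝ) ≤ ((harmonic P : ℚ) : ℝ) := by
    unfold harmonic
    push_cast
    have h3 : ∑ k ∈ Ioo 0 P, 1 / (k : ℝ) = ∑ k ∈ (Ioo 0 P).image (fun k : ℕ => k - 1),
        (((k : ℕ) : ℝ) + 1)⁻¹ := by
      rw [sum_image]
      · apply sum_congr rfl
        intro k hk
        rw [mem_Ioo] at hk
        rw [Nat.cast_sub (by omega)]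
        simp
      · intro a ha b hb hab
        simp only [coe_Ioo, Set.mem_Ioo] at ha hb
        simp only at hab
        omega
    rw [h3]
    apply sum_le_sum_of_subset_of_nonneg
    · intro x hx
      rw [mem_image] at hx
      obtain ⟨k, hk, rfl⟩ := hx
      rw [mem_Ioo] at hk
      rw [mem_range]
      omega
    · intro i _ _
      positivity
  linarith

theorem sumG (hGEO : SpecGEO) (P : ℕ) [NeZero P] (L : ℕ) (q : ℤ) (hL : L ≤ P) :
    ∑ k ∈ range P, ‖∑ j ∈ range L,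
      ZMod.stdAddChar ((-((k : ℤ) * (q + (j : ℤ))) : ℤ) : ZMod P)‖ ≤
      2 * (P : ℝ) * (1 + Real.log P) := by
  have hP : 0 < P := Nat.pos_of_ne_zero (NeZero.ne P)
  have hPR : (0 : ℝ) < P := by exact_mod_cast hP
  have hP1 : (1 : ℝ) ≤ P := by exact_mod_cast hP
  have hlog : 0 ≤ Real.log P := Real.log_nonneg hP1
  rw [split P hP]
  have h0 : ‖∑ j ∈ range L,
      ZMod.stdAddChar ((-(((0 : ℕ) : ℤ) * (q + (j : ℤ))) : ℤ) : ZMod P)‖ ≤ (P : ℝ) := by
    have : ∑ j ∈ range L,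
      ZMod.stdAddChar ((-(((0 : ℕ) : ℤ) * (q + (j : ℤ))) : ℤ) : ZMod P) = (L : ℂ) := by
      simp
    rw [this]
    simp only [Complex.norm_natCast]
    exact_mod_cast hL
  have h1 : ∀ k ∈ Ioo 0 P, ‖∑ j ∈ range L,
      ZMod.stdAddChar ((-((k : ℤ) * (q + (j : ℤ))) : ℤ) : ZMod P)‖ ≤
      (P : ℝ) / 2 * (1 / (k : ℝ) + 1 / ((P : ℝ) - k)) := by
    intro k hk
    rw [mem_Ioo] at hk
    have hk0 : (0 : ℝ) < k := by exact_mod_cast hk.1
    have hk1 : (k : ℝ) < P := by exact_mod_cast hk.2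
    have hkP : (0 : ℝ) < (P : ℝ) - k := by linarith
    have hnd : ¬ (P : ℤ) ∣ -(k : ℤ) := by
      rw [dvd_neg]
      intro hd
      have := Int.le_of_dvd (by omega) hd
      omega
    have h2 := geo hGEO P L (-((k : ℤ) * q)) (-(k : ℤ)) hnd
    have h3 : ∀ j : ℕ, (-((k : ℤ) * (q + (j : ℤ))) : ℤ) = -((k : ℤ) * q) + -(k : ℤ) * (j : ℤ) := by
      intro j; ring
    simp only [h3]
    have h4 : rs P (-(k : ℤ)) = P - k := by
      have h5 := rs_cast P (-(k : ℤ))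
      have h6 : (-(k : ℤ)) % (P : ℤ) = P - k := by
        rw [← Int.add_emod_right]
        rw [Int.emod_eq_of_lt] <;> omega
      rw [h6] at h5
      omega
    rw [h4, Nat.cast_sub hk.2.le] at h2
    refine h2.trans ?_
    have h7 : (P : ℝ) - ((P : ℝ) - k) = k := by ring
    rw [h7]
    rcases min_cases ((P : ℝ) - k) (k : ℝ) with ⟨hm, _⟩ | ⟨hm, _⟩
    · rw [hm]
      have : (P : ℝ) / (2 * ((P : ℝ) - k)) = (P : ℝ) / 2 * (1 / ((P : ℝ) - k)) := by
        field_simp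
      rw [this]
      apply mul_le_mul_of_nonneg_left _ (by positivity)
      have : 0 ≤ 1 / (k : ℝ) := by positivity
      linarith
    · rw [hm]
      have : (P : ℝ) / (2 * (k : ℝ)) = (P : ℝ) / 2 * (1 / (k : ℝ)) := by
        field_simp
      rw [this]
      apply mul_le_mul_of_nonneg_left _ (by positivity)
      have : 0 ≤ 1 / ((P : ℝ) - k) := by positivity
      linarith
  have h2 : ∑ k ∈ Ioo 0 P, 1 / ((P : ℝ) - k) = ∑ k ∈ Ioo 0 P, 1 / (k : ℝ) := by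
    apply Finset.sum_nbij' (fun k => P - k) (fun k => P - k)
    · intro k hk
      rw [mem_Ioo] at hk ⊢
      omega
    · intro k hk
      rw [mem_Ioo] at hk ⊢
      omega
    · intro k hk
      rw [mem_Ioo] at hk
      show P - (P - k) = k
      omega
    · intro k hk
      rw [mem_Ioo] at hk
      show P - (P - k) = k
      omega
    · intro k hk
      rw [mem_Ioo] at hk
      rw [Nat.cast_sub hk.2.le]
  have h3 := harm P
  have h4 : ∑ k ∈ Ioo 0 P, ‖∑ j ∈ range L,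
      ZMod.stdAddChar ((-((k : ℤ) * (q + (j : ℤ))) : ℤ) : ZMod P)‖ ≤
      (P : ℝ) * (1 + Real.log P) := by
    calc _ ≤ ∑ k ∈ Ioo 0 P, (P : ℝ) / 2 * (1 / (k : ℝ) + 1 / ((P : ℝ) - k)) := sum_le_sum h1
      _ = (P : ℝ) / 2 * (∑ k ∈ Ioo 0 P, 1 / (k : ℝ) + ∑ k ∈ Ioo 0 P, 1 / ((P : ℝ) - k)) := by
          rw [← mul_sum, sum_add_distrib]
      _ = (P : ℝ) / 2 * (2 * ∑ k ∈ Ioo 0 P, 1 / (k : ℝ)) := by rw [h2]; ring
      _ ≤ (P : ℝ) / 2 * (2 * (1 + Real.log P)) := by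
          apply mul_le_mul_of_nonneg_left _ (by positivity)
          linarith
      _ = _ := by ring
  nlinarith [mul_nonneg hPR.le hlog]

theorem kcb (hKLB : SpecKLB) (hDEC : SpecDEC) (P : ℕ) [NeZero P] (c h k : ℤ) :
    ‖kc P c h k‖ ≤ tau P * √(uu P : ℝ) * (vv P : ℝ) * √(Int.gcd h P : ℝ) *
      √(Int.gcd c (uu P) : ℝ) := by
  have hP : 0 < P := Nat.pos_of_ne_zero (NeZero.ne P)
  obtain ⟨h1, h2, h3, -⟩ := hDEC P hP
  have hgen : ∀ (N : ℕ) [NeZero N], N = P → ‖kc N c h k‖ = ‖kc P c h k‖ := by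
    intro N _ hN
    subst hN
    rfl
  have : NeZero (uu P * vv P) := ⟨by rw [h1]; exact NeZero.ne P⟩
  have h4 := hKLB (uu P) (vv P) h2 h3 c h k
  rw [hgen (uu P * vv P) h1] at h4
  have h5 : tau (uu P * vv P) = tau P := by rw [h1]
  rw [h5] at h4
  refine h4.trans ?_
  have h6 : (Int.gcd h (uu P) : ℝ) ≤ (Int.gcd h P : ℝ) := by
    have h7 : Int.gcd h (uu P) ∣ Int.gcd h P := by
      apply Int.gcd_dvd_gcd_of_dvd_right
      exact_mod_cast Dvd.intro _ h1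
    have h8 : 0 < Int.gcd h P := Int.gcd_pos_of_ne_zero_right _ (by exact_mod_cast hP.ne')
    exact_mod_cast Nat.le_of_dvd h8 h7
  have h9 : √(Int.gcd h (uu P) : ℝ) ≤ √(Int.gcd h P : ℝ) := Real.sqrt_le_sqrt h6
  have h10 : 0 ≤ tau P := by unfold tau; positivity
  gcongr

end BOXM

open BOXM in
theorem specBOX (hFOU : SpecFOU) (hKLB : SpecKLB) (hGEO : SpecGEO) (hGCS : SpecGCS)
    (hDEC : SpecDEC) : SpecBOX := by
  intro P y β c q W L hP hy hL
  have : NeZero P := ⟨hP.ne'⟩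
  have hPR : (0 : ℝ) < P := by exact_mod_cast hP
  have hPC : (P : ℂ) ≠ 0 := by exact_mod_cast hP.ne'
  have hP1 : (1 : ℝ) ≤ P := by exact_mod_cast hP
  have hlog : 0 ≤ Real.log P := Real.log_nonneg hP1
  have htau : 0 ≤ tau P := by unfold tau; positivity
  set F : ℕ → ℂ := fun h => ∑ i ∈ range W,
    ZMod.stdAddChar ((-((h : ℤ) * (β + y * (i : ℤ))) : ℤ) : ZMod P) with hF
  set F' : ℕ → ℂ := fun h => ∑ i ∈ range P,
    ZMod.stdAddChar ((-((h : ℤ) * ((0 : ℤ) + (1 : ℤ) * (i : ℤ))) : ℤ) : ZMod P) with hF'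
  set G : ℕ → ℂ := fun k => ∑ j ∈ range L,
    ZMod.stdAddChar ((-((k : ℤ) * (q + (j : ℤ))) : ℤ) : ZMod P) with hG
  have e1 : ((cntB P y β c q W L : ℕ) : ℂ) = (1 / (P : ℂ) ^ 2) *
      ∑ h ∈ range P, F h * ∑ k ∈ range P, G k * kc P c h k := by
    rw [hFOU P y β c q W L]
    congr 1
    apply sum_congr rfl
    intro h _
    rw [mul_sum]
    apply sum_congr rfl
    intro k _
    simp only [hF, hG]
    ring
  have e2 : ((cntB P 1 0 c q P L : ℕ) : ℂ) = (1 / (P : ℂ) ^ 2) *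
      ∑ h ∈ range P, F' h * ∑ k ∈ range P, G k * kc P c h k := by
    rw [hFOU P 1 0 c q P L]
    congr 1
    apply sum_congr rfl
    intro h _
    rw [mul_sum]
    apply sum_congr rfl
    intro k _
    simp only [hF', hG]
    ring
  have f0 : F 0 = W := by simp [hF]
  have f0' : F' 0 = P := by simp [hF']
  have f1' : ∀ h ∈ Ioo 0 P, F' h = 0 := by
    intro h hh
    rw [mem_Ioo] at hh
    set z : ℂ := ZMod.stdAddChar ((-(h : ℤ) : ℤ) : ZMod P) with hz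
    have hz1 : z ≠ 1 := by
      intro h1
      have h2 : ZMod.stdAddChar ((-(h : ℤ) : ℤ) : ZMod P) = ZMod.stdAddChar (0 : ZMod P) := by
        rw [AddChar.map_zero_eq_one]; exact h1
      have h3 := ZMod.injective_stdAddChar h2
      rw [ZMod.intCast_zmod_eq_zero_iff_dvd, dvd_neg] at h3
      have := Int.le_of_dvd (by omega) h3
      omega
    have h4 : F' h = ∑ i ∈ range P, z ^ i := by
      simp only [hF']
      apply sum_congr rfl
      intro i _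
      rw [hz, ← AddChar.map_nsmul_eq_pow]
      congr 1
      push_cast
      rw [nsmul_eq_mul]
      ring
    have h5 := geom_sum_mul z P
    have h6 : z ^ P = 1 := by
      rw [hz, ← AddChar.map_nsmul_eq_pow, nsmul_eq_mul]
      simp
    rw [h6, sub_self] at h5
    rw [h4]
    rcases mul_eq_zero.mp h5 with h7 | h7
    · exact h7
    · exact absurd (sub_eq_zero.mp h7) hz1
  have e3 : ((cntB P y β c q W L : ℕ) : ℂ) - (W : ℂ) / P * ((cntB P 1 0 c q P L : ℕ) : ℂ) =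
      (1 / (P : ℂ) ^ 2) * ∑ h ∈ Ioo 0 P, F h * ∑ k ∈ range P, G k * kc P c h k := by
    rw [e1, e2, split P hP (fun h => F h * ∑ k ∈ range P, G k * kc P c h k),
      split P hP (fun h => F' h * ∑ k ∈ range P, G k * kc P c h k)]
    simp only [f0, f0']
    have : ∑ h ∈ Ioo 0 P, F' h * ∑ k ∈ range P, G k * kc P c h k = 0 := by
      apply sum_eq_zero
      intro h hh
      rw [f1' h hh, zero_mul]
    rw [this]
    field_simp
    ring
  set B : ℝ := tau P * √(uu P : ℝ) * (vv P : ℝ) * √(Int.gcd c (uu P) : ℝ) with hB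
  have hB0 : 0 ≤ B := by positivity
  have e4 : ‖(1 / (P : ℂ) ^ 2) * ∑ h ∈ Ioo 0 P, F h * ∑ k ∈ range P, G k * kc P c h k‖ ≤
      (1 / (P : ℝ) ^ 2) * ((∑ h ∈ Ioo 0 P, ‖F h‖ * √(Nat.gcd h P : ℝ)) *
        (∑ k ∈ range P, ‖G k‖) * B) := by
    rw [norm_mul]
    have h1 : ‖(1 / (P : ℂ) ^ 2)‖ = 1 / (P : ℝ) ^ 2 := by simp
    rw [h1]
    apply mul_le_mul_of_nonneg_left _ (by positivity)
    refine (norm_sum_le _ _).trans ?_
    rw [sum_mul, sum_mul]
    apply sum_le_sum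
    intro h _
    rw [norm_mul]
    have h2 : ‖∑ k ∈ range P, G k * kc P c h k‖ ≤
        √(Nat.gcd h P : ℝ) * (∑ k ∈ range P, ‖G k‖) * B := by
      refine (norm_sum_le _ _).trans ?_
      rw [mul_sum, sum_mul]
      apply sum_le_sum
      intro k _
      rw [norm_mul]
      have h3 := kcb hKLB hDEC P c h k
      have h4 : (Int.gcd (h : ℤ) P : ℝ) = (Nat.gcd h P : ℝ) := by
        rw [Int.gcd_natCast_natCast]
      rw [h4] at h3
      calc ‖G k‖ * ‖kc P c h k‖ ≤ ‖G k‖ * (tau P * √(uu P : ℝ) * (vv P : ℝ) *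
            √(Nat.gcd h P : ℝ) * √(Int.gcd c (uu P) : ℝ)) :=
            mul_le_mul_of_nonneg_left h3 (norm_nonneg _)
        _ = _ := by rw [hB]; ring
    calc ‖F h‖ * ‖∑ k ∈ range P, G k * kc P c h k‖ ≤
        ‖F h‖ * (√(Nat.gcd h P : ℝ) * (∑ k ∈ range P, ‖G k‖) * B) :=
          mul_le_mul_of_nonneg_left h2 (norm_nonneg _)
      _ = _ := by ring
  have e5 := sumF hGEO hGCS P W y β hy
  have e6 := sumG hGEO P L q hL
  have e7 : |(cntB P y β c q W L : ℝ) - (W : ℝ) / P * (cntB P 1 0 c q P L : ℝ)| =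
      ‖((cntB P y β c q W L : ℕ) : ℂ) - (W : ℂ) / P * ((cntB P 1 0 c q P L : ℕ) : ℂ)‖ := by
    have : ((cntB P y β c q W L : ℕ) : ℂ) - (W : ℂ) / P * ((cntB P 1 0 c q P L : ℕ) : ℂ) =
        (((cntB P y β c q W L : ℝ) - (W : ℝ) / P * (cntB P 1 0 c q P L : ℝ) : ℝ) : ℂ) := by
      push_cast; ring
    rw [this, Complex.norm_real, Real.norm_eq_abs]
  rw [e7, e3]
  refine e4.trans ?_
  have e8 : (∑ h ∈ Ioo 0 P, ‖F h‖ * √(Nat.gcd h P : ℝ)) * (∑ k ∈ range P, ‖G k‖) * B ≤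
      ((P : ℝ) * tau P * (1 + Real.log P)) * (2 * (P : ℝ) * (1 + Real.log P)) * B := by
    apply mul_le_mul_of_nonneg_right _ hB0
    apply mul_le_mul e5 e6
    · exact sum_nonneg fun _ _ => norm_nonneg _
    · positivity
  calc (1 / (P : ℝ) ^ 2) * ((∑ h ∈ Ioo 0 P, ‖F h‖ * √(Nat.gcd h P : ℝ)) *
        (∑ k ∈ range P, ‖G k‖) * B) ≤ (1 / (P : ℝ) ^ 2) *
        (((P : ℝ) * tau P * (1 + Real.log P)) * (2 * (P : ℝ) * (1 + Real.log P)) * B) :=
          mul_le_mul_of_nonneg_left e8 (by positivity)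
    _ = er P c := by
      rw [hB]
      unfold er
      field_simp

end Pool.Agent.Lib.MP_1446ad_nt.SM
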