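import Pool.Agent.Lib.MP_1446ad_nt.SM.SpecD

/-!
# MP_1446ad_nt, part D: the number of bad pairs (module BPC)
-/

set_option autoImplicit false

namespace Pool.Agent.Lib.MP_1446ad_nt.SM

open Finset
open scoped Classical

namespace BPCM

/-- The pairs `(y,r)` with `p ∣ y r`. -/
theorem card_mult {V M2 p : ℕ} (W : Finset (ℕ × ℕ)) (hM : 0 < M2) (hMV : M2 ≤ V) (hp : M2 < p)
    (hinj : ∀ a ∈ W, ∀ b ∈ W, a.1 * a.2 = b.1 * b.2 → a = b)
    (hV : ∀ a ∈ W, V < a.1 * a.2 ∧ a.1 * a.2 ≤ 2 * V) :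
    ((W.filter (fun a => p ∣ a.1 * a.2)).card : ℝ) ≤ 2 * (V : ℝ) / M2 := by
  have hp0 : 0 < p := by omega
  have h1 : (W.filter (fun a => p ∣ a.1 * a.2)).card ≤ (Ioc (V / p) (2 * V / p)).card := by
    refine card_le_card_of_injOn (fun a => a.1 * a.2 / p) ?_ ?_
    · intro a ha
      rw [mem_coe, mem_filter] at ha
      obtain ⟨haW, c, hc⟩ := ha
      obtain ⟨h2, h3⟩ := hV a haW
      show a.1 * a.2 / p ∈ ((Ioc (V / p) (2 * V / p) : Finset ℕ) : Set ℕ)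
      rw [mem_coe, mem_Ioc, hc, Nat.mul_div_cancel_left _ hp0]
      rw [hc] at h2 h3
      refine ⟨?_, ?_⟩
      · rw [Nat.div_lt_iff_lt_mul hp0, mul_comm]
        exact h2
      · rw [Nat.le_div_iff_mul_le hp0, mul_comm]
        exact h3
    · intro a ha b hb hab
      rw [mem_coe, mem_filter] at ha hb
      obtain ⟨haW, c, hc⟩ := ha
      obtain ⟨hbW, d, hd⟩ := hb
      refine hinj a haW b hbW ?_
      simp only [hc, hd, Nat.mul_div_cancel_left _ hp0] at hab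
      rw [hc, hd, hab]
  rw [Nat.card_Ioc] at h1
  have hM' : (0 : ℝ) < M2 := by exact_mod_cast hM
  have hp' : (M2 : ℝ) ≤ p := by exact_mod_cast hp.le
  have hp0' : (0 : ℝ) < p := by exact_mod_cast hp0
  have h2 : ((2 * V / p : ℕ) : ℝ) ≤ 2 * ((V : ℝ) / p) := by
    have := @Nat.cast_div_le ℝ _ _ _ (2 * V) p
    push_cast at this
    rw [mul_div_assoc] at this
    exact this
  have h3 : (V : ℝ) / p - 1 < ((V / p : ℕ) : ℝ) := by
    have h5 : V < (V / p + 1) * p := by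
      rw [add_mul, one_mul]
      have h6 := Nat.div_add_mod V p
      have h7 := Nat.mod_lt V hp0
      have h8 : p * (V / p) = V / p * p := mul_comm _ _
      omega
    have h6 : (V : ℝ) < (((V / p : ℕ) : ℝ) + 1) * p := by exact_mod_cast h5
    rw [sub_lt_iff_lt_add, div_lt_iff₀ hp0']
    exact h6
  have h4 : V / p ≤ 2 * V / p := Nat.div_le_div_right (by omega)
  have h5 : (((2 * V / p - V / p : ℕ)) : ℝ) = ((2 * V / p : ℕ) : ℝ) - ((V / p : ℕ) : ℝ) := by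
    rw [Nat.cast_sub h4]
  have h6 : ((W.filter (fun a => p ∣ a.1 * a.2)).card : ℝ) ≤
      (((2 * V / p - V / p : ℕ)) : ℝ) := Nat.cast_le.mpr h1
  have h7 : (V : ℝ) / p ≤ (V : ℝ) / M2 := div_le_div_of_nonneg_left (by positivity) hM' hp'
  have h8 : (1 : ℝ) ≤ (V : ℝ) / M2 := by
    rw [le_div_iff₀ hM', one_mul]
    exact_mod_cast hMV
  have h9 : 2 * (V : ℝ) / M2 = 2 * ((V : ℝ) / M2) := by ring
  rw [h9]
  linarith

/-- Counting pairs. -/
theorem card_prod (W : Finset (ℕ × ℕ)) (P : (ℕ × ℕ) × (ℕ × ℕ) → Prop) [DecidablePred P] :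
    (((W ×ˢ W).filter P).card : ℝ) = ∑ a ∈ W, ((W.filter (fun b => P (a, b))).card : ℝ) := by
  rw [card_filter]
  push_cast
  rw [sum_product]
  refine sum_congr rfl fun a _ => ?_
  rw [card_filter]
  push_cast
  rfl

end BPCM

open BPCM in
theorem specBPC (hDDB : SpecDDB) : SpecBPC := by
  intro T n M2 Y0 V S S' I Mm Y R hK m hm m' hm' hmm
  obtain ⟨hT1, hcard, hinj, _, _, _⟩ := hDDB T n M2 Y0 V S S' I Mm Y R hK
  have hM0 := hK.M20
  have hMV := hK.MV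
  have hV : ∀ a ∈ Y ×ˢ R, V < a.1 * a.2 ∧ a.1 * a.2 ≤ 2 * V := by
    intro a ha
    rw [mem_product] at ha
    exact hK.RV a.1 ha.1 a.2 ha.2
  set W := Y ×ˢ R with hW
  have hM' : (0 : ℝ) < M2 := by exact_mod_cast hM0
  have hWV : (W.card : ℝ) ≤ V := by exact_mod_cast hcard
  have hV0 : (0 : ℝ) ≤ V := Nat.cast_nonneg _
  have hkey : ∀ p : ℕ, M2 < p →
      ((W.filter (fun a => p ∣ a.1 * a.2)).card : ℝ) ≤ 2 * (V : ℝ) / M2 :=
    fun p hp => card_mult W hM0 hMV hp hinj hV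
  -- the first set
  have hA : (((W ×ˢ W).filter (fun p : (ℕ × ℕ) × (ℕ × ℕ) => m ∣ p.1.2)).card : ℝ) ≤
      2 * V / M2 * V := by
    rw [card_prod]
    have h1 : ∀ a ∈ W, ((W.filter (fun b => m ∣ ((a, b) : (ℕ × ℕ) × (ℕ × ℕ)).1.2)).card : ℝ) =
        if m ∣ a.2 then (W.card : ℝ) else 0 := by
      intro a _
      by_cases h : m ∣ a.2
      · rw [if_pos h]
        simp [h]
      · rw [if_neg h]
        simp [h]
    rw [sum_congr rfl h1, ← sum_filter, sum_const, nsmul_eq_mul]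
    have h2 : ((W.filter (fun a => m ∣ a.2)).card : ℝ) ≤ 2 * (V : ℝ) / M2 := by
      refine le_trans (Nat.cast_le.mpr (card_le_card ?_)) (hkey m (hK.Mp m hm).2.1)
      intro a ha
      rw [mem_filter] at ha ⊢
      exact ⟨ha.1, ha.2.mul_left _⟩
    exact mul_le_mul h2 hWV (Nat.cast_nonneg _) (by positivity)
  -- the second set
  have hB : (((W ×ˢ W).filter
      (fun p : (ℕ × ℕ) × (ℕ × ℕ) => m' ∣ p.2.1 * p.2.2)).card : ℝ) ≤ V * (2 * V / M2) := by
    rw [card_prod]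
    have h1 : ∀ a ∈ W, ((W.filter
        (fun b => m' ∣ ((a, b) : (ℕ × ℕ) × (ℕ × ℕ)).2.1 * (a, b).2.2)).card : ℝ) ≤
        2 * V / M2 := by
      intro a _
      exact hkey m' (hK.Mp m' hm').2.1
    refine (sum_le_sum h1).trans ?_
    rw [sum_const, nsmul_eq_mul]
    exact mul_le_mul_of_nonneg_right hWV (by positivity)
  -- the third set
  have hC : (((W ×ˢ W).filter
      (fun p : (ℕ × ℕ) × (ℕ × ℕ) => ¬ Nat.Coprime p.1.2 (p.2.1 * p.2.2))).card : ℝ) ≤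
      V * (T * (2 * V / M2)) := by
    rw [card_prod]
    have h1 : ∀ a ∈ W, ((W.filter
        (fun b => ¬ Nat.Coprime ((a, b) : (ℕ × ℕ) × (ℕ × ℕ)).1.2
          ((a, b).2.1 * (a, b).2.2))).card : ℝ) ≤ T * (2 * V / M2) := by
      intro a ha
      have haR := hW ▸ ha
      rw [mem_product] at haR
      have h2 : (W.filter (fun b => ¬ Nat.Coprime ((a, b) : (ℕ × ℕ) × (ℕ × ℕ)).1.2
          ((a, b).2.1 * (a, b).2.2))) ⊆
          a.2.primeFactors.biUnion (fun p => W.filter (fun b => p ∣ b.1 * b.2)) := by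
        intro b hb
        rw [mem_filter] at hb
        obtain ⟨hbW, hb2⟩ := hb
        rw [Nat.Prime.not_coprime_iff_dvd] at hb2
        obtain ⟨p, hp, hp1, hp2⟩ := hb2
        rw [mem_biUnion]
        refine ⟨p, ?_, ?_⟩
        · rw [Nat.mem_primeFactors]
          exact ⟨hp, hp1, (hK.R0 a.2 haR.2).ne'⟩
        · rw [mem_filter]
          exact ⟨hbW, hp2⟩
      have h3 : ((W.filter (fun b => ¬ Nat.Coprime ((a, b) : (ℕ × ℕ) × (ℕ × ℕ)).1.2
          ((a, b).2.1 * (a, b).2.2))).card : ℝ) ≤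
          ∑ p ∈ a.2.primeFactors, ((W.filter (fun b => p ∣ b.1 * b.2)).card : ℝ) := by
        have h4 := (card_le_card h2).trans card_biUnion_le
        exact_mod_cast h4
      refine h3.trans ?_
      have h4 : ∀ p ∈ a.2.primeFactors, ((W.filter (fun b => p ∣ b.1 * b.2)).card : ℝ) ≤
          2 * V / M2 := by
        intro p hp
        rw [Nat.mem_primeFactors] at hp
        exact hkey p (hK.Rp a.2 haR.2 p hp.1 hp.2.1).1
      refine (sum_le_sum h4).trans ?_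
      rw [sum_const, nsmul_eq_mul]
      refine mul_le_mul_of_nonneg_right ?_ (by positivity)
      have h5 : (a.2.primeFactors.card : ℝ) ≤ tau a.2 := by
        unfold tau
        refine Nat.cast_le.mpr (card_le_card ?_)
        intro p hp
        rw [Nat.mem_primeFactors] at hp
        rw [Nat.mem_divisors]
        exact ⟨hp.2.1, hp.2.2⟩
      refine h5.trans (hK.T1 a.2 (hK.R0 a.2 haR.2) ?_).1
      have h6 := hV a ha
      have h7 : 0 < a.1 := by
        rcases Nat.eq_zero_or_pos a.1 with h | h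
        · rw [h, zero_mul] at h6
          omega
        · exact h
      have h8 : 1 * a.2 ≤ a.1 * a.2 := Nat.mul_le_mul_right _ h7
      have h9 : 1 ≤ M2 * S := Nat.mul_pos hM0 hK.S0
      have h10 : 1 * V ≤ M2 * S * V := Nat.mul_le_mul_right _ h9
      have h11 : 16 * M2 * V * S = 16 * (M2 * S * V) := by ring
      omega
    refine (sum_le_sum h1).trans ?_
    rw [sum_const, nsmul_eq_mul]
    refine mul_le_mul_of_nonneg_right hWV (mul_nonneg (by linarith) (by positivity))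
  have hU : (((W ×ˢ W).filter (fun p : (ℕ × ℕ) × (ℕ × ℕ) =>
      m ∣ p.1.2 ∨ m' ∣ p.2.1 * p.2.2 ∨ ¬ Nat.Coprime p.1.2 (p.2.1 * p.2.2))).card : ℝ) ≤
      (((W ×ˢ W).filter (fun p : (ℕ × ℕ) × (ℕ × ℕ) => m ∣ p.1.2)).card : ℝ) +
      ((((W ×ˢ W).filter
        (fun p : (ℕ × ℕ) × (ℕ × ℕ) => m' ∣ p.2.1 * p.2.2)).card : ℝ) +
      (((W ×ˢ W).filter
        (fun p : (ℕ × ℕ) × (ℕ × ℕ) => ¬ Nat.Coprime p.1.2 (p.2.1 * p.2.2))).card : ℝ)) := by
    rw [filter_or, filter_or]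
    have h1 := card_union_le ((W ×ˢ W).filter (fun p : (ℕ × ℕ) × (ℕ × ℕ) => m ∣ p.1.2))
      (((W ×ˢ W).filter (fun p : (ℕ × ℕ) × (ℕ × ℕ) => m' ∣ p.2.1 * p.2.2)) ∪
      ((W ×ˢ W).filter
        (fun p : (ℕ × ℕ) × (ℕ × ℕ) => ¬ Nat.Coprime p.1.2 (p.2.1 * p.2.2))))
    have h2 := card_union_le
      ((W ×ˢ W).filter (fun p : (ℕ × ℕ) × (ℕ × ℕ) => m' ∣ p.2.1 * p.2.2))
      ((W ×ˢ W).filter
        (fun p : (ℕ × ℕ) × (ℕ × ℕ) => ¬ Nat.Coprime p.1.2 (p.2.1 * p.2.2)))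
    have h3 := h1.trans (Nat.add_le_add_left h2 _)
    exact_mod_cast h3
  have h1 : (V : ℝ) ^ 2 / M2 ≤ T * (V : ℝ) ^ 2 / M2 := by
    have h2 : 1 * ((V : ℝ) ^ 2 / M2) ≤ T * ((V : ℝ) ^ 2 / M2) :=
      mul_le_mul_of_nonneg_right hT1 (by positivity)
    rw [one_mul] at h2
    refine h2.trans (le_of_eq ?_)
    ring
  have h2 : 2 * (V : ℝ) / M2 * V = 2 * ((V : ℝ) ^ 2 / M2) := by ring
  have h3 : (V : ℝ) * (2 * V / M2) = 2 * ((V : ℝ) ^ 2 / M2) := by ring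
  have h4 : (V : ℝ) * (T * (2 * V / M2)) = 2 * (T * (V : ℝ) ^ 2 / M2) := by ring
  have h5 : 6 * T * (V : ℝ) ^ 2 / M2 = 6 * (T * (V : ℝ) ^ 2 / M2) := by ring
  rw [h2] at hA
  rw [h3] at hB
  rw [h4] at hC
  rw [h5]
  linarith

end Pool.Agent.Lib.MP_1446ad_nt.SM
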