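import Pool.Agent.Lib.MP_1446ad_nt.SM.SpecD

set_option autoImplicit false

namespace Pool.Agent.Lib.MP_1446ad_nt.SM

open Finset
open scoped Classical

namespace DDBM

theorem tau_one : tau 1 = 1 := by
  unfold tau; simp

end DDBM

open DDBM

theorem specDDB : SpecDDB := by
  intro T n M2 Y0 V S S' I Mm Y R h
  have hV : 0 < V := lt_of_lt_of_le h.M20 h.MV
  have hT : 1 ≤ T := by
    have h1 := (h.T1 1 one_pos ?_).1
    · rwa [tau_one] at h1
    · have : 0 < 16 * M2 * V * S :=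
        Nat.mul_pos (Nat.mul_pos (Nat.mul_pos (by norm_num) h.M20) hV) h.S0
      exact this
  have hinj : ∀ p ∈ Y ×ˢ R, ∀ q ∈ Y ×ˢ R, p.1 * p.2 = q.1 * q.2 → p = q := by
    rintro ⟨y, r⟩ hp ⟨y', r'⟩ hq e
    simp only [mem_product] at hp hq e
    have hyp := (h.Yp y hp.1).1
    have hyq := (h.Yp y' hq.1).1
    have hyy : y = y' := by
      have hd : y ∣ y' * r' := by
        rw [← e]; exact dvd_mul_right _ _
      rcases hyp.dvd_mul.mp hd with h1 | h1
      · exact (Nat.prime_dvd_prime_iff_eq hyp hyq).mp h1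
      · exact absurd hp.1 (h.Rp r' hq.2 y hyp h1).2.1
    subst hyy
    have := Nat.eq_of_mul_eq_mul_left hyp.pos e
    rw [this]
  have hinjOn : Set.InjOn (fun p : ℕ × ℕ => p.1 * p.2) ((Y ×ˢ R : Finset (ℕ × ℕ)) : Set (ℕ × ℕ)) := by
    intro p hp q hq e
    exact hinj p hp q hq e
  have hcard : (Y ×ˢ R).card ≤ V := by
    calc (Y ×ˢ R).card ≤ (Ioc V (2 * V)).card := by
          apply card_le_card_of_injOn (fun p : ℕ × ℕ => p.1 * p.2) _ hinjOn
          intro p hp
          have hp' := mem_product.mp hp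
          exact mem_Ioc.mpr (h.RV p.1 hp'.1 p.2 hp'.2)
      _ = V := by rw [Nat.card_Ioc]; omega
  have hzero : DD Y R S S' 0 = 0 := by
    unfold DD
    apply sum_eq_zero
    intro y _
    apply sum_eq_zero
    intro r _
    rw [if_neg]
    rintro ⟨h1, _⟩
    exact absurd h1 (Nat.not_lt_zero _)
  refine ⟨hT, hcard, hinj, hzero, ?_, ?_⟩
  · intro x hx
    rcases Nat.eq_zero_or_pos x with hx0 | hx0
    · rw [hx0, hzero, abs_zero]; linarith
    have hx16 : x ≤ 16 * M2 * V * S := by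
      refine hx.trans (h.nVS.trans ?_)
      have hM : 1 ≤ M2 := h.M20
      calc 4 * V * S ≤ 16 * V * S := by gcongr; norm_num
        _ = 16 * 1 * V * S := by ring
        _ ≤ 16 * M2 * V * S := by gcongr
    have htau := (h.T1 x hx0 hx16).1
    have hVr : (0 : ℝ) < V := Nat.cast_pos.mpr hV
    -- first part
    have h1 : ∑ p ∈ Y ×ˢ R, (if p.1 * p.2 ∣ x then (1 : ℝ) else 0) ≤ T := by
      refine le_trans ?_ htau
      rw [← sum_filter, sum_const, nsmul_eq_mul, mul_one]
      unfold tau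
      apply Nat.cast_le.mpr
      apply card_le_card_of_injOn (fun p : ℕ × ℕ => p.1 * p.2)
      · intro p hp
        have hp' := mem_filter.mp hp
        exact Nat.mem_divisors.mpr ⟨hp'.2, hx0.ne'⟩
      · intro p hp q hq e
        exact hinj p (mem_filter.mp hp).1 q (mem_filter.mp hq).1 e
    have h2 : ∑ p ∈ Y ×ˢ R, 1 / ((p.1 : ℝ) * p.2) ≤ T := by
      calc ∑ p ∈ Y ×ˢ R, 1 / ((p.1 : ℝ) * p.2) ≤ ∑ p ∈ Y ×ˢ R, 1 / (V : ℝ) := by
            apply sum_le_sum
            intro p hp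
            have hp' := mem_product.mp hp
            have h3 := (h.RV p.1 hp'.1 p.2 hp'.2).1
            have h4 : (V : ℝ) ≤ (p.1 : ℝ) * p.2 := by exact_mod_cast h3.le
            exact one_div_le_one_div_of_le hVr h4
        _ = ((Y ×ˢ R).card : ℝ) / V := by
            rw [sum_const, nsmul_eq_mul]; ring
        _ ≤ 1 := by
            rw [div_le_one hVr]
            exact_mod_cast hcard
        _ ≤ T := hT
    have h3 : DD Y R S S' x = ∑ p ∈ Y ×ˢ R, (if p.1 * p.2 * S < x ∧ x ≤ p.1 * p.2 * S' then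
        ((if p.1 * p.2 ∣ x then (1 : ℝ) else 0) - 1 / ((p.1 : ℝ) * p.2)) else 0) := by
      unfold DD
      rw [sum_product]
    rw [h3]
    refine le_trans (abs_sum_le_sum_abs _ _) ?_
    calc ∑ p ∈ Y ×ˢ R, |if p.1 * p.2 * S < x ∧ x ≤ p.1 * p.2 * S' then
        ((if p.1 * p.2 ∣ x then (1 : ℝ) else 0) - 1 / ((p.1 : ℝ) * p.2)) else 0|
        ≤ ∑ p ∈ Y ×ˢ R, ((if p.1 * p.2 ∣ x then (1 : ℝ) else 0) + 1 / ((p.1 : ℝ) * p.2)) := by
          apply sum_le_sum
          intro p _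
          have hnn : (0 : ℝ) ≤ 1 / ((p.1 : ℝ) * p.2) := by positivity
          split_ifs
          · rw [abs_le]; constructor <;> linarith
          · rw [abs_le]; constructor <;> linarith
          · rw [abs_zero]; linarith
          · rw [abs_zero]; linarith
      _ = ∑ p ∈ Y ×ˢ R, (if p.1 * p.2 ∣ x then (1 : ℝ) else 0) +
            ∑ p ∈ Y ×ˢ R, 1 / ((p.1 : ℝ) * p.2) := sum_add_distrib
      _ ≤ 2 * T := by linarith
  · rintro ⟨y, hy⟩
    have hy0 := (h.Yp y hy).2.1
    have hY0 : 0 < Y0 := by have := h.MY; omega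
    have hY0r : (0 : ℝ) < Y0 := Nat.cast_pos.mpr hY0
    have h1 : R.card ≤ 2 * V / Y0 := by
      calc R.card ≤ (Ioc 0 (2 * V / Y0)).card := by
            apply card_le_card
            intro r hr
            rw [mem_Ioc]
            refine ⟨h.R0 r hr, ?_⟩
            rw [Nat.le_div_iff_mul_le hY0]
            calc r * Y0 ≤ r * y := Nat.mul_le_mul_left _ hy0.le
              _ = y * r := mul_comm _ _
              _ ≤ 2 * V := (h.RV y hy r hr).2
        _ = _ := by rw [Nat.card_Ioc]; rfl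
    calc (R.card : ℝ) ≤ ((2 * V / Y0 : ℕ) : ℝ) := Nat.cast_le.mpr h1
      _ ≤ ((2 * V : ℕ) : ℝ) / (Y0 : ℝ) := Nat.cast_div_le
      _ = 2 * V / Y0 := by push_cast; ring

end Pool.Agent.Lib.MP_1446ad_nt.SM
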