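import Pool.Agent.Lib.MP_1446ad_nt.SM.SpecK

set_option autoImplicit false

namespace Pool.Agent.Lib.MP_1446ad_nt.SM

open Finset
open scoped Classical

namespace DECM

theorem squarefree_prod_primes (s : Finset ℕ) (hs : ∀ p ∈ s, p.Prime) :
    Squarefree (∏ p ∈ s, p) := by
  induction s using Finset.induction_on with
  | empty => simp
  | insert p s hp ih =>
    rw [prod_insert hp]
    have h1 : Nat.Coprime p (∏ q ∈ s, q) := by
      apply Nat.Coprime.prod_right
      intro q hq
      refine (Nat.coprime_primes (hs p (mem_insert_self p s))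
        (hs q (mem_insert_of_mem hq))).mpr ?_
      rintro rfl
      exact hp hq
    rw [Nat.squarefree_mul h1]
    exact ⟨(hs p (mem_insert_self p s)).prime.squarefree,
      ih fun q hq => hs q (mem_insert_of_mem hq)⟩

theorem dvd_of_squarefree {b d : ℕ} (hb : Squarefree b)
    (h : ∀ p : ℕ, p.Prime → p ∣ b → p ∣ d) : b ∣ d := by
  rw [← Nat.prod_primeFactors_of_squarefree hb]
  apply Finset.prod_primes_dvd
  · intro p hp
    exact (Nat.prime_of_mem_primeFactors hp).prime
  · intro p hp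
    exact h p (Nat.prime_of_mem_primeFactors hp) (Nat.dvd_of_mem_primeFactors hp)

theorem powerful {n : ℕ} (h : ∀ p : ℕ, p.Prime → p ∣ n → p ^ 2 ∣ n) :
    ∃ d b : ℕ, n = d ^ 2 * b ∧ b ∣ d := by
  obtain ⟨b, d, hn, hb⟩ := Nat.sq_mul_squarefree n
  refine ⟨d, b, hn.symm, dvd_of_squarefree hb ?_⟩
  intro p hp hpb
  by_contra hpd
  have h1 : p ∣ n := by
    rw [← hn]
    exact Dvd.dvd.mul_left hpb _
  have h2 := h p hp h1
  rw [← hn] at h2
  have h3 : Nat.Coprime (p ^ 2) (d ^ 2) :=
    Nat.Coprime.pow 2 2 ((Nat.Prime.coprime_iff_not_dvd hp).mpr hpd)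
  have h4 : p ^ 2 ∣ b := h3.dvd_of_dvd_mul_left h2
  have h5 : p * p ∣ b := by rwa [← pow_two]
  have h6 := hb p h5
  exact hp.one_lt.ne' (Nat.isUnit_iff.mp h6)

end DECM

open DECM

theorem specDEC : SpecDEC := by
  intro P hP
  have hprime : ∀ p ∈ P.primeFactors.filter (fun p => ¬ p ^ 2 ∣ P), p.Prime := by
    intro p hp
    exact Nat.prime_of_mem_primeFactors (mem_filter.mp hp).1
  have hdvd : uu P ∣ P := by
    unfold uu
    apply Finset.prod_primes_dvd
    · intro p hp
      exact (hprime p hp).prime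
    · intro p hp
      exact Nat.dvd_of_mem_primeFactors (mem_filter.mp hp).1
  have hmul : uu P * vv P = P := Nat.mul_div_cancel' hdvd
  have hmem : ∀ p : ℕ, p.Prime → p ∣ uu P → p ∈ P.primeFactors.filter (fun p => ¬ p ^ 2 ∣ P) := by
    intro p hp hpu
    unfold uu at hpu
    rw [hp.prime.dvd_finsetProd_iff] at hpu
    obtain ⟨q, hq, hpq⟩ := hpu
    have := (Nat.prime_dvd_prime_iff_eq hp (hprime q hq)).mp hpq
    rw [this]
    exact hq
  have hcop : Nat.Coprime (uu P) (vv P) := by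
    apply Nat.coprime_of_dvd
    intro p hp hpu hpv
    have h1 := (mem_filter.mp (hmem p hp hpu)).2
    apply h1
    rw [← hmul, pow_two]
    exact mul_dvd_mul hpu hpv
  refine ⟨hmul, hcop, squarefree_prod_primes _ hprime, powerful ?_⟩
  intro p hp hpv
  have hpP : p ∣ P := by
    rw [← hmul]
    exact Dvd.dvd.mul_left hpv _
  have hpu : ¬ p ∣ uu P := by
    intro hpu
    have := Nat.dvd_gcd hpu hpv
    rw [hcop] at this
    exact hp.one_lt.ne' (Nat.dvd_one.mp this)
  have h2 : p ^ 2 ∣ P := by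
    by_contra hcon
    apply hpu
    unfold uu
    apply dvd_prod_of_mem
    exact mem_filter.mpr ⟨Nat.mem_primeFactors.mpr ⟨hp, hpP, hP.ne'⟩, hcon⟩
  have h3 : Nat.Coprime (p ^ 2) (uu P) :=
    Nat.Coprime.pow_left 2 ((Nat.Prime.coprime_iff_not_dvd hp).mpr hpu)
  rw [← hmul] at h2
  exact h3.dvd_of_dvd_mul_left h2

end Pool.Agent.Lib.MP_1446ad_nt.SM
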