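import Pool.Agent.Lib.MP_1446ad_nt.SM.SpecD

set_option autoImplicit false

namespace Pool.Agent.Lib.MP_1446ad_nt.SM

open Finset
open scoped Classical

namespace DSFM

theorem sum_pieces (bd : ℕ → ℕ) (hbd : Monotone bd) (f : ℕ → ℝ) (n : ℕ) :
    ∑ P ∈ Ioc (bd 0) (bd n), f P = ∑ i ∈ range n, ∑ P ∈ Ioc (bd i) (bd (i + 1)), f P := by
  induction n with
  | zero => simp
  | succ n ih =>
    rw [sum_range_succ, ← ih]
    exact (sum_Ioc_consecutive f (hbd (Nat.zero_le n)) (hbd (Nat.le_succ n))).symm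

theorem GG_zero (Y : Finset ℕ) (S S' N lo hi A B : ℕ)
    (h : ∀ P ∈ Ioc lo hi, ∀ Q ∈ Ioc S S', A * P ≠ B * Q + N) : GG Y S S' N lo hi A B = 0 := by
  unfold GG
  apply sum_eq_zero
  intro P hP
  apply sum_eq_zero
  intro Q hQ
  rw [if_neg (h P hP Q hQ)]

end DSFM

open DSFM in
theorem specDSF (hDSP : SpecDSP) : SpecDSF := by
  intro T Y Y0 S S' B0 I N O hD hO
  have hS := hD.S0
  have hY0 := hD.Y00
  have hB0 := hD.B00
  have hI1 := hD.I1
  have hN0 := hD.N0
  have hP0 : 0 < Y0 * S := Nat.mul_pos hY0 hS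
  have hIP : I ≤ Y0 * S := hD.IY.trans (Nat.le_mul_of_pos_right Y0 hS)
  set P0 : ℕ := Y0 * S with hP0d
  set Dl : ℕ := (P0 + I - 1) / I with hDl
  have hD1 : Dl * I ≤ P0 + I - 1 := Nat.div_mul_le_self _ _
  have hD2 : P0 ≤ Dl * I := by
    have h1 : P0 + I - 1 < I * (Dl + 1) := by
      rw [hDl]
      exact Nat.lt_mul_div_succ _ hI1
    have h2 : I * (Dl + 1) = Dl * I + I := by ring
    omega
  set bd : ℕ → ℕ := fun i => min (P0 + i * Dl) (4 * P0) with hbd
  have hmono : Monotone bd := by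
    intro i j hij
    simp only [hbd]
    apply min_le_min _ le_rfl
    have := Nat.mul_le_mul_right Dl hij
    omega
  have hbd0 : bd 0 = P0 := by simp only [hbd]; omega
  have hbdn : bd (3 * I) = 4 * P0 := by
    simp only [hbd]
    have : 3 * I * Dl = 3 * (Dl * I) := by ring
    rw [this]
    omega
  set K : ℝ := 2500 * T ^ 10 * ((Y0 * S) * S / (I : ℝ) ^ 3 +
        ((Y0 : ℝ) * S) ^ 2 * √((Y0 : ℝ) * S) * Y0 / (I * B0)) with hK
  set g : ℕ → ℕ × ℕ → ℝ := fun i p => GG Y S S' N (bd i) (bd (i + 1)) p.1 p.2 with hg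
  have hgsum : ∀ p : ℕ × ℕ, GG Y S S' N P0 (4 * P0) p.1 p.2 = ∑ i ∈ range (3 * I), g i p := by
    intro p
    have h1 := sum_pieces bd hmono
      (fun P => ∑ Q ∈ Ioc S S', if p.1 * P = p.2 * Q + N then gg Y S S' P else 0) (3 * I)
    rw [hbd0, hbdn] at h1
    exact h1
  have hpiece : ∀ i ∈ range (3 * I), ∑ p ∈ O, g i p ^ 2 ≤ K := by
    intro i _
    have hDI : DI Y0 S I (bd i) (bd (i + 1)) Dl := by
      refine ⟨?_, hmono (Nat.le_succ i), ?_, ?_, ?_, hD2⟩
      · rw [← hP0d, ← hbd0]; exact hmono (Nat.zero_le i)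
      · simp only [hbd]
        exact min_le_right _ _
      · simp only [hbd]
        have h1 : (i + 1) * Dl = i * Dl + Dl := by ring
        rw [h1, ← min_add_add_right]
        apply min_le_min
        · omega
        · exact Nat.le_add_right _ _
      · rw [← hP0d]
        omega
    have h1 := hDSP T Y Y0 S S' B0 I N (bd i) (bd (i + 1)) Dl hD hDI
    refine le_trans ?_ h1
    set R : Finset (ℕ × ℕ) := (Ioc 0 (8 * B0 * S)) ×ˢ (Ioc B0 (2 * B0)) with hR
    set h : ℕ × ℕ → ℝ := fun p => if Nat.Coprime p.1 p.2 then g i p ^ 2 else 0 with hh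
    have hh0 : ∀ p, 0 ≤ h p := by
      intro p
      simp only [hh]
      split_ifs
      · positivity
      · exact le_rfl
    have h2 : ∑ B ∈ Ioc B0 (2 * B0), ∑ A ∈ Ioc 0 (8 * B0 * S),
        (if Nat.Coprime A B then GG Y S S' N (bd i) (bd (i + 1)) A B ^ 2 else 0) =
        ∑ p ∈ R, h p := by
      rw [hR, sum_product_right]
    rw [h2]
    have h3 : ∀ p ∈ O, g i p ^ 2 ≤ if p ∈ R then h p else 0 := by
      intro p hp
      obtain ⟨hc, hb1, hb2⟩ := hO p hp
      by_cases hpR : p ∈ R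
      · rw [if_pos hpR]
        simp only [hh]
        rw [if_pos hc]
      · rw [if_neg hpR]
        have h4 : g i p = 0 := by
          simp only [hg]
          apply GG_zero
          intro P hP Q hQ heq
          rw [mem_Ioc] at hP hQ
          apply hpR
          rw [hR, mem_product, mem_Ioc, mem_Ioc]
          have hS2 := hD.S2
          have hN4 := hD.N4
          have hBQ : p.2 * Q ≤ 2 * B0 * (2 * S) := Nat.mul_le_mul hb2 (by omega)
          have hle : p.1 * P ≤ 8 * B0 * S := by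
            rw [heq]
            nlinarith
          have hp1 : 0 < p.1 := by
            rcases Nat.eq_zero_or_pos p.1 with h5 | h5
            · rw [h5, zero_mul] at heq
              omega
            · exact h5
          refine ⟨⟨hp1, ?_⟩, hb1, hb2⟩
          exact (Nat.le_mul_of_pos_right p.1 (by omega)).trans hle
        rw [h4]
        simp
    calc ∑ p ∈ O, g i p ^ 2 ≤ ∑ p ∈ O, (if p ∈ R then h p else 0) := sum_le_sum h3
      _ = ∑ p ∈ O.filter (fun p => p ∈ R), h p := by rw [sum_filter]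
      _ ≤ ∑ p ∈ R, h p := by
        apply sum_le_sum_of_subset_of_nonneg
        · intro p hp
          rw [mem_filter] at hp
          exact hp.2
        · intro p _ _
          exact hh0 p
  have hsq : ∀ p ∈ O, |GG Y S S' N P0 (4 * P0) p.1 p.2| ^ 2 ≤
      (3 * I : ℝ) * ∑ i ∈ range (3 * I), g i p ^ 2 := by
    intro p _
    rw [sq_abs, hgsum p]
    have h1 := @sq_sum_le_card_mul_sum_sq ℕ ℝ _ _ _ _ (range (3 * I)) (fun i => g i p)
    rw [card_range] at h1
    push_cast at h1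
    exact h1
  have hI0 : (0 : ℝ) ≤ I := Nat.cast_nonneg I
  calc (∑ p ∈ O, |GG Y S S' N P0 (4 * P0) p.1 p.2|) ^ 2 ≤
      (O.card : ℝ) * ∑ p ∈ O, |GG Y S S' N P0 (4 * P0) p.1 p.2| ^ 2 := sq_sum_le_card_mul_sum_sq
    _ ≤ (O.card : ℝ) * ∑ p ∈ O, (3 * I : ℝ) * ∑ i ∈ range (3 * I), g i p ^ 2 := by
        apply mul_le_mul_of_nonneg_left (sum_le_sum hsq) (Nat.cast_nonneg _)
    _ = (O.card : ℝ) * ((3 * I : ℝ) * ∑ i ∈ range (3 * I), ∑ p ∈ O, g i p ^ 2) := by
        rw [← mul_sum, sum_comm]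
    _ ≤ (O.card : ℝ) * ((3 * I : ℝ) * ∑ i ∈ range (3 * I), K) := by
        apply mul_le_mul_of_nonneg_left _ (Nat.cast_nonneg _)
        apply mul_le_mul_of_nonneg_left (sum_le_sum hpiece) (by positivity)
    _ = _ := by
        rw [sum_const, card_range, nsmul_eq_mul, hK]
        push_cast
        ring

end Pool.Agent.Lib.MP_1446ad_nt.SM
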