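import Pool.Agent.Lib.MP_1446ad_nt.SM.SpecD

set_option autoImplicit false

namespace Pool.Agent.Lib.MP_1446ad_nt.SM

open Finset
open scoped Classical

theorem specDSP (hZEA : SpecZEA) (hZEB : SpecZEB) (hBIG : SpecBIG) (hOFE : SpecOFE) : SpecDSP := by
  intro T Y Y0 S S' B0 I N lo hi Dl h hI
  have hS : (0 : ℝ) < S := Nat.cast_pos.mpr h.S0
  have hY : (0 : ℝ) < Y0 := Nat.cast_pos.mpr h.Y00
  have hB : (0 : ℝ) < B0 := Nat.cast_pos.mpr h.B00
  have hI0 : (0 : ℝ) < I := Nat.cast_pos.mpr (lt_of_lt_of_le one_pos h.I1)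
  have hBS : 0 < 8 * B0 * S := Nat.mul_pos (Nat.mul_pos (by norm_num) h.B00) h.S0
  have hT : 1 ≤ T := by
    have h1 := (h.T1 1 one_pos hBS).1
    have h2 : tau 1 = 1 := by unfold tau; simp
    rwa [h2] at h1
  have hN8 : N ≤ 8 * B0 * S := by
    refine h.N4.trans ?_
    gcongr
    norm_num
  have htN := (h.T1 N h.N0 hN8).1
  set P0 : ℝ := (Y0 : ℝ) * S with hP0
  have hP0p : 0 < P0 := mul_pos hY hS
  set X : ℝ := P0 * S / (I : ℝ) ^ 3 with hX
  set Z : ℝ := P0 ^ 2 * √P0 * Y0 / (I * B0) with hZ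
  have hXp : 0 ≤ X := by positivity
  have hZp : 0 ≤ Z := by positivity
  have hT0 : 0 ≤ T := by linarith
  -- each e
  have he : ∀ e ∈ N.divisors, |(ArithmeticFunction.moebius e : ℝ) * OffE Y S S' B0 lo hi e (N / e)| ≤
      1248 * T ^ 3 * X + 320 * T ^ 9 * Z := by
    intro e heN
    have hdvd := Nat.dvd_of_mem_divisors heN
    have heM : e * (N / e) = N := Nat.mul_div_cancel' hdvd
    have he0 : 0 < e := Nat.pos_of_mem_divisors heN
    have hmu : |(ArithmeticFunction.moebius e : ℝ)| ≤ 1 := by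
      have := ArithmeticFunction.abs_moebius_le_one (n := e)
      exact_mod_cast this
    have hb : |OffE Y S S' B0 lo hi e (N / e)| ≤ 1248 * T ^ 3 * X + 320 * T ^ 9 * Z := by
      by_cases hle : e ≤ I ^ 2
      · have h1 := hOFE T Y Y0 S S' B0 I N lo hi Dl e (N / e) h hI heM hle
        have e1 : 1224 * T ^ 3 * (Y0 * S) * S / (I : ℝ) ^ 3 = 1224 * T ^ 3 * X := by
          rw [hX, hP0]; ring
        have e2 : 320 * T ^ 9 * (Y0 * S) ^ 2 * √((Y0 : ℝ) * S) * Y0 / (I * B0) = 320 * T ^ 9 * Z := by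
          rw [hZ, hP0]; ring
        rw [e1, e2] at h1
        have : 0 ≤ T ^ 3 * X := by positivity
        nlinarith
      · have h1 := hBIG T Y Y0 S S' B0 I N lo hi Dl e (N / e) h hI heM
        push Not at hle
        have her : (0 : ℝ) < e := Nat.cast_pos.mpr he0
        have hle' : (I : ℝ) ^ 2 ≤ e := by exact_mod_cast hle.le
        have hD2 : (Dl : ℝ) * I ≤ 2 * P0 := by
          have := hI.D2
          rw [hP0]
          exact_mod_cast this
        have h2 : 12 * T ^ 3 * Dl * S / (e : ℝ) ≤ 24 * T ^ 3 * X := by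
          have e3 : 24 * T ^ 3 * X = 12 * T ^ 3 * S * (2 * P0) / (I : ℝ) ^ 3 := by
            rw [hX]; ring
          rw [e3, div_le_div_iff₀ her (by positivity)]
          have h3 : (Dl : ℝ) * (I : ℝ) ^ 3 ≤ 2 * P0 * e := by
            calc (Dl : ℝ) * (I : ℝ) ^ 3 = (Dl * I) * (I : ℝ) ^ 2 := by ring
              _ ≤ (2 * P0) * e := by gcongr
          calc 12 * T ^ 3 * Dl * S * (I : ℝ) ^ 3 = 12 * T ^ 3 * S * (Dl * (I : ℝ) ^ 3) := by ring
            _ ≤ 12 * T ^ 3 * S * (2 * P0 * e) := by gcongr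
            _ = _ := by ring
        have h4 : 0 ≤ T ^ 3 * X := by positivity
        have h5 : 0 ≤ T ^ 9 * Z := by positivity
        linarith
    rw [abs_mul]
    calc |(ArithmeticFunction.moebius e : ℝ)| * |OffE Y S S' B0 lo hi e (N / e)|
        ≤ 1 * |OffE Y S S' B0 lo hi e (N / e)| := by gcongr
      _ ≤ _ := by rw [one_mul]; exact hb
  have hoff : |OffC Y S S' B0 N lo hi| ≤ T * (1248 * T ^ 3 * X + 320 * T ^ 9 * Z) := by
    rw [hZEB Y S S' B0 N lo hi h.N0]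
    refine le_trans (abs_sum_le_sum_abs _ _) ?_
    refine le_trans (sum_le_sum he) ?_
    rw [sum_const, nsmul_eq_mul]
    have : ((N.divisors.card : ℕ) : ℝ) ≤ T := htN
    have hnn : 0 ≤ 1248 * T ^ 3 * X + 320 * T ^ 9 * Z := by positivity
    gcongr
  have hmain := hZEA T Y Y0 S S' B0 I N lo hi Dl h hI
  refine hmain.trans ?_
  have hBX : (B0 : ℝ) * S ≤ X := by
    rw [hX, le_div_iff₀ (by positivity)]
    have := h.I3
    have h3 : (I : ℝ) ^ 3 * B0 ≤ P0 := by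
      rw [hP0]
      exact_mod_cast this
    calc (B0 : ℝ) * S * (I : ℝ) ^ 3 = ((I : ℝ) ^ 3 * B0) * S := by ring
      _ ≤ P0 * S := by gcongr
  have e4 : 2500 * T ^ 10 * ((Y0 * S) * S / (I : ℝ) ^ 3 +
        ((Y0 : ℝ) * S) ^ 2 * √((Y0 : ℝ) * S) * Y0 / (I * B0)) = 2500 * T ^ 10 * (X + Z) := by
    rw [hX, hZ, hP0]
  rw [e4]
  have hT3 : T ^ 3 ≤ T ^ 10 := pow_le_pow_right₀ hT (by norm_num)
  have hT4 : T ^ 4 ≤ T ^ 10 := pow_le_pow_right₀ hT (by norm_num)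
  have a1 : 4 * T ^ 3 * B0 * S ≤ 4 * T ^ 10 * X := by
    calc 4 * T ^ 3 * B0 * S = 4 * T ^ 3 * (B0 * S) := by ring
      _ ≤ 4 * T ^ 10 * X := by gcongr
  have a2 : 2 * (T * (1248 * T ^ 3 * X + 320 * T ^ 9 * Z)) ≤ 2496 * T ^ 10 * X + 640 * T ^ 10 * Z := by
    calc 2 * (T * (1248 * T ^ 3 * X + 320 * T ^ 9 * Z)) = 2496 * T ^ 4 * X + 640 * T ^ 10 * Z := by ring
      _ ≤ _ := by gcongr
  have a3 : 0 ≤ T ^ 10 * Z := by positivity
  calc 4 * T ^ 3 * B0 * S + 2 * |OffC Y S S' B0 N lo hi|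
      ≤ 4 * T ^ 10 * X + 2 * (T * (1248 * T ^ 3 * X + 320 * T ^ 9 * Z)) := by linarith
    _ ≤ 4 * T ^ 10 * X + (2496 * T ^ 10 * X + 640 * T ^ 10 * Z) := by linarith
    _ ≤ 2500 * T ^ 10 * (X + Z) := by nlinarith

end Pool.Agent.Lib.MP_1446ad_nt.SM
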