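import Pool.Agent.Lib.MP_1446ad_nt.SM.SpecK

/-!
# MP_1446ad_nt, part K, module FOU: the Fourier expansion of the counting function
-/

set_option autoImplicit false

namespace Pool.Agent.Lib.MP_1446ad_nt.SM

open Finset
open scoped Classical

namespace FOUM

/-- A sum over `range P` is a sum over `ZMod P`. -/
theorem sum_range_zmod (P : ℕ) [NeZero P] (f : ZMod P → ℂ) :
    ∑ h ∈ range P, f ((h : ℕ) : ZMod P) = ∑ x : ZMod P, f x := by
  apply Finset.sum_nbij' (fun h => ((h : ℕ) : ZMod P)) (fun x => x.val)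
  · intro h _
    exact mem_univ _
  · intro x _
    rw [mem_range]
    exact ZMod.val_lt x
  · intro h hh
    rw [mem_range] at hh
    exact ZMod.val_cast_of_lt hh
  · intro x _
    exact ZMod.natCast_zmod_val x
  · intro h _
    rfl

/-- Orthogonality. -/
theorem orth (P : ℕ) [NeZero P] (u : ZMod P) :
    ∑ a : ZMod P, (ZMod.stdAddChar (a * u) : ℂ) = if u = 0 then (P : ℂ) else 0 := by
  rw [AddChar.sum_mulShift u (ZMod.isPrimitive_stdAddChar P), ZMod.card]
  split_ifs <;> simp

/-- The complete sum for residues `s`, `t`. -/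
theorem key (P : ℕ) [NeZero P] (c s t : ZMod P) :
    ∑ a : ZMod P, ∑ b : ZMod P, (ZMod.stdAddChar (-(a * s)) : ℂ) * ZMod.stdAddChar (-(b * t)) *
      (∑ x : ZMod P, ∑ z : ZMod P,
        if x * z = c then (ZMod.stdAddChar (a * x + b * z) : ℂ) else 0) =
      if s * t = c then (P : ℂ) ^ 2 else 0 := by
  have h1 : ∀ a b : ZMod P, (ZMod.stdAddChar (-(a * s)) : ℂ) * ZMod.stdAddChar (-(b * t)) *
      (∑ x : ZMod P, ∑ z : ZMod P,
        if x * z = c then (ZMod.stdAddChar (a * x + b * z) : ℂ) else 0) =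
      ∑ x : ZMod P, ∑ z : ZMod P, if x * z = c then
        (ZMod.stdAddChar (a * (x - s)) : ℂ) * ZMod.stdAddChar (b * (z - t)) else 0 := by
    intro a b
    rw [Finset.mul_sum]
    apply Finset.sum_congr rfl
    intro x _
    rw [Finset.mul_sum]
    apply Finset.sum_congr rfl
    intro z _
    split_ifs with hxz
    · rw [← AddChar.map_add_eq_mul, ← AddChar.map_add_eq_mul, ← AddChar.map_add_eq_mul]
      congr 1
      ring
    · rw [mul_zero]
  calc ∑ a : ZMod P, ∑ b : ZMod P, (ZMod.stdAddChar (-(a * s)) : ℂ) * ZMod.stdAddChar (-(b * t)) *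
      (∑ x : ZMod P, ∑ z : ZMod P,
        if x * z = c then (ZMod.stdAddChar (a * x + b * z) : ℂ) else 0)
      = ∑ a : ZMod P, ∑ b : ZMod P, ∑ x : ZMod P, ∑ z : ZMod P, (if x * z = c then
        (ZMod.stdAddChar (a * (x - s)) : ℂ) * ZMod.stdAddChar (b * (z - t)) else 0) := by
        apply Finset.sum_congr rfl
        intro a _
        apply Finset.sum_congr rfl
        intro b _
        exact h1 a b
    _ = ∑ a : ZMod P, ∑ x : ZMod P, ∑ z : ZMod P, ∑ b : ZMod P, (if x * z = c then
        (ZMod.stdAddChar (a * (x - s)) : ℂ) * ZMod.stdAddChar (b * (z - t)) else 0) := by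
        apply Finset.sum_congr rfl
        intro a _
        rw [Finset.sum_comm]
        apply Finset.sum_congr rfl
        intro x _
        rw [Finset.sum_comm]
    _ = ∑ x : ZMod P, ∑ z : ZMod P, ∑ a : ZMod P, ∑ b : ZMod P, (if x * z = c then
        (ZMod.stdAddChar (a * (x - s)) : ℂ) * ZMod.stdAddChar (b * (z - t)) else 0) := by
        rw [Finset.sum_comm]
        apply Finset.sum_congr rfl
        intro x _
        rw [Finset.sum_comm]
    _ = ∑ x : ZMod P, ∑ z : ZMod P, (if x * z = c then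
        (if x = s then (P : ℂ) else 0) * (if z = t then (P : ℂ) else 0) else 0) := by
        apply Finset.sum_congr rfl
        intro x _
        apply Finset.sum_congr rfl
        intro z _
        by_cases hxz : x * z = c
        · simp only [if_pos hxz]
          rw [← Finset.sum_mul_sum, orth, orth]
          simp only [sub_eq_zero]
        · simp only [if_neg hxz, Finset.sum_const_zero]
    _ = if s * t = c then (P : ℂ) ^ 2 else 0 := by
        rw [Finset.sum_eq_single s]
        · rw [Finset.sum_eq_single t]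
          · simp only [if_true]
            split_ifs
            · ring
            · rfl
          · intro z _ hz
            simp [hz]
          · intro h
            exact absurd (mem_univ _) h
        · intro x _ hx
          simp [hx]
        · intro h
          exact absurd (mem_univ _) h

end FOUM

open FOUM in
theorem specFOU : SpecFOU := by
  intro P _ y β c q W L
  have hP : (P : ℂ) ≠ 0 := by exact_mod_cast NeZero.ne P
  -- the counting function
  have hcnt : ((cntB P y β c q W L : ℕ) : ℂ) = ∑ i ∈ range W, ∑ j ∈ range L,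
      if ((β + y * (i : ℤ) : ℤ) : ZMod P) * ((q + (j : ℤ) : ℤ) : ZMod P) = (c : ZMod P)
        then (1 : ℂ) else 0 := by
    rw [cntB, Finset.card_filter, Finset.sum_product]
    push_cast
    apply Finset.sum_congr rfl
    intro i _
    apply Finset.sum_congr rfl
    intro j _
    have : ((P : ℤ) ∣ (β + y * (i : ℤ)) * (q + (j : ℤ)) - c) ↔
        ((β + y * (i : ℤ) : ZMod P)) * ((q + (j : ℤ) : ZMod P)) = (c : ZMod P) := by
      rw [← ZMod.intCast_zmod_eq_zero_iff_dvd, Int.cast_sub, sub_eq_zero]
      push_cast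
      rfl
    simp only [this]
    push_cast
    rfl
  rw [hcnt]
  -- the right-hand side
  have hrhs : ∑ h ∈ range P, ∑ k ∈ range P,
      (∑ i ∈ range W, (ZMod.stdAddChar ((-((h : ℤ) * (β + y * (i : ℤ))) : ℤ) : ZMod P) : ℂ)) *
      (∑ j ∈ range L, (ZMod.stdAddChar ((-((k : ℤ) * (q + (j : ℤ))) : ℤ) : ZMod P) : ℂ)) *
      kc P c h k = ∑ a : ZMod P, ∑ b : ZMod P,
      (∑ i ∈ range W, (ZMod.stdAddChar (-(a * ((β + y * (i : ℤ) : ℤ) : ZMod P))) : ℂ)) *
      (∑ j ∈ range L, (ZMod.stdAddChar (-(b * ((q + (j : ℤ) : ℤ) : ZMod P))) : ℂ)) *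
      (∑ x : ZMod P, ∑ z : ZMod P,
        if x * z = (c : ZMod P) then (ZMod.stdAddChar (a * x + b * z) : ℂ) else 0) := by
    rw [← sum_range_zmod]
    apply Finset.sum_congr rfl
    intro h _
    rw [← sum_range_zmod]
    apply Finset.sum_congr rfl
    intro k _
    rw [kc]
    push_cast
    rfl
  rw [hrhs]
  have hexp : ∑ a : ZMod P, ∑ b : ZMod P,
      (∑ i ∈ range W, (ZMod.stdAddChar (-(a * ((β + y * (i : ℤ) : ℤ) : ZMod P))) : ℂ)) *
      (∑ j ∈ range L, (ZMod.stdAddChar (-(b * ((q + (j : ℤ) : ℤ) : ZMod P))) : ℂ)) *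
      (∑ x : ZMod P, ∑ z : ZMod P,
        if x * z = (c : ZMod P) then (ZMod.stdAddChar (a * x + b * z) : ℂ) else 0) =
      ∑ i ∈ range W, ∑ j ∈ range L, ∑ a : ZMod P, ∑ b : ZMod P,
      (ZMod.stdAddChar (-(a * ((β + y * (i : ℤ) : ℤ) : ZMod P))) : ℂ) *
      (ZMod.stdAddChar (-(b * ((q + (j : ℤ) : ℤ) : ZMod P))) : ℂ) *
      (∑ x : ZMod P, ∑ z : ZMod P,
        if x * z = (c : ZMod P) then (ZMod.stdAddChar (a * x + b * z) : ℂ) else 0) := by
    calc _ = ∑ a : ZMod P, ∑ b : ZMod P, ∑ i ∈ range W, ∑ j ∈ range L,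
          (ZMod.stdAddChar (-(a * ((β + y * (i : ℤ) : ℤ) : ZMod P))) : ℂ) *
          (ZMod.stdAddChar (-(b * ((q + (j : ℤ) : ℤ) : ZMod P))) : ℂ) *
          (∑ x : ZMod P, ∑ z : ZMod P,
            if x * z = (c : ZMod P) then (ZMod.stdAddChar (a * x + b * z) : ℂ) else 0) := by
          apply Finset.sum_congr rfl
          intro a _
          apply Finset.sum_congr rfl
          intro b _
          rw [Finset.sum_mul_sum, Finset.sum_mul]
          apply Finset.sum_congr rfl
          intro i _
          rw [Finset.sum_mul]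
      _ = ∑ a : ZMod P, ∑ i ∈ range W, ∑ j ∈ range L, ∑ b : ZMod P,
          (ZMod.stdAddChar (-(a * ((β + y * (i : ℤ) : ℤ) : ZMod P))) : ℂ) *
          (ZMod.stdAddChar (-(b * ((q + (j : ℤ) : ℤ) : ZMod P))) : ℂ) *
          (∑ x : ZMod P, ∑ z : ZMod P,
            if x * z = (c : ZMod P) then (ZMod.stdAddChar (a * x + b * z) : ℂ) else 0) := by
          apply Finset.sum_congr rfl
          intro a _
          rw [Finset.sum_comm]
          apply Finset.sum_congr rfl
          intro i _
          rw [Finset.sum_comm]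
      _ = _ := by
          rw [Finset.sum_comm]
          apply Finset.sum_congr rfl
          intro i _
          rw [Finset.sum_comm]
  rw [hexp, Finset.mul_sum]
  apply Finset.sum_congr rfl
  intro i _
  rw [Finset.mul_sum]
  apply Finset.sum_congr rfl
  intro j _
  rw [key]
  split_ifs
  · field_simp
  · rw [mul_zero]

end Pool.Agent.Lib.MP_1446ad_nt.SM
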