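import Pool.Agent.Lib.MP_1446ad_nt.SM.SpecK

/-!
# MP_1446ad_nt, part K, module GCS: the sum of `√gcd(h,P) / min(h, P-h)`
-/

set_option autoImplicit false

namespace Pool.Agent.Lib.MP_1446ad_nt.SM

open Finset
open scoped Classical

namespace GCSM

/-- The harmonic sum over the multiples of `d`. -/
theorem harm_mul (P d : ℕ) (hd : 0 < d) :
    ∑ h ∈ (Ioo 0 P).filter (fun h => d ∣ h), (1 : ℝ) / (h : ℝ) ≤ (1 / (d : ℝ)) * (1 + Real.log P) := by
  have hd' : (0 : ℝ) < d := by exact_mod_cast hd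
  have hsub : (Ioo 0 P).filter (fun h => d ∣ h) ⊆ (Icc 1 P).image (fun j => d * j) := by
    intro h hh
    rw [mem_filter, mem_Ioo] at hh
    obtain ⟨⟨h1, h2⟩, j, rfl⟩ := hh
    rw [mem_image]
    refine ⟨j, ?_, rfl⟩
    rw [mem_Icc]
    constructor
    · exact Nat.pos_of_mul_pos_left h1
    · exact le_trans (Nat.le_mul_of_pos_left j hd) h2.le
  calc ∑ h ∈ (Ioo 0 P).filter (fun h => d ∣ h), (1 : ℝ) / (h : ℝ)
      ≤ ∑ h ∈ (Icc 1 P).image (fun j => d * j), (1 : ℝ) / (h : ℝ) :=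
        Finset.sum_le_sum_of_subset_of_nonneg hsub (fun _ _ _ => by positivity)
    _ = ∑ j ∈ Icc 1 P, (1 : ℝ) / ((d * j : ℕ) : ℝ) := by
        rw [Finset.sum_image]
        intro a _ b _ hab
        exact Nat.eq_of_mul_eq_mul_left hd hab
    _ = (1 / (d : ℝ)) * ∑ j ∈ Icc 1 P, (1 : ℝ) / (j : ℝ) := by
        rw [Finset.mul_sum]
        apply Finset.sum_congr rfl
        intro j _
        push_cast
        rw [one_div_mul_one_div]
    _ ≤ (1 / (d : ℝ)) * (1 + Real.log P) := by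
        apply mul_le_mul_of_nonneg_left _ (by positivity)
        have := harmonic_le_one_add_log P
        rw [harmonic_eq_sum_Icc] at this
        push_cast at this
        simpa [one_div] using this

/-- One half of the sum. -/
theorem half (P : ℕ) (hP : 0 < P) :
    ∑ h ∈ Ioo 0 P, √(Nat.gcd h P : ℝ) / (h : ℝ) ≤ tau P * (1 + Real.log P) := by
  have hlog : 0 ≤ 1 + Real.log P := by
    have := Real.log_natCast_nonneg P
    linarith
  have h1 : ∀ h ∈ Ioo 0 P, √(Nat.gcd h P : ℝ) / (h : ℝ) ≤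
      ∑ d ∈ P.divisors, if d ∣ h then √(d : ℝ) / (h : ℝ) else 0 := by
    intro h _
    have hmem : Nat.gcd h P ∈ P.divisors := by
      rw [Nat.mem_divisors]
      exact ⟨Nat.gcd_dvd_right h P, hP.ne'⟩
    have := Finset.single_le_sum (f := fun d : ℕ => if d ∣ h then √(d : ℝ) / (h : ℝ) else 0)
      (fun d _ => by split_ifs <;> positivity) hmem
    rwa [if_pos (Nat.gcd_dvd_left h P)] at this
  calc ∑ h ∈ Ioo 0 P, √(Nat.gcd h P : ℝ) / (h : ℝ)
      ≤ ∑ h ∈ Ioo 0 P, ∑ d ∈ P.divisors, if d ∣ h then √(d : ℝ) / (h : ℝ) else 0 :=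
        Finset.sum_le_sum h1
    _ = ∑ d ∈ P.divisors, ∑ h ∈ Ioo 0 P, if d ∣ h then √(d : ℝ) / (h : ℝ) else 0 :=
        Finset.sum_comm
    _ ≤ ∑ d ∈ P.divisors, (1 + Real.log P) := by
        apply Finset.sum_le_sum
        intro d hd
        have hd0 : 0 < d := Nat.pos_of_mem_divisors hd
        have hd' : (0 : ℝ) < d := by exact_mod_cast hd0
        rw [← Finset.sum_filter]
        have e : ∑ h ∈ (Ioo 0 P).filter (fun h => d ∣ h), √(d : ℝ) / (h : ℝ) =
            √(d : ℝ) * ∑ h ∈ (Ioo 0 P).filter (fun h => d ∣ h), (1 : ℝ) / (h : ℝ) := by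
          rw [Finset.mul_sum]
          apply Finset.sum_congr rfl
          intro h _
          rw [mul_one_div]
        rw [e]
        have h3 : √(d : ℝ) * (1 / (d : ℝ)) ≤ 1 := by
          rw [mul_one_div, div_le_one hd']
          rw [Real.sqrt_le_left hd'.le]
          have : (1 : ℝ) ≤ d := by exact_mod_cast hd0
          nlinarith
        calc √(d : ℝ) * ∑ h ∈ (Ioo 0 P).filter (fun h => d ∣ h), (1 : ℝ) / (h : ℝ)
            ≤ √(d : ℝ) * ((1 / (d : ℝ)) * (1 + Real.log P)) :=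
              mul_le_mul_of_nonneg_left (harm_mul P d hd0) (Real.sqrt_nonneg _)
          _ = (√(d : ℝ) * (1 / (d : ℝ))) * (1 + Real.log P) := by ring
          _ ≤ 1 * (1 + Real.log P) := mul_le_mul_of_nonneg_right h3 hlog
          _ = 1 + Real.log P := one_mul _
    _ = tau P * (1 + Real.log P) := by
        rw [Finset.sum_const, nsmul_eq_mul, tau]

/-- The reflected half. -/
theorem refl (P : ℕ) :
    ∑ h ∈ Ioo 0 P, √(Nat.gcd h P : ℝ) / ((P : ℝ) - h) =
      ∑ h ∈ Ioo 0 P, √(Nat.gcd h P : ℝ) / (h : ℝ) := by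
  apply Finset.sum_nbij' (fun h => P - h) (fun h => P - h)
  · intro h hh
    rw [mem_Ioo] at hh ⊢
    omega
  · intro h hh
    rw [mem_Ioo] at hh ⊢
    omega
  · intro h hh
    rw [mem_Ioo] at hh
    omega
  · intro h hh
    rw [mem_Ioo] at hh
    omega
  · intro h hh
    rw [mem_Ioo] at hh
    have hg : Nat.gcd (P - h) P = Nat.gcd h P := by
      rw [Nat.gcd_comm, Nat.gcd_self_sub_right hh.2.le, Nat.gcd_comm]
    rw [hg, Nat.cast_sub hh.2.le]

end GCSM

open GCSM in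
theorem specGCS : SpecGCS := by
  intro P hP
  have h1 : ∀ h ∈ Ioo 0 P, √(Nat.gcd h P : ℝ) / min (h : ℝ) ((P : ℝ) - h) ≤
      √(Nat.gcd h P : ℝ) / (h : ℝ) + √(Nat.gcd h P : ℝ) / ((P : ℝ) - h) := by
    intro h hh
    rw [mem_Ioo] at hh
    have h0 : (0 : ℝ) < h := by exact_mod_cast hh.1
    have h2 : (h : ℝ) < P := by exact_mod_cast hh.2
    have h3 : (0 : ℝ) < (P : ℝ) - h := by linarith
    have ha : 0 ≤ √(Nat.gcd h P : ℝ) / (h : ℝ) := by positivity
    have hb : 0 ≤ √(Nat.gcd h P : ℝ) / ((P : ℝ) - h) := by positivity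
    rcases le_total (h : ℝ) ((P : ℝ) - h) with hc | hc
    · rw [min_eq_left hc]
      linarith
    · rw [min_eq_right hc]
      linarith
  calc ∑ h ∈ Ioo 0 P, √(Nat.gcd h P : ℝ) / min (h : ℝ) ((P : ℝ) - h)
      ≤ ∑ h ∈ Ioo 0 P, (√(Nat.gcd h P : ℝ) / (h : ℝ) + √(Nat.gcd h P : ℝ) / ((P : ℝ) - h)) :=
        Finset.sum_le_sum h1
    _ = ∑ h ∈ Ioo 0 P, √(Nat.gcd h P : ℝ) / (h : ℝ) + ∑ h ∈ Ioo 0 P, √(Nat.gcd h P : ℝ) / (h : ℝ) := by
        rw [Finset.sum_add_distrib, refl]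
    _ ≤ tau P * (1 + Real.log P) + tau P * (1 + Real.log P) :=
        add_le_add (half P hP) (half P hP)
    _ = 2 * tau P * (1 + Real.log P) := by ring

end Pool.Agent.Lib.MP_1446ad_nt.SM
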