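import Pool.Agent.Lib.MP_1446ad_nt.SM.SpecK

/-!
# MP_1446ad_nt, part K, module GEO: geometric sums
-/

set_option autoImplicit false

namespace Pool.Agent.Lib.MP_1446ad_nt.SM

open Finset
open scoped Classical

namespace GEOM

/-- Jordan's inequality in the form needed. -/
theorem jordan (P h : ℝ) (h0 : 0 < h) (hP : h < P) :
    2 * min h (P - h) / P ≤ Real.sin (Real.pi * h / P) := by
  have hP0 : 0 < P := h0.trans hP
  have hpi := Real.pi_pos
  rcases le_total h (P - h) with hc | hc
  · rw [min_eq_left hc]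
    have hx' : Real.pi * h / P ≤ Real.pi / 2 := by
      rw [div_le_iff₀ hP0]
      nlinarith
    have := Real.mul_le_sin (x := Real.pi * h / P) (by positivity) hx'
    calc 2 * h / P = 2 / Real.pi * (Real.pi * h / P) := by field_simp
      _ ≤ _ := this
  · rw [min_eq_right hc]
    have hx' : Real.pi * (P - h) / P ≤ Real.pi / 2 := by
      rw [div_le_iff₀ hP0]
      nlinarith
    have h2 : 0 ≤ Real.pi * (P - h) / P := by
      apply div_nonneg _ hP0.le
      exact mul_nonneg hpi.le (by linarith)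
    have := Real.mul_le_sin (x := Real.pi * (P - h) / P) h2 hx'
    have e : Real.pi * (P - h) / P = Real.pi - Real.pi * h / P := by
      field_simp
    calc 2 * (P - h) / P = 2 / Real.pi * (Real.pi * (P - h) / P) := by field_simp
      _ ≤ _ := this
      _ = _ := by rw [e, Real.sin_pi_sub]

end GEOM

open GEOM in
theorem specGEO : SpecGEO := by
  intro P _ W h h0 hP
  have hP0 : (0 : ℝ) < P := by exact_mod_cast h0.trans hP
  have h0' : (0 : ℝ) < h := by exact_mod_cast h0
  have hP' : (h : ℝ) < P := by exact_mod_cast hP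
  set z : ℂ := ZMod.stdAddChar ((h : ℕ) : ZMod P) with hz
  have hsum : ∑ i ∈ range W, ZMod.stdAddChar (((h * i : ℕ) : ZMod P)) = ∑ i ∈ range W, z ^ i := by
    apply Finset.sum_congr rfl
    intro i _
    rw [hz, ← AddChar.map_nsmul_eq_pow]
    congr 1
    rw [nsmul_eq_mul]
    push_cast
    ring
  have hz1 : z = Complex.exp (Complex.I * ((2 * Real.pi * h / P : ℝ) : ℂ)) := by
    rw [hz]
    have := ZMod.stdAddChar_coe (N := P) (h : ℤ)
    rw [Int.cast_natCast] at this
    rw [this]
    congr 1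
    push_cast
    ring
  have hnz : ‖z‖ = 1 := by rw [hz1, Complex.norm_exp_I_mul_ofReal]
  have hm0 : 0 < min (h : ℝ) ((P : ℝ) - h) := lt_min h0' (by linarith)
  have hj := jordan P h h0' hP'
  have hz2 : 4 * min (h : ℝ) ((P : ℝ) - h) / P ≤ ‖z - 1‖ := by
    rw [hz1, Complex.norm_exp_I_mul_ofReal_sub_one, norm_mul, Real.norm_eq_abs, Real.norm_eq_abs,
      abs_of_pos (by norm_num : (0 : ℝ) < 2)]
    have e : 2 * Real.pi * h / P / 2 = Real.pi * h / P := by ring
    rw [e]
    have := le_abs_self (Real.sin (Real.pi * h / P))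
    calc 4 * min (h : ℝ) ((P : ℝ) - h) / P = 2 * (2 * min (h : ℝ) ((P : ℝ) - h) / P) := by ring
      _ ≤ 2 * |Real.sin (Real.pi * h / P)| := by linarith
  have hpos : 0 < 4 * min (h : ℝ) ((P : ℝ) - h) / P := by positivity
  have hne : z ≠ 1 := by
    intro hc
    rw [hc, sub_self, norm_zero] at hz2
    linarith
  rw [hsum, geom_sum_eq hne, norm_div]
  have hnum : ‖z ^ W - 1‖ ≤ 2 := by
    calc ‖z ^ W - 1‖ ≤ ‖z ^ W‖ + ‖(1 : ℂ)‖ := norm_sub_le _ _
      _ = 2 := by rw [norm_pow, hnz]; norm_num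
  calc ‖z ^ W - 1‖ / ‖z - 1‖ ≤ 2 / (4 * min (h : ℝ) ((P : ℝ) - h) / P) :=
        div_le_div₀ (by norm_num) hnum hpos hz2
    _ = _ := by
        field_simp
        norm_num

end Pool.Agent.Lib.MP_1446ad_nt.SM
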