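import Pool.Agent.Lib.MP_1446ad_nt.SM.SpecD

/-!
# MP_1446ad_nt, module GGB: the size of `gg`
-/

set_option autoImplicit false

namespace Pool.Agent.Lib.MP_1446ad_nt.SM

open Finset
open scoped Classical

theorem specGGB : SpecGGB := by
  intro T Y Y0 S S' B0 I N h
  have hS := h.S0
  have hB := h.B00
  have hY0 := h.Y00
  have hsub : Y ⊆ Ioc Y0 (2 * Y0) := by
    intro y hy
    obtain ⟨_, h1, h2, _⟩ := h.Yp y hy
    exact Finset.mem_Ioc.2 ⟨h1, h2⟩
  have hcard : Y.card ≤ Y0 := by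
    have := Finset.card_le_card hsub
    rw [Nat.card_Ioc] at this
    omega
  refine ⟨hcard, fun P hP hP2 => ?_⟩
  have hBS : 0 < B0 * S := Nat.mul_pos hB hS
  have hT1 : (1 : ℝ) ≤ T := by
    have := (h.T1 1 one_pos (by nlinarith [hBS])).1
    simpa [tau] using this
  have hTP : tau P ≤ T := (h.T1 P hP hP2).1
  have hY0' : (0 : ℝ) < Y0 := by exact_mod_cast hY0
  have hA : |gg Y S S' P| ≤ ∑ y ∈ Y, ((if y ∣ P then (1 : ℝ) else 0) + 1 / (y : ℝ)) := by
    unfold gg
    refine (Finset.abs_sum_le_sum_abs _ _).trans (Finset.sum_le_sum fun y hy => ?_)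
    have hy1 : (0 : ℝ) ≤ 1 / (y : ℝ) := by positivity
    have hy2 : (0 : ℝ) ≤ (if y ∣ P then (1 : ℝ) else 0) := by split_ifs <;> norm_num
    split_ifs with c1 c2 c2
    · rw [abs_le]; constructor <;> linarith
    · rw [abs_le]; constructor <;> linarith
    · simp only [abs_zero]; linarith
    · simp only [abs_zero]; linarith
  have hB1 : ∑ y ∈ Y, (if y ∣ P then (1 : ℝ) else 0) ≤ T := by
    rw [← Finset.sum_filter, Finset.sum_const, nsmul_eq_mul, mul_one]
    refine le_trans ?_ hTP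
    unfold tau
    exact_mod_cast Finset.card_le_card (fun y hy => by
      rw [Finset.mem_filter] at hy
      exact Nat.mem_divisors.2 ⟨hy.2, hP.ne'⟩)
  have hB2 : ∑ y ∈ Y, 1 / (y : ℝ) ≤ 1 := by
    have h1 : ∑ y ∈ Y, 1 / (y : ℝ) ≤ ∑ _y ∈ Y, 1 / (Y0 : ℝ) := by
      refine Finset.sum_le_sum fun y hy => ?_
      have hh := (Finset.mem_Ioc.1 (hsub hy)).1
      have : (Y0 : ℝ) ≤ y := by exact_mod_cast hh.le
      exact one_div_le_one_div_of_le hY0' this
    refine h1.trans ?_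
    rw [Finset.sum_const, nsmul_eq_mul]
    have : (Y.card : ℝ) ≤ Y0 := by exact_mod_cast hcard
    rw [mul_one_div, div_le_one hY0']
    exact this
  rw [Finset.sum_add_distrib] at hA
  linarith

end Pool.Agent.Lib.MP_1446ad_nt.SM
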