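import Pool.Agent.Lib.MP_1446ad_nt.SM.SpecD

/-!
# MP_1446ad_nt, part D: module HCG, the main part is a sum of the `GG`
-/

set_option autoImplicit false

namespace Pool.Agent.Lib.MP_1446ad_nt.SM.HCGM

open Finset
open scoped Classical

lemma gg_ne {Y : Finset ℕ} {S S' P : ℕ} (h : gg Y S S' P ≠ 0) : ∃ y ∈ Y, y * S < P ∧ P ≤ y * S' := by
  by_contra hcon
  push Not at hcon
  apply h
  unfold gg
  apply sum_eq_zero
  intro y hy
  rw [if_neg]
  rintro ⟨h1, h2⟩
  have := hcon y hy h1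
  omega

section

variable {T : ℝ} {n M2 Y0 V S S' I : ℕ} {Mm Y R : Finset ℕ}

lemma core (h : DK T n M2 Y0 V S S' I Mm Y R) {m m' : ℕ} (hm : m ∈ Mm) (hm' : m' ∈ Mm)
    (hlt : m < m') {r1 y r : ℕ} (hr1 : r1 ∈ R) (hy : y ∈ Y) (hr : r ∈ R) :
    (∑ q ∈ Ioc 0 n, (if r1 ∣ n - q * m then gg Y S S' ((n - q * m) / r1) else 0) *
      (if (y * r * S < n - q * m' ∧ n - q * m' ≤ y * r * S') ∧ y * r ∣ n - q * m' then (1 : ℝ)
        else 0)) =
      GG Y S S' (n * (m' - m)) (Y0 * S) (4 * (Y0 * S)) (m' * r1) (m * (y * r)) := by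
  unfold GG
  rw [← sum_product' (Ioc (Y0 * S) (4 * (Y0 * S))) (Ioc S S') (fun P Q =>
    if m' * r1 * P = m * (y * r) * Q + n * (m' - m) then gg Y S S' P else 0)]
  have hr1p := h.R0 r1 hr1
  have hrp := h.R0 r hr
  obtain ⟨hyP, hy0, hy1⟩ := (h.Yp y hy).1, (h.Yp y hy).2.1, (h.Yp y hy).2.2.1
  have hyr : 0 < y * r := Nat.mul_pos hyP.pos hrp
  obtain ⟨hmP, hmM, hmM2, hmn⟩ := h.Mp m hm
  obtain ⟨hmP', hmM', hmM2', hmn'⟩ := h.Mp m' hm'
  obtain ⟨δ, hδ⟩ : ∃ δ, m' = m + δ := ⟨m' - m, by omega⟩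
  have hδ' : m' - m = δ := by omega
  have hδ0 : 0 < δ := by omega
  have hmδ : Nat.Coprime m δ := by
    rw [hmP.coprime_iff_not_dvd]
    intro hd
    have h1 : m ∣ m' := by
      rw [hδ]
      exact (Nat.dvd_add_right (dvd_refl m)).2 hd
    have := (Nat.prime_dvd_prime_iff_eq hmP hmP').1 h1
    omega
  rw [hδ']
  -- the facts for a nonzero term on the left
  have left : ∀ q ∈ Ioc 0 n, (if r1 ∣ n - q * m then gg Y S S' ((n - q * m) / r1) else 0) *
      (if (y * r * S < n - q * m' ∧ n - q * m' ≤ y * r * S') ∧ y * r ∣ n - q * m' then (1 : ℝ)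
        else 0) ≠ 0 → r1 ∣ n - q * m ∧ gg Y S S' ((n - q * m) / r1) ≠ 0 ∧
        (y * r * S < n - q * m' ∧ n - q * m' ≤ y * r * S') ∧ y * r ∣ n - q * m' := by
    intro q _ hne
    have h1 := left_ne_zero_of_mul hne
    have h2 := right_ne_zero_of_mul hne
    have h3 : r1 ∣ n - q * m := by
      by_contra hcon
      rw [if_neg hcon] at h1
      exact h1 rfl
    rw [if_pos h3] at h1
    have h4 : (y * r * S < n - q * m' ∧ n - q * m' ≤ y * r * S') ∧ y * r ∣ n - q * m' := by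
      by_contra hcon
      rw [if_neg hcon] at h2
      exact h2 rfl
    exact ⟨h3, h1, h4⟩
  -- the equation
  have main : ∀ q ∈ Ioc 0 n, (if r1 ∣ n - q * m then gg Y S S' ((n - q * m) / r1) else 0) *
      (if (y * r * S < n - q * m' ∧ n - q * m' ≤ y * r * S') ∧ y * r ∣ n - q * m' then (1 : ℝ)
        else 0) ≠ 0 → m' * r1 * ((n - q * m) / r1) = m * (y * r) * ((n - q * m') / (y * r)) + n * δ := by
    intro q hq hne
    obtain ⟨h1, h2, h3, h4⟩ := left q hq hne
    obtain ⟨P, hP⟩ := h1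
    obtain ⟨Q, hQ⟩ := h4
    have hqm' : q * m' < n := by
      by_contra hcon
      have : n - q * m' = 0 := by omega
      omega
    have hqm : q * m ≤ q * m' := Nat.mul_le_mul_left _ hlt.le
    rw [hP, hQ, Nat.mul_div_cancel_left _ hr1p, Nat.mul_div_cancel_left _ hyr]
    have e1 : n = r1 * P + q * m := by omega
    have e2 : n = y * r * Q + q * m' := by omega
    calc m' * r1 * P = m' * (r1 * P) := by ring
      _ = m' * (n - q * m) := by rw [hP]
      _ = m' * n - m' * (q * m) := by rw [Nat.mul_sub]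
      _ = m * (y * r * Q) + n * δ := by
        have e3 : y * r * Q = n - q * m' := hQ.symm
        rw [e3, Nat.mul_sub]
        have e4 : m * (q * m') ≤ m * n := Nat.mul_le_mul_left _ hqm'.le
        have e5 : m' * n = m * n + n * δ := by rw [hδ]; ring
        have e6 : m' * (q * m) = m * (q * m') := by ring
        omega
      _ = m * (y * r) * Q + n * δ := by ring
  refine sum_bij_ne_zero (fun q _ _ => ((n - q * m) / r1, (n - q * m') / (y * r))) ?_ ?_ ?_ ?_
  · intro q hq hne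
    obtain ⟨h1, h2, h3, h4⟩ := left q hq hne
    obtain ⟨y', hy', g1, g2⟩ := gg_ne h2
    obtain ⟨Q, hQ⟩ := h4
    obtain ⟨-, hy0', hy1', -⟩ := h.Yp y' hy'
    rw [mem_product, mem_Ioc, mem_Ioc]
    refine ⟨⟨?_, ?_⟩, ?_, ?_⟩
    · exact lt_of_le_of_lt (Nat.mul_le_mul_right _ hy0'.le) g1
    · refine g2.trans ?_
      calc y' * S' ≤ (2 * Y0) * (2 * S) := Nat.mul_le_mul hy1' h.S2
        _ = 4 * (Y0 * S) := by ring
    · show S < (n - q * m') / (y * r)
      rw [hQ, Nat.mul_div_cancel_left _ hyr]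
      rw [hQ] at h3
      exact Nat.lt_of_mul_lt_mul_left h3.1
    · show (n - q * m') / (y * r) ≤ S'
      rw [hQ, Nat.mul_div_cancel_left _ hyr]
      rw [hQ] at h3
      exact Nat.le_of_mul_le_mul_left h3.2 hyr
  · intro q1 hq1 hne1 q2 hq2 hne2 heq
    have h1 := (Prod.ext_iff.1 heq).1
    simp only at h1
    obtain ⟨a1, -, ⟨a3, -⟩, -⟩ := left q1 hq1 hne1
    obtain ⟨b1, -, ⟨b3, -⟩, -⟩ := left q2 hq2 hne2
    have c1 := Nat.div_mul_cancel a1
    have c2 := Nat.div_mul_cancel b1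
    rw [h1] at c1
    have c3 : n - q1 * m = n - q2 * m := c1.symm.trans c2
    have d1 : q1 * m ≤ q1 * m' := Nat.mul_le_mul_left _ hlt.le
    have d2 : q2 * m ≤ q2 * m' := Nat.mul_le_mul_left _ hlt.le
    have c4 : q1 * m = q2 * m := by omega
    exact Nat.eq_of_mul_eq_mul_right hmP.pos c4
  · rintro ⟨P, Q⟩ hPQ hne
    rw [mem_product, mem_Ioc, mem_Ioc] at hPQ
    obtain ⟨⟨-, -⟩, hQ1, hQ2⟩ := hPQ
    simp only at hne hQ1 hQ2
    have heq : m' * r1 * P = m * (y * r) * Q + n * δ := by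
      by_contra hcon
      rw [if_neg hcon] at hne
      exact hne rfl
    rw [if_pos heq] at hne
    obtain ⟨y', hy', g1, g2⟩ := gg_ne hne
    have htop : r1 * P < n := by
      calc r1 * P ≤ r1 * (y' * S') := Nat.mul_le_mul_left _ g2
        _ = y' * r1 * S' := by ring
        _ < n := h.top y' hy' r1 hr1
    have hdvd : m ∣ n - r1 * P := by
      have h1 : m ∣ δ * (n - r1 * P) := by
        have h2 : δ * (n - r1 * P) + m * (y * r * Q) = m * (r1 * P) := by
          rw [Nat.mul_sub]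
          have h3 : δ * (r1 * P) ≤ δ * n := Nat.mul_le_mul_left _ htop.le
          have h4 : m' * r1 * P = m * (r1 * P) + δ * (r1 * P) := by rw [hδ]; ring
          have h5 : m * (y * r) * Q = m * (y * r * Q) := by ring
          have h6 : n * δ = δ * n := by ring
          omega
        exact (Nat.dvd_add_left (dvd_mul_right m (y * r * Q))).1 (by rw [h2]; exact dvd_mul_right _ _)
      exact (Nat.Coprime.dvd_mul_left hmδ).1 h1
    obtain ⟨q, hq⟩ := hdvd
    have hq0 : 0 < q := by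
      rcases Nat.eq_zero_or_pos q with h0 | h0
      · rw [h0, mul_zero] at hq
        omega
      · exact h0
    have en : n = r1 * P + m * q := by omega
    have hqn : q ≤ n := by
      have : q ≤ m * q := Nat.le_mul_of_pos_left q hmP.pos
      omega
    have e1 : n - q * m = r1 * P := by
      rw [mul_comm q m]
      omega
    have e2 : n - q * m' = y * r * Q := by
      have h1 : m * (r1 * P) = m * (y * r * Q + q * δ) := by
        have h2 : m' * r1 * P = m * (r1 * P) + δ * (r1 * P) := by rw [hδ]; ring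
        have h3 : n * δ = δ * (r1 * P) + m * (q * δ) := by rw [en]; ring
        have h4 : m * (y * r * Q + q * δ) = m * (y * r) * Q + m * (q * δ) := by ring
        omega
      have h2 := Nat.eq_of_mul_eq_mul_left hmP.pos h1
      have h3 : q * m' = m * q + q * δ := by rw [hδ]; ring
      omega
    have hne' : (if r1 ∣ n - q * m then gg Y S S' ((n - q * m) / r1) else 0) *
      (if (y * r * S < n - q * m' ∧ n - q * m' ≤ y * r * S') ∧ y * r ∣ n - q * m' then (1 : ℝ)
        else 0) ≠ 0 := by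
      rw [e1, e2, if_pos (dvd_mul_right _ _), if_pos, Nat.mul_div_cancel_left _ hr1p, mul_one]
      · exact hne
      · exact ⟨⟨Nat.mul_lt_mul_of_pos_left hQ1 hyr, Nat.mul_le_mul_left _ hQ2⟩, dvd_mul_right _ _⟩
    refine ⟨q, mem_Ioc.2 ⟨hq0, hqn⟩, hne', ?_⟩
    rw [e1, e2, Nat.mul_div_cancel_left _ hr1p, Nat.mul_div_cancel_left _ hyr]
  · intro q hq hne
    have h5 := main q hq hne
    obtain ⟨h1, h2, h3, h4⟩ := left q hq hne
    rw [if_pos h1, if_pos ⟨h3, h4⟩, mul_one, if_pos h5]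

lemma noncoprime (h : DK T n M2 Y0 V S S' I Mm Y R) {m m' : ℕ} (hm : m ∈ Mm) (hm' : m' ∈ Mm)
    (hlt : m < m') {r1 y r : ℕ} (hr1 : r1 ∈ R)
    (hco : ¬ Nat.Coprime (m' * r1) (m * (y * r))) (lo hi : ℕ) :
    GG Y S S' (n * (m' - m)) lo hi (m' * r1) (m * (y * r)) = 0 := by
  unfold GG
  apply sum_eq_zero
  intro P _
  apply sum_eq_zero
  intro Q _
  rw [if_neg]
  intro heq
  obtain ⟨p, hp, hp1, hp2⟩ := Nat.Prime.not_coprime_iff_dvd.1 hco
  obtain ⟨hmP, hmM, hmM2, hmn⟩ := h.Mp m hm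
  obtain ⟨hmP', hmM', hmM2', hmn'⟩ := h.Mp m' hm'
  have hfact : M2 < p ∧ ¬ p ∣ n := by
    rcases (Nat.Prime.dvd_mul hp).1 hp1 with h1 | h1
    · have := (Nat.prime_dvd_prime_iff_eq hp hmP').1 h1
      subst this
      exact ⟨hmM', hmn'⟩
    · have := h.Rp r1 hr1 p hp h1
      exact ⟨this.1, this.2.2⟩
  have hd : p ∣ n * (m' - m) := by
    have h1 : p ∣ m * (y * r) * Q + n * (m' - m) := by
      rw [← heq]
      exact hp1.mul_right P
    exact (Nat.dvd_add_right (hp2.mul_right Q)).1 h1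
  rcases (Nat.Prime.dvd_mul hp).1 hd with h1 | h1
  · exact hfact.2 h1
  · have := Nat.le_of_dvd (by omega) h1
    omega

end

theorem specHCG : SpecHCG := by
  intro T n M2 Y0 V S S' I Mm Y R h m hm m' hm' hlt
  have e1 : ∀ q ∈ Ioc 0 n, HH Y R S S' (n - q * m) * CC Y R S S' (n - q * m') =
      ∑ r1 ∈ R, ∑ y ∈ Y, ∑ r ∈ R,
        (if r1 ∣ n - q * m then gg Y S S' ((n - q * m) / r1) else 0) *
        (if (y * r * S < n - q * m' ∧ n - q * m' ≤ y * r * S') ∧ y * r ∣ n - q * m' then (1 : ℝ)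
          else 0) := by
    intro q _
    unfold HH CC
    rw [sum_mul]
    apply sum_congr rfl
    intro r1 _
    rw [mul_sum]
    apply sum_congr rfl
    intro y _
    rw [mul_sum]
  rw [sum_congr rfl e1, sum_comm]
  apply sum_congr rfl
  intro r1 hr1
  rw [sum_comm]
  apply sum_congr rfl
  intro y hy
  rw [sum_comm]
  apply sum_congr rfl
  intro r hr
  rw [core h hm hm' hlt hr1 hy hr]
  by_cases hco : Nat.Coprime (m' * r1) (m * (y * r))
  · rw [if_pos hco]
  · rw [if_neg hco]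
    exact noncoprime h hm hm' hlt hr1 hco _ _

end Pool.Agent.Lib.MP_1446ad_nt.SM.HCGM

namespace Pool.Agent.Lib.MP_1446ad_nt.SM

theorem specHCG : SpecHCG := HCGM.specHCG

end Pool.Agent.Lib.MP_1446ad_nt.SM
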