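import Pool.Agent.Lib.MP_1446ad_nt.SM.SpecD

/-!
# MP_1446ad_nt, part D, module HEB
-/

set_option autoImplicit false

namespace Pool.Agent.Lib.MP_1446ad_nt.SM

open Finset
open scoped Classical

namespace HEBM

/-- An order convex finite set of naturals is an interval. -/
theorem conv_Ico (J : Finset ℕ) (hJ : ∀ a ∈ J, ∀ b ∈ J, ∀ c, a ≤ c → c ≤ b → c ∈ J) :
    ∃ a b : ℕ, a ≤ b ∧ J = Ico a b := by
  rcases J.eq_empty_or_nonempty with he | hne
  · exact ⟨0, 0, le_refl _, by simp [he]⟩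
  · refine ⟨J.min' hne, J.max' hne + 1, ?_, ?_⟩
    · have := J.min'_le _ (J.max'_mem hne)
      omega
    · ext c
      rw [mem_Ico]
      constructor
      · intro hc
        exact ⟨J.min'_le c hc, Nat.lt_succ_of_le (J.le_max' c hc)⟩
      · rintro ⟨h1, h2⟩
        exact hJ _ (J.min'_mem hne) _ (J.max'_mem hne) c h1 (Nat.le_of_lt_succ h2)

/-- The number of elements of an interval in a residue class. -/
theorem cnt_class (a b D v : ℕ) (hab : a ≤ b) (hD : 0 < D) :
    |(((Ico a b).filter (fun x => x ≡ v [MOD D])).card : ℝ) - ((Ico a b).card : ℝ) / D| ≤ 1 := by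
  have h := Nat.Ico_filter_modEq_card a b hD v
  have hDq : (0 : ℚ) < D := by exact_mod_cast hD
  set C : ℕ := ((Ico a b).filter (fun x => x ≡ v [MOD D])).card with hC
  have hq : |(C : ℚ) - ((b - a : ℕ) : ℚ) / D| ≤ 1 := by
    have e : ((b - a : ℕ) : ℚ) / D = (((b : ℚ) - v) / D) - (((a : ℚ) - v) / D) := by
      rw [Nat.cast_sub hab]
      field_simp
      ring
    have h1 := Int.le_ceil (((b : ℚ) - v) / D)
    have h2 := Int.ceil_lt_add_one (((b : ℚ) - v) / D)
    have h3 := Int.le_ceil (((a : ℚ) - v) / D)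
    have h4 := Int.ceil_lt_add_one (((a : ℚ) - v) / D)
    have h5 : (((a : ℚ) - v) / D) ≤ (((b : ℚ) - v) / D) := by
      apply div_le_div_of_nonneg_right _ hDq.le
      have : (a : ℚ) ≤ b := by exact_mod_cast hab
      linarith
    have h6 : ⌈((a : ℚ) - v) / D⌉ ≤ ⌈((b : ℚ) - v) / D⌉ := Int.ceil_mono h5
    rw [max_eq_left (by omega)] at h
    have h7 : (C : ℚ) = (⌈((b : ℚ) - v) / D⌉ : ℚ) - (⌈((a : ℚ) - v) / D⌉ : ℚ) := by
      exact_mod_cast h
    rw [h7, e, abs_le]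
    constructor <;> linarith
  rw [Nat.card_Ico]
  have : (((C : ℚ) - ((b - a : ℕ) : ℚ) / D : ℚ) : ℝ) = (C : ℝ) - ((b - a : ℕ) : ℝ) / D := by
    push_cast
    rfl
  rw [← this, ← Rat.cast_abs]
  exact_mod_cast hq

/-- The number of `q` in a convex set with `D ∣ n - q m`, for `D` coprime to `m`. -/
theorem cls (D m n : ℕ) (hD : 0 < D) (hc : Nat.Coprime D m) (J : Finset ℕ)
    (hJ : ∀ a ∈ J, ∀ b ∈ J, ∀ c, a ≤ c → c ≤ b → c ∈ J) (hJn : ∀ q ∈ J, q * m ≤ n) :
    |((J.filter (fun q => D ∣ n - q * m)).card : ℝ) - (J.card : ℝ) / D| ≤ 1 := by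
  obtain ⟨a, b, hab, rfl⟩ := conv_Ico J hJ
  -- a solution of `v m = n mod D`
  obtain ⟨v, hv⟩ : ∃ v : ℕ, v * m ≡ n [MOD D] := by
    have hm : IsUnit ((m : ℕ) : ZMod D) := (ZMod.isUnit_iff_coprime m D).mpr hc.symm
    have hne : NeZero D := ⟨hD.ne'⟩
    obtain ⟨u, hu⟩ := hm
    refine ⟨(((n : ℕ) : ZMod D) * ((u⁻¹ : (ZMod D)ˣ) : ZMod D)).val, ?_⟩
    rw [← ZMod.natCast_eq_natCast_iff]
    push_cast
    rw [ZMod.natCast_zmod_val, ← hu, mul_assoc, Units.inv_mul, mul_one]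
  have he : (Ico a b).filter (fun q => D ∣ n - q * m) = (Ico a b).filter (fun x => x ≡ v [MOD D]) := by
    apply Finset.filter_congr
    intro q hq
    rw [← Nat.modEq_iff_dvd' (hJn q hq)]
    constructor
    · intro h
      exact Nat.ModEq.cancel_right_of_coprime hc (h.trans hv.symm)
    · intro h
      exact (h.mul_right m).trans hv
  rw [he]
  exact cnt_class a b D v hab hD

/-- One term of `HH`, rewritten. -/
theorem hterm (r y S S' x : ℕ) (hr : 0 < r) :
    (if r ∣ x then (if y * S < x / r ∧ x / r ≤ y * S' then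
      ((if y ∣ x / r then (1 : ℝ) else 0) - 1 / (y : ℝ)) else 0) else 0) =
    if y * r * S < x ∧ x ≤ y * r * S' then
      ((if y * r ∣ x then (1 : ℝ) else 0) - (1 / (y : ℝ)) * (if r ∣ x then (1 : ℝ) else 0)) else 0 := by
  by_cases hx : r ∣ x
  · obtain ⟨k, rfl⟩ := hx
    rw [Nat.mul_div_cancel_left k hr]
    have e1 : (y * r * S < r * k) ↔ y * S < k := by
      rw [show y * r * S = r * (y * S) by ring]
      exact Nat.mul_lt_mul_left hr
    have e2 : (r * k ≤ y * r * S') ↔ k ≤ y * S' := by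
      rw [show y * r * S' = r * (y * S') by ring]
      exact Nat.mul_le_mul_left_iff hr
    have e3 : (y * r ∣ r * k) ↔ y ∣ k := by
      rw [mul_comm y r]
      exact Nat.mul_dvd_mul_iff_left hr
    simp only [e1, e2, e3, dvd_mul_right, if_true, mul_one]
  · have h2 : ¬ y * r ∣ x := fun h => hx (dvd_trans (dvd_mul_left r y) h)
    simp only [if_neg hx, if_neg h2, mul_zero, sub_zero, ite_self]

/-- The set of the `q`. -/
noncomputable def JJ (n m m' S S' a b : ℕ) : Finset ℕ :=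
  (Ioc 0 n).filter (fun q => (a * S < n - q * m ∧ n - q * m ≤ a * S') ∧
    (b * S < n - q * m' ∧ n - q * m' ≤ b * S'))

theorem JJ_conv (n m m' S S' a b : ℕ) : ∀ u ∈ JJ n m m' S S' a b, ∀ v ∈ JJ n m m' S S' a b,
    ∀ c, u ≤ c → c ≤ v → c ∈ JJ n m m' S S' a b := by
  intro u hu v hv c huc hcv
  unfold JJ at hu hv ⊢
  rw [mem_filter, mem_Ioc] at hu hv ⊢
  have h1 : u * m ≤ c * m := Nat.mul_le_mul_right m huc
  have h2 : c * m ≤ v * m := Nat.mul_le_mul_right m hcv
  have h3 : u * m' ≤ c * m' := Nat.mul_le_mul_right m' huc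
  have h4 : c * m' ≤ v * m' := Nat.mul_le_mul_right m' hcv
  refine ⟨⟨by omega, by omega⟩, ⟨by omega, by omega⟩, by omega, by omega⟩

theorem JJ_le (n m m' S S' a b : ℕ) : ∀ q ∈ JJ n m m' S S' a b, q * m ≤ n := by
  intro q hq
  unfold JJ at hq
  rw [mem_filter] at hq
  omega

/-- The inner sum over `q`. -/
theorem inner (n m m' S S' y1 r1 y r : ℕ) (hm : m.Prime) (hmn : ¬ m ∣ n) (hy1 : y1.Prime)
    (hmy : m ≠ y1) (hr1 : 0 < r1) :
    |∑ q ∈ Ioc 0 n, (if y1 * r1 * S < n - q * m ∧ n - q * m ≤ y1 * r1 * S' then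
      ((if y1 * r1 ∣ n - q * m then (1 : ℝ) else 0) -
        (1 / (y1 : ℝ)) * (if r1 ∣ n - q * m then (1 : ℝ) else 0)) else 0) *
      (if y * r * S < n - q * m' ∧ n - q * m' ≤ y * r * S' then 1 / ((y : ℝ) * r) else 0)| ≤
      2 * (1 / ((y : ℝ) * r)) := by
  set J := JJ n m m' S S' (y1 * r1) (y * r) with hJ
  have hy0 : (1 : ℝ) ≤ y1 := by exact_mod_cast hy1.one_lt.le
  have h1 : ∑ q ∈ Ioc 0 n, (if y1 * r1 * S < n - q * m ∧ n - q * m ≤ y1 * r1 * S' then
      ((if y1 * r1 ∣ n - q * m then (1 : ℝ) else 0) -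
        (1 / (y1 : ℝ)) * (if r1 ∣ n - q * m then (1 : ℝ) else 0)) else 0) *
      (if y * r * S < n - q * m' ∧ n - q * m' ≤ y * r * S' then 1 / ((y : ℝ) * r) else 0) =
      (((J.filter (fun q => y1 * r1 ∣ n - q * m)).card : ℝ) -
        (1 / (y1 : ℝ)) * ((J.filter (fun q => r1 ∣ n - q * m)).card : ℝ)) * (1 / ((y : ℝ) * r)) := by
    rw [Finset.card_filter, Finset.card_filter]
    push_cast
    rw [Finset.mul_sum, ← Finset.sum_sub_distrib, Finset.sum_mul, hJ, JJ, Finset.sum_filter]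
    apply Finset.sum_congr rfl
    intro q _
    by_cases ha : y1 * r1 * S < n - q * m ∧ n - q * m ≤ y1 * r1 * S'
    · by_cases hb : y * r * S < n - q * m' ∧ n - q * m' ≤ y * r * S'
      · have hab := And.intro ha hb
        rw [if_pos ha, if_pos hb, if_pos hab]
      · have hab : ¬ ((y1 * r1 * S < n - q * m ∧ n - q * m ≤ y1 * r1 * S') ∧
            (y * r * S < n - q * m' ∧ n - q * m' ≤ y * r * S')) := fun h => hb h.2
        rw [if_neg hb, if_neg hab, mul_zero]
    · have hab : ¬ ((y1 * r1 * S < n - q * m ∧ n - q * m ≤ y1 * r1 * S') ∧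
            (y * r * S < n - q * m' ∧ n - q * m' ≤ y * r * S')) := fun h => ha h.1
      rw [if_neg ha, if_neg hab, zero_mul]
  rw [h1, abs_mul]
  have hnn : (0 : ℝ) ≤ 1 / ((y : ℝ) * r) := by positivity
  rw [abs_of_nonneg hnn]
  apply mul_le_mul_of_nonneg_right _ hnn
  have hconv := JJ_conv n m m' S S' (y1 * r1) (y * r)
  have hle := JJ_le n m m' S S' (y1 * r1) (y * r)
  by_cases hmr : m ∣ r1
  · -- no solutions
    have hz : ∀ q ∈ J, ¬ r1 ∣ n - q * m := by
      intro q hq h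
      apply hmn
      have h2 : m ∣ n - q * m := dvd_trans hmr h
      have h3 : n = (n - q * m) + q * m := by
        have := hle q hq
        omega
      rw [h3]
      exact dvd_add h2 (dvd_mul_left m q)
    have e1 : J.filter (fun q => r1 ∣ n - q * m) = ∅ := by
      rw [Finset.filter_eq_empty_iff]
      exact fun q hq => hz q hq
    have e2 : J.filter (fun q => y1 * r1 ∣ n - q * m) = ∅ := by
      rw [Finset.filter_eq_empty_iff]
      exact fun q hq h => hz q hq (dvd_trans (dvd_mul_left r1 y1) h)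
    rw [e1, e2]
    simp
  · have hc1 : Nat.Coprime r1 m := ((Nat.Prime.coprime_iff_not_dvd hm).mpr hmr).symm
    have hc2 : Nat.Coprime y1 m := ((Nat.coprime_primes hm hy1).mpr hmy).symm
    have hc3 : Nat.Coprime (y1 * r1) m := Nat.Coprime.mul_left hc2 hc1
    have b1 := cls (y1 * r1) m n (Nat.mul_pos hy1.pos hr1) hc3 J hconv hle
    have b2 := cls r1 m n hr1 hc1 J hconv hle
    have hr1' : (0 : ℝ) < r1 := by exact_mod_cast hr1
    have e : ((J.filter (fun q => y1 * r1 ∣ n - q * m)).card : ℝ) -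
        (1 / (y1 : ℝ)) * ((J.filter (fun q => r1 ∣ n - q * m)).card : ℝ) =
        (((J.filter (fun q => y1 * r1 ∣ n - q * m)).card : ℝ) - (J.card : ℝ) / ((y1 * r1 : ℕ) : ℝ)) -
        (1 / (y1 : ℝ)) * (((J.filter (fun q => r1 ∣ n - q * m)).card : ℝ) - (J.card : ℝ) / r1) := by
      push_cast
      field_simp
      ring
    rw [e]
    have hinv : (1 : ℝ) / y1 ≤ 1 := by
      rw [div_le_one (by linarith)]
      exact hy0
    have hinv0 : (0 : ℝ) ≤ 1 / y1 := by positivity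
    calc _ ≤ |((J.filter (fun q => y1 * r1 ∣ n - q * m)).card : ℝ) -
          (J.card : ℝ) / ((y1 * r1 : ℕ) : ℝ)| +
          |(1 / (y1 : ℝ)) * (((J.filter (fun q => r1 ∣ n - q * m)).card : ℝ) - (J.card : ℝ) / r1)| :=
          abs_sub _ _
      _ ≤ 1 + 1 * 1 := by
          rw [abs_mul, abs_of_nonneg hinv0]
          exact add_le_add b1 (mul_le_mul hinv b2 (abs_nonneg _) zero_le_one)
      _ = 2 := by norm_num

end HEBM

open HEBM in
theorem specHEB (hDDB : SpecDDB) : SpecHEB := by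
  intro T n M2 Y0 V S S' I Mm Y R hK m hm m' hm' _
  obtain ⟨_, hcard, _, _, _, _⟩ := hDDB T n M2 Y0 V S S' I Mm Y R hK
  obtain ⟨hmp, _, hm2, hmn⟩ := hK.Mp m hm
  have hV0 : 0 < V := lt_of_lt_of_le hK.M20 hK.MV
  have hV : (0 : ℝ) < V := by exact_mod_cast hV0
  have hexp : ∑ q ∈ Ioc 0 n, HH Y R S S' (n - q * m) * EE Y R S S' (n - q * m') =
      ∑ r1 ∈ R, ∑ y1 ∈ Y, ∑ y ∈ Y, ∑ r ∈ R, ∑ q ∈ Ioc 0 n,
      (if y1 * r1 * S < n - q * m ∧ n - q * m ≤ y1 * r1 * S' then
      ((if y1 * r1 ∣ n - q * m then (1 : ℝ) else 0) -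
        (1 / (y1 : ℝ)) * (if r1 ∣ n - q * m then (1 : ℝ) else 0)) else 0) *
      (if y * r * S < n - q * m' ∧ n - q * m' ≤ y * r * S' then 1 / ((y : ℝ) * r) else 0) := by
    have h1 : ∀ q ∈ Ioc 0 n, HH Y R S S' (n - q * m) * EE Y R S S' (n - q * m') =
        ∑ r1 ∈ R, ∑ y1 ∈ Y, ∑ y ∈ Y, ∑ r ∈ R,
        (if y1 * r1 * S < n - q * m ∧ n - q * m ≤ y1 * r1 * S' then
        ((if y1 * r1 ∣ n - q * m then (1 : ℝ) else 0) -
          (1 / (y1 : ℝ)) * (if r1 ∣ n - q * m then (1 : ℝ) else 0)) else 0) *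
        (if y * r * S < n - q * m' ∧ n - q * m' ≤ y * r * S' then 1 / ((y : ℝ) * r) else 0) := by
      intro q _
      rw [HH, EE, Finset.sum_mul]
      apply Finset.sum_congr rfl
      intro r1 hr1
      have e : (if r1 ∣ n - q * m then gg Y S S' ((n - q * m) / r1) else 0) =
          ∑ y1 ∈ Y, (if y1 * r1 * S < n - q * m ∧ n - q * m ≤ y1 * r1 * S' then
          ((if y1 * r1 ∣ n - q * m then (1 : ℝ) else 0) -
          (1 / (y1 : ℝ)) * (if r1 ∣ n - q * m then (1 : ℝ) else 0)) else 0) := by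
        rw [gg]
        by_cases hd : r1 ∣ n - q * m
        · rw [if_pos hd]
          apply Finset.sum_congr rfl
          intro y1 _
          rw [← hterm r1 y1 S S' (n - q * m) (hK.R0 r1 hr1), if_pos hd]
        · rw [if_neg hd]
          symm
          apply Finset.sum_eq_zero
          intro y1 _
          rw [← hterm r1 y1 S S' (n - q * m) (hK.R0 r1 hr1), if_neg hd]
      rw [e, Finset.sum_mul]
      apply Finset.sum_congr rfl
      intro y1 _
      rw [Finset.mul_sum]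
      apply Finset.sum_congr rfl
      intro y _
      rw [Finset.mul_sum]
    rw [Finset.sum_congr rfl h1, Finset.sum_comm]
    apply Finset.sum_congr rfl
    intro r1 _
    rw [Finset.sum_comm]
    apply Finset.sum_congr rfl
    intro y1 _
    rw [Finset.sum_comm]
    apply Finset.sum_congr rfl
    intro y _
    rw [Finset.sum_comm]
  rw [hexp]
  have hterm : ∀ r1 ∈ R, ∀ y1 ∈ Y, ∀ y ∈ Y, ∀ r ∈ R, |∑ q ∈ Ioc 0 n,
      (if y1 * r1 * S < n - q * m ∧ n - q * m ≤ y1 * r1 * S' then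
      ((if y1 * r1 ∣ n - q * m then (1 : ℝ) else 0) -
        (1 / (y1 : ℝ)) * (if r1 ∣ n - q * m then (1 : ℝ) else 0)) else 0) *
      (if y * r * S < n - q * m' ∧ n - q * m' ≤ y * r * S' then 1 / ((y : ℝ) * r) else 0)| ≤
      2 / V := by
    intro r1 hr1 y1 hy1 y hy r hr
    obtain ⟨hy1p, hy1Y, _, _⟩ := hK.Yp y1 hy1
    have hne : m ≠ y1 := by
      have := hK.MY
      omega
    have hi := inner n m m' S S' y1 r1 y r hmp hmn hy1p hne (hK.R0 r1 hr1)
    have hyr := (hK.RV y hy r hr).1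
    have hyr' : (V : ℝ) ≤ (y : ℝ) * r := by exact_mod_cast hyr.le
    calc _ ≤ 2 * (1 / ((y : ℝ) * r)) := hi
      _ ≤ 2 * (1 / (V : ℝ)) := by
          apply mul_le_mul_of_nonneg_left _ (by norm_num)
          exact one_div_le_one_div_of_le hV hyr'
      _ = 2 / V := by ring
  calc _ ≤ ∑ r1 ∈ R, ∑ y1 ∈ Y, ∑ y ∈ Y, ∑ r ∈ R, (2 / V : ℝ) := by
        refine (Finset.abs_sum_le_sum_abs _ _).trans (Finset.sum_le_sum fun r1 hr1 => ?_)
        refine (Finset.abs_sum_le_sum_abs _ _).trans (Finset.sum_le_sum fun y1 hy1 => ?_)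
        refine (Finset.abs_sum_le_sum_abs _ _).trans (Finset.sum_le_sum fun y hy => ?_)
        exact (Finset.abs_sum_le_sum_abs _ _).trans (Finset.sum_le_sum fun r hr =>
          hterm r1 hr1 y1 hy1 y hy r hr)
    _ = (((Y ×ˢ R).card : ℝ)) ^ 2 * (2 / V) := by
        simp only [Finset.sum_const, nsmul_eq_mul, Finset.card_product]
        push_cast
        ring
    _ ≤ (V : ℝ) ^ 2 * (2 / V) := by
        apply mul_le_mul_of_nonneg_right _ (by positivity)
        have : ((Y ×ˢ R).card : ℝ) ≤ V := by exact_mod_cast hcard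
        exact pow_le_pow_left₀ (by positivity) this 2
    _ = 2 * V := by
        field_simp

end Pool.Agent.Lib.MP_1446ad_nt.SM
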