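import Pool.Agent.Lib.MP_1446ad_nt.SM.SpecK

set_option autoImplicit false

namespace Pool.Agent.Lib.MP_1446ad_nt.SM

open Finset
open scoped Classical

namespace KLBM

theorem tau_nonneg (m : ℕ) : 0 ≤ tau m := by
  unfold tau; positivity

theorem tau_mul {u v : ℕ} (h : Nat.Coprime u v) : tau (u * v) = tau u * tau v := by
  unfold tau
  rw [Nat.Coprime.card_divisors_mul h]
  push_cast
  ring

theorem gcd_mul_left_of_one {a h : ℤ} {u : ℕ} (ha : Int.gcd a u = 1) :
    Int.gcd (a * h) u = Int.gcd h u := by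
  have h1 : IsCoprime a (u : ℤ) := Int.isCoprime_iff_gcd_eq_one.mpr ha
  rw [mul_comm]; exact Int.gcd_mul_left_left_of_gcd_eq_one ha

end KLBM

open KLBM

theorem specKLB (hKMU : SpecKMU) (hSQF : SpecSQF) (hTRI : SpecTRI) : SpecKLB := by
  intro u v inst huv hsq c h k
  have huv0 : u * v ≠ 0 := NeZero.ne (u * v)
  have hu0 : u ≠ 0 := left_ne_zero_of_mul huv0
  have hv0 : v ≠ 0 := right_ne_zero_of_mul huv0
  have : NeZero u := ⟨hu0⟩
  have : NeZero v := ⟨hv0⟩
  obtain ⟨a, b, ha, hb, e⟩ := hKMU u v huv c h k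
  have h1 := hSQF u hsq c (a * h) (a * k)
  have h2 := hTRI v c (b * h) (b * k)
  rw [gcd_mul_left_of_one ha] at h1
  rw [e, norm_mul, tau_mul huv]
  have hu := tau_nonneg u
  have hv := tau_nonneg v
  calc ‖kc u c (a * h) (a * k)‖ * ‖kc v c (b * h) (b * k)‖
      ≤ (tau u * √(u : ℝ) * √(Int.gcd h u : ℝ) * √(Int.gcd c u : ℝ)) * (tau v * v) :=
        mul_le_mul h1 h2 (norm_nonneg _) (by positivity)
    _ = _ := by ring

end Pool.Agent.Lib.MP_1446ad_nt.SM
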