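import Pool.Agent.Lib.MP_1446ad_nt.SM.SpecK

/-!
# MP_1446ad_nt (sums of two smooth numbers), module KMU: multiplicativity of the Kloosterman sums
-/

set_option autoImplicit false

namespace Pool.Agent.Lib.MP_1446ad_nt.SM

open Finset
open scoped Classical

namespace KMUM

lemma cr_int (u v : ℕ) (huv : Nat.Coprime u v) (j : ℤ) :
    (ZMod.chineseRemainder huv) (j : ZMod (u * v)) = ((j : ZMod u), (j : ZMod v)) := by
  rw [map_intCast]
  rfl

/-- The additive character modulo `u v` is a product. -/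
lemma std_split (u v : ℕ) [NeZero u] [NeZero v] [NeZero (u * v)] (huv : Nat.Coprime u v)
    (a b : ℤ) (hab : b * u + a * v = 1) (t : ZMod (u * v)) :
    ZMod.stdAddChar t =
      ZMod.stdAddChar ((a : ZMod u) * (ZMod.chineseRemainder huv t).1) *
      ZMod.stdAddChar ((b : ZMod v) * (ZMod.chineseRemainder huv t).2) := by
  obtain ⟨j, rfl⟩ := ZMod.intCast_surjective t
  rw [cr_int]
  simp only []
  rw [← Int.cast_mul, ← Int.cast_mul, ZMod.stdAddChar_coe, ZMod.stdAddChar_coe, ZMod.stdAddChar_coe, ← Complex.exp_add]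
  congr 1
  have hu : (u : ℂ) ≠ 0 := by exact_mod_cast NeZero.ne u
  have hv : (v : ℂ) ≠ 0 := by exact_mod_cast NeZero.ne v
  have hc : (b : ℂ) * u + a * v = 1 := by exact_mod_cast hab
  push_cast
  field_simp
  calc (j : ℂ) = j * ((b : ℂ) * u + a * v) := by rw [hc, mul_one]
    _ = _ := by ring

/-- The summand of `kc`. -/
noncomputable def sm (P : ℕ) [NeZero P] (c h k : ℤ) (x z : ZMod P) : ℂ :=
  if x * z = (c : ZMod P) then ZMod.stdAddChar ((h : ZMod P) * x + (k : ZMod P) * z) else 0

lemma sm_split (u v : ℕ) [NeZero u] [NeZero v] [NeZero (u * v)] (huv : Nat.Coprime u v)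
    (a b : ℤ) (hab : b * u + a * v = 1) (c h k : ℤ) (x z : ZMod (u * v)) :
    sm (u * v) c h k x z =
      sm u c (a * h) (a * k) (ZMod.chineseRemainder huv x).1 (ZMod.chineseRemainder huv z).1 *
      sm v c (b * h) (b * k) (ZMod.chineseRemainder huv x).2 (ZMod.chineseRemainder huv z).2 := by
  unfold sm
  have h1 : x * z = (c : ZMod (u * v)) ↔
      ((ZMod.chineseRemainder huv x).1 * (ZMod.chineseRemainder huv z).1 = (c : ZMod u) ∧
       (ZMod.chineseRemainder huv x).2 * (ZMod.chineseRemainder huv z).2 = (c : ZMod v)) := by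
    rw [← (ZMod.chineseRemainder huv).injective.eq_iff, map_mul, cr_int, Prod.ext_iff]
    rfl
  by_cases hx : x * z = (c : ZMod (u * v))
  · obtain ⟨h2, h3⟩ := h1.mp hx
    rw [if_pos hx, if_pos h2, if_pos h3, std_split u v huv a b hab]
    have h4 : (ZMod.chineseRemainder huv) ((h : ZMod (u * v)) * x + (k : ZMod (u * v)) * z) =
        ((h : ZMod u) * (ZMod.chineseRemainder huv x).1 +
          (k : ZMod u) * (ZMod.chineseRemainder huv z).1,
         (h : ZMod v) * (ZMod.chineseRemainder huv x).2 +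
          (k : ZMod v) * (ZMod.chineseRemainder huv z).2) := by
      rw [map_add, map_mul, map_mul, cr_int, cr_int]
      rfl
    rw [h4]
    congr 2
    · simp only []
      push_cast
      ring
    · simp only []
      push_cast
      ring
  · rw [if_neg hx]
    by_cases h2 : (ZMod.chineseRemainder huv x).1 * (ZMod.chineseRemainder huv z).1 = (c : ZMod u)
    · rw [if_neg (fun h3 => hx (h1.mpr ⟨h2, h3⟩)), mul_zero]
    · rw [if_neg h2, zero_mul]

end KMUM

open KMUM in
/-- Multiplicativity of `kc`. -/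
theorem specKMU : SpecKMU := by
  intro u v _ _ _ huv c h k
  obtain ⟨b, a, hab⟩ := Nat.isCoprime_iff_coprime.mpr huv
  refine ⟨a, b, ?_, ?_, ?_⟩
  · rw [← Int.isCoprime_iff_gcd_eq_one]
    exact ⟨v, b, by rw [← hab]; ring⟩
  · rw [← Int.isCoprime_iff_gcd_eq_one]
    exact ⟨u, a, by rw [← hab]; ring⟩
  · have e1 : kc (u * v) c h k = ∑ x : ZMod (u * v), ∑ z : ZMod (u * v), sm (u * v) c h k x z :=
      rfl
    have e2 : kc u c (a * h) (a * k) = ∑ x : ZMod u, ∑ z : ZMod u,
      sm u c (a * h) (a * k) x z := rfl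
    have e3 : kc v c (b * h) (b * k) = ∑ x : ZMod v, ∑ z : ZMod v,
      sm v c (b * h) (b * k) x z := rfl
    rw [e1, e2, e3]
    have e4 : ∑ x : ZMod (u * v), ∑ z : ZMod (u * v), sm (u * v) c h k x z =
        ∑ X : ZMod u × ZMod v, ∑ Z : ZMod u × ZMod v,
          sm u c (a * h) (a * k) X.1 Z.1 * sm v c (b * h) (b * k) X.2 Z.2 := by
      rw [← Equiv.sum_comp (ZMod.chineseRemainder huv).toEquiv (fun X : ZMod u × ZMod v =>
        ∑ Z : ZMod u × ZMod v,
          sm u c (a * h) (a * k) X.1 Z.1 * sm v c (b * h) (b * k) X.2 Z.2)]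
      refine Finset.sum_congr rfl (fun x _ => ?_)
      rw [← Equiv.sum_comp (ZMod.chineseRemainder huv).toEquiv (fun Z : ZMod u × ZMod v =>
          sm u c (a * h) (a * k) ((ZMod.chineseRemainder huv).toEquiv x).1 Z.1 *
          sm v c (b * h) (b * k) ((ZMod.chineseRemainder huv).toEquiv x).2 Z.2)]
      refine Finset.sum_congr rfl (fun z _ => ?_)
      exact sm_split u v huv a b hab c h k x z
    rw [e4, Fintype.sum_prod_type, Finset.sum_mul_sum]
    refine Finset.sum_congr rfl (fun x1 _ => Finset.sum_congr rfl (fun x2 _ => ?_))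
    rw [Fintype.sum_prod_type, Finset.sum_mul_sum]

end Pool.Agent.Lib.MP_1446ad_nt.SM
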