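import Pool.Agent.Lib.MP_1446ad_nt.SM.SpecK

/-!
# MP_1446ad_nt (sums of two smooth numbers), module KPR: the Kloosterman sum for a prime modulus
-/

set_option autoImplicit false

namespace Pool.Agent.Lib.MP_1446ad_nt.SM

open Finset
open scoped Classical

namespace KPRM

lemma kc_eq_kl (p : ℕ) [NeZero p] [Fact p.Prime] (c h k : ℤ) (hc : (c : ZMod p) ≠ 0) :
    kc p c h k = kl (ZMod.stdAddChar (N := p)) (h : ZMod p) ((k : ZMod p) * (c : ZMod p)) := by
  unfold kc kl
  refine Finset.sum_congr (by congr!) ?_
  intro x _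
  by_cases hx : x = 0
  · subst hx
    rw [if_pos rfl]
    apply Finset.sum_eq_zero
    intro z _
    rw [zero_mul, if_neg (fun h0 => hc h0.symm)]
  · rw [if_neg hx]
    rw [Finset.sum_eq_single ((c : ZMod p) * x⁻¹)]
    · rw [if_pos]
      · congr 1
        ring
      · field_simp
    · intro z _ hz
      rw [if_neg]
      intro h0
      apply hz
      rw [← h0]
      field_simp
    · intro h0
      exact absurd (Finset.mem_univ _) h0

lemma kl_zmod (p : ℕ) [NeZero p] [Fact p.Prime] (a b : ZMod p) :
    kl (ZMod.stdAddChar (N := p)) a b = ∑ x : ZMod p, if x = 0 then (0 : ℂ) else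
      ZMod.stdAddChar (N := p) (a * x + b * x⁻¹) := by
  unfold kl
  refine Finset.sum_congr (by congr!) ?_
  intro x _
  split_ifs <;> rfl

lemma norm_std (p : ℕ) [NeZero p] (x : ZMod p) : ‖ZMod.stdAddChar (N := p) x‖ = 1 := by
  exact AddChar.norm_apply _ _

lemma std_ne_one (p : ℕ) [NeZero p] [Fact p.Prime] : ZMod.stdAddChar (N := p) ≠ 1 := by
  have := ZMod.isPrimitive_stdAddChar p
  have h1 := this (one_ne_zero (α := ZMod p))
  rwa [AddChar.mulShift_one] at h1

end KPRM

open KPRM in
/-- The case of a prime modulus. -/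
theorem specKPR (hWEI : SpecWEI) : SpecKPR := by
  intro p _ hp c h k
  have : Fact p.Prime := ⟨hp⟩
  have hp1 : (1 : ℝ) ≤ (p : ℝ) := by exact_mod_cast hp.one_lt.le
  have hsp : (1 : ℝ) ≤ √(p : ℝ) := Real.one_le_sqrt.mpr hp1
  have hpp : √(p : ℝ) * √(p : ℝ) = p := Real.mul_self_sqrt (by linarith)
  have hg1 : ∀ a : ℤ, (1 : ℝ) ≤ √(Int.gcd a p : ℝ) := by
    intro a
    apply Real.one_le_sqrt.mpr
    have : 0 < Int.gcd a p := Int.gcd_pos_of_ne_zero_right _ (by exact_mod_cast hp.ne_zero)
    exact_mod_cast this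
  have hgp : ∀ a : ℤ, (a : ZMod p) = 0 → Int.gcd a p = p := by
    intro a ha
    have h1 : (p : ℤ) ∣ a := (ZMod.intCast_zmod_eq_zero_iff_dvd a p).mp ha
    rw [Int.gcd_def, Int.natAbs_natCast]
    exact Nat.gcd_eq_right (Int.natCast_dvd.mp h1)
  by_cases hc : (c : ZMod p) = 0
  · rw [hgp c hc]
    have h1 : ‖kc p c h k‖ ≤ 2 * p := by
      unfold kc
      have h2 : ∀ x z : ZMod p, ‖(if x * z = (c : ZMod p) then
          ZMod.stdAddChar ((h : ZMod p) * x + (k : ZMod p) * z) else 0 : ℂ)‖ ≤
          (if x = 0 then (1 : ℝ) else 0) + (if z = 0 then (1 : ℝ) else 0) := by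
        intro x z
        by_cases hxz : x * z = (c : ZMod p)
        · rw [if_pos hxz, AddChar.norm_apply]
          rw [hc] at hxz
          rcases mul_eq_zero.mp hxz with h3 | h3
          · rw [if_pos h3]
            split_ifs <;> norm_num
          · rw [if_pos h3]
            split_ifs <;> norm_num
        · rw [if_neg hxz, norm_zero]
          split_ifs <;> norm_num
      refine (norm_sum_le _ _).trans ?_
      refine (Finset.sum_le_sum (fun x _ => (norm_sum_le _ _).trans
        (Finset.sum_le_sum (fun z _ => h2 x z)))).trans ?_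
      simp only [Finset.sum_add_distrib, Finset.sum_const, Finset.sum_ite_eq', Finset.card_univ,
        ZMod.card, Finset.mem_univ, if_true, nsmul_eq_mul, mul_one]
      simp
      linarith
    calc ‖kc p c h k‖ ≤ 2 * p := h1
      _ = 2 * √(p : ℝ) * 1 * √(p : ℝ) := by rw [mul_one, mul_assoc, hpp]
      _ ≤ 2 * √(p : ℝ) * √(Int.gcd h p : ℝ) * √(p : ℝ) := by
          gcongr
          exact hg1 h
  · rw [kc_eq_kl p c h k hc]
    have key : ‖kl (ZMod.stdAddChar (N := p)) (h : ZMod p) ((k : ZMod p) * (c : ZMod p))‖ ≤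
        2 * √(p : ℝ) * √(Int.gcd h p : ℝ) := by
      by_cases hh : (h : ZMod p) = 0
      · rw [hgp h hh]
        have h1 : ‖kl (ZMod.stdAddChar (N := p)) (h : ZMod p) ((k : ZMod p) * (c : ZMod p))‖
            ≤ p := by
          rw [kl_zmod]
          refine (norm_sum_le _ _).trans ?_
          have h2 : ∀ x ∈ (Finset.univ : Finset (ZMod p)), ‖(if x = 0 then (0 : ℂ) else
              ZMod.stdAddChar ((h : ZMod p) * x + (k : ZMod p) * (c : ZMod p) * x⁻¹))‖ ≤ 1 := by
            intro x _
            split_ifs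
            · norm_num
            · rw [AddChar.norm_apply]
          refine (Finset.sum_le_card_nsmul _ _ 1 h2).trans ?_
          simp [Finset.card_univ, ZMod.card]
        calc _ ≤ (p : ℝ) := h1
          _ ≤ 2 * (√(p : ℝ) * √(p : ℝ)) := by rw [hpp]; linarith
          _ = _ := by ring
      · by_cases hk : (k : ZMod p) = 0
        · rw [hk, zero_mul]
          have h1 : kl (ZMod.stdAddChar (N := p)) (h : ZMod p) 0 = -1 := by
            rw [kl_zmod]
            have h3 : ∑ x : ZMod p, ZMod.stdAddChar (N := p) ((h : ZMod p) * x) = 0 := by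
              have h4 := AddChar.sum_mulShift (h : ZMod p) (ZMod.isPrimitive_stdAddChar p)
              rw [if_neg hh] at h4
              rw [← Nat.cast_zero, ← h4]
              exact Finset.sum_congr rfl (fun x _ => by rw [mul_comm])
            have h5 : ∀ x : ZMod p, (if x = 0 then (0 : ℂ) else
                ZMod.stdAddChar ((h : ZMod p) * x + 0 * x⁻¹)) =
                ZMod.stdAddChar (N := p) ((h : ZMod p) * x) - (if x = 0 then (1 : ℂ) else 0) := by
              intro x
              by_cases hx : x = 0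
              · subst hx
                simp
              · simp [hx]
            have h6 := Finset.sum_congr (rfl : (Finset.univ : Finset (ZMod p)) = Finset.univ)
              (fun x _ => h5 x)
            rw [Finset.sum_sub_distrib, h3, Finset.sum_ite_eq', if_pos (Finset.mem_univ _)] at h6
            simpa using h6
          rw [h1, norm_neg, norm_one]
          nlinarith [hg1 h]
        · have h1 := hWEI p (ZMod.stdAddChar (N := p)) (h : ZMod p)
            ((k : ZMod p) * (c : ZMod p)) (std_ne_one p) hh (mul_ne_zero hk hc)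
          calc _ ≤ 2 * √(p : ℝ) := h1
            _ = 2 * √(p : ℝ) * 1 := by ring
            _ ≤ _ := by gcongr; exact hg1 h
    calc _ ≤ 2 * √(p : ℝ) * √(Int.gcd h p : ℝ) := key
      _ = 2 * √(p : ℝ) * √(Int.gcd h p : ℝ) * 1 := by ring
      _ ≤ _ := by gcongr; exact hg1 c

end Pool.Agent.Lib.MP_1446ad_nt.SM
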