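import Pool.Agent.Lib.MP_1446ad_nt.SM.SpecF

set_option autoImplicit false

namespace Pool.Agent.Lib.MP_1446ad_nt.SM

open Finset Filter
open scoped Classical

namespace KTAM

/-- the purely real inequality -/
lemma bound (N d M2 Y0 V S I T : ℝ) (hd : 0 < d) (hd1 : d ≤ 1 / 1000) (hN : 1 ≤ N)
    (hM1 : N ^ d ≤ M2) (hM2 : M2 ≤ 8 * N ^ d)
    (hY1 : N ^ (1 / 7 - 9 * d) ≤ Y0) (hY2 : Y0 ≤ 8 * N ^ (1 / 7 - 9 * d))
    (hV1 : N ^ (4 / 7 - 10 * d) ≤ V) (hV2 : V ≤ 4096 * N ^ (4 / 7 - 10 * d))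
    (hS0 : 0 ≤ S) (hS : S ≤ N ^ (3 / 7 + 10 * d))
    (hI1 : N ^ (3 * d) ≤ 2 * I) (hI2 : I ≤ N ^ (3 * d))
    (hT : T = N ^ (d / 100)) (hlarge : 10 ^ 10 ≤ N ^ (3 * d / 100)) :
    T ^ 2 * (N / M2) * (4 * T ^ 2 * N + M2 ^ 2 *
      (√(45000 * T ^ 10 * I ^ 2 * (V ^ 2 / Y0) * ((Y0 * S) * S / I ^ 3 +
        (Y0 * S) ^ 2 * √(Y0 * S) * Y0 / (I * (M2 * V)))) +
      15 * T * V ^ 2 / Y0 + 2 * V + 18 * T * N / M2 ^ 2)) ≤ (N ^ (1 - d / 5)) ^ 2 := by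
  have N0 : 0 < N := by linarith
  have E : ∀ x y : ℝ, N ^ x * N ^ y = N ^ (x + y) := fun x y => (Real.rpow_add N0 x y).symm
  have Ep : ∀ x : ℝ, 0 < N ^ x := fun x => Real.rpow_pos_of_pos N0 x
  have Em : ∀ x y : ℝ, x ≤ y → N ^ x ≤ N ^ y := fun x y h => Real.rpow_le_rpow_of_exponent_le hN h
  have Epow : ∀ (x : ℝ) (k : ℕ), (N ^ x) ^ k = N ^ (x * k) := fun x k => by
    rw [Real.rpow_mul N0.le, Real.rpow_natCast]
  have N1 : N = N ^ (1 : ℝ) := (Real.rpow_one N).symm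
  have M0 : 0 < M2 := lt_of_lt_of_le (Ep _) hM1
  have Y00 : 0 < Y0 := lt_of_lt_of_le (Ep _) hY1
  have V0 : 0 < V := lt_of_lt_of_le (Ep _) hV1
  have I0 : 0 < I := by have := Ep (3 * d); linarith
  have T0 : 0 < T := hT ▸ Ep _
  have T1 : 1 ≤ T := hT ▸ Real.one_le_rpow hN (by positivity)
  -- V^2 / Y0
  have a1 : V ^ 2 / Y0 ≤ 16777216 * N ^ (1 - 11 * d) := by
    rw [div_le_iff₀ Y00]
    calc V ^ 2 ≤ (4096 * N ^ (4 / 7 - 10 * d)) ^ 2 := by gcongr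
      _ = 16777216 * (N ^ (1 - 11 * d) * N ^ (1 / 7 - 9 * d)) := by
        rw [mul_pow, Epow, E]; norm_num; ring_nf
      _ ≤ 16777216 * N ^ (1 - 11 * d) * Y0 := by
        rw [mul_assoc]; have := Ep (1 - 11 * d); gcongr
  -- P0
  have P1 : Y0 * S ≤ 8 * N ^ (4 / 7 + d) := by
    calc Y0 * S ≤ (8 * N ^ (1 / 7 - 9 * d)) * N ^ (3 / 7 + 10 * d) := by
          have := Ep (1 / 7 - 9 * d); gcongr
      _ = 8 * N ^ (4 / 7 + d) := by rw [mul_assoc, E]; ring_nf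
  have P0 : 0 ≤ Y0 * S := by positivity
  have P2 : √(Y0 * S) ≤ 3 * N ^ (2 / 7 + d / 2) := by
    rw [Real.sqrt_le_left (by have := Ep (2 / 7 + d / 2); positivity)]
    calc Y0 * S ≤ 8 * N ^ (4 / 7 + d) := P1
      _ ≤ 9 * N ^ (4 / 7 + d) := by have := Ep (4 / 7 + d); linarith
      _ = (3 * N ^ (2 / 7 + d / 2)) ^ 2 := by
        rw [mul_pow, Epow]; norm_num; ring_nf
  -- the two terms
  have b1 : I ^ 2 * ((Y0 * S) * S / I ^ 3) ≤ 64 * N ^ (1 + 8 * d) := by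
    have e1 : I ^ 2 * ((Y0 * S) * S / I ^ 3) = (Y0 * S) * S / I := by
      field_simp
    rw [e1, div_le_iff₀ I0]
    calc (Y0 * S) * S ≤ (8 * N ^ (4 / 7 + d)) * N ^ (3 / 7 + 10 * d) := by
          have := Ep (4 / 7 + d); gcongr
      _ = 8 * (N ^ (1 + 8 * d) * N ^ (3 * d)) := by rw [mul_assoc, E, E]; ring_nf
      _ ≤ 8 * (N ^ (1 + 8 * d) * (2 * I)) := by have := Ep (1 + 8 * d); gcongr
      _ ≤ 64 * N ^ (1 + 8 * d) * I := by
        have : 0 ≤ N ^ (1 + 8 * d) * I := by have := Ep (1 + 8 * d); positivity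
        nlinarith
  have b2 : I ^ 2 * ((Y0 * S) ^ 2 * √(Y0 * S) * Y0 / (I * (M2 * V))) ≤
      3072 * N ^ (1 + 8 * d) := by
    have e1 : I ^ 2 * ((Y0 * S) ^ 2 * √(Y0 * S) * Y0 / (I * (M2 * V))) =
        I * ((Y0 * S) ^ 2 * √(Y0 * S) * Y0) / (M2 * V) := by
      field_simp
    rw [e1, div_le_iff₀ (by positivity)]
    have c1 : I * ((Y0 * S) ^ 2 * √(Y0 * S) * Y0) ≤ N ^ (3 * d) *
        ((8 * N ^ (4 / 7 + d)) ^ 2 * (3 * N ^ (2 / 7 + d / 2)) * (8 * N ^ (1 / 7 - 9 * d))) := by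
      gcongr
    refine c1.trans ?_
    have c2 : N ^ (3 * d) *
        ((8 * N ^ (4 / 7 + d)) ^ 2 * (3 * N ^ (2 / 7 + d / 2)) * (8 * N ^ (1 / 7 - 9 * d))) =
        1536 * N ^ (11 / 7 - 7 / 2 * d) := by
      have : N ^ (3 * d) *
        ((8 * N ^ (4 / 7 + d)) ^ 2 * (3 * N ^ (2 / 7 + d / 2)) * (8 * N ^ (1 / 7 - 9 * d))) =
        1536 * (N ^ (3 * d) * ((N ^ (4 / 7 + d)) ^ 2 * N ^ (2 / 7 + d / 2) * N ^ (1 / 7 - 9 * d))) := by
        ring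
      rw [this, Epow, E, E, E]
      push_cast
      ring_nf
    rw [c2]
    calc 1536 * N ^ (11 / 7 - 7 / 2 * d) ≤ 1536 * N ^ (11 / 7 - d) := by
          have := Em (11 / 7 - 7 / 2 * d) (11 / 7 - d) (by linarith); gcongr
      _ = 1536 * N ^ (1 + 8 * d) * (N ^ d * N ^ (4 / 7 - 10 * d)) := by
        rw [mul_assoc, E, E]; ring_nf
      _ ≤ 3072 * N ^ (1 + 8 * d) * (M2 * V) := by
        have := Ep (1 + 8 * d)
        have h2 : N ^ d * N ^ (4 / 7 - 10 * d) ≤ M2 * V := by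
          have := Ep d; have := Ep (4 / 7 - 10 * d); gcongr
        have h3 : 0 ≤ N ^ (1 + 8 * d) * (M2 * V) := by positivity
        nlinarith [mul_le_mul_of_nonneg_left h2 this.le]
  have e1 : √(45000 * T ^ 10 * I ^ 2 * (V ^ 2 / Y0) * ((Y0 * S) * S / I ^ 3 +
        (Y0 * S) ^ 2 * √(Y0 * S) * Y0 / (I * (M2 * V)))) ≤
      50000000 * (T ^ 5 * N ^ (1 - 3 / 2 * d)) := by
    rw [Real.sqrt_le_left (by have := Ep (1 - 3 / 2 * d); positivity)]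
    have : 45000 * T ^ 10 * I ^ 2 * (V ^ 2 / Y0) * ((Y0 * S) * S / I ^ 3 +
        (Y0 * S) ^ 2 * √(Y0 * S) * Y0 / (I * (M2 * V))) =
        45000 * T ^ 10 * (V ^ 2 / Y0) * (I ^ 2 * ((Y0 * S) * S / I ^ 3) +
        I ^ 2 * ((Y0 * S) ^ 2 * √(Y0 * S) * Y0 / (I * (M2 * V)))) := by ring
    rw [this]
    calc 45000 * T ^ 10 * (V ^ 2 / Y0) * (I ^ 2 * ((Y0 * S) * S / I ^ 3) +
        I ^ 2 * ((Y0 * S) ^ 2 * √(Y0 * S) * Y0 / (I * (M2 * V))))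
        ≤ 45000 * T ^ 10 * (16777216 * N ^ (1 - 11 * d)) * (64 * N ^ (1 + 8 * d) +
          3072 * N ^ (1 + 8 * d)) := by
          have := Ep (1 - 11 * d); have := Ep (1 + 8 * d)
          gcongr
      _ = 45000 * 16777216 * 3136 * (T ^ 10 * (N ^ (1 - 11 * d) * N ^ (1 + 8 * d))) := by ring
      _ = 45000 * 16777216 * 3136 * (T ^ 10 * N ^ (2 - 3 * d)) := by rw [E]; ring_nf
      _ ≤ 2500000000000000 * (T ^ 10 * N ^ (2 - 3 * d)) := by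
        have := Ep (2 - 3 * d)
        have : 0 ≤ T ^ 10 * N ^ (2 - 3 * d) := by positivity
        nlinarith
      _ = (50000000 * (T ^ 5 * N ^ (1 - 3 / 2 * d))) ^ 2 := by
        rw [mul_pow, mul_pow, Epow]
        push_cast
        ring_nf
  -- other terms
  have G0 := Ep (1 - 3 / 2 * d)
  have hT5 : T ≤ T ^ 5 := by
    calc T = T ^ 1 := (pow_one T).symm
      _ ≤ T ^ 5 := pow_le_pow_right₀ T1 (by norm_num)
  have hT15 : 1 ≤ T ^ 5 := one_le_pow₀ T1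
  have e2 : 15 * T * V ^ 2 / Y0 ≤ 251658240 * (T ^ 5 * N ^ (1 - 3 / 2 * d)) := by
    have : 15 * T * V ^ 2 / Y0 = 15 * T * (V ^ 2 / Y0) := by ring
    rw [this]
    calc 15 * T * (V ^ 2 / Y0) ≤ 15 * T ^ 5 * (16777216 * N ^ (1 - 3 / 2 * d)) := by
          have h := a1.trans (mul_le_mul_of_nonneg_left (Em (1 - 11 * d) (1 - 3 / 2 * d)
            (by linarith)) (by norm_num : (0:ℝ) ≤ 16777216))
          gcongr
      _ = 251658240 * (T ^ 5 * N ^ (1 - 3 / 2 * d)) := by ring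
  have e3 : 2 * V ≤ 8192 * (T ^ 5 * N ^ (1 - 3 / 2 * d)) := by
    calc 2 * V ≤ 2 * (4096 * N ^ (1 - 3 / 2 * d)) := by
          have h := hV2.trans (mul_le_mul_of_nonneg_left (Em (4 / 7 - 10 * d) (1 - 3 / 2 * d)
            (by linarith)) (by norm_num : (0:ℝ) ≤ 4096))
          gcongr
      _ = 8192 * (1 * N ^ (1 - 3 / 2 * d)) := by ring
      _ ≤ _ := by gcongr
  have e4 : 18 * T * N / M2 ^ 2 ≤ 18 * (T ^ 5 * N ^ (1 - 3 / 2 * d)) := by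
    have h1 : N / M2 ^ 2 ≤ N ^ (1 - 3 / 2 * d) := by
      rw [div_le_iff₀ (by positivity)]
      calc N = N ^ (1 - 2 * d) * (N ^ d) ^ 2 := by
            rw [Epow, E]; push_cast; ring_nf; exact (Real.rpow_one N).symm
        _ ≤ N ^ (1 - 3 / 2 * d) * M2 ^ 2 := by
          have := Em (1 - 2 * d) (1 - 3 / 2 * d) (by linarith)
          have := Ep d
          gcongr
    calc 18 * T * N / M2 ^ 2 = 18 * T * (N / M2 ^ 2) := by ring
      _ ≤ 18 * T ^ 5 * N ^ (1 - 3 / 2 * d) := by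
        have : 0 ≤ N / M2 ^ 2 := by positivity
        gcongr
      _ = _ := by ring
  have e5 : √(45000 * T ^ 10 * I ^ 2 * (V ^ 2 / Y0) * ((Y0 * S) * S / I ^ 3 +
        (Y0 * S) ^ 2 * √(Y0 * S) * Y0 / (I * (M2 * V)))) +
      15 * T * V ^ 2 / Y0 + 2 * V + 18 * T * N / M2 ^ 2 ≤
      400000000 * (T ^ 5 * N ^ (1 - 3 / 2 * d)) := by
    have : 0 ≤ T ^ 5 * N ^ (1 - 3 / 2 * d) := by positivity
    linarith
  have key : T ^ 2 * (N / M2) * (4 * T ^ 2 * N + M2 ^ 2 *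
      (√(45000 * T ^ 10 * I ^ 2 * (V ^ 2 / Y0) * ((Y0 * S) * S / I ^ 3 +
        (Y0 * S) ^ 2 * √(Y0 * S) * Y0 / (I * (M2 * V)))) +
      15 * T * V ^ 2 / Y0 + 2 * V + 18 * T * N / M2 ^ 2)) ≤
      4 * T ^ 4 * (N ^ 2 / M2) + T ^ 2 * N * M2 * (400000000 * (T ^ 5 * N ^ (1 - 3 / 2 * d))) := by
    have : T ^ 2 * (N / M2) * (4 * T ^ 2 * N + M2 ^ 2 *
      (√(45000 * T ^ 10 * I ^ 2 * (V ^ 2 / Y0) * ((Y0 * S) * S / I ^ 3 +
        (Y0 * S) ^ 2 * √(Y0 * S) * Y0 / (I * (M2 * V)))) +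
      15 * T * V ^ 2 / Y0 + 2 * V + 18 * T * N / M2 ^ 2)) =
      4 * T ^ 4 * (N ^ 2 / M2) + T ^ 2 * N * M2 *
      (√(45000 * T ^ 10 * I ^ 2 * (V ^ 2 / Y0) * ((Y0 * S) * S / I ^ 3 +
        (Y0 * S) ^ 2 * √(Y0 * S) * Y0 / (I * (M2 * V)))) +
      15 * T * V ^ 2 / Y0 + 2 * V + 18 * T * N / M2 ^ 2) := by
      generalize √(45000 * T ^ 10 * I ^ 2 * (V ^ 2 / Y0) * ((Y0 * S) * S / I ^ 3 +
        (Y0 * S) ^ 2 * √(Y0 * S) * Y0 / (I * (M2 * V)))) +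
      15 * T * V ^ 2 / Y0 + 2 * V + 18 * T * N / M2 ^ 2 = Z
      field_simp
    rw [this]
    gcongr
  refine key.trans ?_
  have f1 : N ^ 2 / M2 ≤ N ^ (2 - d / 2) := by
    rw [div_le_iff₀ M0]
    calc N ^ 2 = N ^ (2 - d) * N ^ d := by
          rw [E]; ring_nf; exact (Real.rpow_natCast N 2).symm
      _ ≤ N ^ (2 - d / 2) * M2 := by
        have := Em (2 - d) (2 - d / 2) (by linarith)
        have := Ep d; have := Ep (2 - d / 2)
        gcongr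
  have f2 : T ^ 2 * N * M2 * (400000000 * (T ^ 5 * N ^ (1 - 3 / 2 * d))) ≤
      3200000000 * (T ^ 7 * N ^ (2 - d / 2)) := by
    calc T ^ 2 * N * M2 * (400000000 * (T ^ 5 * N ^ (1 - 3 / 2 * d)))
        ≤ T ^ 2 * N * (8 * N ^ d) * (400000000 * (T ^ 5 * N ^ (1 - 3 / 2 * d))) := by gcongr
      _ = 3200000000 * (T ^ 7 * (N * (N ^ d * N ^ (1 - 3 / 2 * d)))) := by ring
      _ = 3200000000 * (T ^ 7 * N ^ (2 - d / 2)) := by
        have : N * (N ^ d * N ^ (1 - 3 / 2 * d)) = N ^ (2 - d / 2) := by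
          rw [E]; nth_rewrite 1 [N1]; rw [E]; ring_nf
        rw [this]
  have f3 : 4 * T ^ 4 * (N ^ 2 / M2) ≤ 4 * (T ^ 7 * N ^ (2 - d / 2)) := by
    have : T ^ 4 ≤ T ^ 7 := pow_le_pow_right₀ T1 (by norm_num)
    calc 4 * T ^ 4 * (N ^ 2 / M2) ≤ 4 * T ^ 7 * N ^ (2 - d / 2) := by
          have : 0 ≤ N ^ 2 / M2 := by positivity
          gcongr
      _ = _ := by ring
  have f4 : T ^ 7 * N ^ (2 - d / 2) * N ^ (3 * d / 100) = (N ^ (1 - d / 5)) ^ 2 := by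
    rw [hT, Epow, Epow, E, E]; push_cast; ring_nf
  rw [← f4]
  have f5 : 0 ≤ T ^ 7 * N ^ (2 - d / 2) := by have := Ep (2 - d / 2); positivity
  nlinarith [mul_le_mul_of_nonneg_left hlarge f5]

lemma inj3 {a p q a' p' q' : ℕ} (ha : a.Prime) (hp : p.Prime)
    (ha' : a'.Prime) (hp' : p'.Prime) (hq' : q'.Prime) (h1 : a ≠ p') (h2 : a ≠ q') (h3 : p ≠ q')
    (h : a * (p * q) = a' * (p' * q')) : a = a' ∧ p = p' ∧ q = q' := by
  have e1 : a = a' := by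
    have : a ∣ a' * (p' * q') := h ▸ Dvd.intro _ rfl
    rcases (Nat.Prime.dvd_mul ha).1 this with h' | h'
    · exact (Nat.prime_dvd_prime_iff_eq ha ha').1 h'
    · rcases (Nat.Prime.dvd_mul ha).1 h' with h' | h'
      · exact absurd ((Nat.prime_dvd_prime_iff_eq ha hp').1 h') h1
      · exact absurd ((Nat.prime_dvd_prime_iff_eq ha hq').1 h') h2
  subst e1
  have h4 : p * q = p' * q' := Nat.eq_of_mul_eq_mul_left ha.pos h
  have e2 : p = p' := by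
    have : p ∣ p' * q' := h4 ▸ Dvd.intro _ rfl
    rcases (Nat.Prime.dvd_mul hp).1 this with h' | h'
    · exact (Nat.prime_dvd_prime_iff_eq hp hp').1 h'
    · exact absurd ((Nat.prime_dvd_prime_iff_eq hp hq').1 h') h3
  subst e2
  exact ⟨rfl, rfl, Nat.eq_of_mul_eq_mul_left hp.pos h4⟩

lemma mem_pw {ν : ℝ} {n X p : ℕ} (h : p ∈ pw ν n X) : p.Prime ∧ X < p ∧ p ≤ 2 * X ∧ ¬ p ∣ n := by
  simp only [pw, mem_filter, mem_Ioc] at h
  exact ⟨h.2.1, h.1.1, h.1.2, h.2.2.2⟩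

/-- The triple products. -/
noncomputable def TR (ν : ℝ) (n A X1 X2 : ℕ) : Finset ℕ :=
  (pw ν n A ×ˢ (pw ν n X1 ×ˢ pw ν n X2)).image (fun t : ℕ × (ℕ × ℕ) => t.1 * (t.2.1 * t.2.2))

lemma mem_TR {ν : ℝ} {n A X1 X2 w : ℕ} (h : w ∈ TR ν n A X1 X2) :
    ∃ a ∈ pw ν n A, ∃ p ∈ pw ν n X1, ∃ q ∈ pw ν n X2, w = a * (p * q) := by
  simp only [TR, mem_image, mem_product, Prod.exists] at h
  obtain ⟨a, p, q, ⟨h1, h2, h3⟩, h4⟩ := h
  exact ⟨a, h1, p, h2, q, h3, h4.symm⟩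

lemma sum_TR (ν : ℝ) (n A X1 X2 : ℕ) (hA : 2 * A < X1) (hX : 2 * X1 < X2) (F : ℕ → ℝ) :
    ∑ w ∈ TR ν n A X1 X2, F w =
      ∑ a ∈ pw ν n A, ∑ p ∈ pw ν n X1, ∑ q ∈ pw ν n X2, F (a * (p * q)) := by
  rw [TR, sum_image]
  · rw [sum_product]
    refine sum_congr rfl fun a _ => ?_
    rw [sum_product]
  · rintro ⟨a, p, q⟩ h ⟨a', p', q'⟩ h' e
    simp only [coe_product, Set.mem_prod, mem_coe] at h h'
    obtain ⟨h1, h2, h3⟩ := h
    obtain ⟨h1', h2', h3'⟩ := h'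
    obtain ⟨a1, a2, a3, -⟩ := mem_pw h1
    obtain ⟨b1, b2, b3, -⟩ := mem_pw h2
    obtain ⟨c1, c2, c3, -⟩ := mem_pw h3
    obtain ⟨a1', a2', a3', -⟩ := mem_pw h1'
    obtain ⟨b1', b2', b3', -⟩ := mem_pw h2'
    obtain ⟨c1', c2', c3', -⟩ := mem_pw h3'
    obtain ⟨e1, e2, e3⟩ := inj3 a1 b1 a1' b1' c1' (by omega) (by omega) (by omega) e
    subst e1 e2 e3
    rfl

lemma mem_PR {ν : ℝ} {n M2 Y0 X1 X2 u y p q : ℕ} (hu : u ∈ pw ν n M2) (hy : y ∈ pw ν n Y0)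
    (hp : p ∈ pw ν n X1) (hq : q ∈ pw ν n X2) : (u * y) * (p * q) ∈ PR ν n M2 Y0 X1 X2 := by
  simp only [PR, mem_image, mem_product, Prod.exists]
  exact ⟨u, y, p, q, ⟨⟨hu, hy⟩, hp, hq⟩, rfl⟩

end KTAM

open KTAM in
theorem specKTA (hKTD : SpecKTD) (hDIV : SpecDIV) (hPRP : SpecPRP) : SpecKTA := by
  intro d ν hd hd1 hν hν1
  have hlarge : ∀ᶠ n : ℕ in atTop, (10 : ℝ) ^ 10 ≤ (n : ℝ) ^ (3 * d / 100) :=
    ((tendsto_rpow_atTop (by positivity : 0 < 3 * d / 100)).comp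
      tendsto_natCast_atTop_atTop).eventually_ge_atTop _
  filter_upwards [hPRP d ν hd hd1 hν hν1, hDIV (d / 100) (by positivity), hlarge,
    eventually_ge_atTop 1] with n hP hD hL hn M2 Y0 X1 X2 hW S S' K c hS0 hSS hS2 hnV htop hK hKr
  obtain ⟨w1, w2, w3, p1, p2, -⟩ := hP M2 Y0 X1 X2 hW
  obtain ⟨⟨wa1, wa2⟩, ⟨wb1, wb2⟩, ⟨wc1, wc2⟩, ⟨wd1, wd2⟩⟩ := hW
  have hn1 : (1 : ℝ) ≤ n := by exact_mod_cast hn
  have hn0 : (0 : ℝ) < n := by linarith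
  have E : ∀ x y : ℝ, (n : ℝ) ^ x * (n : ℝ) ^ y = (n : ℝ) ^ (x + y) :=
    fun x y => (Real.rpow_add hn0 x y).symm
  have Ep : ∀ x : ℝ, 0 < (n : ℝ) ^ x := fun x => Real.rpow_pos_of_pos hn0 x
  have Em : ∀ x y : ℝ, x ≤ y → (n : ℝ) ^ x ≤ (n : ℝ) ^ y :=
    fun x y h => Real.rpow_le_rpow_of_exponent_le hn1 h
  have EL : ∀ x : ℝ, 3 * d / 100 ≤ x → (10 : ℝ) ^ 10 ≤ (n : ℝ) ^ x := fun x h => hL.trans (Em _ _ h)
  have En : (n : ℝ) = (n : ℝ) ^ (1 : ℝ) := (Real.rpow_one _).symm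
  have M0 : (0 : ℝ) < M2 := lt_of_lt_of_le (Ep _) wa1
  have M0' : 0 < M2 := by exact_mod_cast M0
  obtain ⟨V, hV⟩ : ∃ V : ℕ, V = M2 * Y0 * X1 * X2 := ⟨_, rfl⟩
  have hVr : (V : ℝ) = (M2 : ℝ) * Y0 * X1 * X2 := by rw [hV]; push_cast; ring
  have hV1 : (n : ℝ) ^ (4 / 7 - 10 * d) ≤ V := by
    rw [hVr]
    calc (n : ℝ) ^ (4 / 7 - 10 * d) = (n : ℝ) ^ d * (n : ℝ) ^ (1 / 7 - 9 * d) *
          (n : ℝ) ^ (3 / 14 - 2 * d) * (n : ℝ) ^ (3 / 14 : ℝ) := by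
          rw [E, E, E]; ring_nf
      _ ≤ _ := by
        have := Ep d; have := Ep (1 / 7 - 9 * d); have := Ep (3 / 14 - 2 * d)
        have := Ep (3 / 14)
        gcongr
  have hV2 : (V : ℝ) ≤ 4096 * (n : ℝ) ^ (4 / 7 - 10 * d) := by
    rw [hVr]
    calc (M2 : ℝ) * Y0 * X1 * X2 ≤ (8 * (n : ℝ) ^ d) * (8 * (n : ℝ) ^ (1 / 7 - 9 * d)) *
          (8 * (n : ℝ) ^ (3 / 14 - 2 * d)) * (8 * (n : ℝ) ^ (3 / 14 : ℝ)) := by
          have := Ep d; have := Ep (1 / 7 - 9 * d); have := Ep (3 / 14 - 2 * d)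
          have := Ep (3 / 14)
          gcongr
      _ = 4096 * ((n : ℝ) ^ d * (n : ℝ) ^ (1 / 7 - 9 * d) *
          (n : ℝ) ^ (3 / 14 - 2 * d) * (n : ℝ) ^ (3 / 14 : ℝ)) := by ring
      _ = _ := by rw [E, E, E]; ring_nf
  have V0 : (0 : ℝ) < V := lt_of_lt_of_le (Ep _) hV1
  have V0' : 0 < V := by exact_mod_cast V0
  rw [← hV] at hnV p2
  have hnu : (1 : ℝ) ≤ (1 + ν) ^ 4 := one_le_pow₀ (by linarith)
  have hnu2 : (1 + ν) ^ 4 ≤ 2 := by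
    calc (1 + ν) ^ 4 ≤ (1 + 1 / 8) ^ 4 := by gcongr
      _ ≤ 2 := by norm_num
  have hSr : (0 : ℝ) < S := by exact_mod_cast hS0
  have hSS' : (S : ℝ) ≤ S' := by exact_mod_cast hSS
  have hVS' : (V : ℝ) * S' < n := by
    refine lt_of_le_of_lt ?_ htop
    rw [← hVr]
    have : (0 : ℝ) ≤ V * S' := by positivity
    nlinarith
  have hVS : (V : ℝ) * S < n := lt_of_le_of_lt (by gcongr) hVS'
  have hSup : (S : ℝ) ≤ (n : ℝ) ^ (3 / 7 + 10 * d) := by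
    have h1 : (S : ℝ) ≤ n / V := by rw [le_div_iff₀ V0]; linarith
    refine h1.trans ?_
    rw [div_le_iff₀ V0]
    calc (n : ℝ) = (n : ℝ) ^ (3 / 7 + 10 * d) * (n : ℝ) ^ (4 / 7 - 10 * d) := by
          rw [E]; ring_nf; exact En
      _ ≤ _ := by have := Ep (3 / 7 + 10 * d); gcongr
  have hSlo : (n : ℝ) ^ (3 / 7 + 10 * d) ≤ 16384 * S := by
    have h1 : (n : ℝ) ≤ 4 * V * S := by exact_mod_cast hnV
    have h2 : (n : ℝ) ^ (3 / 7 + 10 * d) * (n : ℝ) ^ (4 / 7 - 10 * d) ≤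
        16384 * S * (n : ℝ) ^ (4 / 7 - 10 * d) := by
      calc (n : ℝ) ^ (3 / 7 + 10 * d) * (n : ℝ) ^ (4 / 7 - 10 * d) = n := by
            rw [E]; ring_nf; exact En.symm
        _ ≤ 4 * V * S := h1
        _ ≤ 4 * (4096 * (n : ℝ) ^ (4 / 7 - 10 * d)) * S := by gcongr
        _ = _ := by ring
    exact le_of_mul_le_mul_right h2 (Ep _)
  obtain ⟨I, hI⟩ : ∃ I : ℕ, I = ⌊(n : ℝ) ^ (3 * d)⌋₊ := ⟨_, rfl⟩
  have hI2 : (I : ℝ) ≤ (n : ℝ) ^ (3 * d) := by rw [hI]; exact Nat.floor_le (Ep _).le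
  have hI1 : (n : ℝ) ^ (3 * d) ≤ 2 * I := by
    have h1 := Nat.lt_floor_add_one ((n : ℝ) ^ (3 * d))
    rw [← hI] at h1
    have h2 := EL (3 * d) (by linarith)
    norm_num at h2
    linarith
  have I0 : (1 : ℝ) ≤ I := by
    have h2 := EL (3 * d) (by linarith)
    norm_num at h2
    linarith
  have hYRm : ∀ y ∈ pw ν n Y0, ∀ r ∈ TR ν n M2 X1 X2, y * r ∈ PR ν n M2 Y0 X1 X2 := by
    intro y hy r hr
    obtain ⟨a, ha, p, hp, q, hq, rfl⟩ := mem_TR hr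
    have := mem_PR ha hy hp hq
    rwa [show a * y * (p * q) = y * (a * (p * q)) by ring] at this
  have hUM : ∀ u ∈ TR ν n Y0 X1 X2, ∀ m ∈ pw ν n M2, u * m ∈ PR ν n M2 Y0 X1 X2 := by
    intro u hu m hm
    obtain ⟨a, ha, p, hp, q, hq, rfl⟩ := mem_TR hu
    have := mem_PR hm ha hp hq
    rwa [show m * a * (p * q) = a * (p * q) * m by ring] at this
  have hYR : ∀ y ∈ pw ν n Y0, ∀ r ∈ TR ν n M2 X1 X2, V < y * r ∧
      ((y * r : ℕ) : ℝ) ≤ (1 + ν) ^ 4 * V := by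
    intro y hy r hr
    have := p2 _ (hYRm y hy r hr)
    rw [hVr]
    exact this
  have hc1 : ∀ F : ℕ → ℝ, ∑ m ∈ PR ν n M2 Y0 X1 X2, F m =
      ∑ u ∈ TR ν n Y0 X1 X2, ∑ m ∈ pw ν n M2, F (u * m) := by
    intro F
    rw [p1 F, sum_TR ν n Y0 X1 X2 w2 w3 (fun u => ∑ m ∈ pw ν n M2, F (u * m)), sum_comm]
    refine sum_congr rfl fun y _ => ?_
    rw [sum_comm]
    refine sum_congr rfl fun p _ => ?_
    rw [sum_comm]
    refine sum_congr rfl fun q _ => ?_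
    refine sum_congr rfl fun u _ => ?_
    congr 1
    ring
  have hc2 : ∀ F : ℕ → ℝ, ∑ m ∈ PR ν n M2 Y0 X1 X2, F m =
      ∑ y ∈ pw ν n Y0, ∑ r ∈ TR ν n M2 X1 X2, F (y * r) := by
    intro F
    rw [p1 F, sum_comm]
    refine sum_congr rfl fun y _ => ?_
    rw [sum_TR ν n M2 X1 X2 (by omega) w3 (fun r => F (y * r))]
    refine sum_congr rfl fun u _ => sum_congr rfl fun p _ => sum_congr rfl fun q _ => ?_
    congr 1
    ring
  have hDK : DK ((n : ℝ) ^ (d / 100)) n M2 Y0 V S S' I (pw ν n M2) (pw ν n Y0)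
      (TR ν n M2 X1 X2) := by
    refine ⟨hn, hS0, hSS, hS2, M0', w1, ?_, fun m hm => mem_pw hm, fun y hy => mem_pw hy, ?_, ?_,
      ?_, ?_, hnV, ?_, ?_, ?_, ?_, ?_, ?_⟩
    · rw [hV, mul_assoc, mul_assoc]
      exact Nat.le_mul_of_pos_right _ (Nat.mul_pos (by omega) (Nat.mul_pos (by omega) (by omega)))
    · intro r hr
      obtain ⟨a, ha, p, hp, q, hq, rfl⟩ := mem_TR hr
      exact Nat.mul_pos (mem_pw ha).1.pos (Nat.mul_pos (mem_pw hp).1.pos (mem_pw hq).1.pos)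
    · intro r hr b hb hbr
      obtain ⟨a, ha, p, hp, q, hq, rfl⟩ := mem_TR hr
      obtain ⟨a1, a2, a3, a4⟩ := mem_pw ha
      obtain ⟨b1, b2, b3, b4⟩ := mem_pw hp
      obtain ⟨c1, c2, c3, c4⟩ := mem_pw hq
      have : b = a ∨ b = p ∨ b = q := by
        rcases (Nat.Prime.dvd_mul hb).1 hbr with h' | h'
        · exact Or.inl ((Nat.prime_dvd_prime_iff_eq hb a1).1 h')
        · rcases (Nat.Prime.dvd_mul hb).1 h' with h' | h'
          · exact Or.inr (Or.inl ((Nat.prime_dvd_prime_iff_eq hb b1).1 h'))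
          · exact Or.inr (Or.inr ((Nat.prime_dvd_prime_iff_eq hb c1).1 h'))
      rcases this with rfl | rfl | rfl
      · exact ⟨a2, fun h => by have := mem_pw h; omega, a4⟩
      · exact ⟨by omega, fun h => by have := mem_pw h; omega, b4⟩
      · exact ⟨by omega, fun h => by have := mem_pw h; omega, c4⟩
    · intro y hy r hr
      obtain ⟨h1, h2⟩ := hYR y hy r hr
      refine ⟨h1, ?_⟩
      have : ((y * r : ℕ) : ℝ) ≤ 2 * V := h2.trans (by gcongr)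
      exact_mod_cast this
    · intro y hy r hr
      obtain ⟨h1, h2⟩ := hYR y hy r hr
      have : ((y * r * S' : ℕ) : ℝ) < n := by
        push_cast
        push_cast at h2
        refine lt_of_le_of_lt ?_ htop
        rw [← hVr]
        gcongr
      exact_mod_cast this
    · intro m h0 hm
      refine hD m h0 (hm.trans ?_)
      have : ((16 * M2 * V * S : ℕ) : ℝ) ≤ (n : ℝ) ^ (3 : ℕ) := by
        push_cast
        calc 16 * (M2 : ℝ) * V * S = 16 * M2 * (V * S) := by ring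
          _ ≤ 16 * (8 * (n : ℝ) ^ d) * n := by
            have := Ep d
            gcongr
          _ = 128 * ((n : ℝ) ^ d * n) := by ring
          _ ≤ (n : ℝ) ^ (3 * d / 100) * ((n : ℝ) ^ d * n) := by
            have := Ep d
            have : (128 : ℝ) ≤ (n : ℝ) ^ (3 * d / 100) := by
              refine le_trans ?_ hL
              norm_num
            gcongr
          _ = (n : ℝ) ^ (3 * d / 100) * ((n : ℝ) ^ d * (n : ℝ) ^ (1 : ℝ)) := by rw [← En]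
          _ = (n : ℝ) ^ (3 * d / 100 + (d + 1)) := by rw [E, E]
          _ ≤ (n : ℝ) ^ (3 : ℝ) := Em _ _ (by linarith)
          _ = (n : ℝ) ^ (3 : ℕ) := by exact_mod_cast Real.rpow_natCast (n : ℝ) 3
      exact_mod_cast this
    · exact_mod_cast I0
    · have : (I : ℝ) ≤ Y0 := hI2.trans ((Em _ _ (by linarith)).trans wb1)
      exact_mod_cast this
    · have : (I : ℝ) * Y0 ≤ M2 * V := by
        calc (I : ℝ) * Y0 ≤ (n : ℝ) ^ (3 * d) * (8 * (n : ℝ) ^ (1 / 7 - 9 * d)) := by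
              have := Ep (3 * d)
              gcongr
          _ = 8 * (n : ℝ) ^ (1 / 7 - 6 * d) := by
            rw [mul_left_comm, E]; ring_nf
          _ ≤ (n : ℝ) ^ (3 / 7 - 3 * d) * (n : ℝ) ^ (1 / 7 - 6 * d) := by
            have := Ep (1 / 7 - 6 * d)
            have : (8 : ℝ) ≤ (n : ℝ) ^ (3 / 7 - 3 * d) := by
              refine le_trans ?_ (EL (3 / 7 - 3 * d) (by linarith))
              norm_num
            gcongr
          _ = (n : ℝ) ^ d * (n : ℝ) ^ (4 / 7 - 10 * d) := by rw [E, E]; ring_nf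
          _ ≤ M2 * V := by
            have := Ep d; have := Ep (4 / 7 - 10 * d)
            gcongr
      exact_mod_cast this
    · have : (I : ℝ) ^ 3 * (2 * M2 * V) ≤ Y0 * S := by
        have h1 : (I : ℝ) ^ 3 * (2 * M2 * V) ≤ 65536 * (n : ℝ) ^ (4 / 7 : ℝ) := by
          calc (I : ℝ) ^ 3 * (2 * M2 * V) ≤ ((n : ℝ) ^ (3 * d)) ^ 3 *
                (2 * (8 * (n : ℝ) ^ d) * (4096 * (n : ℝ) ^ (4 / 7 - 10 * d))) := by
                have := Ep d; have := Ep (4 / 7 - 10 * d)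
                gcongr
            _ = 65536 * (((n : ℝ) ^ (3 * d)) ^ 3 * (n : ℝ) ^ d * (n : ℝ) ^ (4 / 7 - 10 * d)) := by
              ring
            _ = _ := by
              rw [← Real.rpow_mul_natCast hn0.le, E, E]
              push_cast
              ring_nf
        have h2 : (n : ℝ) ^ (4 / 7 + d) ≤ 16384 * (Y0 * S) := by
          calc (n : ℝ) ^ (4 / 7 + d) = (n : ℝ) ^ (1 / 7 - 9 * d) * (n : ℝ) ^ (3 / 7 + 10 * d) := by
                rw [E]; ring_nf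
            _ ≤ Y0 * (16384 * S) := by
              have := Ep (3 / 7 + 10 * d)
              gcongr
            _ = _ := by ring
        have h3 : (10 : ℝ) ^ 10 * (n : ℝ) ^ (4 / 7 : ℝ) ≤ (n : ℝ) ^ (4 / 7 + d) := by
          rw [add_comm, ← E]
          have := EL d (by linarith)
          have := Ep (4 / 7)
          gcongr
        have h4 := Ep (4 / 7)
        norm_num at h3
        nlinarith
      exact_mod_cast this
    · have : 2 * (S : ℝ) * I < M2 * V := by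
        have h1 : 2 * (S : ℝ) * I ≤ 2 * (n : ℝ) ^ (3 / 7 + 13 * d) := by
          calc 2 * (S : ℝ) * I ≤ 2 * (n : ℝ) ^ (3 / 7 + 10 * d) * (n : ℝ) ^ (3 * d) := by
                have := Ep (3 / 7 + 10 * d)
                gcongr
            _ = _ := by rw [mul_assoc, E]; ring_nf
        have h2 : (10 : ℝ) ^ 10 * (n : ℝ) ^ (3 / 7 + 13 * d) ≤ M2 * V := by
          calc (10 : ℝ) ^ 10 * (n : ℝ) ^ (3 / 7 + 13 * d) ≤
                (n : ℝ) ^ (1 / 7 - 22 * d) * (n : ℝ) ^ (3 / 7 + 13 * d) := by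
                have := Ep (3 / 7 + 13 * d)
                have := EL (1 / 7 - 22 * d) (by linarith)
                gcongr
            _ = (n : ℝ) ^ d * (n : ℝ) ^ (4 / 7 - 10 * d) := by rw [E, E]; ring_nf
            _ ≤ M2 * V := by
              have := Ep d; have := Ep (4 / 7 - 10 * d)
              gcongr
        have h4 := Ep (3 / 7 + 13 * d)
        norm_num at h2
        nlinarith
      exact_mod_cast this
  have hfin := hKTD _ n M2 Y0 V S S' I _ _ _ hDK K (TR ν n Y0 X1 X2) c hK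
    (fun u hu => by
      obtain ⟨a, ha, p, hp, q, hq, rfl⟩ := mem_TR hu
      exact Nat.mul_pos (mem_pw ha).1.pos (Nat.mul_pos (mem_pw hp).1.pos (mem_pw hq).1.pos))
    (fun k hk u hu m hm y hy r hr => by
      obtain ⟨h1, h2⟩ := hKr k hk (u * m) (hUM u hu m hm) (y * r) (hYRm y hy r hr)
      exact ⟨h1, h2⟩)
  have hb := bound n d M2 Y0 V S I ((n : ℝ) ^ (d / 100)) hd hd1 hn1 wa1 wa2 wb1 wb2 hV1 hV2 hSr.le
    hSup hI1 hI2 rfl hL
  rw [OM] at hfin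
  have hsq := abs_le_of_sq_le_sq (hfin.trans hb) (Ep _).le
  have hconv : ∑ k ∈ K, c k * ∑ m ∈ PR ν n M2 Y0 X1 X2, ∑ r ∈ PR ν n M2 Y0 X1 X2,
      ((if r ∣ n - k * m then (1 : ℝ) else 0) - 1 / (r : ℝ)) =
      ∑ k ∈ K, c k * ∑ u ∈ TR ν n Y0 X1 X2, ∑ m ∈ pw ν n M2, ∑ y ∈ pw ν n Y0,
        ∑ r ∈ TR ν n M2 X1 X2,
          ((if y * r ∣ n - k * (u * m) then (1 : ℝ) else 0) - 1 / ((y : ℝ) * r)) := by
    refine sum_congr rfl fun k _ => ?_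
    congr 1
    rw [hc1 (fun m => ∑ r ∈ PR ν n M2 Y0 X1 X2,
      ((if r ∣ n - k * m then (1 : ℝ) else 0) - 1 / (r : ℝ)))]
    refine sum_congr rfl fun u _ => sum_congr rfl fun m _ => ?_
    rw [hc2 (fun r => (if r ∣ n - k * (u * m) then (1 : ℝ) else 0) - 1 / (r : ℝ))]
    refine sum_congr rfl fun y _ => sum_congr rfl fun r _ => ?_
    push_cast
    rfl
  rw [hconv]
  exact hsq

end Pool.Agent.Lib.MP_1446ad_nt.SM
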