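import Pool.Agent.Lib.MP_1446ad_nt.SM.SpecD

set_option autoImplicit false

namespace Pool.Agent.Lib.MP_1446ad_nt.SM.LDBM

open Finset

/-- a finite set of naturals without holes -/
def Conv (J : Finset ℕ) : Prop := ∀ a ∈ J, ∀ b ∈ J, ∀ c, a ≤ c → c ≤ b → c ∈ J

theorem conv_count (J : Finset ℕ) (hJ : Conv J) (k u : ℕ) (hk : 0 < k) :
    |((J.filter (fun q => q ≡ u [MOD k])).card : ℝ) - (J.card : ℝ) / k| ≤ 1 := by
  rcases J.eq_empty_or_nonempty with h | h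
  · subst h; simp
  · have hJe : J = Finset.Ico (J.min' h) (J.max' h + 1) := by
      ext c
      rw [Finset.mem_Ico]
      constructor
      · intro hc
        exact ⟨J.min'_le c hc, Nat.lt_succ_of_le (J.le_max' c hc)⟩
      · rintro ⟨h1, h2⟩
        exact hJ _ (J.min'_mem h) _ (J.max'_mem h) c h1 (Nat.lt_succ_iff.1 h2)
    set a := J.min' h
    set b := J.max' h + 1
    have hab : a ≤ b := (J.min'_le _ (J.max'_mem h)).trans (Nat.le_succ _)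
    rw [hJe, Nat.card_Ico]
    have hc := Nat.Ico_filter_modEq_card a b hk u
    have hkq : (0 : ℚ) < (k : ℚ) := by exact_mod_cast hk
    have hle : ⌈((a : ℚ) - u) / k⌉ ≤ ⌈((b : ℚ) - u) / k⌉ := by
      apply Int.ceil_le_ceil
      apply div_le_div_of_nonneg_right _ hkq.le
      have : (a : ℚ) ≤ b := by exact_mod_cast hab
      linarith
    rw [max_eq_left (by linarith)] at hc
    have h1 := Int.ceil_lt_add_one (((b : ℚ) - u) / k)
    have h2 := Int.le_ceil (((b : ℚ) - u) / k)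
    have h3 := Int.ceil_lt_add_one (((a : ℚ) - u) / k)
    have h4 := Int.le_ceil (((a : ℚ) - u) / k)
    have hc' : (((Finset.Ico a b).filter (fun q => q ≡ u [MOD k])).card : ℚ)
        = (⌈((b : ℚ) - u) / k⌉ : ℚ) - (⌈((a : ℚ) - u) / k⌉ : ℚ) := by exact_mod_cast hc
    have h5 : ((b : ℚ) - u) / k - ((a : ℚ) - u) / k = ((b - a : ℕ) : ℚ) / k := by
      rw [Nat.cast_sub hab]; ring
    have hq : |(((Finset.Ico a b).filter (fun q => q ≡ u [MOD k])).card : ℚ)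
        - ((b - a : ℕ) : ℚ) / k| ≤ 1 := by
      rw [hc', ← h5, abs_le]
      constructor <;> linarith
    have hR := (Rat.cast_le (K := ℝ)).2 hq
    push_cast at hR ⊢
    exact hR

/-- a residue class -/
theorem cls (m k n : ℕ) (hk : 0 < k) (hm : Nat.Coprime m k) :
    ∃ u, ∀ q, q * m ≤ n → (k ∣ n - q * m ↔ q ≡ u [MOD k]) := by
  have : NeZero k := ⟨hk.ne'⟩
  refine ⟨((n : ZMod k) * (m : ZMod k)⁻¹).val, ?_⟩
  intro q hq
  rw [← ZMod.natCast_eq_zero_iff, Nat.cast_sub hq, ← ZMod.natCast_eq_natCast_iff,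
    ZMod.natCast_zmod_val, Nat.cast_mul, sub_eq_zero]
  have hinv := ZMod.coe_mul_inv_eq_one m hm
  constructor
  · intro h
    rw [h, mul_assoc, hinv, mul_one]
  · intro h
    rw [h, mul_assoc, mul_comm _ (m : ZMod k), hinv, mul_one]

theorem expand (J : Finset ℕ) (P1 P2 : ℕ → Prop) [DecidablePred P1] [DecidablePred P2] (a b : ℝ) :
    ∑ q ∈ J, ((if P1 q then (1 : ℝ) else 0) - a) * ((if P2 q then (1 : ℝ) else 0) - b)
      = ((J.filter (fun q => P1 q ∧ P2 q)).card : ℝ) - b * ((J.filter P1).card : ℝ)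
        - a * ((J.filter P2).card : ℝ) + a * b * (J.card : ℝ) := by
  have e : ∀ q ∈ J, ((if P1 q then (1 : ℝ) else 0) - a) * ((if P2 q then (1 : ℝ) else 0) - b)
      = (if P1 q ∧ P2 q then (1 : ℝ) else 0) - b * (if P1 q then (1 : ℝ) else 0)
        - a * (if P2 q then (1 : ℝ) else 0) + a * b := by
    intro q _
    by_cases h1 : P1 q <;> by_cases h2 : P2 q <;> simp [h1, h2] <;> ring
  rw [Finset.sum_congr rfl e, Finset.sum_add_distrib, Finset.sum_sub_distrib,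
    Finset.sum_sub_distrib, ← Finset.mul_sum, ← Finset.mul_sum, Finset.sum_boole, Finset.sum_boole,
    Finset.sum_boole, Finset.sum_const, nsmul_eq_mul]
  ring

/-- the interval of the `q` -/
def JJ (n m m' A B A' B' : ℕ) : Finset ℕ :=
  (Ioc 0 n).filter (fun q => (A < n - q * m ∧ n - q * m ≤ B) ∧ (A' < n - q * m' ∧ n - q * m' ≤ B'))

theorem JJ_conv (n m m' A B A' B' : ℕ) : Conv (JJ n m m' A B A' B') := by
  intro a ha b hb c hac hcb
  unfold JJ at *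
  rw [Finset.mem_filter, Finset.mem_Ioc] at *
  obtain ⟨⟨a1, a2⟩, ⟨a3, a4⟩, a5, a6⟩ := ha
  obtain ⟨⟨b1, b2⟩, ⟨b3, b4⟩, b5, b6⟩ := hb
  have c1 : a * m ≤ c * m := Nat.mul_le_mul_right _ hac
  have c2 : c * m ≤ b * m := Nat.mul_le_mul_right _ hcb
  have c3 : a * m' ≤ c * m' := Nat.mul_le_mul_right _ hac
  have c4 : c * m' ≤ b * m' := Nat.mul_le_mul_right _ hcb
  refine ⟨⟨by omega, by omega⟩, ⟨by omega, by omega⟩, by omega, by omega⟩

theorem JJ_lt {n m m' A B A' B' q : ℕ} (h : q ∈ JJ n m m' A B A' B') :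
    0 < q ∧ q * m < n ∧ q * m' < n := by
  unfold JJ at h
  rw [Finset.mem_filter, Finset.mem_Ioc] at h
  obtain ⟨⟨a1, a2⟩, ⟨a3, a4⟩, a5, a6⟩ := h
  refine ⟨a1, by omega, by omega⟩

theorem JJ_card (n m m' A B A' B' M : ℕ) (hM : 0 < M) (hMm : M < m) :
    ((JJ n m m' A B A' B').card : ℝ) ≤ (n : ℝ) / M := by
  have h1 : JJ n m m' A B A' B' ⊆ Ioc 0 (n / M) := by
    intro q hq
    obtain ⟨h1, h2, _⟩ := JJ_lt hq
    rw [Finset.mem_Ioc]
    refine ⟨h1, ?_⟩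
    rw [Nat.le_div_iff_mul_le hM]
    exact (Nat.mul_le_mul_left q hMm.le).trans h2.le
  have h2 := Finset.card_le_card h1
  rw [Nat.card_Ioc, Nat.sub_zero] at h2
  calc ((JJ n m m' A B A' B').card : ℝ) ≤ ((n / M : ℕ) : ℝ) := by exact_mod_cast h2
    _ ≤ _ := Nat.cast_div_le

/-- the good pairs -/
theorem good (J : Finset ℕ) (hJ : Conv J) (n m m' a b : ℕ) (ha : 0 < a) (hb : 0 < b)
    (hl : ∀ q ∈ J, q * m < n ∧ q * m' < n)
    (hma : Nat.Coprime m a) (hmb : Nat.Coprime m' b) (hab : Nat.Coprime a b) :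
    |∑ q ∈ J, ((if a ∣ n - q * m then (1 : ℝ) else 0) - 1 / (a : ℝ)) *
      ((if b ∣ n - q * m' then (1 : ℝ) else 0) - 1 / (b : ℝ))| ≤ 3 := by
  obtain ⟨u1, hu1⟩ := cls m a n ha hma
  obtain ⟨u2, hu2⟩ := cls m' b n hb hmb
  obtain ⟨w, hw1, hw2⟩ := Nat.chineseRemainder hab u1 u2
  rw [expand]
  have e1 : J.filter (fun q => a ∣ n - q * m) = J.filter (fun q => q ≡ u1 [MOD a]) :=
    Finset.filter_congr fun q hq => hu1 q (hl q hq).1.le
  have e2 : J.filter (fun q => b ∣ n - q * m') = J.filter (fun q => q ≡ u2 [MOD b]) :=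
    Finset.filter_congr fun q hq => hu2 q (hl q hq).2.le
  have e3 : J.filter (fun q => a ∣ n - q * m ∧ b ∣ n - q * m')
      = J.filter (fun q => q ≡ w [MOD (a * b)]) := by
    apply Finset.filter_congr
    intro q hq
    rw [hu1 q (hl q hq).1.le, hu2 q (hl q hq).2.le, ← Nat.modEq_and_modEq_iff_modEq_mul hab]
    constructor
    · rintro ⟨h1, h2⟩
      exact ⟨h1.trans hw1.symm, h2.trans hw2.symm⟩
    · rintro ⟨h1, h2⟩
      exact ⟨h1.trans hw1, h2.trans hw2⟩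
  rw [e1, e2, e3]
  have t1 := conv_count J hJ a u1 ha
  have t2 := conv_count J hJ b u2 hb
  have t3 := conv_count J hJ (a * b) w (Nat.mul_pos ha hb)
  set N1 := ((J.filter (fun q => q ≡ u1 [MOD a])).card : ℝ)
  set N2 := ((J.filter (fun q => q ≡ u2 [MOD b])).card : ℝ)
  set N3 := ((J.filter (fun q => q ≡ w [MOD (a * b)])).card : ℝ)
  set N := (J.card : ℝ)
  have ha' : (1 : ℝ) ≤ a := by exact_mod_cast ha
  have hb' : (1 : ℝ) ≤ b := by exact_mod_cast hb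
  have e4 : N3 - 1 / (b : ℝ) * N1 - 1 / (a : ℝ) * N2 + 1 / (a : ℝ) * (1 / (b : ℝ)) * N
      = (N3 - N / ((a * b : ℕ) : ℝ)) - (1 / (b : ℝ)) * (N1 - N / a)
        - (1 / (a : ℝ)) * (N2 - N / b) := by
    push_cast
    field_simp
    ring
  rw [e4]
  have s1 : |(1 / (b : ℝ)) * (N1 - N / a)| ≤ 1 := by
    rw [abs_mul, abs_of_pos (by positivity)]
    have : 1 / (b : ℝ) ≤ 1 := by rw [div_le_one (by positivity)]; exact hb'
    calc 1 / (b : ℝ) * |N1 - N / a| ≤ 1 * 1 := mul_le_mul this t1 (abs_nonneg _) zero_le_one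
      _ = 1 := one_mul 1
  have s2 : |(1 / (a : ℝ)) * (N2 - N / b)| ≤ 1 := by
    rw [abs_mul, abs_of_pos (by positivity)]
    have : 1 / (a : ℝ) ≤ 1 := by rw [div_le_one (by positivity)]; exact ha'
    calc 1 / (a : ℝ) * |N2 - N / b| ≤ 1 * 1 := mul_le_mul this t2 (abs_nonneg _) zero_le_one
      _ = 1 := one_mul 1
  rw [abs_le] at *
  constructor <;> linarith [s1.1, s1.2, s2.1, s2.2, t3.1, t3.2]

/-- number of `q` in a divisibility condition, whether or not the class exists -/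
theorem cnt_le (J : Finset ℕ) (hJ : Conv J) (n m a : ℕ) (ha : 0 < a) (hmp : m.Prime)
    (hmn : ¬ m ∣ n) (hl : ∀ q ∈ J, q * m < n) :
    ((J.filter (fun q => a ∣ n - q * m)).card : ℝ) ≤ (J.card : ℝ) / a + 1 := by
  by_cases h : m ∣ a
  · have : J.filter (fun q => a ∣ n - q * m) = ∅ := by
      apply Finset.filter_eq_empty_iff.2
      intro q hq hd
      have h1 : m ∣ n - q * m := h.trans hd
      exact hmn ((Nat.dvd_sub_iff_left (hl q hq).le (Nat.dvd_mul_left m q)).1 h1)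
    rw [this]
    simp
    positivity
  · obtain ⟨u, hu⟩ := cls m a n ha ((Nat.Prime.coprime_iff_not_dvd hmp).2 h)
    have e1 : J.filter (fun q => a ∣ n - q * m) = J.filter (fun q => q ≡ u [MOD a]) :=
      Finset.filter_congr fun q hq => hu q (hl q hq).le
    rw [e1]
    have := (abs_le.1 (conv_count J hJ a u ha)).2
    linarith

/-- the bad pairs -/
theorem bad (J : Finset ℕ) (hJ : Conv J) (n m m' a b : ℕ) (ha : 0 < a) (hb : 0 < b)
    (hl : ∀ q ∈ J, q * m < n ∧ q * m' < n) (hmp : m.Prime) (hmp' : m'.Prime)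
    (hmn : ¬ m ∣ n) (hmn' : ¬ m' ∣ n)
    (hno : ∀ q ∈ J, ¬ (a ∣ n - q * m ∧ b ∣ n - q * m')) :
    |∑ q ∈ J, ((if a ∣ n - q * m then (1 : ℝ) else 0) - 1 / (a : ℝ)) *
      ((if b ∣ n - q * m' then (1 : ℝ) else 0) - 1 / (b : ℝ))| ≤
      3 * ((J.card : ℝ) / (a * b)) + 2 := by
  rw [expand]
  have e3 : J.filter (fun q => a ∣ n - q * m ∧ b ∣ n - q * m') = ∅ :=
    Finset.filter_eq_empty_iff.2 fun q hq => hno q hq
  rw [e3]
  have t1 := cnt_le J hJ n m a ha hmp hmn (fun q hq => (hl q hq).1)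
  have t2 := cnt_le J hJ n m' b hb hmp' hmn' (fun q hq => (hl q hq).2)
  set N1 := ((J.filter (fun q => a ∣ n - q * m)).card : ℝ)
  set N2 := ((J.filter (fun q => b ∣ n - q * m')).card : ℝ)
  set N := (J.card : ℝ)
  have hN1 : 0 ≤ N1 := Nat.cast_nonneg _
  have hN2 : 0 ≤ N2 := Nat.cast_nonneg _
  have hN : 0 ≤ N := Nat.cast_nonneg _
  have ha' : (1 : ℝ) ≤ a := by exact_mod_cast ha
  have hb' : (1 : ℝ) ≤ b := by exact_mod_cast hb
  have h1a : 1 / (a : ℝ) ≤ 1 := by rw [div_le_one (by positivity)]; exact ha'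
  have h1b : 1 / (b : ℝ) ≤ 1 := by rw [div_le_one (by positivity)]; exact hb'
  have s1 : 1 / (b : ℝ) * N1 ≤ N / (a * b) + 1 := by
    calc 1 / (b : ℝ) * N1 ≤ 1 / (b : ℝ) * (N / a + 1) := mul_le_mul_of_nonneg_left t1 (by positivity)
      _ = N / (a * b) + 1 / (b : ℝ) := by field_simp
      _ ≤ _ := by linarith
  have s2 : 1 / (a : ℝ) * N2 ≤ N / (a * b) + 1 := by
    calc 1 / (a : ℝ) * N2 ≤ 1 / (a : ℝ) * (N / b + 1) := mul_le_mul_of_nonneg_left t2 (by positivity)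
      _ = N / (a * b) + 1 / (a : ℝ) := by field_simp
      _ ≤ _ := by linarith
  have s3 : 1 / (a : ℝ) * (1 / (b : ℝ)) * N = N / (a * b) := by field_simp
  have p1 : 0 ≤ 1 / (b : ℝ) * N1 := by positivity
  have p2 : 0 ≤ 1 / (a : ℝ) * N2 := by positivity
  have p3 : 0 ≤ N / ((a : ℝ) * b) := by positivity
  rw [Finset.card_empty, s3, abs_le]
  push_cast
  constructor <;> linarith

/-- no common solutions for a bad pair -/
theorem nocommon (n m m' M a b q : ℕ) (hM : M < m) (hM' : m' ≤ 2 * M) (hmm : m < m')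
    (hmn : ¬ m ∣ n) (hmn' : ¬ m' ∣ n)
    (hp : ∀ p : ℕ, p.Prime → p ∣ a → M < p ∧ ¬ p ∣ n)
    (hbad : m ∣ a ∨ m' ∣ b ∨ ¬ Nat.Coprime a b) (h1 : q * m < n) (h2 : q * m' < n) :
    ¬ (a ∣ n - q * m ∧ b ∣ n - q * m') := by
  rintro ⟨d1, d2⟩
  rcases hbad with h | h | h
  · exact hmn ((Nat.dvd_sub_iff_left h1.le (Nat.dvd_mul_left m q)).1 (h.trans d1))
  · exact hmn' ((Nat.dvd_sub_iff_left h2.le (Nat.dvd_mul_left m' q)).1 (h.trans d2))
  · obtain ⟨p, hpp, hpa, hpb⟩ := Nat.Prime.not_coprime_iff_dvd.1 h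
    obtain ⟨hpM, hpn⟩ := hp p hpp hpa
    have e1 : (p : ℤ) ∣ (n : ℤ) - q * m := by
      have := hpa.trans d1
      have h3 : (p : ℤ) ∣ ((n - q * m : ℕ) : ℤ) := by exact_mod_cast this
      rwa [Nat.cast_sub h1.le, Nat.cast_mul] at h3
    have e2 : (p : ℤ) ∣ (n : ℤ) - q * m' := by
      have := hpb.trans d2
      have h3 : (p : ℤ) ∣ ((n - q * m' : ℕ) : ℤ) := by exact_mod_cast this
      rwa [Nat.cast_sub h2.le, Nat.cast_mul] at h3
    have e3 : (p : ℤ) ∣ (n : ℤ) * ((m' : ℤ) - m) := by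
      have := (e1.mul_left (m' : ℤ)).sub (e2.mul_left (m : ℤ))
      have e : (m' : ℤ) * ((n : ℤ) - q * m) - m * ((n : ℤ) - q * m') = n * ((m' : ℤ) - m) := by ring
      rwa [e] at this
    have e4 : p ∣ n * (m' - m) := by
      rw [← Nat.cast_sub hmm.le] at e3
      exact_mod_cast e3
    rcases (Nat.Prime.dvd_mul hpp).1 e4 with h5 | h5
    · exact hpn h5
    · have := Nat.le_of_dvd (by omega) h5
      omega

end LDBM

open LDBM Finset in
theorem specLDB (hDDB : SpecDDB) (hBPC : SpecBPC) : SpecLDB := by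
  intro T n M2 Y0 V S S' I Mm Y R hK m hm m' hm' hmm
  obtain ⟨hT1, hcard, -, -, -, -⟩ := hDDB T n M2 Y0 V S S' I Mm Y R hK
  have hbp := hBPC T n M2 Y0 V S S' I Mm Y R hK m hm m' hm' hmm
  obtain ⟨hmp, hmM, hmM', hmn⟩ := hK.Mp m hm
  obtain ⟨hmp', hmM1, hmM1', hmn'⟩ := hK.Mp m' hm'
  have hY0 : 0 < Y0 := by have := hK.MY; omega
  have hV0 : 0 < V := by have := hK.MV; have := hK.M20; omega
  have hM20 := hK.M20
  have hY0' : (0 : ℝ) < Y0 := by exact_mod_cast hY0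
  have hV0' : (0 : ℝ) < V := by exact_mod_cast hV0
  have hM1 : (1 : ℝ) ≤ M2 := by exact_mod_cast hM20
  have hLL : ∀ x, LL Y R S S' x = ∑ p ∈ Y ×ˢ R, if p.1 * p.2 * S < x ∧ x ≤ p.1 * p.2 * S' then
      (1 / (p.1 : ℝ)) * ((if p.2 ∣ x then (1 : ℝ) else 0) - 1 / (p.2 : ℝ)) else 0 := by
    intro x; unfold LL; rw [Finset.sum_product]
  have hDD : ∀ x, DD Y R S S' x = ∑ p ∈ Y ×ˢ R, if p.1 * p.2 * S < x ∧ x ≤ p.1 * p.2 * S' then
      ((if p.1 * p.2 ∣ x then (1 : ℝ) else 0) - 1 / ((p.1 : ℝ) * p.2)) else 0 := by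
    intro x; unfold DD; rw [Finset.sum_product]
  set J : ℕ × ℕ → ℕ × ℕ → Finset ℕ := fun p1 p2 =>
    JJ n m m' (p1.1 * p1.2 * S) (p1.1 * p1.2 * S') (p2.1 * p2.2 * S) (p2.1 * p2.2 * S') with hJ
  set X : ℕ × ℕ → ℕ × ℕ → ℝ := fun p1 p2 => ∑ q ∈ J p1 p2,
    ((if p1.2 ∣ n - q * m then (1 : ℝ) else 0) - 1 / (p1.2 : ℝ)) *
      ((if p2.1 * p2.2 ∣ n - q * m' then (1 : ℝ) else 0) - 1 / ((p2.1 * p2.2 : ℕ) : ℝ)) with hX
  have h1 : ∑ q ∈ Ioc 0 n, LL Y R S S' (n - q * m) * DD Y R S S' (n - q * m')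
      = ∑ p1 ∈ Y ×ˢ R, ∑ p2 ∈ Y ×ˢ R, (1 / (p1.1 : ℝ)) * X p1 p2 := by
    simp only [hLL, hDD, Finset.sum_mul_sum]
    rw [Finset.sum_comm]
    apply Finset.sum_congr rfl
    intro p1 _
    rw [Finset.sum_comm]
    apply Finset.sum_congr rfl
    intro p2 _
    simp only [hX, hJ, JJ]
    rw [Finset.sum_filter, Finset.mul_sum]
    apply Finset.sum_congr rfl
    intro q _
    push_cast
    by_cases c1 : p1.1 * p1.2 * S < n - q * m ∧ n - q * m ≤ p1.1 * p1.2 * S'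
    · by_cases c2 : p2.1 * p2.2 * S < n - q * m' ∧ n - q * m' ≤ p2.1 * p2.2 * S'
      · have c12 : (p1.1 * p1.2 * S < n - q * m ∧ n - q * m ≤ p1.1 * p1.2 * S') ∧
            p2.1 * p2.2 * S < n - q * m' ∧ n - q * m' ≤ p2.1 * p2.2 * S' := ⟨c1, c2⟩
        rw [if_pos c1, if_pos c2, if_pos c12]; ring
      · have c12 : ¬ ((p1.1 * p1.2 * S < n - q * m ∧ n - q * m ≤ p1.1 * p1.2 * S') ∧
            p2.1 * p2.2 * S < n - q * m' ∧ n - q * m' ≤ p2.1 * p2.2 * S') := fun h => c2 h.2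
        rw [if_neg c2, if_neg c12]; ring
    · have c12 : ¬ ((p1.1 * p1.2 * S < n - q * m ∧ n - q * m ≤ p1.1 * p1.2 * S') ∧
            p2.1 * p2.2 * S < n - q * m' ∧ n - q * m' ≤ p2.1 * p2.2 * S') := fun h => c1 h.1
      rw [if_neg c1, if_neg c12]; ring
  set C : ℝ := 3 * ((n : ℝ) / M2) / (V : ℝ) ^ 2 + 2 / Y0 with hC
  have hC0 : 0 ≤ C := by positivity
  set Bd : (ℕ × ℕ) × (ℕ × ℕ) → Prop := fun p =>
      m ∣ p.1.2 ∨ m' ∣ p.2.1 * p.2.2 ∨ ¬ Nat.Coprime p.1.2 (p.2.1 * p.2.2) with hBd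
  classical
  have h2 : ∀ p1 ∈ Y ×ˢ R, ∀ p2 ∈ Y ×ˢ R, |(1 / (p1.1 : ℝ)) * X p1 p2|
      ≤ 3 / Y0 + if Bd (p1, p2) then C else 0 := by
    intro p1 hp1 p2 hp2
    obtain ⟨hy1, hr1⟩ := Finset.mem_product.1 hp1
    obtain ⟨hy2, hr2⟩ := Finset.mem_product.1 hp2
    obtain ⟨yp, yY, yY', yn⟩ := hK.Yp p1.1 hy1
    have r10 := hK.R0 p1.2 hr1
    have r20 := hK.R0 p2.2 hr2
    have y20 : 0 < p2.1 := (hK.Yp p2.1 hy2).1.pos
    have hb0 : 0 < p2.1 * p2.2 := Nat.mul_pos y20 r20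
    have hl : ∀ q ∈ J p1 p2, q * m < n ∧ q * m' < n := fun q hq => (JJ_lt hq).2
    have hcv : Conv (J p1 p2) := JJ_conv _ _ _ _ _ _ _
    have yYr : (Y0 : ℝ) ≤ (p1.1 : ℝ) := by exact_mod_cast yY.le
    have hy1pos : (0 : ℝ) < (p1.1 : ℝ) := lt_of_lt_of_le hY0' yYr
    have hinv : 1 / (p1.1 : ℝ) ≤ 1 / (Y0 : ℝ) := one_div_le_one_div_of_le hY0' yYr
    rw [abs_mul, abs_of_pos (show (0 : ℝ) < 1 / (p1.1 : ℝ) by positivity)]
    by_cases hB : Bd (p1, p2)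
    · rw [if_pos hB]
      have hno : ∀ q ∈ J p1 p2, ¬ (p1.2 ∣ n - q * m ∧ p2.1 * p2.2 ∣ n - q * m') := by
        intro q hq
        exact nocommon n m m' M2 p1.2 (p2.1 * p2.2) q hmM hmM1' hmm hmn hmn'
          (fun p hpp hpa => ⟨(hK.Rp p1.2 hr1 p hpp hpa).1, (hK.Rp p1.2 hr1 p hpp hpa).2.2⟩)
          hB (hl q hq).1 (hl q hq).2
      have hb := bad (J p1 p2) hcv n m m' p1.2 (p2.1 * p2.2) r10 hb0 hl hmp hmp' hmn hmn' hno
      have hJc : ((J p1 p2).card : ℝ) ≤ (n : ℝ) / M2 := JJ_card _ _ _ _ _ _ _ _ hM20 hmM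
      have hV1 : (V : ℝ) ≤ (p1.1 : ℝ) * p1.2 := by exact_mod_cast (hK.RV p1.1 hy1 p1.2 hr1).1.le
      have hV2 : (V : ℝ) ≤ (p2.1 : ℝ) * p2.2 := by exact_mod_cast (hK.RV p2.1 hy2 p2.2 hr2).1.le
      have hVV : (V : ℝ) ^ 2 ≤ ((p1.1 : ℝ) * p1.2) * ((p2.1 : ℝ) * p2.2) := by
        rw [sq]; exact mul_le_mul hV1 hV2 hV0'.le (hV0'.le.trans hV1)
      calc 1 / (p1.1 : ℝ) * |X p1 p2|
          ≤ 1 / (p1.1 : ℝ) * (3 * (((J p1 p2).card : ℝ) / ((p1.2 : ℝ) * ((p2.1 * p2.2 : ℕ) : ℝ))) + 2) :=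
            mul_le_mul_of_nonneg_left hb (by positivity)
        _ = 3 * (((J p1 p2).card : ℝ) / (((p1.1 : ℝ) * p1.2) * ((p2.1 : ℝ) * p2.2)))
            + 2 * (1 / (p1.1 : ℝ)) := by push_cast; field_simp
        _ ≤ 3 * (((n : ℝ) / M2) / (V : ℝ) ^ 2) + 2 * (1 / (Y0 : ℝ)) := by
            apply add_le_add
            · apply mul_le_mul_of_nonneg_left _ (by norm_num)
              exact div_le_div₀ (by positivity) hJc (by positivity) hVV
            · exact mul_le_mul_of_nonneg_left hinv (by norm_num)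
        _ = C := by rw [hC]; ring
        _ ≤ _ := by
            have : 0 ≤ 3 / (Y0 : ℝ) := by positivity
            linarith
    · rw [if_neg hB, add_zero]
      have hB' : ¬ (m ∣ p1.2 ∨ m' ∣ p2.1 * p2.2 ∨ ¬ Nat.Coprime p1.2 (p2.1 * p2.2)) := hB
      push Not at hB'
      obtain ⟨g1, g2, g3⟩ := hB'
      have hg := good (J p1 p2) hcv n m m' p1.2 (p2.1 * p2.2) r10 hb0 hl
        ((Nat.Prime.coprime_iff_not_dvd hmp).2 g1) ((Nat.Prime.coprime_iff_not_dvd hmp').2 g2) g3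
      calc 1 / (p1.1 : ℝ) * |X p1 p2| ≤ 1 / (Y0 : ℝ) * 3 :=
            mul_le_mul hinv hg (abs_nonneg _) (by positivity)
        _ = 3 / Y0 := by ring
  have hcardR : ((Y ×ˢ R).card : ℝ) ≤ V := by exact_mod_cast hcard
  have h3 : |∑ p1 ∈ Y ×ˢ R, ∑ p2 ∈ Y ×ˢ R, (1 / (p1.1 : ℝ)) * X p1 p2|
      ≤ ∑ p1 ∈ Y ×ˢ R, ∑ p2 ∈ Y ×ˢ R, (3 / Y0 + if Bd (p1, p2) then C else 0) := by
    refine (Finset.abs_sum_le_sum_abs _ _).trans (Finset.sum_le_sum fun p1 hp1 => ?_)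
    exact (Finset.abs_sum_le_sum_abs _ _).trans (Finset.sum_le_sum fun p2 hp2 => h2 p1 hp1 p2 hp2)
  have h4 : ∑ p1 ∈ Y ×ˢ R, ∑ p2 ∈ Y ×ˢ R, (3 / (Y0 : ℝ) + if Bd (p1, p2) then C else 0)
      ≤ (V : ℝ) ^ 2 * (3 / Y0) + (6 * T * V ^ 2 / M2) * C := by
    rw [← Finset.sum_product']
    rw [Finset.sum_add_distrib]
    apply add_le_add
    · rw [Finset.sum_const, nsmul_eq_mul, Finset.card_product]
      push_cast
      apply mul_le_mul_of_nonneg_right _ (by positivity)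
      rw [sq]
      exact mul_le_mul hcardR hcardR (by positivity) (by positivity)
    · rw [← Finset.sum_filter, Finset.sum_const, nsmul_eq_mul]
      apply mul_le_mul_of_nonneg_right _ hC0
      convert hbp using 3
  rw [h1]
  refine h3.trans (h4.trans ?_)
  have e1 : (6 * T * V ^ 2 / M2) * C
      = 18 * T * n / M2 ^ 2 + 12 * T * V ^ 2 / Y0 * (1 / M2) := by
    rw [hC]
    field_simp
    ring
  have e2 : 12 * T * (V : ℝ) ^ 2 / Y0 * (1 / M2) ≤ 12 * T * V ^ 2 / Y0 := by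
    have h5 : 1 / (M2 : ℝ) ≤ 1 := by rw [div_le_one (by linarith)]; exact hM1
    have h6 : 0 ≤ 12 * T * (V : ℝ) ^ 2 / Y0 := by positivity
    calc _ ≤ 12 * T * (V : ℝ) ^ 2 / Y0 * 1 := mul_le_mul_of_nonneg_left h5 h6
      _ = _ := mul_one _
  have e3 : (V : ℝ) ^ 2 * (3 / Y0) ≤ 3 * T * V ^ 2 / Y0 := by
    have h7 : 0 ≤ (V : ℝ) ^ 2 * (3 / Y0) := by positivity
    calc (V : ℝ) ^ 2 * (3 / Y0) = 1 * ((V : ℝ) ^ 2 * (3 / Y0)) := (one_mul _).symm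
      _ ≤ T * ((V : ℝ) ^ 2 * (3 / Y0)) := mul_le_mul_of_nonneg_right hT1 h7
      _ = _ := by ring
  have e4 : 15 * T * (V : ℝ) ^ 2 / Y0 = 3 * T * V ^ 2 / Y0 + 12 * T * V ^ 2 / Y0 := by ring
  rw [e1, e4]
  linarith

end Pool.Agent.Lib.MP_1446ad_nt.SM
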