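import Pool.Agent.Lib.MP_1446ad_nt.SM.SpecD

/-!
# MP_1446ad_nt, part D: module MNP, cancellation in the sum over `b` for fixed `P` and `t`
-/

set_option autoImplicit false

namespace Pool.Agent.Lib.MP_1446ad_nt.SM.MNPM

open Finset
open scoped Classical

lemma er_nonneg (P : ℕ) (c : ℤ) : 0 ≤ er P c := by
  unfold er tau
  positivity

/-- the number of `Q` as a count over a range -/
lemma nQ_eq (P b M S s1 : ℕ) (h : S ≤ s1) :
    nQ P b M S s1 = ((range (s1 - S)).filter (fun j => P ∣ b * (S + 1 + j) + M)).card := by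
  unfold nQ
  symm
  apply card_bij (fun j _ => S + 1 + j)
  · intro j hj
    rw [mem_filter, mem_range] at hj
    rw [mem_filter, mem_Ioc]
    exact ⟨by omega, hj.2⟩
  · intro j _ j' _ hjj
    omega
  · intro Q hQ
    rw [mem_filter, mem_Ioc] at hQ
    refine ⟨Q - (S + 1), ?_, by omega⟩
    rw [mem_filter, mem_range]
    have e : S + 1 + (Q - (S + 1)) = Q := by omega
    rw [e]
    exact ⟨by omega, hQ.2⟩

lemma cntB_eq (P y β M S s1 W : ℕ) (h : S ≤ s1) :
    cntB P y β (-(M : ℤ)) ((S + 1 : ℕ) : ℤ) W (s1 - S) =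
      ∑ i ∈ range W, nQ P (β + y * i) M S s1 := by
  unfold cntB
  rw [card_filter, sum_product]
  apply sum_congr rfl
  intro i _
  rw [nQ_eq P _ M S s1 h, card_filter]
  apply sum_congr rfl
  intro j _
  congr 1
  apply propext
  have e : ((β : ℤ) + (y : ℤ) * (i : ℤ)) * (((S + 1 : ℕ) : ℤ) + (j : ℤ)) - -(M : ℤ) =
      (((β + y * i) * (S + 1 + j) + M : ℕ) : ℤ) := by
    push_cast
    ring
  rw [e, Int.natCast_dvd_natCast]

/-- a convex finite set of natural numbers is an interval -/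
lemma interval_of_convex (J : Finset ℕ) (h : ∀ x ∈ J, ∀ z ∈ J, ∀ y, x ≤ y → y ≤ z → y ∈ J) :
    ∃ u W, J = Ico u (u + W) := by
  rcases J.eq_empty_or_nonempty with h0 | h0
  · exact ⟨0, 0, by rw [h0]; simp⟩
  · refine ⟨J.min' h0, J.max' h0 + 1 - J.min' h0, ?_⟩
    have h1 : J.min' h0 ≤ J.max' h0 := J.min'_le _ (J.max'_mem h0)
    ext x
    rw [mem_Ico]
    constructor
    · intro hx
      have a := J.min'_le x hx
      have b := J.le_max' x hx
      omega
    · intro hx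
      exact h _ (J.min'_mem h0) _ (J.max'_mem h0) x (by omega) (by omega)

lemma sum_Ico_shift (f : ℕ → ℕ) (u W : ℕ) : ∑ b ∈ Ico u (u + W), f b = ∑ i ∈ range W, f (u + i) := by
  rw [sum_Ico_eq_sum_range]
  congr 2
  omega

/-- arithmetic progressions in an interval -/
lemma ap_interval (u W y ρ : ℕ) (hy : 0 < y) :
    ∃ β W', ((Ico u (u + W)).filter (fun b => b ≡ ρ [MOD y])) =
      (range W').image (fun i => β + y * i) ∧ |(W' : ℝ) - (W : ℝ) / y| ≤ 1 := by
  -- the least element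
  obtain ⟨β, hβ1, hβ2, hβ3⟩ : ∃ β, u ≤ β ∧ β < u + y ∧ β ≡ ρ [MOD y] := by
    refine ⟨u + (ρ + (y * u - u)) % y, by omega, ?_, ?_⟩
    · have := Nat.mod_lt (ρ + (y * u - u)) hy
      omega
    · have h1 : u ≤ y * u := Nat.le_mul_of_pos_left u hy
      have h2 : u + (ρ + (y * u - u)) % y ≡ u + (ρ + (y * u - u)) [MOD y] :=
        Nat.ModEq.add_left u (Nat.mod_modEq _ _)
      refine h2.trans ?_
      have h3 : u + (ρ + (y * u - u)) = ρ + y * u := by omega
      rw [h3]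
      exact (Nat.modEq_iff_dvd' (by omega)).2 (by simp) |>.symm
  refine ⟨β, (u + W + y - 1 - β) / y, ?_, ?_⟩
  · ext b
    rw [mem_filter, mem_Ico, mem_image]
    constructor
    · rintro ⟨⟨h1, h2⟩, h3⟩
      have h4 : b ≡ β [MOD y] := h3.trans hβ3.symm
      have h5 : β ≤ b := by
        by_contra hcon
        push Not at hcon
        have h6 : y ∣ β - b := (Nat.modEq_iff_dvd' hcon.le).1 h4
        have := Nat.le_of_dvd (by omega) h6
        omega
      obtain ⟨i, hi⟩ := (Nat.modEq_iff_dvd' h5).1 h4.symm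
      refine ⟨i, ?_, by omega⟩
      rw [mem_range, Nat.lt_div_iff_mul_lt hy]
      have : i * y = y * i := mul_comm _ _
      omega
    · rintro ⟨i, hi, rfl⟩
      rw [mem_range, Nat.lt_div_iff_mul_lt hy] at hi
      have : i * y = y * i := mul_comm _ _
      refine ⟨⟨by omega, by omega⟩, ?_⟩
      refine Nat.ModEq.trans ?_ hβ3
      exact ((Nat.modEq_iff_dvd' (by omega)).2 (by simp)).symm
  · have hyR : (0 : ℝ) < y := by exact_mod_cast hy
    have e1 : (u + W + y - 1 - β) / y * y ≤ u + W + y - 1 - β := Nat.div_mul_le_self _ _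
    have e2 : u + W + y - 1 - β < ((u + W + y - 1 - β) / y + 1) * y := by
      have hd := Nat.div_add_mod (u + W + y - 1 - β) y
      have hm := Nat.mod_lt (u + W + y - 1 - β) hy
      have he : ((u + W + y - 1 - β) / y + 1) * y = y * ((u + W + y - 1 - β) / y) + y := by ring
      omega
    obtain ⟨w, hw⟩ : ∃ w, w = (u + W + y - 1 - β) / y := ⟨_, rfl⟩
    rw [← hw] at e1 e2 ⊢
    have e3 : (w : ℝ) * y ≤ (W : ℝ) + y := by
      have : w * y ≤ W + y := by omega
      exact_mod_cast this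
    have e4 : (W : ℝ) ≤ ((w : ℝ) + 1) * y := by
      have : W ≤ (w + 1) * y := by omega
      exact_mod_cast this
    rw [abs_le]
    constructor
    · have : (W : ℝ) / y ≤ w + 1 := by rw [div_le_iff₀ hyR]; exact e4
      linarith
    · have : (w : ℝ) ≤ (W : ℝ) / y + 1 := by
        rw [← sub_le_iff_le_add, le_div_iff₀ hyR]
        linarith
      linarith

section

variable (hBOX : SpecBOX) (P M S s1 : ℕ) (hP : 0 < P) (hs : S ≤ s1) (hL : s1 - S ≤ P)

include hBOX hP hs hL in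
lemma box_sum (y β W : ℕ) (hy : Nat.Coprime y P) :
    |((∑ i ∈ range W, nQ P (β + y * i) M S s1 : ℕ) : ℝ) - (W : ℝ) / P *
      (cntB P 1 0 (-(M : ℤ)) ((S + 1 : ℕ) : ℤ) P (s1 - S) : ℝ)| ≤ er P (-(M : ℤ)) := by
  have h1 := hBOX P (y : ℤ) (β : ℤ) (-(M : ℤ)) ((S + 1 : ℕ) : ℤ) W (s1 - S) hP
    (by rw [Int.gcd_natCast_natCast]; exact hy) hL
  rw [cntB_eq P y β M S s1 W hs] at h1
  exact h1

include hBOX hP hs hL in
/-- the part of `y` coprime to `P` -/
lemma part_a (u W y ρ : ℕ) (hy : 0 < y) (hyP : Nat.Coprime y P) :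
    |((∑ b ∈ (Ico u (u + W)).filter (fun b => b ≡ ρ [MOD y]), nQ P b M S s1 : ℕ) : ℝ) -
      1 / (y : ℝ) * ((∑ b ∈ Ico u (u + W), nQ P b M S s1 : ℕ) : ℝ)| ≤
      (cntB P 1 0 (-(M : ℤ)) ((S + 1 : ℕ) : ℤ) P (s1 - S) : ℝ) / P + 2 * er P (-(M : ℤ)) := by
  obtain ⟨β, W', hset, hW'⟩ := ap_interval u W y ρ hy
  have hPR : (0 : ℝ) < P := by exact_mod_cast hP
  have hy1 : (1 : ℝ) ≤ y := by exact_mod_cast hy
  rw [hset, sum_image (by
    intro i _ j _ hij
    have : y * i = y * j := by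
      have : β + y * i = β + y * j := hij
      omega
    exact Nat.eq_of_mul_eq_mul_left hy this), sum_Ico_shift]
  have b1 := box_sum hBOX P M S s1 hP hs hL y β W' hyP
  have b2 := box_sum hBOX P M S s1 hP hs hL 1 u W (Nat.coprime_one_left P)
  simp only [one_mul] at b2
  obtain ⟨SP, hSP⟩ : ∃ SP : ℝ, SP = (cntB P 1 0 (-(M : ℤ)) ((S + 1 : ℕ) : ℤ) P (s1 - S) : ℝ) :=
    ⟨_, rfl⟩
  rw [← hSP] at b1 b2 ⊢
  have hSP0 : 0 ≤ SP := by rw [hSP]; positivity
  obtain ⟨E, hE⟩ : ∃ E : ℝ, E = er P (-(M : ℤ)) := ⟨_, rfl⟩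
  rw [← hE] at b1 b2 ⊢
  obtain ⟨x, hx⟩ : ∃ x : ℝ, x = ((∑ i ∈ range W', nQ P (β + y * i) M S s1 : ℕ) : ℝ) := ⟨_, rfl⟩
  obtain ⟨z, hz⟩ : ∃ z : ℝ, z = ((∑ i ∈ range W, nQ P (u + i) M S s1 : ℕ) : ℝ) := ⟨_, rfl⟩
  rw [← hx] at b1 ⊢
  rw [← hz] at b2 ⊢
  have hE0 : 0 ≤ E := (abs_nonneg _).trans b1
  have e1 : x - 1 / (y : ℝ) * z = (x - (W' : ℝ) / P * SP) - 1 / (y : ℝ) * (z - (W : ℝ) / P * SP) +
      ((W' : ℝ) - (W : ℝ) / y) * (SP / P) := by
    field_simp
    ring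
  rw [e1]
  have e2 : |1 / (y : ℝ) * (z - (W : ℝ) / P * SP)| ≤ E := by
    rw [abs_mul, abs_of_nonneg (by positivity)]
    calc 1 / (y : ℝ) * |z - (W : ℝ) / P * SP| ≤ 1 * E := by
          apply mul_le_mul _ b2 (abs_nonneg _) zero_le_one
          rw [div_le_one (by linarith)]
          exact hy1
      _ = E := one_mul E
  have e3 : |((W' : ℝ) - (W : ℝ) / y) * (SP / P)| ≤ SP / P := by
    rw [abs_mul, abs_of_nonneg (div_nonneg hSP0 hPR.le)]
    calc |(W' : ℝ) - (W : ℝ) / y| * (SP / P) ≤ 1 * (SP / P) :=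
          mul_le_mul_of_nonneg_right hW' (div_nonneg hSP0 hPR.le)
      _ = SP / P := one_mul _
  calc _ ≤ |(x - (W' : ℝ) / P * SP) - 1 / (y : ℝ) * (z - (W : ℝ) / P * SP)| +
        |((W' : ℝ) - (W : ℝ) / y) * (SP / P)| := abs_add_le _ _
    _ ≤ (|x - (W' : ℝ) / P * SP| + |1 / (y : ℝ) * (z - (W : ℝ) / P * SP)|) + SP / P :=
        add_le_add (abs_sub _ _) e3
    _ ≤ (E + E) + SP / P := by linarith
    _ = SP / P + 2 * E := by ring

end

/-- the class of the `b` with `y ∣ P + c b` -/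
lemma class_exists (y P c : ℕ) (hy : 0 < y) (hc : Nat.Coprime c y) :
    ∃ ρ, ∀ b, y ∣ P + c * b ↔ b ≡ ρ [MOD y] := by
  have : NeZero y := ⟨hy.ne'⟩
  refine ⟨(-(P : ZMod y) * (c : ZMod y)⁻¹).val, fun b => ?_⟩
  have hinv : (c : ZMod y) * (c : ZMod y)⁻¹ = 1 := ZMod.coe_mul_inv_eq_one c hc
  rw [← ZMod.natCast_eq_natCast_iff, ZMod.natCast_zmod_val, ← ZMod.natCast_eq_zero_iff]
  push_cast
  constructor
  · intro h
    have : (c : ZMod y) * b = -P := by linear_combination h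
    rw [← this]
    linear_combination (-(b : ZMod y)) * hinv
  · intro h
    rw [h]
    linear_combination (-(P : ZMod y)) * hinv

theorem specMNP (hBOX : SpecBOX) : SpecMNP := by
  intro T Y Y0 S S' B0 I N e M t P hi s1 h heM heB ht hte hP1 hP2 hs1 hs2
  have he0 : 0 < e := by
    rcases Nat.eq_zero_or_pos e with h0 | h0
    · rw [h0, zero_mul] at heM
      have := h.N0
      omega
    · exact h0
  have hP : 0 < P := by omega
  have hPR : (0 : ℝ) < P := by exact_mod_cast hP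
  have heR : (0 : ℝ) < e := by exact_mod_cast he0
  have hY0R : (0 : ℝ) < Y0 := by exact_mod_cast h.Y00
  have hSY : S ≤ Y0 * S := Nat.le_mul_of_pos_left S h.Y00
  have hSS := h.S2
  have hL : s1 - S ≤ P := by omega
  have hYB : Y0 ≤ B0 := (Nat.le_mul_of_pos_left Y0 h.I1).trans h.IYB
  have hP8 : P ≤ 8 * B0 * S := by
    calc P ≤ 4 * (Y0 * S) := hP2
      _ ≤ 4 * (B0 * S) := Nat.mul_le_mul_left _ (Nat.mul_le_mul_right _ hYB)
      _ ≤ 8 * B0 * S := by nlinarith [Nat.zero_le (B0 * S)]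
  have hτ : tau P ≤ T := (h.T1 P hP hP8).1
  obtain ⟨SP, hSP⟩ : ∃ SP : ℝ, SP = (cntB P 1 0 (-(M : ℤ)) ((S + 1 : ℕ) : ℤ) P (s1 - S) : ℝ) :=
    ⟨_, rfl⟩
  have hSP0 : 0 ≤ SP := by rw [hSP]; positivity
  obtain ⟨E, hE⟩ : ∃ E : ℝ, E = er P (-(M : ℤ)) := ⟨_, rfl⟩
  have hE0 : 0 ≤ E := by rw [hE]; exact er_nonneg _ _
  rw [← hSP, ← hE]
  obtain ⟨J0, hJ0⟩ : ∃ J0, J0 = (Ioc 0 (2 * B0)).filter
    (fun b => B0 < e * b ∧ e * b ≤ 2 * B0 ∧ P + t * (e * b) ≤ hi) := ⟨_, rfl⟩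
  rw [← hJ0]
  obtain ⟨J, hJ⟩ : ∃ J : ℕ → Finset ℕ, J = fun y => J0.filter
    (fun b => y * S < P + t * (e * b) ∧ P + t * (e * b) ≤ y * S') := ⟨_, rfl⟩
  have memJ : ∀ y b, b ∈ J y ↔ ((0 < b ∧ b ≤ 2 * B0) ∧ (B0 < e * b ∧ e * b ≤ 2 * B0 ∧
      P + t * (e * b) ≤ hi)) ∧ (y * S < P + t * (e * b) ∧ P + t * (e * b) ≤ y * S') := by
    intro y b
    rw [hJ]
    simp only [mem_filter, hJ0, mem_Ioc]
  -- expansion
  have hexp : ∑ b ∈ J0, gg Y S S' (P + t * (e * b)) * (nQ P b M S s1 : ℝ) =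
      ∑ y ∈ Y, ∑ b ∈ J y, ((if y ∣ P + t * (e * b) then (1 : ℝ) else 0) - 1 / (y : ℝ)) *
        (nQ P b M S s1 : ℝ) := by
    have e1 : ∀ y ∈ Y, ∑ b ∈ J y, ((if y ∣ P + t * (e * b) then (1 : ℝ) else 0) - 1 / (y : ℝ)) *
        (nQ P b M S s1 : ℝ) = ∑ b ∈ J0, (if y * S < P + t * (e * b) ∧ P + t * (e * b) ≤ y * S' then
          ((if y ∣ P + t * (e * b) then (1 : ℝ) else 0) - 1 / (y : ℝ)) else 0) *
          (nQ P b M S s1 : ℝ) := by
      intro y _
      rw [hJ, sum_filter]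
      apply sum_congr rfl
      intro b _
      rw [ite_mul, zero_mul]
    rw [sum_congr rfl e1, sum_comm]
    apply sum_congr rfl
    intro b _
    unfold gg
    rw [sum_mul]
  -- intervals
  have hint : ∀ y, ∃ u W : ℕ, J y = Ico u (u + W) ∧ (W : ℝ) ≤ 2 * B0 / e := by
    intro y
    obtain ⟨u, W, hW⟩ := interval_of_convex (J y) (by
      intro x hx z hz w hxw hwz
      rw [memJ] at hx hz ⊢
      have a1 : e * x ≤ e * w := Nat.mul_le_mul_left _ hxw
      have a2 : e * w ≤ e * z := Nat.mul_le_mul_left _ hwz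
      have a3 : t * (e * x) ≤ t * (e * w) := Nat.mul_le_mul_left _ a1
      have a4 : t * (e * w) ≤ t * (e * z) := Nat.mul_le_mul_left _ a2
      refine ⟨⟨⟨by omega, by omega⟩, by omega, by omega, by omega⟩, by omega, by omega⟩)
    refine ⟨u, W, hW, ?_⟩
    rw [le_div_iff₀ heR]
    rcases Nat.eq_zero_or_pos W with h0 | h0
    · rw [h0]
      simp
    · have m1 : u ∈ J y := by rw [hW, mem_Ico]; omega
      have m2 : u + W - 1 ∈ J y := by rw [hW, mem_Ico]; omega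
      rw [memJ] at m1 m2
      have a1 := m1.1.2.1
      have a2 := m2.1.2.2.1
      have a3 : e * (u + W - 1) = e * u + e * W - e := by
        rw [Nat.mul_sub, Nat.mul_add, mul_one]
      have a4 : e ≤ e * W := Nat.le_mul_of_pos_right e h0
      have a5 : W * e ≤ 2 * B0 := by
        rw [mul_comm W e]
        omega
      exact_mod_cast a5
  -- the bound for one y
  have hone : ∀ y ∈ Y, |∑ b ∈ J y, ((if y ∣ P + t * (e * b) then (1 : ℝ) else 0) - 1 / (y : ℝ)) *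
        (nQ P b M S s1 : ℝ)| ≤ (SP / P + 2 * E) +
        (if y ∣ P then 1 / (Y0 : ℝ) * ((2 * B0 / e) / P * SP + E) else 0) := by
    intro y hy
    obtain ⟨hyp, hyY, hyY2, hyN⟩ := h.Yp y hy
    have hyR : (0 : ℝ) < y := by exact_mod_cast hyp.pos
    have hte0 : 0 < t * e := Nat.mul_pos ht he0
    have hcop : Nat.Coprime (t * e) y := by
      rw [Nat.coprime_comm, hyp.coprime_iff_not_dvd]
      intro hd
      have := Nat.le_of_dvd hte0 hd
      omega
    obtain ⟨u, W, hW, hWb⟩ := hint y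
    by_cases hyP : y ∣ P
    · rw [if_pos hyP]
      have e1 : ∑ b ∈ J y, ((if y ∣ P + t * (e * b) then (1 : ℝ) else 0) - 1 / (y : ℝ)) *
        (nQ P b M S s1 : ℝ) = -(1 / (y : ℝ) * ((∑ i ∈ range W, nQ P (u + i) M S s1 : ℕ) : ℝ)) := by
        rw [← sum_Ico_shift (fun b => nQ P b M S s1), ← hW]
        push_cast
        rw [mul_sum, ← sum_neg_distrib]
        apply sum_congr rfl
        intro b _
        by_cases hd : y ∣ P + t * (e * b)
        · have h1 : y ∣ t * e * b := by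
            rw [mul_assoc]
            exact (Nat.dvd_add_right hyP).1 hd
          have h2 : y ∣ b := (Nat.Coprime.dvd_mul_left hcop.symm).1 h1
          have h3 : nQ P b M S s1 = 0 := by
            unfold nQ
            rw [card_eq_zero, filter_eq_empty_iff]
            intro Q _ hQ
            apply hyN
            rw [← heM]
            apply Dvd.dvd.mul_left
            exact (Nat.dvd_add_right (h2.mul_right Q)).1 (hyP.trans hQ)
          rw [h3]
          simp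
        · rw [if_neg hd]
          ring
      rw [e1, abs_neg, abs_mul, abs_of_nonneg (by positivity), abs_of_nonneg (by positivity)]
      have b2 := box_sum hBOX P M S s1 hP hs1 hL 1 u W (Nat.coprime_one_left P)
      simp only [one_mul] at b2
      rw [← hSP, ← hE] at b2
      have b3 := (abs_le.1 b2).2
      have b4 : ((∑ i ∈ range W, nQ P (u + i) M S s1 : ℕ) : ℝ) ≤ (2 * B0 / e) / P * SP + E := by
        have : (W : ℝ) / P * SP ≤ (2 * B0 / e) / P * SP :=
          mul_le_mul_of_nonneg_right (div_le_div_of_nonneg_right hWb hPR.le) hSP0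
        linarith
      have b5 : 1 / (y : ℝ) ≤ 1 / (Y0 : ℝ) :=
        one_div_le_one_div_of_le hY0R (by exact_mod_cast hyY.le)
      have b6 : 0 ≤ SP / P + 2 * E := by positivity
      calc 1 / (y : ℝ) * ((∑ i ∈ range W, nQ P (u + i) M S s1 : ℕ) : ℝ)
          ≤ 1 / (Y0 : ℝ) * ((2 * B0 / e) / P * SP + E) :=
            mul_le_mul b5 b4 (by positivity) (by positivity)
        _ ≤ _ := by linarith
    · rw [if_neg hyP, add_zero]
      have hycop : Nat.Coprime y P := (hyp.coprime_iff_not_dvd).2 hyP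
      obtain ⟨ρ, hρ⟩ := class_exists y P (t * e) hyp.pos hcop
      have hbd := part_a hBOX P M S s1 hP hs1 hL u W y ρ hyp.pos hycop
      rw [← hSP, ← hE, ← hW] at hbd
      have e1 : ∑ b ∈ J y, ((if y ∣ P + t * (e * b) then (1 : ℝ) else 0) - 1 / (y : ℝ)) *
        (nQ P b M S s1 : ℝ) =
        ((∑ b ∈ (J y).filter (fun b => b ≡ ρ [MOD y]), nQ P b M S s1 : ℕ) : ℝ) -
          1 / (y : ℝ) * ((∑ b ∈ J y, nQ P b M S s1 : ℕ) : ℝ) := by
        rw [sum_filter]
        push_cast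
        rw [mul_sum, ← sum_sub_distrib]
        apply sum_congr rfl
        intro b _
        have h1 : (y ∣ P + t * (e * b)) ↔ b ≡ ρ [MOD y] := by
          rw [← hρ b, mul_assoc]
        by_cases hd : y ∣ P + t * (e * b)
        · rw [if_pos hd, if_pos (h1.1 hd)]
          ring
        · rw [if_neg hd, if_neg (fun h2 => hd (h1.2 h2))]
          ring
      rw [e1]
      exact hbd
  rw [hexp]
  have hcardY := Y.card_le_card (show Y ⊆ Ioc Y0 (2 * Y0) from fun y hy => by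
    obtain ⟨-, h1, h2, -⟩ := h.Yp y hy
    exact mem_Ioc.2 ⟨h1, h2⟩)
  rw [Nat.card_Ioc] at hcardY
  have hcardY' : (Y.card : ℝ) ≤ Y0 := by
    have : Y.card ≤ Y0 := by omega
    exact_mod_cast this
  have hcardP : ((Y.filter (fun y => y ∣ P)).card : ℝ) ≤ T := by
    refine le_trans ?_ hτ
    unfold tau
    have : (Y.filter (fun y => y ∣ P)).card ≤ P.divisors.card := by
      apply card_le_card
      intro y hy
      rw [mem_filter] at hy
      exact Nat.mem_divisors.2 ⟨hy.2, hP.ne'⟩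
    exact_mod_cast this
  have hB2 : 0 ≤ 1 / (Y0 : ℝ) * ((2 * B0 / e) / P * SP + E) := by positivity
  have hB1 : 0 ≤ SP / P + 2 * E := by positivity
  calc _ ≤ ∑ y ∈ Y, |∑ b ∈ J y, ((if y ∣ P + t * (e * b) then (1 : ℝ) else 0) - 1 / (y : ℝ)) *
        (nQ P b M S s1 : ℝ)| := abs_sum_le_sum_abs _ _
    _ ≤ ∑ y ∈ Y, ((SP / P + 2 * E) +
        (if y ∣ P then 1 / (Y0 : ℝ) * ((2 * B0 / e) / P * SP + E) else 0)) := sum_le_sum hone
    _ = Y.card * (SP / P + 2 * E) + (Y.filter (fun y => y ∣ P)).card *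
        (1 / (Y0 : ℝ) * ((2 * B0 / e) / P * SP + E)) := by
        rw [sum_add_distrib, sum_const, nsmul_eq_mul, ← sum_filter, sum_const, nsmul_eq_mul]
    _ ≤ Y0 * (SP / P + 2 * E) + T * (1 / (Y0 : ℝ) * ((2 * B0 / e) / P * SP + E)) :=
        add_le_add (mul_le_mul_of_nonneg_right hcardY' hB1)
          (mul_le_mul_of_nonneg_right hcardP hB2)
    _ = _ := by ring

end Pool.Agent.Lib.MP_1446ad_nt.SM.MNPM

namespace Pool.Agent.Lib.MP_1446ad_nt.SM

theorem specMNP (hBOX : SpecBOX) : SpecMNP := MNPM.specMNP hBOX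

end Pool.Agent.Lib.MP_1446ad_nt.SM
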