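import Pool.Agent.Lib.MP_1446ad_nt.SM.SpecD

set_option autoImplicit false

namespace Pool.Agent.Lib.MP_1446ad_nt.SM.OFEM

open Finset

/-- the count in the definition of `OffE` -/
noncomputable def cQ (S S' b M e t P : ℕ) : ℕ :=
  ((Ioc S S').filter (fun Q => P ∣ b * Q + M ∧ Q + t * (e * ((b * Q + M) / P)) ≤ S')).card

/-- splitting of the count at `s1` -/
theorem cQ_split (S S' b M e t P s1 : ℕ) (h2 : s1 ≤ S')
    (hall : ∀ Q ∈ Ioc S s1, P ∣ b * Q + M → Q + t * (e * ((b * Q + M) / P)) ≤ S') :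
    nQ P b M S s1 ≤ cQ S S' b M e t P ∧
    cQ S S' b M e t P ≤ nQ P b M S s1 + nQ P b M s1 S' := by
  unfold nQ cQ
  constructor
  · apply Finset.card_le_card
    intro Q hQ
    obtain ⟨hQ1, hQ2⟩ := Finset.mem_filter.1 hQ
    refine Finset.mem_filter.2 ⟨?_, hQ2, hall Q hQ1 hQ2⟩
    rw [Finset.mem_Ioc] at hQ1 ⊢
    omega
  · rw [← Finset.card_union_of_disjoint]
    · apply Finset.card_le_card
      intro Q hQ
      obtain ⟨hQ1, hQ2, _⟩ := Finset.mem_filter.1 hQ
      rw [Finset.mem_Ioc] at hQ1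
      rw [Finset.mem_union, Finset.mem_filter, Finset.mem_filter, Finset.mem_Ioc, Finset.mem_Ioc]
      rcases le_or_gt Q s1 with h | h
      · exact Or.inl ⟨⟨hQ1.1, h⟩, hQ2⟩
      · exact Or.inr ⟨⟨h, hQ1.2⟩, hQ2⟩
    · rw [Finset.disjoint_left]
      intro Q hQ hQ'
      have a1 := Finset.mem_Ioc.1 (Finset.mem_filter.1 hQ).1
      have a2 := Finset.mem_Ioc.1 (Finset.mem_filter.1 hQ').1
      omega

/-- numerical end -/
theorem numer (T P0 S I B0 Y0 Dl Θ e E : ℝ) (hT : 1 ≤ T) (hP0 : P0 = Y0 * S) (hS : 0 < S)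
    (hI : 1 ≤ I) (hB0 : 0 < B0) (hY0 : 0 < Y0) (hDl : 0 ≤ Dl) (hΘ0 : 0 ≤ Θ) (he : 1 ≤ e)
    (hY1 : 1 ≤ Y0)
    (hE : E = 16 * T ^ 7 * P0 * √P0) (h1 : Dl * I ≤ 2 * P0) (h2 : Θ * I ≤ 12 * S)
    (h3 : I * Y0 ≤ B0) (h4 : I ≤ Y0) :
    Dl / B0 * (4 * T ^ 2 * (6 * T * Dl * B0 * Θ / (e * P0) + E) +
      2 * T * (Y0 * (3 * T * Dl * S / P0 + 2 * E) + T / Y0 * (6 * T * B0 * Dl * S / P0 + E)))
      ≤ 1224 * T ^ 3 * P0 * S / I ^ 3 + 320 * T ^ 9 * P0 ^ 2 * √P0 * Y0 / (I * B0) := by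
  have hI0 : 0 < I := by linarith
  have hP : 0 < P0 := by rw [hP0]; positivity
  have hE0 : 0 ≤ E := by rw [hE]; positivity
  have a1 : Dl ≤ 2 * P0 / I := by rw [le_div_iff₀ hI0]; exact h1
  have a2 : Θ ≤ 12 * S / I := by rw [le_div_iff₀ hI0]; exact h2
  have a3 : Y0 / B0 ≤ 1 / I := by
    rw [div_le_div_iff₀ hB0 hI0]; linarith
  have a4 : 1 / Y0 ≤ 1 / I := one_div_le_one_div_of_le hI0 h4
  have a5 : 1 / e ≤ 1 := by rw [div_le_one (by linarith)]; exact he
  have d2 : Dl ^ 2 ≤ (2 * P0 / I) ^ 2 := pow_le_pow_left₀ hDl a1 2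
  -- part 1
  have p1 : Dl / B0 * (4 * T ^ 2 * (6 * T * Dl * B0 * Θ / (e * P0))) ≤ 1152 * T ^ 3 * P0 * S / I ^ 3 := by
    calc Dl / B0 * (4 * T ^ 2 * (6 * T * Dl * B0 * Θ / (e * P0)))
        = (24 * T ^ 3 / P0) * (Dl ^ 2 * Θ) * (1 / e) := by field_simp; ring
      _ ≤ (24 * T ^ 3 / P0) * ((2 * P0 / I) ^ 2 * (12 * S / I)) * 1 := by
          apply mul_le_mul _ a5 (by positivity) (by positivity)
          apply mul_le_mul_of_nonneg_left _ (by positivity)
          exact mul_le_mul d2 a2 hΘ0 (by positivity)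
      _ = 1152 * T ^ 3 * P0 * S / I ^ 3 := by field_simp; ring
  have p2 : Dl / B0 * (2 * T * (Y0 * (3 * T * Dl * S / P0))) ≤ 24 * T ^ 3 * P0 * S / I ^ 3 := by
    calc Dl / B0 * (2 * T * (Y0 * (3 * T * Dl * S / P0)))
        = (6 * T ^ 2 * S / P0) * (Dl ^ 2 * (Y0 / B0)) := by field_simp; ring
      _ ≤ (6 * T ^ 3 * S / P0) * ((2 * P0 / I) ^ 2 * (1 / I)) := by
          apply mul_le_mul
          · apply div_le_div_of_nonneg_right _ hP.le
            apply mul_le_mul_of_nonneg_right _ hS.le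
            have : T ^ 2 ≤ T ^ 3 := pow_le_pow_right₀ hT (by norm_num)
            linarith
          · exact mul_le_mul d2 a3 (by positivity) (by positivity)
          · positivity
          · positivity
      _ = 24 * T ^ 3 * P0 * S / I ^ 3 := by field_simp; ring
  have p3 : Dl / B0 * (2 * T * (T / Y0 * (6 * T * B0 * Dl * S / P0)))
      ≤ 48 * T ^ 3 * P0 * S / I ^ 3 := by
    calc Dl / B0 * (2 * T * (T / Y0 * (6 * T * B0 * Dl * S / P0)))
        = (12 * T ^ 3 * S / P0) * (Dl ^ 2 * (1 / Y0)) := by field_simp; ring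
      _ ≤ (12 * T ^ 3 * S / P0) * ((2 * P0 / I) ^ 2 * (1 / I)) := by
          apply mul_le_mul_of_nonneg_left _ (by positivity)
          exact mul_le_mul d2 a4 (by positivity) (by positivity)
      _ = 48 * T ^ 3 * P0 * S / I ^ 3 := by field_simp; ring
  have p4 : Dl / B0 * ((4 * T ^ 2 + 4 * T * Y0 + 2 * T ^ 2 / Y0) * E)
      ≤ 320 * T ^ 9 * P0 ^ 2 * √P0 * Y0 / (I * B0) := by
    have b1 : 4 * T ^ 2 + 4 * T * Y0 + 2 * T ^ 2 / Y0 ≤ 10 * T ^ 2 * Y0 := by
      have c1 : 4 * T ^ 2 ≤ 4 * T ^ 2 * Y0 := by nlinarith [sq_nonneg T]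
      have c2 : 4 * T * Y0 ≤ 4 * T ^ 2 * Y0 := by nlinarith
      have c3 : 2 * T ^ 2 / Y0 ≤ 2 * T ^ 2 * Y0 := by
        rw [div_le_iff₀ hY0]
        have : 1 ≤ Y0 * Y0 := by nlinarith
        nlinarith [sq_nonneg T]
      linarith
    calc Dl / B0 * ((4 * T ^ 2 + 4 * T * Y0 + 2 * T ^ 2 / Y0) * E)
        ≤ (2 * P0 / I) / B0 * ((10 * T ^ 2 * Y0) * E) := by
          apply mul_le_mul
          · exact div_le_div_of_nonneg_right a1 hB0.le
          · exact mul_le_mul_of_nonneg_right b1 hE0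
          · positivity
          · positivity
      _ = _ := by rw [hE]; field_simp; ring
  have e1 : Dl / B0 * (4 * T ^ 2 * (6 * T * Dl * B0 * Θ / (e * P0) + E) +
      2 * T * (Y0 * (3 * T * Dl * S / P0 + 2 * E) + T / Y0 * (6 * T * B0 * Dl * S / P0 + E)))
      = Dl / B0 * (4 * T ^ 2 * (6 * T * Dl * B0 * Θ / (e * P0))) +
        Dl / B0 * (2 * T * (Y0 * (3 * T * Dl * S / P0))) +
        Dl / B0 * (2 * T * (T / Y0 * (6 * T * B0 * Dl * S / P0))) +
        Dl / B0 * ((4 * T ^ 2 + 4 * T * Y0 + 2 * T ^ 2 / Y0) * E) := by ring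
  rw [e1]
  have e2 : 1224 * T ^ 3 * P0 * S / I ^ 3 = 1152 * T ^ 3 * P0 * S / I ^ 3 + 24 * T ^ 3 * P0 * S / I ^ 3
    + 48 * T ^ 3 * P0 * S / I ^ 3 := by ring
  rw [e2]
  linarith

/-- the key inequality for the edge -/
theorem edge_ineq (Y0 S S' B0 I N lo hi Dl e M t P b Q Θ : ℕ) (hI : 1 ≤ I) (hP : lo < P)
    (hlo : Y0 * S ≤ lo) (hS2 : S' ≤ 2 * S) (hN4 : N ≤ 4 * B0 * S) (hlen : hi ≤ lo + Dl)
    (hD2 : Dl * I ≤ 2 * (Y0 * S)) (heM : e * M = N) (ht : t * B0 < Dl)
    (hhi : P + t * (e * b) ≤ hi) (hQ : Q ≤ S') (hΘ : Θ = 12 * S / I) (hd : P ∣ b * Q + M) :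
    t * (e * ((b * Q + M) / P)) ≤ Θ := by
  obtain ⟨a, ha⟩ := hd
  have hP0 : 0 < P := by omega
  rw [ha, Nat.mul_div_cancel_left _ hP0, hΘ, Nat.le_div_iff_mul_le hI]
  apply Nat.le_of_mul_le_mul_right _ hP0
  have e1 : t * (e * a) * I * P = I * ((t * (e * b)) * Q + t * N) := by
    have : a * P = b * Q + M := by rw [ha]; ring
    calc t * (e * a) * I * P = t * e * I * (a * P) := by ring
      _ = t * e * I * (b * Q + M) := by rw [this]
      _ = I * ((t * (e * b)) * Q + t * (e * M)) := by ring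
      _ = _ := by rw [heM]
  rw [e1]
  have x1 : t * (e * b) ≤ Dl := by omega
  have x2 : (t * (e * b)) * Q ≤ Dl * (2 * S) := Nat.mul_le_mul x1 (hQ.trans hS2)
  have x3 : t * N ≤ 4 * S * Dl := by
    calc t * N ≤ t * (4 * B0 * S) := Nat.mul_le_mul_left _ hN4
      _ = 4 * S * (t * B0) := by ring
      _ ≤ 4 * S * Dl := Nat.mul_le_mul_left _ ht.le
  calc I * ((t * (e * b)) * Q + t * N) ≤ I * (Dl * (2 * S) + 4 * S * Dl) :=
        Nat.mul_le_mul_left _ (Nat.add_le_add x2 x3)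
    _ = 6 * S * (Dl * I) := by ring
    _ ≤ 6 * S * (2 * (Y0 * S)) := Nat.mul_le_mul_left _ hD2
    _ = 12 * S * (Y0 * S) := by ring
    _ ≤ 12 * S * P := Nat.mul_le_mul_left _ (by omega)

theorem er_nonneg (P : ℕ) (c : ℤ) : 0 ≤ er P c := by
  unfold er tau
  positivity

end OFEM

open OFEM Finset in
open scoped Classical in
theorem specOFE (hGGB : SpecGGB) (hUPP : SpecUPP) (hMNP : SpecMNP) (hAVG : SpecAVG)
    (hSPA : SpecSPA) : SpecOFE := by
  intro T Y Y0 S S' B0 I N lo hi Dl e M hH hI heM heI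
  obtain ⟨-, hg⟩ := hGGB T Y Y0 S S' B0 I N hH
  have S0 := hH.S0
  have I1 := hH.I1
  have Y00 := hH.Y00
  have B00 := hH.B00
  have e0 : 0 < e := by
    rcases Nat.eq_zero_or_pos e with h | h
    · rw [h, zero_mul] at heM; have := hH.N0; omega
    · exact h
  have M0 : 0 < M := by
    rcases Nat.eq_zero_or_pos M with h | h
    · rw [h, mul_zero] at heM; have := hH.N0; omega
    · exact h
  have hYB : Y0 ≤ B0 := by
    have h1 : 1 * Y0 ≤ I * Y0 := Nat.mul_le_mul_right _ I1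
    have h2 := hH.IYB
    omega
  have heB : e ≤ B0 := by
    have h1 : I ^ 2 ≤ I * Y0 := by rw [sq]; exact Nat.mul_le_mul_left _ hH.IY
    have h2 := hH.IYB
    omega
  have hhi8 : hi ≤ 8 * B0 * S := by
    have h1 := hI.hi4
    have h2 : 4 * (Y0 * S) ≤ 4 * (B0 * S) := Nat.mul_le_mul_left _ (Nat.mul_le_mul_right _ hYB)
    have h3 : 8 * B0 * S = 4 * (B0 * S) + 4 * (B0 * S) := by ring
    omega
  have h1T : 1 ≤ T := by
    have h1 : 1 ≤ 8 * B0 * S := Nat.mul_pos (Nat.mul_pos (by norm_num) B00) S0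
    have := (hH.T1 1 one_pos h1).1
    unfold tau at this
    simpa using this
  have hSD : S ≤ Dl := by
    have h1 : I * S ≤ I * Dl := by
      calc I * S ≤ Y0 * S := Nat.mul_le_mul_right _ hH.IY
        _ ≤ Dl * I := hI.D1
        _ = I * Dl := mul_comm _ _
    exact Nat.le_of_mul_le_mul_left h1 I1
  set Θ : ℕ := 12 * S / I with hΘ
  set s1 : ℕ := max S (S' - Θ) with hs1
  have hs1S : S ≤ s1 := le_max_left _ _
  have hs1S' : s1 ≤ S' := max_le hH.SS (Nat.sub_le _ _)
  have hs1Θ : S' ≤ s1 + Θ := by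
    have := le_max_right S (S' - Θ)
    omega
  -- real quantities
  have rS : (0 : ℝ) < S := by exact_mod_cast S0
  have rY : (0 : ℝ) < Y0 := by exact_mod_cast Y00
  have rB : (0 : ℝ) < B0 := by exact_mod_cast B00
  have rI : (1 : ℝ) ≤ I := by exact_mod_cast I1
  have re : (1 : ℝ) ≤ e := by exact_mod_cast e0
  set P0 : ℝ := (Y0 : ℝ) * S with hP0
  have rP0 : 0 < P0 := by positivity
  set E : ℝ := 16 * T ^ 7 * P0 * √P0 with hE
  -- sums of `er` and of `cntB`
  have hcM : (-(M : ℤ)) ≠ 0 := by simpa using M0.ne'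
  have hMN : M ≤ N := by
    calc M = 1 * M := (one_mul _).symm
      _ ≤ e * M := Nat.mul_le_mul_right _ e0
      _ = N := heM
  have hN8 : N ≤ 8 * B0 * S := by
    have h1 := hH.N4
    have h3 : 8 * B0 * S = 4 * B0 * S + 4 * B0 * S := by ring
    omega
  have htM : tau (-(M : ℤ)).natAbs ≤ T := by
    rw [Int.natAbs_neg, Int.natAbs_natCast]
    exact (hH.T1 M M0 (hMN.trans hN8)).1
  have h48 : 4 * (Y0 * S) ≤ 8 * B0 * S := by
    have h2 : 4 * (Y0 * S) ≤ 4 * (B0 * S) := Nat.mul_le_mul_left _ (Nat.mul_le_mul_right _ hYB)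
    have h3 : 8 * B0 * S = 4 * (B0 * S) + 4 * (B0 * S) := by ring
    omega
  have hsE : ∑ P ∈ Ioc lo hi, er P (-(M : ℤ)) ≤ E := by
    have hX : 1 ≤ 4 * (Y0 * S) := Nat.mul_pos (by norm_num) (Nat.mul_pos Y00 S0)
    have h1 := hAVG T (4 * (Y0 * S)) (-(M : ℤ)) hX hcM (fun m hm hm' => hH.T1 m hm (hm'.trans h48)) htM
    have h2 : ∑ P ∈ Ioc lo hi, er P (-(M : ℤ)) ≤ ∑ P ∈ Ioc 0 (4 * (Y0 * S)), er P (-(M : ℤ)) := by
      apply Finset.sum_le_sum_of_subset_of_nonneg
      · exact Finset.Ioc_subset_Ioc (Nat.zero_le _) hI.hi4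
      · intro P _ _; exact er_nonneg _ _
    refine (h2.trans h1).trans (le_of_eq ?_)
    push_cast
    rw [hE, hP0]
    have h4 : √(4 * ((Y0 : ℝ) * S)) = 2 * √((Y0 : ℝ) * S) := by
      rw [Real.sqrt_mul (by norm_num), show (4 : ℝ) = 2 ^ 2 by norm_num, Real.sqrt_sq (by norm_num)]
    rw [h4]
    ring
  set SP : ℕ → ℝ := fun P => (cntB P 1 0 (-(M : ℤ)) ((S + 1 : ℕ) : ℤ) P (s1 - S) : ℝ) with hSP
  have hSP0 : ∀ P, 0 ≤ SP P := fun P => Nat.cast_nonneg _
  have hsS : ∑ P ∈ Ioc lo hi, SP P ≤ 3 * T * Dl * S := by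
    have h1 := hSPA T (-(M : ℤ)) lo hi (S + 1) (s1 - S) s1 hcM htM (by omega) (by omega) hI.lh
    refine h1.trans ?_
    have a1 : ((s1 - S : ℕ) : ℝ) ≤ S := by
      have : s1 - S ≤ S := by have := hH.S2; omega
      exact_mod_cast this
    have a2 : (hi : ℝ) - lo ≤ Dl := by
      have : (hi : ℝ) ≤ lo + Dl := by exact_mod_cast hI.len
      linarith
    have a3 : (s1 : ℝ) ≤ 2 * Dl := by
      have : s1 ≤ 2 * Dl := by have := hH.S2; omega
      exact_mod_cast this
    have a4 : (0 : ℝ) ≤ (hi : ℝ) - lo + s1 := by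
      have : (lo : ℝ) ≤ hi := by exact_mod_cast hI.lh
      have h2 : (0 : ℝ) ≤ s1 := Nat.cast_nonneg _
      linarith
    calc ((s1 - S : ℕ) : ℝ) * T * ((hi : ℝ) - lo + s1)
        ≤ (S : ℝ) * T * ((hi : ℝ) - lo + s1) := by
          apply mul_le_mul_of_nonneg_right _ a4
          exact mul_le_mul_of_nonneg_right a1 (by linarith)
      _ ≤ (S : ℝ) * T * (3 * Dl) := by
          apply mul_le_mul_of_nonneg_left _ (by positivity)
          linarith
      _ = _ := by ring
  -- the bound for one `t`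
  set Bt : ℝ := 4 * T ^ 2 * (6 * T * Dl * B0 * Θ / (e * P0) + E) +
      2 * T * (Y0 * (3 * T * Dl * S / P0 + 2 * E) + T / Y0 * (6 * T * B0 * Dl * S / P0 + E)) with hBt
  have hT0 : 0 ≤ T := by linarith
  have hE0 : 0 ≤ E := by positivity
  have hBt0 : 0 ≤ Bt := by positivity
  set O : ℕ → ℝ := fun t => ∑ P ∈ Ioc lo hi, ∑ b ∈ Ioc 0 (2 * B0),
    if B0 < e * b ∧ e * b ≤ 2 * B0 ∧ P + t * (e * b) ≤ hi then
      gg Y S S' P * gg Y S S' (P + t * (e * b)) *
      (((Ioc S S').filter (fun Q => P ∣ b * Q + M ∧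
        Q + t * (e * ((b * Q + M) / P)) ≤ S')).card : ℝ) else 0 with hO
  have hOff : OffE Y S S' B0 lo hi e M = ∑ t ∈ Icc 1 hi, O t := rfl
  have hOt : ∀ t ∈ Icc 1 hi, |O t| ≤ if t * B0 < Dl then Bt else 0 := by
    intro t ht
    have ht1 := (Finset.mem_Icc.1 ht).1
    split_ifs with htB
    · -- `t e ≤ Y0`
      have hte : t * e ≤ Y0 := by
        have h1 : t * e * B0 ≤ Y0 * B0 := by
          calc t * e * B0 = e * (t * B0) := by ring
            _ ≤ I ^ 2 * Dl := Nat.mul_le_mul heI htB.le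
            _ = I * (Dl * I) := by ring
            _ ≤ I * (2 * (Y0 * S)) := Nat.mul_le_mul_left _ hI.D2
            _ = Y0 * (2 * S * I) := by ring
            _ ≤ Y0 * B0 := Nat.mul_le_mul_left _ hH.SI.le
        exact Nat.le_of_mul_le_mul_right h1 B00
      -- for one `P`
      have hone : ∀ P ∈ Ioc lo hi, |∑ b ∈ Ioc 0 (2 * B0),
          (if B0 < e * b ∧ e * b ≤ 2 * B0 ∧ P + t * (e * b) ≤ hi then
            gg Y S S' P * gg Y S S' (P + t * (e * b)) *
            (((Ioc S S').filter (fun Q => P ∣ b * Q + M ∧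
              Q + t * (e * ((b * Q + M) / P)) ≤ S')).card : ℝ) else 0)| ≤
          4 * T ^ 2 * ∑ b ∈ (Ioc 0 (2 * B0)).filter (fun b => B0 < e * b ∧ e * b ≤ 2 * B0),
            (nQ P b M s1 S' : ℝ) +
          2 * T * (Y0 * (SP P / P0 + 2 * er P (-(M : ℤ))) +
            T / Y0 * ((2 * B0 / e) / P0 * SP P + er P (-(M : ℤ)))) := by
        intro P hP
        obtain ⟨hP1, hP2⟩ := Finset.mem_Ioc.1 hP
        have hPY : Y0 * S < P := lt_of_le_of_lt hI.lo0 hP1
        have hP4 : P ≤ 4 * (Y0 * S) := hP2.trans hI.hi4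
        have rPP : P0 ≤ (P : ℝ) := by
          rw [hP0]; exact_mod_cast hPY.le
        rw [← Finset.sum_filter]
        have hgP : |gg Y S S' P| ≤ 2 * T := hg P (by omega) (hP2.trans hhi8)
        have hspl : ∀ b ∈ (Ioc 0 (2 * B0)).filter
            (fun b => B0 < e * b ∧ e * b ≤ 2 * B0 ∧ P + t * (e * b) ≤ hi),
            gg Y S S' P * gg Y S S' (P + t * (e * b)) *
            (((Ioc S S').filter (fun Q => P ∣ b * Q + M ∧
              Q + t * (e * ((b * Q + M) / P)) ≤ S')).card : ℝ)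
            = gg Y S S' P * (gg Y S S' (P + t * (e * b)) * (nQ P b M S s1 : ℝ)) +
              gg Y S S' P * (gg Y S S' (P + t * (e * b)) *
                ((cQ S S' b M e t P : ℝ) - (nQ P b M S s1 : ℝ))) := by
          intro b _
          unfold cQ
          ring
        rw [Finset.sum_congr rfl hspl, Finset.sum_add_distrib, ← Finset.mul_sum, ← Finset.mul_sum,
          add_comm]
        refine (abs_add_le _ _).trans (add_le_add ?_ ?_)
        · -- the edge
          rw [abs_mul]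
          have h1 : |∑ b ∈ (Ioc 0 (2 * B0)).filter
              (fun b => B0 < e * b ∧ e * b ≤ 2 * B0 ∧ P + t * (e * b) ≤ hi),
              gg Y S S' (P + t * (e * b)) * ((cQ S S' b M e t P : ℝ) - (nQ P b M S s1 : ℝ))|
              ≤ 2 * T * ∑ b ∈ (Ioc 0 (2 * B0)).filter (fun b => B0 < e * b ∧ e * b ≤ 2 * B0),
                (nQ P b M s1 S' : ℝ) := by
            refine (Finset.abs_sum_le_sum_abs _ _).trans ?_
            rw [Finset.mul_sum]
            have h2 : ∑ b ∈ (Ioc 0 (2 * B0)).filter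
                (fun b => B0 < e * b ∧ e * b ≤ 2 * B0 ∧ P + t * (e * b) ≤ hi),
                |gg Y S S' (P + t * (e * b)) * ((cQ S S' b M e t P : ℝ) - (nQ P b M S s1 : ℝ))|
                ≤ ∑ b ∈ (Ioc 0 (2 * B0)).filter
                (fun b => B0 < e * b ∧ e * b ≤ 2 * B0 ∧ P + t * (e * b) ≤ hi),
                  2 * T * (nQ P b M s1 S' : ℝ) := by
              apply Finset.sum_le_sum
              intro b hb
              obtain ⟨hb1, hb2, hb3, hb4⟩ := Finset.mem_filter.1 hb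
              obtain ⟨c1, c2⟩ := cQ_split S S' b M e t P s1 hs1S' (by
                intro Q hQ hd
                obtain ⟨q1, q2⟩ := Finset.mem_Ioc.1 hQ
                have h3 := edge_ineq Y0 S S' B0 I N lo hi Dl e M t P b Q Θ I1 hP1 hI.lo0 hH.S2
                  hH.N4 hI.len hI.D2 heM htB hb4 (q2.trans hs1S') hΘ hd
                have h4 : S < S' - Θ := by
                  by_contra hcon
                  have : s1 = S := max_eq_left (not_lt.1 hcon)
                  omega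
                have h5 : s1 = S' - Θ := max_eq_right h4.le
                omega)
              have g1 : |gg Y S S' (P + t * (e * b))| ≤ 2 * T :=
                hg _ (by omega) (hb4.trans hhi8)
              rw [abs_mul]
              have g2 : |(cQ S S' b M e t P : ℝ) - (nQ P b M S s1 : ℝ)| ≤ (nQ P b M s1 S' : ℝ) := by
                have c1' : (nQ P b M S s1 : ℝ) ≤ (cQ S S' b M e t P : ℝ) := by exact_mod_cast c1
                have c2' : (cQ S S' b M e t P : ℝ) ≤ (nQ P b M S s1 : ℝ) + (nQ P b M s1 S' : ℝ) := by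
                  exact_mod_cast c2
                rw [abs_of_nonneg (by linarith)]
                linarith
              exact mul_le_mul g1 g2 (abs_nonneg _) (by positivity)
            refine h2.trans ?_
            apply Finset.sum_le_sum_of_subset_of_nonneg
            · intro b hb
              obtain ⟨hb1, hb2, hb3, hb4⟩ := Finset.mem_filter.1 hb
              exact Finset.mem_filter.2 ⟨hb1, hb2, hb3⟩
            · intro b _ _; positivity
          calc |gg Y S S' P| * _ ≤ 2 * T * (2 * T * ∑ b ∈ (Ioc 0 (2 * B0)).filter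
                (fun b => B0 < e * b ∧ e * b ≤ 2 * B0), (nQ P b M s1 S' : ℝ)) :=
                mul_le_mul hgP h1 (abs_nonneg _) (by positivity)
            _ = _ := by ring
        · -- the main part
          rw [abs_mul]
          have h1 := hMNP T Y Y0 S S' B0 I N e M t P hi s1 hH heM heB ht1 hte hPY hP4 hs1S hs1S'
          have h2 : |∑ b ∈ (Ioc 0 (2 * B0)).filter
              (fun b => B0 < e * b ∧ e * b ≤ 2 * B0 ∧ P + t * (e * b) ≤ hi),
              gg Y S S' (P + t * (e * b)) * (nQ P b M S s1 : ℝ)| ≤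
              Y0 * (SP P / P0 + 2 * er P (-(M : ℤ))) +
              T / Y0 * ((2 * B0 / e) / P0 * SP P + er P (-(M : ℤ))) := by
            refine h1.trans ?_
            have s1' : SP P / P ≤ SP P / P0 := div_le_div_of_nonneg_left (hSP0 P) rP0 rPP
            have s2' : (2 * (B0 : ℝ) / e) / P ≤ (2 * B0 / e) / P0 :=
              div_le_div_of_nonneg_left (by positivity) rP0 rPP
            apply add_le_add
            · apply mul_le_mul_of_nonneg_left _ rY.le
              exact add_le_add s1' le_rfl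
            · apply mul_le_mul_of_nonneg_left _ (by positivity)
              exact add_le_add (mul_le_mul_of_nonneg_right s2' (hSP0 P)) le_rfl
          exact mul_le_mul hgP h2 (abs_nonneg _) (by positivity)
      have hsum : |O t| ≤ ∑ P ∈ Ioc lo hi,
          (4 * T ^ 2 * ∑ b ∈ (Ioc 0 (2 * B0)).filter (fun b => B0 < e * b ∧ e * b ≤ 2 * B0),
            (nQ P b M s1 S' : ℝ) +
          2 * T * (Y0 * (SP P / P0 + 2 * er P (-(M : ℤ))) +
            T / Y0 * ((2 * B0 / e) / P0 * SP P + er P (-(M : ℤ))))) :=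
        (Finset.abs_sum_le_sum_abs _ _).trans (Finset.sum_le_sum hone)
      refine hsum.trans ?_
      have hU := hUPP T Y Y0 S S' B0 I N lo hi Dl e M s1 S' hH hI heM heB hs1S hs1S' le_rfl
      have e1 : ∑ P ∈ Ioc lo hi,
          (4 * T ^ 2 * ∑ b ∈ (Ioc 0 (2 * B0)).filter (fun b => B0 < e * b ∧ e * b ≤ 2 * B0),
            (nQ P b M s1 S' : ℝ) +
          2 * T * (Y0 * (SP P / P0 + 2 * er P (-(M : ℤ))) +
            T / Y0 * ((2 * B0 / e) / P0 * SP P + er P (-(M : ℤ)))))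
          = 4 * T ^ 2 * ∑ P ∈ Ioc lo hi, ∑ b ∈ (Ioc 0 (2 * B0)).filter
              (fun b => B0 < e * b ∧ e * b ≤ 2 * B0), (nQ P b M s1 S' : ℝ) +
            2 * T * (Y0 * ((∑ P ∈ Ioc lo hi, SP P) / P0 + 2 * ∑ P ∈ Ioc lo hi, er P (-(M : ℤ))) +
              T / Y0 * ((2 * B0 / e) / P0 * (∑ P ∈ Ioc lo hi, SP P)
                + ∑ P ∈ Ioc lo hi, er P (-(M : ℤ)))) := by
        rw [Finset.sum_add_distrib, ← Finset.mul_sum, ← Finset.mul_sum, Finset.sum_add_distrib,
          ← Finset.mul_sum, ← Finset.mul_sum, Finset.sum_add_distrib, Finset.sum_add_distrib,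
          ← Finset.sum_div, ← Finset.mul_sum, ← Finset.mul_sum]
      rw [e1, hBt]
      apply add_le_add
      · apply mul_le_mul_of_nonneg_left _ (by positivity)
        refine hU.trans ?_
        apply add_le_add
        · apply div_le_div_of_nonneg_right _ (by positivity)
          apply mul_le_mul_of_nonneg_left _ (by positivity)
          have : (S' : ℝ) ≤ s1 + Θ := by exact_mod_cast hs1Θ
          linarith
        · rw [hE]
      · apply mul_le_mul_of_nonneg_left _ (by positivity)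
        apply add_le_add
        · apply mul_le_mul_of_nonneg_left _ rY.le
          apply add_le_add
          · exact div_le_div_of_nonneg_right hsS rP0.le
          · linarith
        · apply mul_le_mul_of_nonneg_left _ (by positivity)
          apply add_le_add _ hsE
          have h5 : (2 * (B0 : ℝ) / e) / P0 ≤ 2 * B0 / P0 := by
            apply div_le_div_of_nonneg_right _ rP0.le
            exact div_le_self (by positivity) re
          calc (2 * (B0 : ℝ) / e) / P0 * ∑ P ∈ Ioc lo hi, SP P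
              ≤ (2 * B0 / P0) * (3 * T * Dl * S) :=
                mul_le_mul h5 hsS (Finset.sum_nonneg fun P _ => hSP0 P) (by positivity)
            _ = _ := by ring
    · -- the sum is empty
      have : O t = 0 := by
        apply Finset.sum_eq_zero
        intro P hP
        apply Finset.sum_eq_zero
        intro b _
        rw [if_neg]
        rintro ⟨h1, h2, h3⟩
        obtain ⟨hP1, hP2⟩ := Finset.mem_Ioc.1 hP
        have h4 : t * B0 ≤ t * (e * b) := Nat.mul_le_mul_left _ h1.le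
        have h5 := hI.len
        omega
      rw [this, abs_zero]
  rw [hOff]
  have hfin : |∑ t ∈ Icc 1 hi, O t| ≤ (Dl : ℝ) / B0 * Bt := by
    refine (Finset.abs_sum_le_sum_abs _ _).trans ((Finset.sum_le_sum hOt).trans ?_)
    rw [← Finset.sum_filter, Finset.sum_const, nsmul_eq_mul]
    apply mul_le_mul_of_nonneg_right _ hBt0
    have h1 : (Icc 1 hi).filter (fun t => t * B0 < Dl) ⊆ Ioc 0 (Dl / B0) := by
      intro t ht
      obtain ⟨h1, h2⟩ := Finset.mem_filter.1 ht
      rw [Finset.mem_Icc] at h1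
      rw [Finset.mem_Ioc]
      refine ⟨by omega, ?_⟩
      rw [Nat.le_div_iff_mul_le B00]
      exact h2.le
    have h2 := Finset.card_le_card h1
    rw [Nat.card_Ioc, Nat.sub_zero] at h2
    calc (((Icc 1 hi).filter (fun t => t * B0 < Dl)).card : ℝ) ≤ ((Dl / B0 : ℕ) : ℝ) := by
          exact_mod_cast h2
      _ ≤ _ := Nat.cast_div_le
  refine hfin.trans ?_
  have hΘI : (Θ : ℝ) * I ≤ 12 * S := by
    have : Θ * I ≤ 12 * S := Nat.div_mul_le_self _ _
    exact_mod_cast this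
  have hD2r : (Dl : ℝ) * I ≤ 2 * P0 := by
    rw [hP0]; exact_mod_cast hI.D2
  have hIYBr : (I : ℝ) * Y0 ≤ B0 := by exact_mod_cast hH.IYB
  have hIYr : (I : ℝ) ≤ Y0 := by exact_mod_cast hH.IY
  exact numer T P0 S I B0 Y0 Dl Θ e E h1T hP0 rS rI rB rY (Nat.cast_nonneg _) (Nat.cast_nonneg _) re
    (by exact_mod_cast Y00) hE hD2r hΘI hIYBr hIYr

end Pool.Agent.Lib.MP_1446ad_nt.SM
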