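import Pool.Agent.Lib.MP_1446ad_nt.SM.SpecD

/-!
# MP_1446ad_nt, part D: the off-diagonal correlations of `DD` (module OQA)
-/

set_option autoImplicit false

namespace Pool.Agent.Lib.MP_1446ad_nt.SM

open Finset
open scoped Classical

namespace OQAM

/-- The hypotheses of the dispersion estimate. -/
theorem toDH {T : ℝ} {n M2 Y0 V S S' I : ℕ} {Mm Y R : Finset ℕ}
    (hK : DK T n M2 Y0 V S S' I Mm Y R) {m m' : ℕ} (hm : m ∈ Mm) (hm' : m' ∈ Mm) (hmm : m < m') :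
    DH T Y Y0 S S' (m * V) I (n * (m' - m)) := by
  have hm1 := (hK.Mp m hm).2
  have hm2 := (hK.Mp m' hm').2
  have hV : 0 < V := lt_of_lt_of_le hK.M20 hK.MV
  have hMm : M2 * V ≤ m * V := Nat.mul_le_mul_right _ hm1.1.le
  refine ⟨hK.S0, hK.SS, hK.S2, ?_, ?_, hK.I1, ?_, ?_, ?_, ?_, hK.IY, ?_, ?_, ?_⟩
  · have := hK.MY
    omega
  · exact Nat.mul_pos (by omega) hV
  · exact Nat.mul_pos hK.n0 (by omega)
  · have h1 : n * (m' - m) ≤ (4 * V * S) * m := Nat.mul_le_mul hK.nVS (by omega)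
    have h2 : 4 * (m * V) * S = (4 * V * S) * m := by ring
    omega
  · intro y hy
    obtain ⟨h1, h2, h3, h4⟩ := hK.Yp y hy
    refine ⟨h1, h2, h3, ?_⟩
    intro h5
    rcases (Nat.Prime.dvd_mul h1).mp h5 with h6 | h6
    · exact h4 h6
    · have h7 := Nat.le_of_dvd (by omega) h6
      have h8 := hK.MY
      omega
  · intro k hk hk2
    refine hK.T1 k hk (hk2.trans ?_)
    have h1 : m * V * S ≤ (2 * M2) * V * S :=
      Nat.mul_le_mul_right _ (Nat.mul_le_mul_right _ hm1.2.1)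
    have h2 : 8 * (m * V) * S = 8 * (m * V * S) := by ring
    have h3 : 16 * M2 * V * S = 8 * ((2 * M2) * V * S) := by ring
    omega
  · exact hK.IYB.trans hMm
  · have h1 : I ^ 3 * (m * V) ≤ I ^ 3 * (2 * M2 * V) :=
      Nat.mul_le_mul_left _ (Nat.mul_le_mul_right _ hm1.2.1)
    exact h1.trans hK.I3
  · exact lt_of_lt_of_le hK.SI hMm

end OQAM

open OQAM in
theorem specOQA (hDSF : SpecDSF) (hDDB : SpecDDB) (hSPL : SpecSPL) (hHCG : SpecHCG)
    (hHEB : SpecHEB) (hLDB : SpecLDB) : SpecOQA := by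
  intro T n M2 Y0 V S S' I Mm Y R hK m hm m' hm' hmm
  obtain ⟨hT1, hcard, hinj, _, _, hRc⟩ := hDDB T n M2 Y0 V S S' I Mm Y R hK
  have hDH := toDH hK hm hm' hmm
  have hM0 : 0 < M2 := hK.M20
  have hV : 0 < V := lt_of_lt_of_le hK.M20 hK.MV
  have hV' : (0 : ℝ) < V := by exact_mod_cast hV
  have hM' : (0 : ℝ) < M2 := by exact_mod_cast hM0
  have hI0 : (0 : ℝ) < I := by
    have := hK.I1
    exact_mod_cast this
  have hY0 : (0 : ℝ) < Y0 := by
    have := hDH.Y00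
    exact_mod_cast this
  have hm1 := (hK.Mp m hm).2
  have hmp : 0 < m := by omega
  have hmp' : (0 : ℝ) < m := by exact_mod_cast hmp
  have hT0 : 0 ≤ T := by linarith
  have hnn : 0 ≤ OM T n M2 Y0 V S I := by
    unfold OM
    positivity
  rcases Y.eq_empty_or_nonempty with hYe | hYne
  · have h1 : ∀ x : ℕ, DD Y R S S' x = 0 := by
      intro x
      unfold DD
      rw [hYe, sum_empty]
    simp only [h1, mul_zero, sum_const_zero, abs_zero]
    exact hnn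
  have hRc' := hRc hYne
  -- the decomposition
  have hYpos : ∀ y ∈ Y, 0 < y := fun y hy => (hK.Yp y hy).1.pos
  have hdec : (∑ q ∈ Ioc 0 n, DD Y R S S' (n - q * m) * DD Y R S S' (n - q * m')) =
      (∑ q ∈ Ioc 0 n, HH Y R S S' (n - q * m) * CC Y R S S' (n - q * m')) -
      (∑ q ∈ Ioc 0 n, HH Y R S S' (n - q * m) * EE Y R S S' (n - q * m')) +
      (∑ q ∈ Ioc 0 n, LL Y R S S' (n - q * m) * DD Y R S S' (n - q * m')) := by
    rw [← sum_sub_distrib, ← sum_add_distrib]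
    refine sum_congr rfl fun q _ => ?_
    have h1 := (hSPL Y R S S' (n - q * m) hYpos hK.R0).1
    have h2 := (hSPL Y R S S' (n - q * m') hYpos hK.R0).2
    have h3 : DD Y R S S' (n - q * m) * DD Y R S S' (n - q * m') =
        HH Y R S S' (n - q * m) * DD Y R S S' (n - q * m') +
        LL Y R S S' (n - q * m) * DD Y R S S' (n - q * m') := by
      rw [← add_mul, ← h1]
    rw [h3, ← mul_sub, ← h2]
  have hE := hHEB T n M2 Y0 V S S' I Mm Y R hK m hm m' hm' hmm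
  have hL := hLDB T n M2 Y0 V S S' I Mm Y R hK m hm m' hm' hmm
  -- the main part
  set N := n * (m' - m) with hN
  set G : ℕ × ℕ → ℝ := fun p => GG Y S S' N (Y0 * S) (4 * (Y0 * S)) p.1 p.2 with hG
  set D : Finset (ℕ × (ℕ × ℕ)) := (R ×ˢ (Y ×ˢ R)).filter
    (fun t => Nat.Coprime (m' * t.1) (m * (t.2.1 * t.2.2))) with hD
  set φ : ℕ × (ℕ × ℕ) → ℕ × ℕ := fun t => (m' * t.1, m * (t.2.1 * t.2.2)) with hφ
  have hm'p : 0 < m' := by omega
  have hφinj : ∀ a ∈ D, ∀ b ∈ D, φ a = φ b → a = b := by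
    intro a ha b hb hab
    rw [hD, mem_filter, mem_product] at ha hb
    rw [hφ] at hab
    simp only [Prod.mk.injEq] at hab
    have h1 := Nat.eq_of_mul_eq_mul_left hm'p hab.1
    have h2 := Nat.eq_of_mul_eq_mul_left hmp hab.2
    have h3 := hinj a.2 ha.1.2 b.2 hb.1.2 h2
    exact Prod.ext h1 h3
  set O := D.image φ with hO
  have hmain : |∑ q ∈ Ioc 0 n, HH Y R S S' (n - q * m) * CC Y R S S' (n - q * m')| ≤
      ∑ p ∈ O, |G p| := by
    rw [hHCG T n M2 Y0 V S S' I Mm Y R hK m hm m' hm' hmm]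
    have h1 : (∑ r1 ∈ R, ∑ y ∈ Y, ∑ r ∈ R, if Nat.Coprime (m' * r1) (m * (y * r)) then
        GG Y S S' (n * (m' - m)) (Y0 * S) (4 * (Y0 * S)) (m' * r1) (m * (y * r)) else 0) =
        ∑ t ∈ R ×ˢ (Y ×ˢ R), if Nat.Coprime (m' * t.1) (m * (t.2.1 * t.2.2)) then
          G (φ t) else 0 := by
      rw [sum_product]
      refine sum_congr rfl fun r1 _ => ?_
      rw [sum_product]
    rw [h1, ← sum_filter]
    refine (abs_sum_le_sum_abs _ _).trans (le_of_eq ?_)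
    rw [hO, sum_image hφinj]
  have hOcard : (O.card : ℝ) ≤ 2 * (V : ℝ) / Y0 * V := by
    have h1 : O.card ≤ R.card * (Y ×ˢ R).card := by
      have h2 : O.card ≤ D.card := card_image_le
      have h3 : D.card ≤ (R ×ˢ (Y ×ˢ R)).card := card_filter_le _ _
      rw [card_product] at h3
      exact h2.trans h3
    have h2 : (O.card : ℝ) ≤ (R.card : ℝ) * ((Y ×ˢ R).card : ℝ) := by exact_mod_cast h1
    have h3 : ((Y ×ˢ R).card : ℝ) ≤ V := by exact_mod_cast hcard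
    exact h2.trans (mul_le_mul hRc' h3 (Nat.cast_nonneg _) (by positivity))
  have hOp : ∀ p ∈ O, Nat.Coprime p.1 p.2 ∧ m * V < p.2 ∧ p.2 ≤ 2 * (m * V) := by
    intro p hp
    rw [hO, mem_image] at hp
    obtain ⟨t, ht, rfl⟩ := hp
    rw [hD, mem_filter, mem_product, mem_product] at ht
    obtain ⟨⟨h1, h2, h3⟩, h4⟩ := ht
    obtain ⟨h5, h6⟩ := hK.RV t.2.1 h2 t.2.2 h3
    refine ⟨h4, ?_, ?_⟩
    · exact (Nat.mul_lt_mul_left hmp).mpr h5
    · have h7 : m * (t.2.1 * t.2.2) ≤ m * (2 * V) := Nat.mul_le_mul_left _ h6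
      have h8 : 2 * (m * V) = m * (2 * V) := by ring
      rw [h8]
      exact h7
  have hdsf := hDSF T Y Y0 S S' (m * V) I N O hDH hOp
  have hX : 22500 * T ^ 10 * (I : ℝ) ^ 2 * O.card * ((Y0 * S) * S / (I : ℝ) ^ 3 +
        ((Y0 : ℝ) * S) ^ 2 * √((Y0 : ℝ) * S) * Y0 / (I * ((m * V : ℕ) : ℝ))) ≤
      45000 * T ^ 10 * (I : ℝ) ^ 2 * ((V : ℝ) ^ 2 / Y0) * ((Y0 * S) * S / (I : ℝ) ^ 3 +
        ((Y0 : ℝ) * S) ^ 2 * √((Y0 : ℝ) * S) * Y0 / (I * (M2 * V))) := by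
    have h1 : (M2 : ℝ) * V ≤ ((m * V : ℕ) : ℝ) := by
      have : M2 * V ≤ m * V := Nat.mul_le_mul_right _ hm1.1.le
      exact_mod_cast this
    have h2 : ((Y0 : ℝ) * S) ^ 2 * √((Y0 : ℝ) * S) * Y0 / (I * ((m * V : ℕ) : ℝ)) ≤
        ((Y0 : ℝ) * S) ^ 2 * √((Y0 : ℝ) * S) * Y0 / (I * (M2 * V)) :=
      div_le_div_of_nonneg_left (by positivity) (by positivity)
        (mul_le_mul_of_nonneg_left h1 hI0.le)
    have h3 : 22500 * T ^ 10 * (I : ℝ) ^ 2 * O.card ≤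
        45000 * T ^ 10 * (I : ℝ) ^ 2 * ((V : ℝ) ^ 2 / Y0) := by
      have h4 : 22500 * T ^ 10 * (I : ℝ) ^ 2 * O.card ≤
          22500 * T ^ 10 * (I : ℝ) ^ 2 * (2 * (V : ℝ) / Y0 * V) :=
        mul_le_mul_of_nonneg_left hOcard (by positivity)
      refine h4.trans (le_of_eq ?_)
      ring
    exact mul_le_mul h3 (by linarith) (by positivity) (by positivity)
  have hsq : ∑ p ∈ O, |G p| ≤
      √(45000 * T ^ 10 * (I : ℝ) ^ 2 * ((V : ℝ) ^ 2 / Y0) * ((Y0 * S) * S / (I : ℝ) ^ 3 +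
        ((Y0 : ℝ) * S) ^ 2 * √((Y0 : ℝ) * S) * Y0 / (I * (M2 * V)))) := by
    apply Real.le_sqrt_of_sq_le
    exact hdsf.trans hX
  rw [hdec]
  unfold OM
  have h1 := hmain.trans hsq
  rw [abs_le] at h1 hE hL ⊢
  constructor
  · linarith [h1.1, h1.2, hE.1, hE.2, hL.1, hL.2]
  · linarith [h1.1, h1.2, hE.1, hE.2, hL.1, hL.2]

end Pool.Agent.Lib.MP_1446ad_nt.SM
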