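import Pool.Agent.Lib.MP_1446ad_nt.SM.SpecF

/-!
# MP_1446ad_nt, part F: module PRP, the products
-/

set_option autoImplicit false

namespace Pool.Agent.Lib.MP_1446ad_nt.SM.PRPM

open Finset Filter
open scoped Classical

lemma mem_pw {ν : ℝ} {n X p : ℕ} :
    p ∈ pw ν n X ↔ (X < p ∧ p ≤ 2 * X) ∧ p.Prime ∧ (p : ℝ) ≤ (1 + ν) * X ∧ ¬ p ∣ n := by
  unfold pw
  rw [mem_filter, mem_Ioc]

lemma dvd_four {p u y q r : ℕ} (hp : p.Prime) (hu : u.Prime) (hy : y.Prime) (hq : q.Prime)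
    (hr : r.Prime) (h : p ∣ (u * y) * (q * r)) : p = u ∨ p = y ∨ p = q ∨ p = r := by
  rcases (Nat.Prime.dvd_mul hp).1 h with h1 | h1
  · rcases (Nat.Prime.dvd_mul hp).1 h1 with h2 | h2
    · exact Or.inl ((Nat.prime_dvd_prime_iff_eq hp hu).1 h2)
    · exact Or.inr (Or.inl ((Nat.prime_dvd_prime_iff_eq hp hy).1 h2))
  · rcases (Nat.Prime.dvd_mul hp).1 h1 with h2 | h2
    · exact Or.inr (Or.inr (Or.inl ((Nat.prime_dvd_prime_iff_eq hp hq).1 h2)))
    · exact Or.inr (Or.inr (Or.inr ((Nat.prime_dvd_prime_iff_eq hp hr).1 h2)))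

lemma inj {ν : ℝ} {n M2 Y0 X1 X2 : ℕ} (h1 : 2 * M2 < Y0) (h2 : 2 * Y0 < X1) (h3 : 2 * X1 < X2)
    {u y p q u' y' p' q' : ℕ} (hu : u ∈ pw ν n M2) (hy : y ∈ pw ν n Y0) (hp : p ∈ pw ν n X1)
    (hq : q ∈ pw ν n X2) (hu' : u' ∈ pw ν n M2) (hy' : y' ∈ pw ν n Y0) (hp' : p' ∈ pw ν n X1)
    (hq' : q' ∈ pw ν n X2) (h : (u * y) * (p * q) = (u' * y') * (p' * q')) :
    u = u' ∧ y = y' ∧ p = p' ∧ q = q' := by
  rw [mem_pw] at hu hy hp hq hu' hy' hp' hq'
  have e1 : u = u' := by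
    rcases dvd_four hu.2.1 hu'.2.1 hy'.2.1 hp'.2.1 hq'.2.1
      (by rw [← h]; exact ⟨y * (p * q), by ring⟩) with h4 | h4 | h4 | h4
    · exact h4
    · omega
    · omega
    · omega
  subst e1
  have e2 : y = y' := by
    rcases dvd_four hy.2.1 hu'.2.1 hy'.2.1 hp'.2.1 hq'.2.1
      (by rw [← h]; exact ⟨u * (p * q), by ring⟩) with h4 | h4 | h4 | h4
    · omega
    · exact h4
    · omega
    · omega
  subst e2
  have e3 : p = p' := by
    rcases dvd_four hp.2.1 hu'.2.1 hy'.2.1 hp'.2.1 hq'.2.1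
      (by rw [← h]; exact ⟨u * y * q, by ring⟩) with h4 | h4 | h4 | h4
    · omega
    · omega
    · exact h4
    · omega
  subst e3
  refine ⟨rfl, rfl, rfl, ?_⟩
  have h5 := Nat.eq_of_mul_eq_mul_left (Nat.mul_pos hu.2.1.pos hy.2.1.pos) h
  exact Nat.eq_of_mul_eq_mul_left hp.2.1.pos h5

lemma ev (a b : ℝ) (hab : a < b) :
    ∀ᶠ n : ℕ in atTop, 16 * (n : ℝ) ^ a < (n : ℝ) ^ b := by
  have h1 : Tendsto (fun n : ℕ => (n : ℝ) ^ (b - a)) atTop atTop :=
    (tendsto_rpow_atTop (by linarith)).comp tendsto_natCast_atTop_atTop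
  filter_upwards [h1.eventually (eventually_gt_atTop 16), eventually_gt_atTop 0] with n hn hn0
  have hn0' : (0 : ℝ) < n := by exact_mod_cast hn0
  have e : (n : ℝ) ^ b = (n : ℝ) ^ (b - a) * (n : ℝ) ^ a := by
    rw [← Real.rpow_add hn0']
    congr 1
    ring
  rw [e]
  exact mul_lt_mul_of_pos_right hn (Real.rpow_pos_of_pos hn0' a)

theorem specPRP : SpecPRP := by
  intro d ν hd hd' hν hν'
  filter_upwards [ev d (1 / 7 - 9 * d) (by linarith), ev (1 / 7 - 9 * d) (3 / 14 - 2 * d) (by linarith),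
    ev (3 / 14 - 2 * d) (3 / 14) (by linarith)] with n g1 g2 g3
  intro M2 Y0 X1 X2 hW
  have h1 : 2 * M2 < Y0 := by
    have : (2 : ℝ) * M2 < Y0 := by
      have := hW.a1.2
      have := hW.a2.1
      linarith
    exact_mod_cast this
  have h2 : 2 * Y0 < X1 := by
    have : (2 : ℝ) * Y0 < X1 := by
      have := hW.a2.2
      have := hW.a3.1
      linarith
    exact_mod_cast this
  have h3 : 2 * X1 < X2 := by
    have : (2 : ℝ) * X1 < X2 := by
      have := hW.a3.2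
      have := hW.a4.1
      linarith
    exact_mod_cast this
  refine ⟨h1, h2, h3, ?_, ?_, ?_⟩
  · intro f
    unfold PR
    rw [sum_image]
    · rw [sum_product, sum_product]
      apply sum_congr rfl
      intro u _
      apply sum_congr rfl
      intro y _
      rw [sum_product]
    · rintro ⟨⟨u, y⟩, p, q⟩ ha ⟨⟨u', y'⟩, p', q'⟩ hb hab
      simp only [coe_product, Set.mem_prod, mem_coe] at ha hb
      simp only at hab
      obtain ⟨e1, e2, e3, e4⟩ := inj h1 h2 h3 ha.1.1 ha.1.2 ha.2.1 ha.2.2 hb.1.1 hb.1.2 hb.2.1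
        hb.2.2 hab
      rw [e1, e2, e3, e4]
  · intro r hr
    unfold PR at hr
    rw [mem_image] at hr
    obtain ⟨⟨⟨u, y⟩, p, q⟩, ht, rfl⟩ := hr
    simp only [mem_product, mem_pw] at ht
    obtain ⟨⟨hu, hy⟩, hp, hq⟩ := ht
    simp only
    constructor
    · calc M2 * Y0 * X1 * X2 = (M2 * Y0) * (X1 * X2) := by ring
        _ < (u * y) * (p * q) := Nat.mul_lt_mul'' (Nat.mul_lt_mul'' hu.1.1 hy.1.1)
            (Nat.mul_lt_mul'' hp.1.1 hq.1.1)
    · push_cast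
      have hν1 : 0 ≤ 1 + ν := by linarith
      calc ((u : ℝ) * y) * (p * q)
          ≤ (((1 + ν) * M2) * ((1 + ν) * Y0)) * (((1 + ν) * X1) * ((1 + ν) * X2)) := by
            apply mul_le_mul
            · exact mul_le_mul hu.2.2.1 hy.2.2.1 (by positivity) (by positivity)
            · exact mul_le_mul hp.2.2.1 hq.2.2.1 (by positivity) (by positivity)
            · positivity
            · positivity
        _ = (1 + ν) ^ 4 * ((M2 : ℝ) * Y0 * X1 * X2) := by ring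
  · intro r hr p0 hp0 hd0
    unfold PR at hr
    rw [mem_image] at hr
    obtain ⟨⟨⟨u, y⟩, p, q⟩, ht, rfl⟩ := hr
    simp only [mem_product, mem_pw] at ht
    obtain ⟨⟨hu, hy⟩, hp, hq⟩ := ht
    have hX2 := hW.a4.2
    have hle : p0 ≤ 2 * X2 ∧ M2 < p0 ∧ ¬ p0 ∣ n := by
      rcases dvd_four hp0 hu.2.1 hy.2.1 hp.2.1 hq.2.1 hd0 with h4 | h4 | h4 | h4
      · rw [h4]
        exact ⟨by omega, by omega, hu.2.2.2⟩
      · rw [h4]
        exact ⟨by omega, by omega, hy.2.2.2⟩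
      · rw [h4]
        exact ⟨by omega, by omega, hp.2.2.2⟩
      · rw [h4]
        exact ⟨by omega, by omega, hq.2.2.2⟩
    refine ⟨hle.2.1, hle.2.2, ?_⟩
    have : (p0 : ℝ) ≤ 2 * X2 := by exact_mod_cast hle.1
    linarith

end Pool.Agent.Lib.MP_1446ad_nt.SM.PRPM

namespace Pool.Agent.Lib.MP_1446ad_nt.SM

theorem specPRP : SpecPRP := PRPM.specPRP

end Pool.Agent.Lib.MP_1446ad_nt.SM
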