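import Pool.Agent.Lib.MP_1446ad_nt.SM.SpecW

/-!
# MP_1446ad_nt, part W: module QCT, elements of given trace and norm in a quadratic extension
-/

set_option autoImplicit false
set_option linter.unusedSectionVars false

namespace Pool.Agent.Lib.MP_1446ad_nt.SM.QCTM

open scoped Classical

section

variable {k K : Type} [Field k] [Fintype k] [Field K] [Fintype K] [Algebra k K]

lemma trace_eq (h2 : Module.finrank k K = 2) (x : K) :
    algebraMap k K (Algebra.trace k K x) = x + x ^ Fintype.card k := by
  rw [FiniteField.algebraMap_trace_eq_sum_pow, h2, Finset.sum_range_succ, Finset.sum_range_succ,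
    Finset.sum_range_zero, Nat.card_eq_fintype_card]
  simp

lemma norm_eq (h2 : Module.finrank k K = 2) (x : K) :
    algebraMap k K (Algebra.norm k x) = x * x ^ Fintype.card k := by
  rw [FiniteField.algebraMap_norm_eq_prod_pow, h2, Finset.prod_range_succ, Finset.prod_range_succ,
    Finset.prod_range_zero, Nat.card_eq_fintype_card]
  simp

lemma mem_iff (h2 : Module.finrank k K = 2) (t n : k) (x : K) :
    (Algebra.trace k K x = t ∧ Algebra.norm k x = n) ↔
      (x ^ Fintype.card k = algebraMap k K t - x ∧ x * (algebraMap k K t - x) = algebraMap k K n) := by
  have hi := (algebraMap k K).injective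
  constructor
  · rintro ⟨h, h'⟩
    have e1 := trace_eq h2 x
    have e2 := norm_eq h2 x
    rw [h] at e1
    rw [h'] at e2
    have e3 : x ^ Fintype.card k = algebraMap k K t - x := by linear_combination -e1
    refine ⟨e3, ?_⟩
    rw [e3] at e2
    exact e2.symm
  · rintro ⟨h, h'⟩
    constructor
    · apply hi
      rw [trace_eq h2, h]
      ring
    · apply hi
      rw [norm_eq h2, h, h']

lemma two_ne (h : (2 : k) ≠ 0) : (2 : K) ≠ 0 := by
  intro h0
  apply h
  apply (algebraMap k K).injective
  rw [map_ofNat, map_zero]
  exact h0

lemma char_ne {F : Type} [Field F] (h : (2 : F) ≠ 0) : ringChar F ≠ 2 := by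
  intro h0
  apply h
  have := ringChar.Nat.cast_ringChar (R := F)
  rw [h0] at this
  exact_mod_cast this

lemma exists_sqrt (h2 : Module.finrank k K = 2) (h : (2 : k) ≠ 0) (d : k) :
    ∃ s : K, s ^ 2 = algebraMap k K d := by
  by_cases hd : d = 0
  · exact ⟨0, by rw [hd]; simp⟩
  · have hd' : algebraMap k K d ≠ 0 := by
      rw [Ne, map_eq_zero]
      exact hd
    have hK := char_ne (two_ne (K := K) h)
    have hsq : IsSquare (algebraMap k K d) := by
      rw [FiniteField.isSquare_iff hK hd']
      have hc : Fintype.card K = Fintype.card k ^ 2 := by
        rw [Module.card_eq_pow_finrank (K := k) (V := K), h2]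
      have hodd := Nat.odd_iff.2 (FiniteField.odd_card_of_char_ne_two (char_ne h))
      obtain ⟨r, hr⟩ := hodd
      have he : Fintype.card K / 2 = (Fintype.card k - 1) * (r + 1) := by
        rw [hc, hr]
        have : (2 * r + 1) ^ 2 = 2 * (2 * r * (r + 1)) + 1 := by ring
        rw [this]
        simp only [Nat.add_sub_cancel]
        omega
      rw [he, ← map_pow, pow_mul, FiniteField.pow_card_sub_one_eq_one d hd, one_pow, map_one]
    obtain ⟨s, hs⟩ := hsq
    exact ⟨s, by rw [sq, hs]⟩

end

theorem specQCT : SpecQCT := by
  intro k K _ _ _ _ _ h2 h t n
  have hK2 : (2 : K) ≠ 0 := two_ne h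
  have hi := (algebraMap k K).injective
  have hodd := Nat.odd_iff.2 (FiniteField.odd_card_of_char_ne_two (char_ne h))
  have hιpow : ∀ c : k, (algebraMap k K c) ^ Fintype.card k = algebraMap k K c := by
    intro c
    rw [← map_pow, FiniteField.pow_card]
  have h4 : (4 : k) ≠ 0 := by
    have : (4 : k) = 2 * 2 := by norm_num
    rw [this]
    exact mul_ne_zero h h
  set A : Set K := {x : K | Algebra.trace k K x = t ∧ Algebra.norm k x = n} with hA
  set B : Set (k × k) := {y : k × k | y.1 + y.2 = t ∧ y.1 * y.2 = n} with hB
  have memA : ∀ x, x ∈ A ↔ (x ^ Fintype.card k = algebraMap k K t - x ∧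
      x * (algebraMap k K t - x) = algebraMap k K n) := fun x => mem_iff h2 t n x
  have memB : ∀ y, y ∈ B ↔ (y.1 + y.2 = t ∧ y.1 * y.2 = n) := fun y => Iff.rfl
  have key : ∀ x, x ∈ A → (2 * x - algebraMap k K t) ^ 2 = algebraMap k K (t ^ 2 - 4 * n) := by
    intro x hx
    have := ((memA x).1 hx).2
    simp only [map_sub, map_mul, map_pow, map_ofNat]
    linear_combination (-4) * this
  have keyB : ∀ y, y ∈ B → (y.1 - y.2) ^ 2 = t ^ 2 - 4 * n := by
    intro y hy
    obtain ⟨e1, e2⟩ := (memB y).1 hy
    rw [← e1, ← e2]
    ring
  by_cases hd : t ^ 2 - 4 * n = 0
  · have eA : A = {algebraMap k K (t / 2)} := by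
      ext x
      rw [Set.mem_singleton_iff]
      constructor
      · intro hx
        have h0 := key x hx
        rw [hd, map_zero] at h0
        have h1 := pow_eq_zero_iff (two_ne_zero) |>.1 h0
        rw [map_div₀, map_ofNat]
        field_simp
        linear_combination h1
      · intro hx
        rw [memA, hx]
        constructor
        · rw [hιpow, ← map_sub]
          congr 1
          field_simp
          ring
        · rw [← map_sub, ← map_mul]
          congr 1
          have : n = t ^ 2 / 4 := by
            field_simp
            linear_combination -hd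
          rw [this]
          field_simp
          ring
    have eB : B = {(t / 2, t / 2)} := by
      ext y
      rw [Set.mem_singleton_iff, memB]
      constructor
      · intro hy
        have h0 := keyB y hy
        rw [hd] at h0
        have h1 := pow_eq_zero_iff (two_ne_zero) |>.1 h0
        refine Prod.ext ?_ ?_
        · show y.1 = t / 2
          field_simp
          linear_combination hy.1 + h1
        · show y.2 = t / 2
          field_simp
          linear_combination hy.1 - h1
      · rintro rfl
        constructor
        · show t / 2 + t / 2 = t
          field_simp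
          ring
        · show t / 2 * (t / 2) = n
          have : n = t ^ 2 / 4 := by
            field_simp
            linear_combination -hd
          rw [this]
          field_simp
          ring
    rw [eA, eB, Set.ncard_singleton, Set.ncard_singleton]
  by_cases hsq : IsSquare (t ^ 2 - 4 * n)
  · obtain ⟨s, hs⟩ := hsq
    have hs0 : s ≠ 0 := by
      rintro rfl
      apply hd
      rw [hs]
      ring
    have eA : A = ∅ := by
      rw [Set.eq_empty_iff_forall_notMem]
      intro x hx
      have h0 := key x hx
      rw [hs, map_mul] at h0
      have h1 : (2 * x - algebraMap k K t - algebraMap k K s) *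
          (2 * x - algebraMap k K t + algebraMap k K s) = 0 := by linear_combination h0
      have hx1 := ((memA x).1 hx).1
      have h3 : ∀ s' : k, 2 * x - algebraMap k K t = algebraMap k K s' → s' = 0 := by
        intro s' hs'
        have e1 : x = algebraMap k K ((t + s') / 2) := by
          rw [map_div₀, map_add, map_ofNat]
          field_simp
          linear_combination hs'
        rw [e1, hιpow, ← map_sub] at hx1
        have e2 := hi hx1
        field_simp at e2
        apply mul_left_cancel₀ h
        linear_combination e2
      rcases mul_eq_zero.1 h1 with h2' | h2'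
      · exact hs0 (h3 s (by linear_combination h2'))
      · have := h3 (-s) (by rw [map_neg]; linear_combination h2')
        exact hs0 (neg_eq_zero.1 this)
    have eB : B = {((t + s) / 2, (t - s) / 2), ((t - s) / 2, (t + s) / 2)} := by
      ext y
      rw [Set.mem_insert_iff, Set.mem_singleton_iff, memB]
      constructor
      · intro hy
        have h0 := keyB y hy
        rw [hs] at h0
        have h1 : (y.1 - y.2 - s) * (y.1 - y.2 + s) = 0 := by linear_combination h0
        rcases mul_eq_zero.1 h1 with h2' | h2'
        · left
          refine Prod.ext ?_ ?_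
          · show y.1 = (t + s) / 2
            field_simp
            linear_combination hy.1 + h2'
          · show y.2 = (t - s) / 2
            field_simp
            linear_combination hy.1 - h2'
        · right
          refine Prod.ext ?_ ?_
          · show y.1 = (t - s) / 2
            field_simp
            linear_combination hy.1 + h2'
          · show y.2 = (t + s) / 2
            field_simp
            linear_combination hy.1 - h2'
      · have e0 : ∀ y1 y2 : k, 2 * y1 = t + s → 2 * y2 = t - s → y1 + y2 = t ∧ y1 * y2 = n := by
          intro y1 y2 g1 g2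
          constructor
          · apply mul_left_cancel₀ h
            linear_combination g1 + g2
          · apply mul_left_cancel₀ h4
            linear_combination (2 * y2) * g1 + (t + s) * g2 + hs
        rintro (rfl | rfl)
        · exact e0 _ _ (by field_simp) (by field_simp)
        · obtain ⟨g1, g2⟩ := e0 ((t + s) / 2) ((t - s) / 2) (by field_simp) (by field_simp)
          exact ⟨by rw [add_comm]; exact g1, by rw [mul_comm]; exact g2⟩
    rw [eA, eB, Set.ncard_empty, Set.ncard_pair]
    intro hcon
    have h1 := congrArg Prod.fst hcon
    simp only at h1
    field_simp at h1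
    have h3 : 2 * s = 0 := by linear_combination h1
    rcases mul_eq_zero.1 h3 with h5 | h5
    · exact h h5
    · exact hs0 h5
  · have eB : B = ∅ := by
      rw [Set.eq_empty_iff_forall_notMem]
      intro y hy
      apply hsq
      rw [← keyB y hy]
      exact IsSquare.sq _
    obtain ⟨s, hs⟩ := exists_sqrt (K := K) h2 h (t ^ 2 - 4 * n)
    have hs0 : s ≠ 0 := by
      rintro rfl
      apply hd
      apply hi
      rw [← hs, map_zero]
      ring
    have hspow : s ^ Fintype.card k = -s := by
      obtain ⟨r, hr⟩ := hodd
      have hdich := FiniteField.pow_dichotomy (char_ne h) hd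
      rw [FiniteField.isSquare_iff (char_ne h) hd] at hsq
      have hm : (t ^ 2 - 4 * n) ^ (Fintype.card k / 2) = -1 := hdich.resolve_left hsq
      have hr2 : Fintype.card k / 2 = r := by omega
      rw [hr2] at hm
      rw [hr, pow_succ, pow_mul, hs, ← map_pow, hm, map_neg, map_one]
      ring
    have hfrob : ∀ x : K, ∀ c : K, 2 * x = algebraMap k K t + c →
        2 * x ^ Fintype.card k = algebraMap k K t + c ^ Fintype.card k := by
      intro x c hx
      have e1 := congrArg (FiniteField.frobeniusAlgHom k K) hx
      rw [map_mul, map_add, AlgHom.commutes, map_ofNat] at e1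
      exact e1
    have hmem : ∀ x c : K, 2 * x = algebraMap k K t + c → c ^ Fintype.card k = -c →
        c ^ 2 = algebraMap k K (t ^ 2 - 4 * n) → x ∈ A := by
      intro x c hx hc hc2
      rw [memA]
      have e1 := hfrob x c hx
      rw [hc] at e1
      simp only [map_sub, map_mul, map_pow, map_ofNat] at hc2
      have hK4 : (4 : K) ≠ 0 := by
        have : (4 : K) = 2 * 2 := by norm_num
        rw [this]
        exact mul_ne_zero hK2 hK2
      constructor
      · apply mul_left_cancel₀ hK2
        linear_combination e1 + hx
      · apply mul_left_cancel₀ hK4
        linear_combination (-(2 * x - algebraMap k K t + c)) * hx - hc2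
    have eA : A = {(algebraMap k K t + s) / 2, (algebraMap k K t - s) / 2} := by
      ext x
      rw [Set.mem_insert_iff, Set.mem_singleton_iff]
      constructor
      · intro hx
        have h0 := key x hx
        rw [← hs] at h0
        have h1 : (2 * x - algebraMap k K t - s) * (2 * x - algebraMap k K t + s) = 0 := by
          linear_combination h0
        rcases mul_eq_zero.1 h1 with h2' | h2'
        · left
          field_simp
          linear_combination h2'
        · right
          field_simp
          linear_combination h2'
      · rintro (rfl | rfl)
        · exact hmem _ s (by field_simp) hspow hs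
        · apply hmem _ (-s) (by field_simp; ring)
          · rw [Odd.neg_pow hodd, hspow]
          · rw [neg_sq]
            exact hs
    rw [eA, eB, Set.ncard_empty, Set.ncard_pair]
    intro hcon
    field_simp at hcon
    have h3 : 2 * s = 0 := by linear_combination hcon
    rcases mul_eq_zero.1 h3 with h5 | h5
    · exact hK2 h5
    · exact hs0 h5

end Pool.Agent.Lib.MP_1446ad_nt.SM.QCTM

namespace Pool.Agent.Lib.MP_1446ad_nt.SM

theorem specQCT : SpecQCT := QCTM.specQCT

end Pool.Agent.Lib.MP_1446ad_nt.SM
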