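import Pool.Agent.Lib.MP_1446ad_nt.SM.SpecK

/-!
# MP_1446ad_nt (sums of two smooth numbers), module SPA: the main term on average
-/

set_option autoImplicit false

namespace Pool.Agent.Lib.MP_1446ad_nt.SM

open Finset
open scoped Classical

namespace SPAM

/-- The number of solutions of `i Q = c` modulo `P`. -/
lemma cnt_le (P Q : ℕ) (hP : 0 < P) (c : ℤ) (hc : c ≠ 0) :
    (((range P).filter (fun i : ℕ => (P : ℤ) ∣ (i : ℤ) * (Q : ℤ) - c)).card : ℝ) ≤
      ∑ g ∈ c.natAbs.divisors.filter (fun g => g ∣ Q), (if g ∣ P then (g : ℝ) else 0) := by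
  rcases Finset.eq_empty_or_nonempty
    ((range P).filter (fun i : ℕ => (P : ℤ) ∣ (i : ℤ) * (Q : ℤ) - c)) with h0 | h0
  · rw [h0]
    simp only [Finset.card_empty, Nat.cast_zero]
    apply Finset.sum_nonneg
    intro g _
    split_ifs <;> positivity
  · obtain ⟨i0, hi0⟩ := h0
    simp only [Finset.mem_filter, Finset.mem_range] at hi0
    obtain ⟨hi0, hd0⟩ := hi0
    set g := Nat.gcd Q P with hg
    have hgP : g ∣ P := Nat.gcd_dvd_right _ _
    have hgQ : g ∣ Q := Nat.gcd_dvd_left _ _
    have hg0 : 0 < g := Nat.gcd_pos_of_pos_right _ hP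
    have hgc : g ∣ c.natAbs := by
      rw [← Int.natCast_dvd]
      have h1 : (g : ℤ) ∣ (i0 : ℤ) * (Q : ℤ) - c := (Int.natCast_dvd_natCast.mpr hgP).trans hd0
      have h2 : (g : ℤ) ∣ (i0 : ℤ) * (Q : ℤ) :=
        Dvd.dvd.mul_left (Int.natCast_dvd_natCast.mpr hgQ) _
      have h3 := dvd_sub h2 h1
      simpa using h3
    have hmem : g ∈ c.natAbs.divisors.filter (fun g => g ∣ Q) := by
      rw [Finset.mem_filter, Nat.mem_divisors]
      exact ⟨⟨hgc, Int.natAbs_ne_zero.mpr hc⟩, hgQ⟩
    have h4 : (g : ℝ) ≤ ∑ g ∈ c.natAbs.divisors.filter (fun g => g ∣ Q),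
        (if g ∣ P then (g : ℝ) else 0) := by
      have h5 := Finset.single_le_sum (f := fun g : ℕ => (if g ∣ P then (g : ℝ) else 0))
        (s := c.natAbs.divisors.filter (fun g => g ∣ Q))
        (fun i _ => by split_ifs <;> positivity) hmem
      rwa [if_pos hgP] at h5
    refine le_trans ?_ h4
    have h6 : ((range P).filter (fun i : ℕ => (P : ℤ) ∣ (i : ℤ) * (Q : ℤ) - c)).card ≤ g := by
      conv_rhs => rw [← Finset.card_range g]
      obtain ⟨m, hm⟩ := hgP
      obtain ⟨r, hr⟩ := hgQ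
      have hm0 : 0 < m := by
        rcases Nat.eq_zero_or_pos m with h | h
        · rw [h, mul_zero] at hm
          omega
        · exact h
      have hcop : Nat.Coprime r m := by
        have h7 : g * Nat.gcd r m = g * 1 := by
          rw [← Nat.gcd_mul_left, ← hr, ← hm, mul_one]
        exact Nat.eq_of_mul_eq_mul_left hg0 h7
      apply Finset.card_le_card_of_injOn (fun i => i / m)
      · intro i hi
        simp only [Finset.coe_filter, Finset.mem_range, Set.mem_ofPred_eq] at hi
        simp only [Finset.coe_range, Set.mem_Iio]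
        apply Nat.div_lt_of_lt_mul
        rw [mul_comm, ← hm]
        exact hi.1
      · intro i hi i' hi' hii
        simp only [Finset.coe_filter, Finset.mem_range, Set.mem_ofPred_eq] at hi hi'
        simp only [] at hii
        have h8 : (P : ℤ) ∣ ((i : ℤ) - i') * Q := by
          have := dvd_sub hi.2 hi'.2
          have e : (i : ℤ) * (Q : ℤ) - c - ((i' : ℤ) * (Q : ℤ) - c) = ((i : ℤ) - i') * Q := by ring
          rwa [e] at this
        have h9 : (m : ℤ) ∣ (i : ℤ) - i' := by
          rw [hm, hr] at h8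
          push_cast at h8
          have h10 : (g : ℤ) * m ∣ g * (((i : ℤ) - i') * r) := by
            have e : (g : ℤ) * (((i : ℤ) - i') * r) = ((i : ℤ) - i') * (g * r) := by ring
            rwa [e]
          have h11 : (m : ℤ) ∣ ((i : ℤ) - i') * r :=
            (mul_dvd_mul_iff_left (by exact_mod_cast hg0.ne')).mp h10
          exact IsCoprime.dvd_of_dvd_mul_right
            (Nat.isCoprime_iff_coprime.mpr hcop.symm) h11
        have h12 : i % m = i' % m := by
          have h13 : i' ≡ i [MOD m] := (Nat.modEq_iff_dvd).mpr h9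
          exact h13.symm
        rw [← Nat.div_add_mod i m, ← Nat.div_add_mod i' m, hii, h12]
    exact_mod_cast h6

/-- The number of multiples of `g` in `(lo, hi]`. -/
lemma mult_le (lo hi g : ℕ) (hg : 0 < g) (hl : lo ≤ hi) :
    (g : ℝ) * (((Ioc lo hi).filter (fun P => g ∣ P)).card : ℝ) ≤ ((hi : ℝ) - lo) + g := by
  have h1 : ((Ioc lo hi).filter (fun P => g ∣ P)).card ≤ hi / g - lo / g := by
    rw [← Nat.card_Ioc]
    apply Finset.card_le_card_of_injOn (fun i => i / g)
    · intro i hi1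
      simp only [Finset.coe_filter, Finset.mem_Ioc, Set.mem_ofPred_eq] at hi1
      obtain ⟨⟨h1, h2⟩, h3⟩ := hi1
      simp only [Finset.coe_Ioc, Set.mem_Ioc]
      refine ⟨?_, Nat.div_le_div_right h2⟩
      obtain ⟨a, rfl⟩ := h3
      rw [Nat.mul_div_cancel_left a hg]
      exact Nat.div_lt_of_lt_mul h1
    · intro i hi1 j hj1 hij
      simp only [Finset.coe_filter, Finset.mem_Ioc, Set.mem_ofPred_eq] at hi1 hj1
      simp only [] at hij
      rw [← Nat.mul_div_cancel' hi1.2, ← Nat.mul_div_cancel' hj1.2, hij]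
  have h2 : lo / g ≤ hi / g := Nat.div_le_div_right hl
  have h3 : (((Ioc lo hi).filter (fun P => g ∣ P)).card : ℝ) ≤ ((hi / g : ℕ) : ℝ) - (lo / g : ℕ) := by
    rw [← Nat.cast_sub h2]
    exact_mod_cast h1
  have h4 : (g : ℝ) * ((hi / g : ℕ) : ℝ) ≤ hi := by
    exact_mod_cast Nat.mul_div_le hi g
  have h5 : (lo : ℝ) ≤ g * ((lo / g : ℕ) : ℝ) + g := by
    have h6 : lo < g * (lo / g) + g := by
      have := Nat.lt_mul_div_succ lo hg
      rwa [Nat.mul_succ] at this
    exact_mod_cast h6.le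
  have hgr : (0 : ℝ) < g := by exact_mod_cast hg
  nlinarith

lemma cnt_eq (P : ℕ) (c : ℤ) (q L : ℕ) :
    (cntB P 1 0 c q P L : ℝ) = ∑ j ∈ range L,
      (((range P).filter (fun i : ℕ => (P : ℤ) ∣ (i : ℤ) * ((q + j : ℕ) : ℤ) - c)).card : ℝ) := by
  unfold cntB
  rw [Finset.card_filter, Finset.sum_product_right]
  push_cast
  refine Finset.sum_congr rfl (fun j _ => ?_)
  rw [Finset.card_filter]
  push_cast
  refine Finset.sum_congr rfl (fun i _ => ?_)
  simp only [zero_add, one_mul]

end SPAM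

open SPAM in
/-- The main term on average. -/
theorem specSPA : SpecSPA := by
  intro T c lo hi q L Qm hc hT hq hqL hlh
  have hstep : ∀ j ∈ range L, ∑ P ∈ Ioc lo hi,
      (((range P).filter (fun i : ℕ => (P : ℤ) ∣ (i : ℤ) * ((q + j : ℕ) : ℤ) - c)).card : ℝ) ≤
      T * (((hi : ℝ) - lo) + Qm) := by
    intro j hj
    have hj1 := Finset.mem_range.mp hj
    have hQ0 : 0 < q + j := by omega
    have hQm : q + j ≤ Qm := by omega
    have hlh' : (lo : ℝ) ≤ hi := by exact_mod_cast hlh
    calc ∑ P ∈ Ioc lo hi,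
        (((range P).filter (fun i : ℕ => (P : ℤ) ∣ (i : ℤ) * ((q + j : ℕ) : ℤ) - c)).card : ℝ)
        ≤ ∑ P ∈ Ioc lo hi, ∑ g ∈ c.natAbs.divisors.filter (fun g => g ∣ (q + j)),
          (if g ∣ P then (g : ℝ) else 0) := by
          refine Finset.sum_le_sum (fun P hP => ?_)
          have := (Finset.mem_Ioc.mp hP).1
          exact cnt_le P (q + j) (by omega) c hc
      _ = ∑ g ∈ c.natAbs.divisors.filter (fun g => g ∣ (q + j)),
          (g : ℝ) * (((Ioc lo hi).filter (fun P => g ∣ P)).card : ℝ) := by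
          rw [Finset.sum_comm]
          refine Finset.sum_congr rfl (fun g _ => ?_)
          rw [← Finset.sum_filter, Finset.sum_const, nsmul_eq_mul, mul_comm]
      _ ≤ ∑ g ∈ c.natAbs.divisors.filter (fun g => g ∣ (q + j)), (((hi : ℝ) - lo) + Qm) := by
          refine Finset.sum_le_sum (fun g hg => ?_)
          rw [Finset.mem_filter] at hg
          have hg0 : 0 < g := Nat.pos_of_mem_divisors hg.1
          refine (mult_le lo hi g hg0 hlh).trans ?_
          have h1 : g ≤ q + j := Nat.le_of_dvd hQ0 hg.2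
          have h2 : (g : ℝ) ≤ Qm := by exact_mod_cast h1.trans hQm
          linarith
      _ = ((c.natAbs.divisors.filter (fun g => g ∣ (q + j))).card : ℝ) *
          (((hi : ℝ) - lo) + Qm) := by
          rw [Finset.sum_const, nsmul_eq_mul]
      _ ≤ T * (((hi : ℝ) - lo) + Qm) := by
          apply mul_le_mul_of_nonneg_right
          · refine le_trans ?_ hT
            unfold tau
            exact_mod_cast Finset.card_filter_le _ _
          · have : (0 : ℝ) ≤ Qm := by positivity
            linarith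
  calc ∑ P ∈ Ioc lo hi, (cntB P 1 0 c q P L : ℝ)
      = ∑ P ∈ Ioc lo hi, ∑ j ∈ range L,
        (((range P).filter (fun i : ℕ => (P : ℤ) ∣ (i : ℤ) * ((q + j : ℕ) : ℤ) - c)).card : ℝ) :=
        Finset.sum_congr rfl (fun P _ => cnt_eq P c q L)
    _ = ∑ j ∈ range L, ∑ P ∈ Ioc lo hi,
        (((range P).filter (fun i : ℕ => (P : ℤ) ∣ (i : ℤ) * ((q + j : ℕ) : ℤ) - c)).card : ℝ) :=
        Finset.sum_comm
    _ ≤ ∑ _j ∈ range L, T * (((hi : ℝ) - lo) + Qm) := Finset.sum_le_sum hstep
    _ = (L : ℝ) * T * (((hi : ℝ) - lo) + Qm) := by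
        rw [Finset.sum_const, Finset.card_range, nsmul_eq_mul, mul_assoc]

end Pool.Agent.Lib.MP_1446ad_nt.SM
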