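import Pool.Agent.Lib.MP_1446ad_nt.SM.SpecD

/-!
# MP_1446ad_nt, module SPL: two decompositions of `DD`
-/

set_option autoImplicit false

namespace Pool.Agent.Lib.MP_1446ad_nt.SM

open Finset
open scoped Classical

namespace SPLM

theorem term (S S' x y r : ℕ) (hy : 0 < y) (hr : 0 < r) :
    (if y * r * S < x ∧ x ≤ y * r * S' then
      ((if y * r ∣ x then (1 : ℝ) else 0) - 1 / ((y : ℝ) * r)) else 0) =
    (if r ∣ x then (if y * S < x / r ∧ x / r ≤ y * S' then
      ((if y ∣ x / r then (1 : ℝ) else 0) - 1 / (y : ℝ)) else 0) else 0) +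
    (if y * r * S < x ∧ x ≤ y * r * S' then
      (1 / (y : ℝ)) * ((if r ∣ x then (1 : ℝ) else 0) - 1 / (r : ℝ)) else 0) := by
  have hy' : (y : ℝ) ≠ 0 := by positivity
  have hr' : (r : ℝ) ≠ 0 := by positivity
  by_cases hd : r ∣ x
  · obtain ⟨P, rfl⟩ := hd
    have e1 : r * P / r = P := Nat.mul_div_cancel_left P hr
    have c1 : (y * r * S < r * P ∧ r * P ≤ y * r * S') ↔ (y * S < P ∧ P ≤ y * S') := by
      have a1 : y * r * S = r * (y * S) := by ring
      have a2 : y * r * S' = r * (y * S') := by ring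
      rw [a1, a2, Nat.mul_lt_mul_left hr, Nat.mul_le_mul_left_iff hr]
    have c2 : (y * r ∣ r * P) ↔ (y ∣ P) := by
      rw [mul_comm y r]; exact Nat.mul_dvd_mul_iff_left hr
    rw [if_pos (Dvd.intro P rfl), e1]
    by_cases hc : y * S < P ∧ P ≤ y * S'
    · rw [if_pos (c1.2 hc), if_pos hc, if_pos (c1.2 hc), if_pos (Dvd.intro P rfl)]
      by_cases h2 : y ∣ P
      · rw [if_pos (c2.2 h2), if_pos h2]
        field_simp
        ring
      · rw [if_neg (fun h => h2 (c2.1 h)), if_neg h2]
        field_simp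
        ring
    · rw [if_neg (fun h => hc (c1.1 h)), if_neg hc, if_neg (fun h => hc (c1.1 h))]
      simp
  · have h2 : ¬ y * r ∣ x := fun h => hd (dvd_trans (Dvd.intro_left y rfl) h)
    rw [if_neg hd, if_neg h2, if_neg hd]
    split_ifs
    · field_simp
      ring
    · simp

end SPLM

theorem specSPL : SpecSPL := by
  intro Y R S S' x hY hR
  constructor
  · unfold DD HH LL gg
    have e1 : (∑ r ∈ R, if r ∣ x then (∑ y ∈ Y, if y * S < x / r ∧ x / r ≤ y * S' then
        ((if y ∣ x / r then (1 : ℝ) else 0) - 1 / (y : ℝ)) else 0) else 0) =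
        ∑ y ∈ Y, ∑ r ∈ R, if r ∣ x then (if y * S < x / r ∧ x / r ≤ y * S' then
        ((if y ∣ x / r then (1 : ℝ) else 0) - 1 / (y : ℝ)) else 0) else 0 := by
      rw [Finset.sum_comm]
      refine Finset.sum_congr rfl fun r _ => ?_
      split_ifs
      · rfl
      · simp
    rw [e1, ← Finset.sum_add_distrib]
    refine Finset.sum_congr rfl fun y hy => ?_
    rw [← Finset.sum_add_distrib]
    refine Finset.sum_congr rfl fun r hr => ?_
    exact SPLM.term S S' x y r (hY y hy) (hR r hr)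
  · unfold DD CC EE
    rw [← Finset.sum_sub_distrib]
    refine Finset.sum_congr rfl fun y _ => ?_
    rw [← Finset.sum_sub_distrib]
    refine Finset.sum_congr rfl fun r _ => ?_
    by_cases hc : y * r * S < x ∧ x ≤ y * r * S'
    · rw [if_pos hc, if_pos hc]
      by_cases h2 : y * r ∣ x
      · rw [if_pos h2, if_pos ⟨hc, h2⟩]
      · rw [if_neg h2, if_neg (fun h => h2 h.2)]
    · rw [if_neg hc, if_neg hc, if_neg (fun h => hc h.1)]
      simp

end Pool.Agent.Lib.MP_1446ad_nt.SM
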