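import Pool.Agent.Lib.MP_1446ad_nt.SM.SpecK

/-!
# MP_1446ad_nt (sums of two smooth numbers), module SQF: Kloosterman sums for a squarefree modulus
-/

set_option autoImplicit false

namespace Pool.Agent.Lib.MP_1446ad_nt.SM

open Finset
open scoped Classical

namespace SQFM

lemma gcd_unit (a h : ℤ) (u : ℕ) (ha : Int.gcd a u = 1) : Int.gcd (a * h) u = Int.gcd h u := by
  rw [Int.gcd_def, Int.natAbs_natCast] at ha
  rw [Int.gcd_def, Int.gcd_def, Int.natAbs_mul, Int.natAbs_natCast]
  exact Nat.Coprime.gcd_mul_left_cancel _ ha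

lemma gcd_split (h : ℤ) (u v : ℕ) (huv : Nat.Coprime u v) :
    Int.gcd h ((u * v : ℕ) : ℤ) = Int.gcd h u * Int.gcd h v := by
  rw [Int.gcd_def, Int.gcd_def, Int.gcd_def, Int.natAbs_natCast, Int.natAbs_natCast,
    Int.natAbs_natCast]
  exact Nat.Coprime.gcd_mul _ huv

lemma tau_split (u v : ℕ) (huv : Nat.Coprime u v) : tau (u * v) = tau u * tau v := by
  unfold tau
  rw [Nat.Coprime.card_divisors_mul huv]
  push_cast
  ring

lemma tau_prime (p : ℕ) (hp : p.Prime) : tau p = 2 := by
  unfold tau
  rw [hp.divisors, Finset.card_pair hp.one_lt.ne]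
  norm_num

end SQFM

open SQFM in
/-- Squarefree modulus. -/
theorem specSQF (hKPR : SpecKPR) (hKMU : SpecKMU) : SpecSQF := by
  have key : ∀ n : ℕ, ∀ (u : ℕ) [NeZero u], u ≤ n → Squarefree u → ∀ c h k : ℤ,
      ‖kc u c h k‖ ≤ tau u * √(u : ℝ) * √(Int.gcd h u : ℝ) * √(Int.gcd c u : ℝ) := by
    intro n
    induction n with
    | zero =>
      intro u hu hle
      exact absurd (Nat.le_zero.mp hle) hu.out
    | succ n ih =>
      intro u hu hle hsq c h k
      by_cases h1 : u = 1
      · subst h1
        have e1 : kc 1 c h k = 1 := by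
          have e0 : (hu : NeZero 1) = ⟨one_ne_zero⟩ := rfl
          unfold kc
          rw [Fintype.sum_subsingleton _ (0 : ZMod 1), Fintype.sum_subsingleton _ (0 : ZMod 1),
            if_pos (Subsingleton.elim _ _)]
          have : ((h : ZMod 1) * 0 + (k : ZMod 1) * 0) = 0 := Subsingleton.elim _ _
          rw [this, AddChar.map_zero_eq_one]
        rw [e1]
        simp [tau]
      · obtain ⟨p, hp, hpu⟩ := Nat.exists_prime_and_dvd h1
        obtain ⟨v, rfl⟩ := hpu
        have hv0 : v ≠ 0 := by
          rintro rfl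
          exact hu.out (mul_zero p)
        have hp0 : NeZero p := ⟨hp.ne_zero⟩
        have hv1 : NeZero v := ⟨hv0⟩
        obtain ⟨hcop, hsp, hsv⟩ := (Nat.squarefree_mul_iff).mp hsq
        have hvn : v ≤ n := by
          have h2 := hp.two_le
          have h3 : 2 * v ≤ p * v := Nat.mul_le_mul_right v h2
          have h4 : 0 < v := Nat.pos_of_ne_zero hv0
          omega
        obtain ⟨a, b, ha, hb, hab⟩ := hKMU p v hcop c h k
        rw [hab, norm_mul, tau_split p v hcop, tau_prime p hp, gcd_split h p v hcop,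
          gcd_split c p v hcop]
        have e1 := hKPR p hp c (a * h) (a * k)
        have e2 := ih v hvn hsv c (b * h) (b * k)
        rw [gcd_unit a h p ha] at e1
        rw [gcd_unit b h v hb] at e2
        push_cast
        rw [Real.sqrt_mul (by positivity), Real.sqrt_mul (by positivity),
          Real.sqrt_mul (by positivity)]
        calc ‖kc p c (a * h) (a * k)‖ * ‖kc v c (b * h) (b * k)‖
            ≤ (2 * √(p : ℝ) * √(Int.gcd h p : ℝ) * √(Int.gcd c p : ℝ)) *
              (tau v * √(v : ℝ) * √(Int.gcd h v : ℝ) * √(Int.gcd c v : ℝ)) :=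
              mul_le_mul e1 e2 (norm_nonneg _) (by positivity)
          _ = _ := by ring
  intro u hu hsq c h k
  exact key u u le_rfl hsq c h k

end Pool.Agent.Lib.MP_1446ad_nt.SM
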