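import Pool.Agent.Lib.MP_1446ad_nt.SM.SpecW

/-!
# MP_1446ad_nt, part W: module STP, Stepanov's argument
-/

set_option autoImplicit false
set_option linter.unusedSectionVars false

namespace Pool.Agent.Lib.MP_1446ad_nt.SM.STPM

open Polynomial
open scoped Classical

section poly

variable {F : Type} [Field F] (p s : ℕ) (V W : F[X])

/-- the basic terms -/
noncomputable def hterm (n : ℕ) : F[X] :=
  X ^ (n % s + p * s * (n / s / p)) * V ^ (n / s % p) * X ^ (s * (p - 1 - n / s % p))

noncomputable def dterm (n : ℕ) : F[X] :=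
  X ^ (p * s * (n % s) + n / s / p) * W ^ (n / s % p) * X ^ (s * (p - 1 - n / s % p))

lemma decomp (n : ℕ) : n % s + s * (n / s % p) + p * s * (n / s / p) = n := by
  have h1 := Nat.mod_add_div n s
  have h2 := Nat.mod_add_div (n / s) p
  calc n % s + s * (n / s % p) + p * s * (n / s / p)
      = n % s + s * (n / s % p + p * (n / s / p)) := by ring
    _ = n := by rw [h2, h1]

lemma hterm_natDegree (hp : 0 < p) (hV : V.natDegree = 2 * s) (hV0 : V ≠ 0) (n : ℕ) :
    (hterm p s V n).natDegree = n + s * (p - 1) := by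
  unfold hterm
  have hX : ∀ m : ℕ, (X ^ m : F[X]) ≠ 0 := fun m => pow_ne_zero m X_ne_zero
  rw [natDegree_mul (mul_ne_zero (hX _) (pow_ne_zero _ hV0)) (hX _),
    natDegree_mul (hX _) (pow_ne_zero _ hV0), natDegree_X_pow, natDegree_X_pow, natDegree_pow, hV]
  have hk : n / s % p ≤ p - 1 := by
    have := Nat.mod_lt (n / s) hp
    omega
  obtain ⟨m, hm⟩ : ∃ m, p - 1 = n / s % p + m := ⟨p - 1 - n / s % p, by omega⟩
  have hm' : p - 1 - n / s % p = m := by omega
  rw [hm', hm]
  have h1 := decomp p s n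
  calc n % s + p * s * (n / s / p) + n / s % p * (2 * s) + s * m
      = (n % s + s * (n / s % p) + p * s * (n / s / p)) + s * (n / s % p + m) := by ring
    _ = n + s * (n / s % p + m) := by rw [h1]

lemma hterm_leading (n : ℕ) : (hterm p s V n).leadingCoeff = V.leadingCoeff ^ (n / s % p) := by
  unfold hterm
  simp only [leadingCoeff_mul, leadingCoeff_pow, leadingCoeff_X, one_pow, one_mul, mul_one]

lemma dterm_natDegree (hp : 0 < p) (hs : 0 < s) (hW : W.natDegree ≤ 2 * s) {N n : ℕ}
    (hn : n < p * s * N) :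
    (dterm p s W n).natDegree + 1 + p * s ≤ p * s * s + N + s * (p - 1) + s * (p - 1) := by
  unfold dterm
  have h1 : (X ^ (p * s * (n % s) + n / s / p) * W ^ (n / s % p) *
      X ^ (s * (p - 1 - n / s % p)) : F[X]).natDegree ≤
      (p * s * (n % s) + n / s / p) + (n / s % p) * (2 * s) + s * (p - 1 - n / s % p) := by
    refine natDegree_mul_le.trans ?_
    refine Nat.add_le_add (natDegree_mul_le.trans (Nat.add_le_add ?_ ?_)) ?_
    · exact natDegree_X_pow_le _
    · exact natDegree_pow_le.trans (Nat.mul_le_mul_left _ hW)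
    · exact natDegree_X_pow_le _
  have hk : n / s % p ≤ p - 1 := by
    have := Nat.mod_lt (n / s) hp
    omega
  obtain ⟨m, hm⟩ : ∃ m, p - 1 = n / s % p + m := ⟨p - 1 - n / s % p, by omega⟩
  have hm' : p - 1 - n / s % p = m := by omega
  have h2 : (n / s % p) * (2 * s) + s * (p - 1 - n / s % p) =
      s * (p - 1) + s * (n / s % p) := by
    rw [hm', hm]; ring
  have h3 : s * (n / s % p) ≤ s * (p - 1) := Nat.mul_le_mul_left _ hk
  have h4 : n % s + 1 ≤ s := Nat.mod_lt n hs
  have h5 : p * s * (n % s + 1) ≤ p * s * s := Nat.mul_le_mul_left _ h4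
  have h6 : n / s / p < N := by
    rw [Nat.div_div_eq_div_mul]
    apply Nat.div_lt_of_lt_mul
    rwa [mul_comm s p]
  have h7 : p * s * (n % s + 1) = p * s * (n % s) + p * s := by ring
  omega

lemma combo_ne (hp : 0 < p) (hV : V.natDegree = 2 * s) (hV0 : V ≠ 0) {M : ℕ} (c : Fin M → F)
    (hc : c ≠ 0) : ∑ n : Fin M, C (c n) * hterm p s V n ≠ 0 := by
  intro h
  have hne : (Finset.univ.filter (fun n : Fin M => c n ≠ 0)).Nonempty := by
    by_contra hcon
    rw [Finset.not_nonempty_iff_eq_empty] at hcon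
    apply hc
    ext n
    by_contra hn
    have : n ∈ Finset.univ.filter (fun n : Fin M => c n ≠ 0) := by simpa using hn
    rw [hcon] at this
    simp at this
  obtain ⟨n0, hn0, hmax⟩ := Finset.exists_max_image _ (fun n : Fin M => (n : ℕ)) hne
  rw [Finset.mem_filter] at hn0
  have h1 := congrArg (fun q : F[X] => q.coeff ((n0 : ℕ) + s * (p - 1))) h
  simp only [finsetSum_coeff, coeff_C_mul, coeff_zero] at h1
  rw [Finset.sum_eq_single n0] at h1
  · have h2 : (hterm p s V n0).coeff ((n0 : ℕ) + s * (p - 1)) = V.leadingCoeff ^ ((n0 : ℕ) / s % p) := by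
      rw [← hterm_natDegree p s V hp hV hV0, ← hterm_leading p s V n0]
      rfl
    rw [h2] at h1
    exact mul_ne_zero hn0.2 (pow_ne_zero _ (leadingCoeff_ne_zero.2 hV0)) h1
  · intro n _ hn
    by_cases hcn : c n = 0
    · rw [hcn, zero_mul]
    · have h3 : (n : ℕ) ≤ (n0 : ℕ) := hmax n (by simpa using hcn)
      have h4 : (n : ℕ) ≠ (n0 : ℕ) := fun h => hn (Fin.ext h)
      rw [coeff_eq_zero_of_natDegree_lt, mul_zero]
      rw [hterm_natDegree p s V hp hV hV0]
      omega
  · intro hn
    exact absurd (Finset.mem_univ _) hn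

end poly

section field

variable (p : ℕ) [Fact p.Prime] {K : Type} [Field K] [Fintype K] [Algebra (ZMod p) K] (e : ℕ)
  (a b j : ZMod p)

/-- the polynomial `V` -/
noncomputable def VV : (ZMod p)[X] :=
  ∑ i ∈ Finset.range e, (C a * X ^ (p ^ (e - 1) + p ^ i) + C b * X ^ (p ^ (e - 1) - p ^ i))

lemma VV_natDegree_le (he : 1 ≤ e) : (VV p e a b).natDegree ≤ 2 * p ^ (e - 1) := by
  unfold VV
  apply natDegree_sum_le_of_forall_le
  intro i hi
  rw [Finset.mem_range] at hi
  have hp := (Fact.out : p.Prime).pos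
  have hpi : p ^ i ≤ p ^ (e - 1) := Nat.pow_le_pow_right hp (by omega)
  refine natDegree_add_le_of_degree_le ?_ ?_
  · refine (natDegree_C_mul_X_pow_le _ _).trans ?_
    omega
  · refine (natDegree_C_mul_X_pow_le _ _).trans ?_
    omega

lemma VV_coeff (he : 1 ≤ e) : (VV p e a b).coeff (2 * p ^ (e - 1)) = a := by
  unfold VV
  have hp := (Fact.out : p.Prime)
  rw [finsetSum_coeff, Finset.sum_eq_single (e - 1)]
  · rw [coeff_add, coeff_C_mul_X_pow, coeff_C_mul_X_pow, if_pos (by ring), if_neg, add_zero]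
    have := Nat.pow_pos (n := e - 1) hp.pos
    omega
  · intro i hi hne
    rw [Finset.mem_range] at hi
    have h1 : p ^ i < p ^ (e - 1) := Nat.pow_lt_pow_right hp.one_lt (by omega)
    rw [coeff_add, coeff_C_mul_X_pow, coeff_C_mul_X_pow, if_neg (by omega), if_neg (by omega),
      add_zero]
  · intro h
    exact absurd (Finset.mem_range.2 (by omega)) h

lemma VV_ne (he : 1 ≤ e) (ha : a ≠ 0) : VV p e a b ≠ 0 := by
  intro h
  have := VV_coeff p e a b he
  rw [h, coeff_zero] at this
  exact ha this.symm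

lemma VV_natDegree (he : 1 ≤ e) (ha : a ≠ 0) : (VV p e a b).natDegree = 2 * p ^ (e - 1) := by
  apply le_antisymm (VV_natDegree_le p e a b he)
  apply le_natDegree_of_ne_zero
  rw [VV_coeff p e a b he]
  exact ha

lemma charK : CharP K p := by
  exact charP_of_injective_algebraMap (algebraMap (ZMod p) K).injective p

/-- the value `U` -/
noncomputable def UU (x : K) : K := ∑ i ∈ Finset.range e,
  (algebraMap (ZMod p) K a * x + algebraMap (ZMod p) K b * x⁻¹) ^ p ^ i

lemma trace_UU (hcard : Fintype.card K = p ^ (2 * e)) (x : K) :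
    algebraMap (ZMod p) K (Algebra.trace (ZMod p) K
      (algebraMap (ZMod p) K a * x + algebraMap (ZMod p) K b * x⁻¹)) =
      UU p e a b x + UU p e a b x ^ p ^ e := by
  have hp := (Fact.out : p.Prime)
  have : CharP K p := charK p
  have hfin : Module.finrank (ZMod p) K = 2 * e := by
    have h1 := Module.card_eq_pow_finrank (K := ZMod p) (V := K)
    rw [hcard, ZMod.card] at h1
    exact (Nat.pow_right_injective hp.two_le h1).symm
  rw [FiniteField.algebraMap_trace_eq_sum_pow, hfin, Nat.card_zmod]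
  unfold UU
  rw [sum_pow_char_pow, two_mul, Finset.sum_range_add]
  congr 1
  apply Finset.sum_congr rfl
  intro i _
  rw [← pow_mul, ← pow_add, add_comm e i]

lemma aeval_VV (he : 1 ≤ e) (x : K) (hx : x ≠ 0) :
    aeval x (VV p e a b) = x ^ p ^ (e - 1) * UU p e a b x := by
  have : CharP K p := charK p
  have hp := (Fact.out : p.Prime)
  unfold VV UU
  rw [map_sum, Finset.mul_sum]
  apply Finset.sum_congr rfl
  intro i hi
  rw [Finset.mem_range] at hi
  have hpi : p ^ i ≤ p ^ (e - 1) := Nat.pow_le_pow_right hp.pos (by omega)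
  rw [add_pow_char_pow, mul_pow, mul_pow, ← map_pow, ← map_pow, ZMod.pow_card_pow,
    ZMod.pow_card_pow]
  simp only [map_add, map_mul, map_pow, aeval_X, aeval_C]
  obtain ⟨m, hm⟩ := Nat.exists_eq_add_of_le hpi
  have hm' : p ^ (e - 1) - p ^ i = m := by omega
  rw [hm', hm, pow_add, inv_pow, pow_add]
  field_simp

lemma aeval_h (he : 1 ≤ e) (x : K) (hx : x ≠ 0) (c : ZMod p) (n : ℕ) :
    aeval x (C c * hterm p (p ^ (e - 1)) (VV p e a b) n) = x ^ (p ^ (e - 1) * (p - 1)) *
      (algebraMap (ZMod p) K c * x ^ (n % p ^ (e - 1) + p * p ^ (e - 1) * (n / p ^ (e - 1) / p)) *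
        UU p e a b x ^ (n / p ^ (e - 1) % p)) := by
  have hp := (Fact.out : p.Prime)
  unfold hterm
  simp only [map_mul, map_pow, aeval_X, aeval_C]
  rw [aeval_VV p e a b he x hx]
  have hk : n / p ^ (e - 1) % p ≤ p - 1 := by
    have := Nat.mod_lt (n / p ^ (e - 1)) hp.pos
    omega
  obtain ⟨m, hm⟩ : ∃ m, p - 1 = n / p ^ (e - 1) % p + m := ⟨p - 1 - n / p ^ (e - 1) % p, by omega⟩
  have hm' : p - 1 - n / p ^ (e - 1) % p = m := by omega
  rw [hm', hm]
  ring

lemma aeval_d (he : 1 ≤ e) (hcard : Fintype.card K = p ^ (2 * e)) (x : K) (hx : x ≠ 0)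
    (hU : UU p e a b x ^ p ^ e = algebraMap (ZMod p) K j - UU p e a b x) (c : ZMod p) (n : ℕ) :
    aeval x (C c * dterm p (p ^ (e - 1)) (C j * X ^ p ^ (e - 1) - VV p e a b) n) =
      x ^ (p ^ (e - 1) * (p - 1)) *
      (algebraMap (ZMod p) K c * x ^ (n % p ^ (e - 1) + p * p ^ (e - 1) * (n / p ^ (e - 1) / p)) *
        UU p e a b x ^ (n / p ^ (e - 1) % p)) ^ p ^ e := by
  have hp := (Fact.out : p.Prime)
  have hr : p * p ^ (e - 1) = p ^ e := by
    rw [← pow_succ']
    congr 1
    omega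
  unfold dterm
  rw [mul_pow, mul_pow, ← pow_mul (UU p e a b x), mul_comm (n / p ^ (e - 1) % p) (p ^ e),
    pow_mul (UU p e a b x), hU, ← map_pow, ZMod.pow_card_pow, hr]
  have hx2 : (x ^ (n % p ^ (e - 1) + p ^ e * (n / p ^ (e - 1) / p))) ^ p ^ e =
      x ^ (p ^ e * (n % p ^ (e - 1)) + n / p ^ (e - 1) / p) := by
    have h1 : x ^ (p ^ e * p ^ e) = x := by
      rw [← pow_add, ← two_mul, ← hcard]
      exact FiniteField.pow_card x
    rw [← pow_mul]
    calc x ^ ((n % p ^ (e - 1) + p ^ e * (n / p ^ (e - 1) / p)) * p ^ e)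
        = x ^ (p ^ e * (n % p ^ (e - 1))) * (x ^ (p ^ e * p ^ e)) ^ (n / p ^ (e - 1) / p) := by
          rw [← pow_mul, ← pow_add]
          congr 1
          ring
      _ = _ := by rw [h1, pow_add]
  rw [hx2]
  simp only [map_mul, map_pow, map_sub, aeval_X, aeval_C]
  rw [aeval_VV p e a b he x hx]
  have hk : n / p ^ (e - 1) % p ≤ p - 1 := by
    have := Nat.mod_lt (n / p ^ (e - 1)) hp.pos
    omega
  obtain ⟨m, hm⟩ : ∃ m, p - 1 = n / p ^ (e - 1) % p + m := ⟨p - 1 - n / p ^ (e - 1) % p, by omega⟩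
  have hm' : p - 1 - n / p ^ (e - 1) % p = m := by omega
  have h3 : algebraMap (ZMod p) K j * x ^ p ^ (e - 1) - x ^ p ^ (e - 1) * UU p e a b x =
      x ^ p ^ (e - 1) * (algebraMap (ZMod p) K j - UU p e a b x) := by ring
  rw [hm', hm, h3, mul_pow]
  ring

/-- the linear map whose kernel is used -/
noncomputable def LL (s M : ℕ) (W : (ZMod p)[X]) :
    (Fin M → ZMod p) →ₗ[ZMod p] (Fin (M - 1) → ZMod p) where
  toFun c := fun t => (∑ n : Fin M, C (c n) * dterm p s W n).coeff t
  map_add' c c' := by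
    ext t
    simp [add_mul, Finset.sum_add_distrib]
  map_smul' l c := by
    ext t
    simp [Finset.mul_sum, mul_assoc]

end field

theorem specSTP : SpecSTP := by
  intro p _ K _ _ _ e a b j hp2 he hcard ha
  have hp := (Fact.out : p.Prime)
  have hp3 : 3 ≤ p := by
    have := hp.two_le
    omega
  obtain ⟨s, hs⟩ : ∃ s, s = p ^ (e - 1) := ⟨_, rfl⟩
  have hs0 : 0 < s := by rw [hs]; exact Nat.pow_pos hp.pos
  have hr : p * s = p ^ e := by
    rw [hs, ← pow_succ']
    congr 1
    omega
  obtain ⟨W, hW⟩ : ∃ W, W = C j * X ^ s - VV p e a b := ⟨_, rfl⟩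
  have hVdeg : (VV p e a b).natDegree = 2 * s := by rw [hs]; exact VV_natDegree p e a b he ha
  have hV0 := VV_ne p e a b he ha
  have hWdeg : W.natDegree ≤ 2 * s := by
    rw [hW]
    refine (natDegree_sub_le _ _).trans ?_
    rw [hVdeg]
    refine max_le ?_ le_rfl
    exact (natDegree_C_mul_X_pow_le _ _).trans (by omega)
  obtain ⟨M, hM⟩ : ∃ M, M = p * s * (s + 3) := ⟨_, rfl⟩
  have hps : 3 * s ≤ p * s := Nat.mul_le_mul_right s hp3
  have hMexp : M = p * s * s + 3 * (p * s) := by rw [hM]; ring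
  have hM0 : 0 < M := by
    rw [hMexp]
    omega
  -- the kernel
  have hker : LinearMap.ker (LL p s M W) ≠ ⊥ := by
    apply LinearMap.ker_ne_bot_of_finrank_lt
    rw [Module.finrank_fin_fun, Module.finrank_fin_fun]
    omega
  obtain ⟨c, hc, hc0⟩ := Submodule.exists_mem_ne_zero_of_ne_bot hker
  have hspp : s * (p - 1) + s = p * s := by
    obtain ⟨p', hp'⟩ : ∃ p', p = p' + 1 := ⟨p - 1, by omega⟩
    rw [hp']
    simp only [Nat.add_sub_cancel]
    ring
  have hδ : ∑ n : Fin M, C (c n) * dterm p s W n = 0 := by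
    ext t
    rw [coeff_zero]
    by_cases ht : t < M - 1
    · have := congrFun (LinearMap.mem_ker.1 hc) ⟨t, ht⟩
      exact this
    · apply coeff_eq_zero_of_natDegree_lt
      refine lt_of_le_of_lt (natDegree_sum_le_of_forall_le (n := M - 2) _ _ ?_) (by omega)
      intro n _
      refine (natDegree_C_mul_le _ _).trans ?_
      have h1 := dterm_natDegree p s W hp.pos hs0 hWdeg (N := s + 3) (n := n)
        (by rw [← hM]; exact n.2)
      omega
  have hh := combo_ne p s (VV p e a b) hp.pos hVdeg hV0 c hc0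
  -- the set is contained in the root set
  have hsub : {x : K | x ≠ 0 ∧ Algebra.trace (ZMod p) K
      (algebraMap (ZMod p) K a * x + algebraMap (ZMod p) K b * x⁻¹) = j} ⊆
      (∑ n : Fin M, C (c n) * hterm p s (VV p e a b) n).rootSet K := by
    rintro x ⟨hx, htr⟩
    rw [mem_rootSet]
    refine ⟨hh, ?_⟩
    have : CharP K p := charK p
    have hU : UU p e a b x ^ p ^ e = algebraMap (ZMod p) K j - UU p e a b x := by
      have h1 := trace_UU p e a b hcard x
      rw [htr] at h1
      linear_combination -h1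
    have h1 := congrArg (aeval x) hδ
    rw [map_sum, map_zero] at h1
    rw [hW, hs] at h1
    simp only [aeval_d p e a b j he hcard x hx hU] at h1
    rw [← Finset.mul_sum, ← sum_pow_char_pow] at h1
    have h2 := (mul_eq_zero.1 h1).resolve_left (pow_ne_zero _ hx)
    have h3 := pow_eq_zero_iff (Nat.pow_pos hp.pos).ne' |>.1 h2
    rw [map_sum, hs]
    simp only [aeval_h p e a b he x hx]
    rw [← Finset.mul_sum, h3, mul_zero]
  have hroot := ncard_rootSet_le (∑ n : Fin M, C (c n) * hterm p s (VV p e a b) n) K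
  have hdeg : (∑ n : Fin M, C (c n) * hterm p s (VV p e a b) n).natDegree ≤
      M - 1 + s * (p - 1) := by
    apply natDegree_sum_le_of_forall_le
    intro n _
    refine (natDegree_C_mul_le _ _).trans ?_
    rw [hterm_natDegree p s _ hp.pos hVdeg hV0]
    have := n.2
    omega
  have hss : p * s * s = p ^ (2 * e - 1) := by
    rw [hr, hs, ← pow_add]
    congr 1
    omega
  calc _ ≤ ((∑ n : Fin M, C (c n) * hterm p s (VV p e a b) n).rootSet K).ncard :=
        Set.ncard_le_ncard hsub (Set.toFinite _)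
    _ ≤ M - 1 + s * (p - 1) := hroot.trans hdeg
    _ ≤ p ^ (2 * e - 1) + 4 * p ^ e := by
        rw [← hss, ← hr]
        omega

end Pool.Agent.Lib.MP_1446ad_nt.SM.STPM

namespace Pool.Agent.Lib.MP_1446ad_nt.SM

theorem specSTP : SpecSTP := STPM.specSTP

end Pool.Agent.Lib.MP_1446ad_nt.SM
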