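import Pool.Agent.Lib.MP_1446ad_nt.SM.SpecF

/-!
# THA: the theorem for `n` itself
-/

set_option autoImplicit false

namespace Pool.Agent.Lib.MP_1446ad_nt.SM

open Finset Filter
open scoped Classical

namespace THAM

lemma ev_pow {κ : ℝ} (hκ : 0 < κ) (C : ℝ) : ∀ᶠ n : ℕ in atTop, C ≤ (n : ℝ) ^ κ :=
  ((tendsto_rpow_atTop hκ).comp tendsto_natCast_atTop_atTop).eventually_ge_atTop C

lemma ev_log {r : ℝ} (hr : 0 < r) : ∀ᶠ n : ℕ in atTop, Real.log n ≤ (n : ℝ) ^ r := by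
  have h := (isLittleO_log_rpow_atTop hr).bound (show (0 : ℝ) < 1 by norm_num)
  have h2 := tendsto_natCast_atTop_atTop (R := ℝ) |>.eventually h
  filter_upwards [h2, eventually_ge_atTop 1] with n hn h1
  have h3 : (1 : ℝ) ≤ n := by exact_mod_cast h1
  rw [one_mul, Real.norm_of_nonneg (Real.log_nonneg h3),
    Real.norm_of_nonneg (Real.rpow_nonneg (by linarith) _)] at hn
  exact hn

/-- the final numerical comparison -/
lemma ev_fin {d c : ℝ} (hd : 0 < d) (hc : 0 < c) : ∀ᶠ n : ℕ in atTop,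
    3 * (n : ℝ) ^ (1 - d / 5) < c * n / (Real.log n) ^ 10 := by
  filter_upwards [ev_log (show 0 < d / 60 by positivity), ev_pow (show 0 < d / 30 by positivity) (4 / c),
    eventually_ge_atTop 3] with n h1 h2 h3
  have hn : (3 : ℝ) ≤ n := by exact_mod_cast h3
  have hn0 : (0 : ℝ) < n := by linarith
  have hl : 0 < Real.log n := Real.log_pos (by linarith)
  have h4 : (Real.log n) ^ 10 ≤ (n : ℝ) ^ (d / 6) := by
    calc (Real.log n) ^ 10 ≤ ((n : ℝ) ^ (d / 60)) ^ 10 := pow_le_pow_left₀ hl.le h1 10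
      _ = (n : ℝ) ^ (d / 6) := by
          rw [← Real.rpow_natCast, ← Real.rpow_mul hn0.le]
          congr 1
          push_cast
          ring
  rw [lt_div_iff₀ (by positivity)]
  have h5 : (n : ℝ) ^ (1 - d / 5) * (n : ℝ) ^ (d / 6) * (n : ℝ) ^ (d / 30) = n := by
    rw [← Real.rpow_add hn0, ← Real.rpow_add hn0]
    rw [show 1 - d / 5 + d / 6 + d / 30 = 1 by ring, Real.rpow_one]
  have h6 : 0 < (n : ℝ) ^ (1 - d / 5) * (n : ℝ) ^ (d / 6) := by positivity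
  have h7 : 3 * (n : ℝ) ^ (1 - d / 5) * (Real.log n) ^ 10 ≤
      3 * ((n : ℝ) ^ (1 - d / 5) * (n : ℝ) ^ (d / 6)) := by
    have := mul_le_mul_of_nonneg_left h4 (show 0 ≤ 3 * (n : ℝ) ^ (1 - d / 5) by positivity)
    linarith
  have h8 : 4 / c * ((n : ℝ) ^ (1 - d / 5) * (n : ℝ) ^ (d / 6)) ≤ n := by
    calc 4 / c * ((n : ℝ) ^ (1 - d / 5) * (n : ℝ) ^ (d / 6)) ≤
        (n : ℝ) ^ (d / 30) * ((n : ℝ) ^ (1 - d / 5) * (n : ℝ) ^ (d / 6)) :=
          mul_le_mul_of_nonneg_right h2 h6.le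
      _ = n := by rw [mul_comm]; exact h5
  have h9 : 4 * ((n : ℝ) ^ (1 - d / 5) * (n : ℝ) ^ (d / 6)) ≤ c * n := by
    have := mul_le_mul_of_nonneg_left h8 hc.le
    rwa [← mul_assoc, mul_div_cancel₀ _ hc.ne'] at this
  linarith

/-- sizes -/
lemma V_lo {d : ℝ} {n M2 Y0 X1 X2 : ℕ} (hn : 0 < n) (h : WN d n M2 Y0 X1 X2) :
    (n : ℝ) ^ (4 / 7 - 10 * d) ≤ (M2 : ℝ) * Y0 * X1 * X2 := by
  have hn0 : (0 : ℝ) < n := by exact_mod_cast hn
  have e : (n : ℝ) ^ (4 / 7 - 10 * d) = (n : ℝ) ^ d * (n : ℝ) ^ (1 / 7 - 9 * d) *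
      (n : ℝ) ^ (3 / 14 - 2 * d) * (n : ℝ) ^ (3 / 14 : ℝ) := by
    rw [← Real.rpow_add hn0, ← Real.rpow_add hn0, ← Real.rpow_add hn0]
    congr 1
    ring
  rw [e]
  have := h.a1.1
  have := h.a2.1
  have := h.a3.1
  have := h.a4.1
  gcongr

lemma V_hi {d : ℝ} {n M2 Y0 X1 X2 : ℕ} (hn : 0 < n) (h : WN d n M2 Y0 X1 X2) :
    (M2 : ℝ) * Y0 * X1 * X2 ≤ 4096 * (n : ℝ) ^ (4 / 7 - 10 * d) := by
  have hn0 : (0 : ℝ) < n := by exact_mod_cast hn
  have e : 4096 * (n : ℝ) ^ (4 / 7 - 10 * d) = (8 * (n : ℝ) ^ d) * (8 * (n : ℝ) ^ (1 / 7 - 9 * d)) *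
      (8 * (n : ℝ) ^ (3 / 14 - 2 * d)) * (8 * (n : ℝ) ^ (3 / 14 : ℝ)) := by
    have : (n : ℝ) ^ (4 / 7 - 10 * d) = (n : ℝ) ^ d * (n : ℝ) ^ (1 / 7 - 9 * d) *
      (n : ℝ) ^ (3 / 14 - 2 * d) * (n : ℝ) ^ (3 / 14 : ℝ) := by
      rw [← Real.rpow_add hn0, ← Real.rpow_add hn0, ← Real.rpow_add hn0]
      congr 1
      ring
    rw [this]
    ring
  rw [e]
  have := h.a1.2
  have := h.a2.2
  have := h.a3.2
  have := h.a4.2
  gcongr

/-- the choice of the parameters -/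
lemma choice {θ : ℝ} (h1 : 3 / (7 * √(Real.exp 1)) < θ) (_h2 : θ < 3 / 7) :
    ∃ d ε : ℝ, 0 < d ∧ d ≤ 1 / 1000 ∧ 0 < ε ∧ ε ≤ 1 / 100 ∧
      Real.log ((3 / 7 + 10 * d) / θ) + ε ≤ 1 / 2 - 3 * ε := by
  have hs : 0 < √(Real.exp 1) := Real.sqrt_pos.2 (Real.exp_pos 1)
  have hθ : 0 < θ := lt_trans (by positivity) h1
  obtain ⟨A, hA⟩ : ∃ A : ℝ, A = Real.log (3 / 7 / θ) := ⟨_, rfl⟩
  have hA2 : A < 1 / 2 := by
    have e : (1 / 2 : ℝ) = Real.log (√(Real.exp 1)) := by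
      rw [Real.log_sqrt (Real.exp_pos 1).le, Real.log_exp]
    rw [hA, e]
    apply Real.log_lt_log (by positivity)
    rw [div_lt_iff₀ hθ]
    rw [div_lt_iff₀ (by positivity)] at h1
    linarith
  obtain ⟨g, hg⟩ : ∃ g : ℝ, g = 1 / 2 - A := ⟨_, rfl⟩
  have hg0 : 0 < g := by rw [hg]; linarith
  refine ⟨min (1 / 1000) (g / 100), min (1 / 100) (g / 16), by positivity, min_le_left _ _,
    by positivity, min_le_left _ _, ?_⟩
  have hd : min (1 / 1000) (g / 100) ≤ g / 100 := min_le_right _ _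
  have hε : min (1 / 100) (g / 16) ≤ g / 16 := min_le_right _ _
  have hdp : 0 < min (1 / 1000) (g / 100) := by positivity
  generalize min (1 / 1000) (g / 100) = d at hd hdp ⊢
  generalize min (1 / 100) (g / 16) = ε at hε ⊢
  have e : Real.log ((3 / 7 + 10 * d) / θ) = A + Real.log (1 + 70 / 3 * d) := by
    rw [hA, ← Real.log_mul (by positivity) (by positivity)]
    congr 1
    field_simp
    ring
  have hl : Real.log (1 + 70 / 3 * d) ≤ 70 / 3 * d := by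
    have := Real.log_le_sub_one_of_pos (show 0 < 1 + 70 / 3 * d by positivity)
    linarith
  rw [e]
  have : A = 1 / 2 - g := by rw [hg]; ring
  linarith

lemma theta_lo {θ : ℝ} (h1 : 3 / (7 * √(Real.exp 1)) < θ) : 1 / 4 < θ := by
  refine lt_trans ?_ h1
  have hs : √(Real.exp 1) < 12 / 7 := by
    rw [Real.sqrt_lt' (by norm_num)]
    have := Real.exp_one_lt_d9
    norm_num at this ⊢
    linarith
  have hs0 : 0 < √(Real.exp 1) := Real.sqrt_pos.2 (Real.exp_pos 1)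
  rw [div_lt_div_iff₀ (by norm_num) (by positivity)]
  linarith

lemma alg1 {V L : ℝ} (hV : V ≠ 0) (hL : L ≠ 0) :
    (V / L ^ 5) * (V / L ^ 5) / (2 * V) = V / (2 * L ^ 10) := by
  field_simp

lemma alg2 {V L x e l m : ℝ} (hm : m = 2 * (x * V)) (hL : L ≠ 0) :
    V / (2 * L ^ 10) * (e * l * x) = e * l / 4 * m / L ^ 10 := by
  rw [hm]
  field_simp
  ring

end THAM

set_option maxHeartbeats 4000000 in
open THAM in
theorem specTHA (hWNC : SpecWNC) (hWIN : SpecWIN) (hPRP : SpecPRP) (hNSM : SpecNSM)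
    (hFIN : SpecFIN) : SpecTHA := by
  intro θ h1 h2
  obtain ⟨d, ε, hd, hd1, hε, hε1, hlog⟩ := choice h1 h2
  have hθ4 := theta_lo h1
  obtain ⟨lam, hlam⟩ : ∃ lam : ℝ, lam = 1 / 100 := ⟨_, rfl⟩
  obtain ⟨μ, hμ⟩ : ∃ μ : ℝ, μ = ε * lam := ⟨_, rfl⟩
  obtain ⟨ν, hν⟩ : ∃ ν : ℝ, ν = μ / 8 := ⟨_, rfl⟩
  have hlam0 : 0 < lam := by rw [hlam]; norm_num
  have hμ0 : 0 < μ := by rw [hμ]; positivity
  have hμ1 : μ ≤ 1 / 1000 := by
    rw [hμ, hlam]
    linarith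
  have hν0 : 0 < ν := by rw [hν]; positivity
  have hν1 : ν ≤ 1 / 8 := by rw [hν]; linarith
  have hνμ : (1 + ν) ^ 4 ≤ 1 + μ := by
    have e : μ = 8 * ν := by rw [hν]; ring
    rw [e]
    have h3 : ν ^ 2 ≤ ν / 8 := by nlinarith
    have h4 : ν ^ 3 ≤ ν / 64 := by nlinarith
    have h5 : ν ^ 4 ≤ ν / 512 := by nlinarith
    nlinarith
  have hκθ : θ < 3 / 7 + 10 * d := by linarith
  have hκ1 : 3 / 7 + 10 * d < 1 := by linarith
  obtain ⟨c, hc⟩ : ∃ c : ℝ, c = lam / 16384 := ⟨_, rfl⟩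
  have hc0 : 0 < c := by rw [hc]; positivity
  filter_upwards [hWIN d ν hd hd1 hν0 hν1, hPRP d ν hd hd1 hν0 hν1,
    hWNC d ν lam μ hd hd1 hν0 hν1 hνμ hlam0 (le_of_eq hlam) hμ0 hμ1,
    hNSM θ (3 / 7 + 10 * d) ε c (by linarith) hκθ hκ1 hε hc0,
    ev_fin hd (show 0 < ε * lam / 4 by positivity),
    ev_pow (show 0 < θ - 3 / 14 by linarith) 16,
    ev_pow (show 0 < 3 / 7 + 10 * d by linarith) (16384 * 2 / lam),
    ev_pow (show 0 < 3 / 7 + 10 * d by linarith) (8192 * 2 / (3 * ε * lam)),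
    eventually_ge_atTop 3] with n hwin hprp hwnc hnsm hfin h16 hx1 hx2 hn3
  have hn : 0 < n := by omega
  have hn0 : (0 : ℝ) < n := by exact_mod_cast hn
  have hn3' : (3 : ℝ) ≤ n := by exact_mod_cast hn3
  obtain ⟨M2, Y0, X1, X2, hW, hcard⟩ := hwin
  obtain ⟨-, -, -, -, hPV, hPp⟩ := hprp M2 Y0 X1 X2 hW
  obtain ⟨k1, k2, S, S', hk, hS, hk2, hS2, q1, q2, q3, q4, g1, g2, g3, g4, g5⟩ :=
    hwnc M2 Y0 X1 X2 hW
  have hVlo := V_lo hn hW
  have hVhi := V_hi hn hW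
  obtain ⟨V, hV⟩ : ∃ V : ℝ, V = (M2 : ℝ) * Y0 * X1 * X2 := ⟨_, rfl⟩
  rw [← hV] at hVlo hVhi hcard q1 q2 q3 q4
  have hVnat : ((M2 * Y0 * X1 * X2 : ℕ) : ℝ) = V := by rw [hV]; push_cast; ring
  have hV0 : 0 < V := lt_of_lt_of_le (by positivity) hVlo
  obtain ⟨x, hx⟩ : ∃ x : ℝ, x = n / (2 * V) := ⟨_, rfl⟩
  rw [← hx] at q1 q2 q3 q4
  have hxV : x * V = n / 2 := by rw [hx]; field_simp
  have hxlo : (n : ℝ) ^ (3 / 7 + 10 * d) / 8192 ≤ x := by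
    rw [hx, div_le_div_iff₀ (by norm_num) (by positivity)]
    have e : (n : ℝ) ^ (3 / 7 + 10 * d) * (n : ℝ) ^ (4 / 7 - 10 * d) = n := by
      rw [← Real.rpow_add hn0, show 3 / 7 + 10 * d + (4 / 7 - 10 * d) = 1 by ring, Real.rpow_one]
    calc (n : ℝ) ^ (3 / 7 + 10 * d) * (2 * V) ≤
        (n : ℝ) ^ (3 / 7 + 10 * d) * (2 * (4096 * (n : ℝ) ^ (4 / 7 - 10 * d))) := by gcongr
      _ = 8192 * ((n : ℝ) ^ (3 / 7 + 10 * d) * (n : ℝ) ^ (4 / 7 - 10 * d)) := by ring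
      _ = n * 8192 := by rw [e]; ring
  have hx0 : 0 < x := lt_of_lt_of_le (by positivity) hxlo
  obtain ⟨W, hWd⟩ : ∃ W : Finset ℕ, W = PR ν n M2 Y0 X1 X2 := ⟨_, rfl⟩
  rw [← hWd] at hcard hPV hPp g1 g2 g3 g4 g5
  -- lower bounds for the lengths
  have hlen : c * (n : ℝ) ^ (3 / 7 + 10 * d) ≤ lam * x - 2 := by
    have a1 : lam * ((n : ℝ) ^ (3 / 7 + 10 * d) / 8192) ≤ lam * x :=
      mul_le_mul_of_nonneg_left hxlo hlam0.le
    have a2 : 2 ≤ lam * ((n : ℝ) ^ (3 / 7 + 10 * d)) / 16384 := by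
      rw [div_le_iff₀ hlam0] at hx1
      linarith
    rw [hc]
    linarith
  have hlen2 : 2 ≤ 3 * ε * lam * x := by
    have a1 : 8192 * 2 / (3 * ε * lam) / 8192 ≤ x := by
      refine le_trans ?_ hxlo
      gcongr
    have a2 : 8192 * 2 / (3 * ε * lam) / 8192 = 2 / (3 * ε * lam) := by ring
    rw [a2, div_le_iff₀ (by positivity)] at a1
    linarith
  -- the bad sets
  obtain ⟨bad, hbad⟩ : ∃ bad : ℕ → Prop,
      bad = fun k : ℕ => ∃ p : ℕ, p.Prime ∧ p ∣ k ∧ (n : ℝ) ^ θ < p := ⟨_, rfl⟩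
  have hcK : ((Ioc k1 k2).card : ℝ) = (k2 : ℝ) - k1 := by
    rw [Nat.card_Ioc, Nat.cast_sub hk]
  have hcS : ((Ioc S S').card : ℝ) = (S' : ℝ) - S := by
    rw [Nat.card_Ioc, Nat.cast_sub hS]
  have hbK : (((Ioc k1 k2).filter bad).card : ℝ) ≤ (1 / 2 - 3 * ε) * ((k2 : ℝ) - k1) := by
    have := hnsm k1 (k2 - k1) (by rw [Nat.cast_sub hk]; linarith)
      (by rw [Nat.cast_sub hk]; linarith)
    rw [Nat.add_sub_cancel' hk, Nat.cast_sub hk] at this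
    rw [hbad]
    refine this.trans (mul_le_mul_of_nonneg_right hlog ?_)
    have : (k1 : ℝ) ≤ k2 := by exact_mod_cast hk
    linarith
  have hbS : (((Ioc S S').filter bad).card : ℝ) ≤ (1 / 2 - 3 * ε) * ((S' : ℝ) - S) := by
    have := hnsm S (S' - S) (by rw [Nat.cast_sub hS]; linarith)
      (by rw [Nat.cast_sub hS]; linarith)
    rw [Nat.add_sub_cancel' hS, Nat.cast_sub hS] at this
    rw [hbad]
    refine this.trans (mul_le_mul_of_nonneg_right hlog ?_)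
    have : (S : ℝ) ≤ S' := by exact_mod_cast hS
    linarith
  have hB : ε * lam * x ≤ ((Ioc k1 k2).card : ℝ) - ((Ioc k1 k2).filter bad).card -
      ((Ioc S S').filter bad).card := by
    rw [hcK]
    have a1 : (1 / 2 + 3 * ε) * (lam * x - 2) ≤ (1 / 2 + 3 * ε) * ((k2 : ℝ) - k1) :=
      mul_le_mul_of_nonneg_left q1 (by linarith)
    have a2 : (1 / 2 - 3 * ε) * ((S' : ℝ) - S) ≤ (1 / 2 - 3 * ε) * ((lam + 4 * μ) * x + 2) :=
      mul_le_mul_of_nonneg_left q4 (by linarith)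
    have a3 : (1 / 2 + 3 * ε) * (lam * x - 2) - (1 / 2 - 3 * ε) * ((lam + 4 * μ) * x + 2) =
        6 * ε * lam * x - 2 * μ * x + 12 * ε * μ * x - 2 := by ring
    have a4 : 0 ≤ 12 * ε * μ * x := by positivity
    have a5 : 2 * μ * x = 2 * ε * lam * x := by rw [hμ]; ring
    linarith
  -- the main factor
  have hlogn : 0 < Real.log n := Real.log_pos (by linarith)
  have h1V : ∀ r ∈ W, 0 < r ∧ 1 / (2 * V) ≤ 1 / (r : ℝ) := by
    intro r hr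
    obtain ⟨b1, b2⟩ := hPV r hr
    have hr0 : 0 < r := by omega
    refine ⟨hr0, ?_⟩
    have hr0' : (0 : ℝ) < r := by exact_mod_cast hr0
    apply one_div_le_one_div_of_le hr0'
    rw [← hV] at b2
    refine b2.trans ?_
    have : (1 + ν) ^ 4 ≤ 2 := by linarith
    exact mul_le_mul_of_nonneg_right this hV0.le
  have hsum : (W.card : ℝ) / (2 * V) ≤ ∑ r ∈ W, 1 / (r : ℝ) := by
    have := Finset.card_nsmul_le_sum W (fun r : ℕ => 1 / (r : ℝ)) (1 / (2 * V))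
      (fun r hr => (h1V r hr).2)
    rw [nsmul_eq_mul] at this
    rw [div_eq_mul_one_div]
    exact this
  have hWc0 : 0 ≤ (W.card : ℝ) := Nat.cast_nonneg _
  have hL : V / (2 * Real.log n ^ 10) ≤ (W.card : ℝ) * ∑ r ∈ W, 1 / (r : ℝ) := by
    have a1 : (V / Real.log n ^ 5) * (V / Real.log n ^ 5) / (2 * V) ≤
        (W.card : ℝ) * ((W.card : ℝ) / (2 * V)) := by
      rw [mul_div_assoc]
      gcongr
    have a2 := alg1 hV0.ne' hlogn.ne'
    rw [a2] at a1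
    exact a1.trans (mul_le_mul_of_nonneg_left hsum hWc0)
  have hfinal : 3 * (n : ℝ) ^ (1 - d / 5) < ((W.card : ℝ) * ∑ r ∈ W, 1 / (r : ℝ)) *
      (((Ioc k1 k2).card : ℝ) - ((Ioc k1 k2).filter bad).card -
      ((Ioc S S').filter bad).card) := by
    refine lt_of_lt_of_le hfin ?_
    have a1 : V / (2 * Real.log n ^ 10) * (ε * lam * x) =
        ε * lam / 4 * n / Real.log n ^ 10 :=
      alg2 (show (n : ℝ) = 2 * (x * V) by rw [hxV]; ring) hlogn.ne'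
    rw [← a1]
    apply mul_le_mul hL hB (by positivity)
    exact le_trans (by positivity) hL
  obtain ⟨k, hkK, s, hsS, m, hm, r, hr, hnk, hns, hsum⟩ :=
    hFIN n (Ioc k1 k2) (Ioc S S') W ((n : ℝ) ^ (1 - d / 5)) bad (fun r hr => (h1V r hr).1) g1 g2 g3
      g4 g5 hfinal
  have hsmall : ∀ r ∈ W, ∀ p : ℕ, p.Prime → p ∣ r → (p : ℝ) ≤ (n : ℝ) ^ θ := by
    intro r hr p hp hpr
    refine (hPp r hr p hp hpr).2.2.trans ?_
    calc 16 * (n : ℝ) ^ (3 / 14 : ℝ) ≤ (n : ℝ) ^ (θ - 3 / 14) * (n : ℝ) ^ (3 / 14 : ℝ) := by gcongr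
      _ = (n : ℝ) ^ θ := by
          rw [← Real.rpow_add hn0]
          congr 1
          ring
  have hgood : ∀ k : ℕ, ¬ bad k → ∀ p : ℕ, p.Prime → p ∣ k → (p : ℝ) ≤ (n : ℝ) ^ θ := by
    intro k hk p hp hpk
    rw [hbad] at hk
    push Not at hk
    exact hk p hp hpk
  rw [mem_Ioc] at hkK hsS
  refine ⟨k * m, r * s, Nat.mul_pos (by omega) (h1V m hm).1, Nat.mul_pos (h1V r hr).1 (by omega),
    hsum, ?_, ?_⟩
  · intro p hp hpk
    rcases (hp.dvd_mul).1 hpk with h | h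
    · exact hgood k hnk p hp h
    · exact hsmall m hm p hp h
  · intro p hp hpk
    rcases (hp.dvd_mul).1 hpk with h | h
    · exact hsmall r hr p hp h
    · exact hgood s hns p hp h

end Pool.Agent.Lib.MP_1446ad_nt.SM
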