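import Pool.Agent.Lib.MP_1446ad_nt.SM.SpecF

set_option autoImplicit false

namespace Pool.Agent.Lib.MP_1446ad_nt.SM

open Finset Filter
open scoped Classical

namespace THBM

/-- there is an exponent between the threshold and `min ε (3/7)` -/
theorem exists_theta {ε : ℝ} (h : 3 / (7 * √(Real.exp 1)) < ε) :
    ∃ θ : ℝ, 3 / (7 * √(Real.exp 1)) < θ ∧ θ < 3 / 7 ∧ θ ≤ ε := by
  have h1 : 1 < √(Real.exp 1) := by
    rw [Real.lt_sqrt (by norm_num)]
    have := Real.exp_one_gt_d9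
    linarith
  have h2 : 3 / (7 * √(Real.exp 1)) < 3 / 7 := by
    apply div_lt_div_of_pos_left (by norm_num) (by norm_num)
    linarith
  obtain ⟨θ, h3, h4⟩ := exists_between (lt_min h h2)
  exact ⟨θ, h3, lt_of_lt_of_le h4 (min_le_right _ _), le_of_lt (lt_of_lt_of_le h4 (min_le_left _ _))⟩

end THBM

open THBM in
theorem specTHB (hTHA : SpecTHA) : SpecTHB := by
  intro ε hε
  obtain ⟨θ, h1, h2, h3⟩ := exists_theta hε
  have hθ0 : 0 < θ := lt_trans (by positivity) h1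
  have hε0 : 0 < ε := lt_of_lt_of_le hθ0 h3
  obtain ⟨n0, hn0⟩ := eventually_atTop.1 (hTHA θ h1 h2)
  -- N₀
  have hev : ∀ᶠ N : ℕ in atTop, (n0 : ℝ) + 1 ≤ (N : ℝ) ^ ε := by
    have h := (tendsto_rpow_atTop hε0).comp (tendsto_natCast_atTop_atTop (R := ℝ))
    exact h.eventually_ge_atTop _
  obtain ⟨N₁, hN₁⟩ := eventually_atTop.1 hev
  refine ⟨max N₁ 1, fun N hN n hn hnN => ?_⟩
  have hN1 : N₁ ≤ N := le_trans (le_max_left _ _) hN
  have hN2 : 1 ≤ N := le_trans (le_max_right _ _) hN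
  have hN3 := hN₁ N hN1
  by_cases hc : n0 ≤ n
  · obtain ⟨a, b, ha, hb, hab, hpa, hpb⟩ := hn0 n hc
    have hmono : (n : ℝ) ^ θ ≤ (N : ℝ) ^ ε := by
      have h5 : (n : ℝ) ^ θ ≤ (N : ℝ) ^ θ :=
        Real.rpow_le_rpow (by positivity) (by exact_mod_cast hnN) hθ0.le
      have h6 : (N : ℝ) ^ θ ≤ (N : ℝ) ^ ε :=
        Real.rpow_le_rpow_of_exponent_le (by exact_mod_cast hN2) h3
      exact h5.trans h6
    exact ⟨a, b, ha, hb, hab, fun p hp hd => (hpa p hp hd).trans hmono,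
      fun p hp hd => (hpb p hp hd).trans hmono⟩
  · push Not at hc
    refine ⟨1, n - 1, one_pos, by omega, by omega, ?_, ?_⟩
    · intro p hp hd
      exact absurd (Nat.dvd_one.1 hd) hp.one_lt.ne'
    · intro p hp hd
      have h5 : p ≤ n - 1 := Nat.le_of_dvd (by omega) hd
      have h6 : (p : ℝ) ≤ n0 := by exact_mod_cast (by omega : p ≤ n0)
      linarith

end Pool.Agent.Lib.MP_1446ad_nt.SM
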