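import Pool.Agent.Lib.MP_1446ad_nt.SM.SpecW

set_option autoImplicit false

namespace Pool.Agent.Lib.MP_1446ad_nt.SM.TOWM

/-- the recursively defined numbers -/
noncomputable def sq (p : ℕ) (s0 : ℂ) : ℕ → ℂ
  | 0 => s0
  | n + 1 => 2 * (p : ℂ) ^ 2 ^ n - sq p s0 n ^ 2

theorem trc_ne_one (k K : Type) [Field k] [Fintype k] [Field K] [Fintype K] [Algebra k K]
    (ψ : AddChar k ℂ) (h : ψ ≠ 1) : trc K ψ ≠ 1 := by
  have : FiniteDimensional k K := Module.Finite.of_finite
  have hs := Algebra.trace_surjective k K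
  intro hcon
  apply h
  ext x
  obtain ⟨y, hy⟩ := hs x
  have h1 : trc K ψ y = 1 := by rw [hcon]; rfl
  have h2 : trc K ψ y = ψ (Algebra.trace k K y) := rfl
  rw [h2, hy] at h1
  rw [h1]
  rfl

theorem trc_trc (k K L : Type) [Field k] [Fintype k] [Field K] [Fintype K] [Field L] [Fintype L]
    [Algebra k K] [Algebra K L] [Algebra k L] [IsScalarTower k K L] (ψ : AddChar k ℂ) :
    trc L (trc K ψ) = trc L ψ := by
  have : FiniteDimensional k K := Module.Finite.of_finite
  have : FiniteDimensional K L := Module.Finite.of_finite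
  ext x
  change ψ (Algebra.trace k K (Algebra.trace K L x)) = ψ (Algebra.trace k L x)
  rw [Algebra.trace_trace]

end TOWM

open TOWM in
theorem specTOW (hQEX : SpecQEX) : SpecTOW := by
  intro p _ ψ a b hp hψ ha hb
  refine ⟨sq p (kl ψ a b), rfl, fun n => rfl, ?_⟩
  intro n
  induction n with
  | zero =>
    refine ⟨ZMod p, inferInstance, inferInstance, Algebra.id _, ?_, ?_⟩
    · rw [ZMod.card]; simp
    · have h : trc (ZMod p) ψ = ψ := by
        ext x
        change ψ (Algebra.trace (ZMod p) (ZMod p) x) = ψ x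
        rw [Algebra.trace_self_apply]
      rw [h]
      rfl
  | succ n ih =>
    obtain ⟨K, iF, iT, iA, hcard, hs⟩ := ih
    have hch : CharP K p := charP_of_injective_algebraMap (algebraMap (ZMod p) K).injective p
    let L := FiniteField.Extension K p 2
    have : Fintype L := Fintype.ofFinite L
    have h2 : (2 : K) ≠ 0 := by
      intro h
      have h3 : ((2 : ℕ) : K) = 0 := by exact_mod_cast h
      rw [CharP.cast_eq_zero_iff K p] at h3
      exact hp ((Nat.prime_dvd_prime_iff_eq (Fact.out : p.Prime) Nat.prime_two).1 h3)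
    have hfin : Module.finrank K L = 2 := FiniteField.finrank_extension K p 2
    have hinj := (algebraMap (ZMod p) K).injective
    have ha' : algebraMap (ZMod p) K a ≠ 0 := by
      rwa [Ne, map_eq_zero_iff _ hinj]
    have hb' : algebraMap (ZMod p) K b ≠ 0 := by
      rwa [Ne, map_eq_zero_iff _ hinj]
    have hq := hQEX K L hfin h2 (trc K ψ) _ _ (trc_ne_one _ _ ψ hψ) ha' hb'
    refine ⟨L, inferInstance, inferInstance, inferInstance, ?_, ?_⟩
    · rw [← Nat.card_eq_fintype_card]
      change Nat.card (FiniteField.Extension K p 2) = _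
      rw [FiniteField.natCard_extension, Nat.card_eq_fintype_card, hcard, ← pow_mul, pow_succ]
    · rw [← IsScalarTower.algebraMap_apply, ← IsScalarTower.algebraMap_apply, trc_trc, ← hs,
        hcard] at hq
      rw [hq]
      change 2 * (p : ℂ) ^ 2 ^ n - sq p (kl ψ a b) n ^ 2 = _
      push_cast
      rfl

end Pool.Agent.Lib.MP_1446ad_nt.SM
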