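import Pool.Agent.Lib.MP_1446ad_nt.SM.SpecK

set_option autoImplicit false

namespace Pool.Agent.Lib.MP_1446ad_nt.SM

open Finset
open scoped Classical

namespace TRIM

theorem card_ann (v : ℕ) [NeZero v] (x : ZMod v) :
    (univ.filter (fun z : ZMod v => x * z = 0)).card ≤ Nat.gcd v x.val := by
  have hv : 0 < v := Nat.pos_of_ne_zero (NeZero.ne v)
  have hg : 0 < Nat.gcd v x.val := Nat.gcd_pos_of_pos_left _ hv
  refine le_trans (card_le_card ?_) (IsAddCyclic.card_nsmul_eq_zero_le (α := ZMod v) hg)
  intro z hz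
  simp only [mem_filter, mem_univ, true_and] at hz ⊢
  rw [← addOrderOf_dvd_iff_nsmul_eq_zero]
  apply Nat.dvd_gcd
  · rw [addOrderOf_dvd_iff_nsmul_eq_zero, nsmul_eq_mul]
    simp
  · rw [addOrderOf_dvd_iff_nsmul_eq_zero, nsmul_eq_mul]
    simpa using hz

theorem card_sol (v : ℕ) [NeZero v] (x c : ZMod v) :
    (univ.filter (fun z : ZMod v => x * z = c)).card ≤ Nat.gcd v x.val := by
  by_cases h : ∃ z0 : ZMod v, x * z0 = c
  · obtain ⟨z0, hz0⟩ := h
    refine le_trans ?_ (card_ann v x)
    apply card_le_card_of_injOn (fun z => z - z0)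
    · intro z hz
      simp only [coe_filter, mem_univ, true_and, Set.mem_ofPred_eq] at hz ⊢
      rw [mul_sub, hz, hz0, sub_self]
    · intro z _ z' _ hzz
      simpa using hzz
  · have : univ.filter (fun z : ZMod v => x * z = c) = ∅ := by
      apply filter_eq_empty_iff.mpr
      intro z _ hz
      exact h ⟨z, hz⟩
    rw [this]
    simp

theorem sum_gcd (v : ℕ) (hv : 0 < v) :
    ∑ x ∈ range v, Nat.gcd v x ≤ v.divisors.card * v := by
  have hmaps : ∀ x ∈ range v, Nat.gcd v x ∈ v.divisors := by
    intro x _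
    exact Nat.mem_divisors.mpr ⟨Nat.gcd_dvd_left v x, hv.ne'⟩
  rw [← sum_fiberwise_of_maps_to hmaps]
  calc ∑ d ∈ v.divisors, ∑ x ∈ range v with Nat.gcd v x = d, Nat.gcd v x
      ≤ ∑ d ∈ v.divisors, v := by
        apply sum_le_sum
        intro d hd
        have hdv := Nat.dvd_of_mem_divisors hd
        have h1 : ∑ x ∈ range v with Nat.gcd v x = d, Nat.gcd v x =
            ∑ x ∈ range v with Nat.gcd v x = d, d := by
          apply sum_congr rfl
          intro x hx
          exact (mem_filter.mp hx).2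
        rw [h1, sum_const, ← Nat.totient_div_of_dvd hdv, smul_eq_mul]
        calc Nat.totient (v / d) * d ≤ (v / d) * d :=
              Nat.mul_le_mul_right _ (Nat.totient_le _)
          _ = v := Nat.div_mul_cancel hdv
    _ = v.divisors.card * v := by rw [sum_const, smul_eq_mul]

theorem sum_val (v : ℕ) [NeZero v] (f : ℕ → ℕ) :
    ∑ x : ZMod v, f x.val = ∑ x ∈ range v, f x := by
  symm
  apply sum_nbij' (fun n : ℕ => (n : ZMod v)) (fun x : ZMod v => x.val)
  · intro n _; exact mem_univ _
  · intro x _; exact mem_range.mpr (ZMod.val_lt x)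
  · intro n hn; exact ZMod.val_cast_of_lt (mem_range.mp hn)
  · intro x _; simp
  · intro n hn; rw [ZMod.val_cast_of_lt (mem_range.mp hn)]

end TRIM

open TRIM

theorem specTRI : SpecTRI := by
  intro v inst c h k
  have hv : 0 < v := Nat.pos_of_ne_zero (NeZero.ne v)
  unfold kc tau
  calc ‖∑ x : ZMod v, ∑ z : ZMod v,
        if x * z = (c : ZMod v) then ZMod.stdAddChar ((h : ZMod v) * x + (k : ZMod v) * z) else 0‖
      ≤ ∑ x : ZMod v, ∑ z : ZMod v, if x * z = (c : ZMod v) then (1 : ℝ) else 0 := by
        refine le_trans (norm_sum_le _ _) (sum_le_sum fun x _ => ?_)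
        refine le_trans (norm_sum_le _ _) (sum_le_sum fun z _ => ?_)
        split_ifs
        · rw [AddChar.norm_apply]
        · simp
    _ = ((∑ x : ZMod v, (univ.filter (fun z : ZMod v => x * z = (c : ZMod v))).card : ℕ) : ℝ) := by
        push_cast
        apply sum_congr rfl
        intro x _
        rw [card_filter]
        push_cast
        rfl
    _ ≤ ((v.divisors.card * v : ℕ) : ℝ) := by
        apply Nat.cast_le.mpr
        calc ∑ x : ZMod v, (univ.filter (fun z : ZMod v => x * z = (c : ZMod v))).card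
            ≤ ∑ x : ZMod v, Nat.gcd v x.val := sum_le_sum fun x _ => card_sol v x c
          _ = ∑ x ∈ range v, Nat.gcd v x := sum_val v (fun n => Nat.gcd v n)
          _ ≤ _ := sum_gcd v hv
    _ = _ := by push_cast; ring

end Pool.Agent.Lib.MP_1446ad_nt.SM
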