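import Pool.Agent.Lib.MP_1446ad_nt.SM.SpecD

set_option autoImplicit false

namespace Pool.Agent.Lib.MP_1446ad_nt.SM

open Finset
open scoped Classical

namespace UPPM

theorem sum_Ioc_range (a n : ℕ) (f : ℕ → ℕ) :
    ∑ b ∈ Ioc a (a + n), f b = ∑ i ∈ range n, f (a + 1 + i) := by
  induction n with
  | zero => simp
  | succ n ih =>
    rw [sum_range_succ, ← ih, ← add_assoc, sum_Ioc_succ_top (by omega)]
    congr 2
    omega

theorem nQ_eq (P b M s1 s2 : ℕ) (h : s1 ≤ s2) :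
    nQ P b M s1 s2 = ∑ j ∈ range (s2 - s1), if P ∣ b * (s1 + 1 + j) + M then 1 else 0 := by
  unfold nQ
  rw [card_filter]
  obtain ⟨n, rfl⟩ := Nat.exists_eq_add_of_le h
  rw [sum_Ioc_range, Nat.add_sub_cancel_left]

theorem cnt_eq (P a W M s1 s2 : ℕ) (h : s1 ≤ s2) :
    ∑ b ∈ Ioc a (a + W), nQ P b M s1 s2 =
      cntB P 1 ((a + 1 : ℕ) : ℤ) (-(M : ℤ)) ((s1 + 1 : ℕ) : ℤ) W (s2 - s1) := by
  rw [sum_Ioc_range]
  unfold cntB
  rw [card_filter, sum_product]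
  apply sum_congr rfl
  intro i _
  rw [nQ_eq _ _ _ _ _ h]
  apply sum_congr rfl
  intro j _
  have h1 : (((a + 1 : ℕ) : ℤ) + 1 * (i : ℤ)) * (((s1 + 1 : ℕ) : ℤ) + (j : ℤ)) - (-(M : ℤ)) =
      (((a + 1 + i) * (s1 + 1 + j) + M : ℕ) : ℤ) := by
    push_cast
    ring
  simp only [h1, Int.natCast_dvd_natCast]

theorem bset (e B0 : ℕ) (he : 0 < e) :
    (Ioc 0 (2 * B0)).filter (fun b => B0 < e * b ∧ e * b ≤ 2 * B0) =
      Ioc (B0 / e) (B0 / e + (2 * B0 / e - B0 / e)) := by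
  have h0 : B0 / e ≤ 2 * B0 / e := Nat.div_le_div_right (by omega)
  rw [Nat.add_sub_cancel' h0]
  ext b
  simp only [mem_filter, mem_Ioc]
  rw [Nat.div_lt_iff_lt_mul he, Nat.le_div_iff_mul_le he, mul_comm e b]
  constructor
  · rintro ⟨_, h1, h2⟩
    exact ⟨h1, h2⟩
  · rintro ⟨h1, h2⟩
    refine ⟨⟨?_, ?_⟩, h1, h2⟩
    · rcases Nat.eq_zero_or_pos b with h3 | h3
      · rw [h3, zero_mul] at h1
        omega
      · exact h3
    · exact (Nat.le_mul_of_pos_right b he).trans h2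

end UPPM

open UPPM in
theorem specUPP (hBOX : SpecBOX) (hAVG : SpecAVG) (hSPA : SpecSPA) : SpecUPP := by
  intro T Y Y0 S S' B0 I N lo hi Dl e M s1 s2 hD hI heM heB hs1 hs12 hs2
  have hN := hD.N0
  have he : 0 < e := by
    rcases Nat.eq_zero_or_pos e with h | h
    · rw [h, zero_mul] at heM; omega
    · exact h
  have hM : 0 < M := by
    rcases Nat.eq_zero_or_pos M with h | h
    · rw [h, mul_zero] at heM; omega
    · exact h
  have hS := hD.S0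
  have hY0 := hD.Y00
  have hB0 := hD.B00
  have hI1 := hD.I1
  have hP0 : 0 < Y0 * S := Nat.mul_pos hY0 hS
  have hSP0 : S ≤ Y0 * S := Nat.le_mul_of_pos_left S hY0
  have hY0B : Y0 ≤ B0 := (Nat.le_mul_of_pos_left Y0 hI1).trans hD.IYB
  have hP0B : 4 * (Y0 * S) ≤ 8 * B0 * S := by nlinarith
  have hSDl : S ≤ Dl := by
    have h1 : S * I ≤ Dl * I := by
      calc S * I = I * S := mul_comm _ _
        _ ≤ Y0 * S := Nat.mul_le_mul_right _ hD.IY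
        _ ≤ Dl * I := hI.D1
    exact Nat.le_of_mul_le_mul_right h1 hI1
  have hMN : M ≤ N := by rw [← heM]; exact Nat.le_mul_of_pos_left M he
  have hM8 : M ≤ 8 * B0 * S := by
    have h1 := hD.N4
    nlinarith
  have hT1 : 1 ≤ T := by
    have h1 := (hD.T1 1 one_pos (by nlinarith)).2
    simpa using h1
  have hT0 : 0 ≤ T := by linarith
  have hMT : tau M ≤ T := (hD.T1 M hM hM8).1
  set W : ℕ := 2 * B0 / e - B0 / e with hW
  set L : ℕ := s2 - s1 with hL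
  have hLS : L ≤ S := by
    have := hD.S2
    omega
  have heR : (0 : ℝ) < e := by exact_mod_cast he
  have hP0R : (0 : ℝ) < (Y0 : ℝ) * S := by exact_mod_cast hP0
  have hWR : (W : ℝ) ≤ 2 * B0 / e := by
    have h1 : (W : ℝ) ≤ ((2 * B0 / e : ℕ) : ℝ) := by exact_mod_cast Nat.sub_le _ _
    refine h1.trans ?_
    have h2 := @Nat.cast_div_le ℝ _ _ _ (2 * B0) e
    push_cast at h2
    exact h2
  have key : ∀ P ∈ Ioc lo hi, ∑ b ∈ (Ioc 0 (2 * B0)).filter (fun b => B0 < e * b ∧ e * b ≤ 2 * B0),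
      (nQ P b M s1 s2 : ℝ) ≤
      (2 * B0 / e) / ((Y0 : ℝ) * S) *
        (cntB P 1 0 (-(M : ℤ)) ((s1 + 1 : ℕ) : ℤ) P L : ℝ) + er P (-(M : ℤ)) := by
    intro P hP
    rw [mem_Ioc] at hP
    have hP1 : Y0 * S < P := lt_of_le_of_lt hI.lo0 hP.1
    have hP1R : (Y0 : ℝ) * S ≤ P := by exact_mod_cast hP1.le
    have h1 : ∑ b ∈ (Ioc 0 (2 * B0)).filter (fun b => B0 < e * b ∧ e * b ≤ 2 * B0),
      (nQ P b M s1 s2 : ℝ) = (cntB P 1 ((B0 / e + 1 : ℕ) : ℤ) (-(M : ℤ)) ((s1 + 1 : ℕ) : ℤ) W L : ℝ) := by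
      rw [bset e B0 he, ← cnt_eq P (B0 / e) W M s1 s2 hs12]
      push_cast
      rfl
    rw [h1]
    have h2 := hBOX P 1 ((B0 / e + 1 : ℕ) : ℤ) (-(M : ℤ)) ((s1 + 1 : ℕ) : ℤ) W L (by omega)
      (by simp) (by omega)
    rw [abs_le] at h2
    have h3 : (W : ℝ) / P ≤ (2 * B0 / e) / ((Y0 : ℝ) * S) := by
      apply div_le_div₀ (by positivity) hWR hP0R hP1R
    have h4 : (W : ℝ) / P * (cntB P 1 0 (-(M : ℤ)) ((s1 + 1 : ℕ) : ℤ) P L : ℝ) ≤
        (2 * B0 / e) / ((Y0 : ℝ) * S) * (cntB P 1 0 (-(M : ℤ)) ((s1 + 1 : ℕ) : ℤ) P L : ℝ) :=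
      mul_le_mul_of_nonneg_right h3 (Nat.cast_nonneg _)
    linarith [h2.2]
  refine (sum_le_sum key).trans ?_
  rw [sum_add_distrib, ← mul_sum]
  have hspa := hSPA T (-(M : ℤ)) lo hi (s1 + 1) L (2 * S) (by omega)
    (by rw [Int.natAbs_neg, Int.natAbs_natCast]; exact hMT) (by omega)
    (by have := hD.S2; omega) hI.lh
  have hlen : (hi : ℝ) - lo ≤ Dl := by
    have h1 := hI.len
    have h2 : (hi : ℝ) ≤ (lo : ℝ) + Dl := by exact_mod_cast h1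
    linarith
  have hSDlR : (S : ℝ) ≤ Dl := by exact_mod_cast hSDl
  have h5 : ∑ P ∈ Ioc lo hi, (cntB P 1 0 (-(M : ℤ)) ((s1 + 1 : ℕ) : ℤ) P L : ℝ) ≤
      (L : ℝ) * T * (3 * Dl) := by
    refine hspa.trans ?_
    apply mul_le_mul_of_nonneg_left _ (by positivity)
    push_cast
    linarith
  have hLR : (L : ℝ) = (s2 : ℝ) - s1 := by
    rw [hL, Nat.cast_sub hs12]
  have h6 : ∑ P ∈ Ioc lo hi, er P (-(M : ℤ)) ≤ 16 * T ^ 7 * (Y0 * S) * √((Y0 : ℝ) * S) := by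
    have h7 := hAVG T (4 * (Y0 * S)) (-(M : ℤ)) (by omega) (by omega)
      (fun m hm hm2 => hD.T1 m hm (hm2.trans hP0B))
      (by rw [Int.natAbs_neg, Int.natAbs_natCast]; exact hMT)
    have h8 : ∑ P ∈ Ioc lo hi, er P (-(M : ℤ)) ≤ ∑ P ∈ Ioc 0 (4 * (Y0 * S)), er P (-(M : ℤ)) := by
      apply sum_le_sum_of_subset_of_nonneg
      · apply Ioc_subset_Ioc (by omega) hI.hi4
      · intro P _ _
        unfold er
        unfold tau
        positivity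
    refine h8.trans (h7.trans (le_of_eq ?_))
    push_cast
    have h9 : √(4 * ((Y0 : ℝ) * S)) = 2 * √((Y0 : ℝ) * S) := by
      rw [Real.sqrt_mul (by norm_num)]
      congr 1
      rw [show (4 : ℝ) = 2 ^ 2 by norm_num, Real.sqrt_sq (by norm_num)]
    rw [h9]
    ring
  have h10 : (2 * B0 / e) / ((Y0 : ℝ) * S) *
      ∑ P ∈ Ioc lo hi, (cntB P 1 0 (-(M : ℤ)) ((s1 + 1 : ℕ) : ℤ) P L : ℝ) ≤
      6 * T * Dl * B0 * ((s2 : ℝ) - s1) / (e * (Y0 * S)) := by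
    calc _ ≤ (2 * B0 / e) / ((Y0 : ℝ) * S) * ((L : ℝ) * T * (3 * Dl)) :=
          mul_le_mul_of_nonneg_left h5 (by positivity)
      _ = _ := by
        rw [hLR]
        field_simp
        ring
  linarith

end Pool.Agent.Lib.MP_1446ad_nt.SM
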