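import Mathlib

/-!
# MP_1446ad_nt (sums of two smooth numbers), part W: Weil's bound for Kloosterman sums over `𝔽_p`

Every Spec is a closed proposition; its doc string contains a complete elementary proof. Module `XXX`
= file `SM/XXX.lean`, theorem `specXXX (hYYY : SpecYYY) .. : SpecXXX`, own lemmas in the namespace
`Pool.Agent.Lib.MP_1446ad_nt.SM.XXXM`.

Overview. `S(K) = ∑_{x ∈ K^*} ψ(Tr_{K/𝔽_p}(a x + b/x))`. (1) For a quadratic extension `K/k` one has
`S(K) = 2 |k| - S(k)^2` (QCT, QEX): so the numbers `s_n = S(𝔽_{p^{2^n}})` satisfy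
`s_{n+1} = 2 p^{2^n} - s_n^2` (TOW). (2) For `|K| = p^{2e}` every value `j` is taken by
`Tr(a x + b/x)` at most `p^{2e-1} + 4 p^e` times (STP, a Stepanov argument with the auxiliary polynomial
`h = ∑ c X^{i'+ri} U^k`, `h^r = 0` on the set), hence `|S(K)| ≤ 9 p p^e` (BND). (3) If
`|s_0| > 2 √p` then (1) makes `|s_n|/√(p^{2^n})` tend to infinity: contradiction to (2) (WEI).
-/

set_option autoImplicit false

namespace Pool.Agent.Lib.MP_1446ad_nt.SM

open scoped Classical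

/-- The Kloosterman sum over a finite field. -/
noncomputable def kl {K : Type} [Field K] [Fintype K] (ψ : AddChar K ℂ) (a b : K) : ℂ :=
  ∑ x : K, if x = 0 then 0 else ψ (a * x + b * x⁻¹)

/-- The additive character `ψ ∘ Tr` of an extension `K` of `k`. -/
noncomputable def trc {k : Type} [Field k] (K : Type) [Field K] [Algebra k K] (ψ : AddChar k ℂ) :
    AddChar K ℂ := ψ.compAddMonoidHom (Algebra.trace k K).toAddMonoidHom

/-- **QCT** (150 lines). Elements with given trace and norm in a quadratic extension `K/k` of finite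
fields of odd characteristic, `q = |k|`.
Proof. For `x : K`, `Tr x = x + x^q`, `N x = x * x^q` in `K` (`FiniteField.algebraMap_trace_eq_sum_pow`,
`FiniteField.algebraMap_norm_eq_prod_pow` or `_eq_pow`). Let `d = t^2 - 4 n` in `k`. `d` is a square in `K`:
if `d ≠ 0` then `d^((q^2-1)/2) = (d^(q-1))^((q+1)/2) = 1` (`FiniteField.isSquare_iff`, `|K| = q^2`); let
`s : K`, `s^2 = d`, `ρ = (t+s)/2`, `ρ' = (t-s)/2`; these are the roots of `X^2 - t X + n`. An `x : K` with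
`Tr x = t`, `N x = n` satisfies `x (t - x) = n`, so `x = ρ` or `x = ρ'`, and `x^q = t - x`.
(i) `d = 0`: `ρ = ρ' = t/2` is in `k`; there is exactly one `x` and exactly one pair `(t/2, t/2)`
(`(y-z)^2 = d = 0`). (ii) `d ≠ 0` is a square in `k`: `s = ± s'` with `s'` in `k`, so `ρ, ρ'` are in `k`, and
`x` in `k` with `x^q = x = t - x` gives `x = t/2`, `s = 0`: no `x`. The pairs are `(ρ,ρ')` and `(ρ',ρ)`: two.
(iii) `d` is not a square in `k`: `s^q = s * d^((q-1)/2) = - s` (Euler's criterion), so `ρ^q = ρ'`, `ρ'^q = ρ`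
and both `ρ ≠ ρ'` have trace `t` and norm `n`: two; no pairs, because `(y-z)^2 = d`. -/
def SpecQCT : Prop :=
  ∀ (k K : Type) [Field k] [Fintype k] [Field K] [Fintype K] [Algebra k K],
    Module.finrank k K = 2 → (2 : k) ≠ 0 → ∀ t n : k,
    {x : K | Algebra.trace k K x = t ∧ Algebra.norm k x = n}.ncard +
      {y : k × k | y.1 + y.2 = t ∧ y.1 * y.2 = n}.ncard = 2

/-- **QEX** (120 lines; from QCT). The Kloosterman sum of a quadratic extension.
Proof. For `x ≠ 0` in `K` with trace `t` and norm `n ≠ 0`: `Tr (a x + b x⁻¹) = a t + b (t / n) =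
t (a + b/n)` (`x⁻¹ + (x^q)⁻¹ = (x + x^q)/(x x^q)`). So `kl (trc K ψ) a b = ∑_{n ≠ 0} ∑_t X(t,n) ψ(t (a + b/n))`,
`X(t,n)` the number of `x : K` with trace `t` and norm `n` (`n ≠ 0` iff `x ≠ 0`). Similarly
`(kl ψ a b)^2 = ∑_{y,z ≠ 0} ψ(a y + b/y + a z + b/z)`, and `a y + b/y + a z + b/z = t (a + b/n)` with
`t = y + z`, `n = y z`: `(kl ψ a b)^2 = ∑_{n ≠ 0} ∑_t Y(t,n) ψ(t (a + b/n))`. As `X + Y = 2` (QCT) the sum of
both is `2 ∑_{n ≠ 0} ∑_t ψ(t (a + b/n))`; the inner sum is `|k|` if `a + b/n = 0`, i.e. `n = - b/a`, and `0`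
otherwise (`ψ` is nontrivial, hence primitive: `AddChar.sum_mulShift`). -/
def SpecQEX : Prop :=
  ∀ (k K : Type) [Field k] [Fintype k] [Field K] [Fintype K] [Algebra k K],
    Module.finrank k K = 2 → (2 : k) ≠ 0 → ∀ (ψ : AddChar k ℂ) (a b : k), ψ ≠ 1 → a ≠ 0 → b ≠ 0 →
    kl (trc K ψ) (algebraMap k K a) (algebraMap k K b) = 2 * (Fintype.card k : ℂ) - kl ψ a b ^ 2

/-- **TOW** (150 lines; from QEX). The tower.
Proof. `s` is defined by the recursion. By induction on `n` construct `K`: `n = 0`: `K = ZMod p`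
(`Algebra.trace_self`: the trace is the identity). Step: `K` has odd characteristic, so there is a nonsquare
`d` in `K` (`FiniteField.exists_nonsquare`); `X^2 - C d` is irreducible; `L = AdjoinRoot (X^2 - C d)` is a field,
free of rank 2 over `K` (`AdjoinRoot.powerBasis`), finite of cardinality `(p^(2^n))^2 = p^(2^(n+1))`; give it
the structure of a `ZMod p`-algebra by composition (`Algebra.compHom` or `ZMod.algebra`, `CharP`), then
`IsScalarTower (ZMod p) K L` (all ring homomorphisms from `ZMod p` are equal) and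
`trc L ψ = trc L (trc K ψ)` (`Algebra.trace_trace`). `trc K ψ ≠ 1` because the trace is surjective
(`Algebra.trace_surjective`, separable extension). Apply QEX to `L/K` and `trc K ψ`. -/
def SpecTOW : Prop :=
  ∀ (p : ℕ) [Fact p.Prime] (ψ : AddChar (ZMod p) ℂ) (a b : ZMod p), p ≠ 2 → ψ ≠ 1 → a ≠ 0 → b ≠ 0 →
    ∃ s : ℕ → ℂ, s 0 = kl ψ a b ∧ (∀ n, s (n + 1) = 2 * (p : ℂ) ^ 2 ^ n - s n ^ 2) ∧
      ∀ n, ∃ (K : Type) (_ : Field K) (_ : Fintype K) (_ : Algebra (ZMod p) K),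
        Fintype.card K = p ^ 2 ^ n ∧
        s n = kl (trc K ψ) (algebraMap (ZMod p) K a) (algebraMap (ZMod p) K b)

/-- **STP** (250 lines). Stepanov's argument over `K = 𝔽_{r^2}`, `r = p^e`.
Proof. `s = p^(e-1)`, so `r = p s`. Polynomials in `(ZMod p)[X]`, evaluated in `K` (`aeval`). Let
`V = ∑_{i<e} (a X^(s + p^i) + b X^(s - p^i))`; `V` has degree `2 s` and leading coefficient `a` (the term
`i = e-1`). For `x ≠ 0` in `K` put `g = a x + b/x`, `U = ∑_{i<e} g^(p^i)`; then `V(x) = x^s U`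
(`g^(p^i) = a x^(p^i) + b x^(-p^i)`). `Tr g = ∑_{i<2e} g^(p^i)` (`FiniteField.algebraMap_trace_eq_sum_pow`),
so `Tr g = U + U^r`. Let `x` be in the set, so `U^r = j - U`, and `x^(r^2) = x` (`FiniteField.pow_card`).
Let `I = s + 3`; the unknowns are `c_n` in `ZMod p`, `n < r I`, where `n = i' + s k + r i` with `i' < s`, `k < p`,
`i < I` (bijection). Put
`h = ∑_n c_n X^(i' + r i) V^k X^(s (p-1-k))`, `δ = ∑_n c_n X^(r i' + i) (j X^s - V)^k X^(s (p-1-k))`.
(1) The `n`-th term of `h` has degree exactly `n + s (p-1)` (leading coefficient `c_n a^k`); so `h ≠ 0` if `c ≠ 0`,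
and `deg h < r I + s (p-1) ≤ r s + 4 r`. (2) The terms of `δ` have degree at most
`r (s-1) + (I-1) + 2 s (p-1) = r s + r - s + 2`, so `δ` has at most `r s + r - s + 3 < r s + 3 r = r I`
coefficients: there is `c ≠ 0` with `δ = 0` (a linear map between finite dimensional spaces with larger source,
`LinearMap.exists_ne_zero...` / `exists_ne_zero_of_finrank_lt`). (3) For `x` in the set let
`H = ∑ c_n x^(i' + r i) U^k`, so `h(x) = x^(s(p-1)) H`, and, as `c_n^r = c_n`,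
`H^r = ∑ c_n x^(r i') x^(r^2 i) (U^r)^k = ∑ c_n x^(r i' + i) (j - U)^k`, so
`x^(s(p-1)) H^r = δ(x) = 0`. So `H = 0` and `h(x) = 0`. The set has at most `deg h` elements. -/
def SpecSTP : Prop :=
  ∀ (p : ℕ) [Fact p.Prime] (K : Type) [Field K] [Fintype K] [Algebra (ZMod p) K] (e : ℕ)
    (a b j : ZMod p), p ≠ 2 → 1 ≤ e → Fintype.card K = p ^ (2 * e) → a ≠ 0 →
    {x : K | x ≠ 0 ∧ Algebra.trace (ZMod p) K
      (algebraMap (ZMod p) K a * x + algebraMap (ZMod p) K b * x⁻¹) = j}.ncard ≤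
      p ^ (2 * e - 1) + 4 * p ^ e

/-- **BND** (100 lines; from STP).
Proof. Let `n_j` be the number of `x ≠ 0` with `Tr (a x + b/x) = j`, `q = p^(2e)`, `r = p^e`:
`S = kl (trc K ψ) a b = ∑_j n_j ψ(j) = ∑_j (n_j - q/p) ψ(j)` (`∑_j ψ(j) = 0`), `|ψ(j)| = 1`. By STP
`q/p + 4 r - n_j ≥ 0`, and these numbers add up to `q + 4 p r - (q - 1) = 4 p r + 1`. So
`|S| ≤ ∑_j |n_j - q/p| ≤ ∑_j (q/p + 4 r - n_j) + 4 p r = 8 p r + 1 ≤ 9 p r`. -/
def SpecBND : Prop :=
  ∀ (p : ℕ) [Fact p.Prime] (K : Type) [Field K] [Fintype K] [Algebra (ZMod p) K] (e : ℕ)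
    (ψ : AddChar (ZMod p) ℂ) (a b : ZMod p), p ≠ 2 → 1 ≤ e → Fintype.card K = p ^ (2 * e) →
    ψ ≠ 1 → a ≠ 0 →
    ‖kl (trc K ψ) (algebraMap (ZMod p) K a) (algebraMap (ZMod p) K b)‖ ≤ 9 * (p : ℝ) * (p : ℝ) ^ e

/-- **WEI** (120 lines; from TOW, BND). Weil's bound.
Proof. `p = 2`: the sum has one term, `1 ≤ 2 √2`. `p` odd: `s` from TOW, `w n = ‖s n‖ / √(p^(2^n))`. For `n ≥ 1`,
`2^n = 2 e` with `e = 2^(n-1)` and `w n ≤ 9 p` by BND. And `‖s (n+1)‖ ≥ ‖s n‖^2 - 2 p^(2^n)`,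
`√(p^(2^(n+1))) = p^(2^n)`, so `w (n+1) ≥ (w n)^2 - 2`, so `w (n+1) - 2 ≥ (w n - 2)(w n + 2)`. If
`w 0 > 2` then by induction `w n - 2 ≥ 4^n (w 0 - 2)`, unbounded: contradiction. So
`‖kl ψ a b‖ = w 0 √p ≤ 2 √p`. -/
def SpecWEI : Prop :=
  ∀ (p : ℕ) [Fact p.Prime] (ψ : AddChar (ZMod p) ℂ) (a b : ZMod p), ψ ≠ 1 → a ≠ 0 → b ≠ 0 →
    ‖kl ψ a b‖ ≤ 2 * √(p : ℝ)

end Pool.Agent.Lib.MP_1446ad_nt.SM
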