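import Mathlib
import Pool.Agent.Lib.MP_1446ad_nt.SM.SpecW

/-!
# MP_1446ad_nt, module WEI (helper49): Weil's bound for Kloosterman sums from the tower
-/

set_option autoImplicit false

namespace Pool.Agent.Lib.MP_1446ad_nt.SM

open scoped Classical

namespace WEIM

theorem seq_le {w : ℕ → ℝ} {C : ℝ} (h1 : ∀ n, w n ^ 2 - 2 ≤ w (n + 1)) (h2 : ∀ n, w (n + 1) ≤ C) :
    w 0 ≤ 2 := by
  by_contra hc
  rw [not_le] at hc
  have key : ∀ n : ℕ, 2 + 4 ^ n * (w 0 - 2) ≤ w n := by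
    intro n
    induction n with
    | zero => simp
    | succ n ih =>
      have h3 := h1 n
      have h4 : 0 ≤ 4 ^ n * (w 0 - 2) := by
        have : (0 : ℝ) < 4 ^ n := by positivity
        nlinarith
      rw [pow_succ]
      nlinarith
  obtain ⟨n, hn⟩ := exists_nat_gt (C / (w 0 - 2))
  have h3 : C < n * (w 0 - 2) := by
    rwa [div_lt_iff₀ (by linarith)] at hn
  have h4 := key (n + 1)
  have h5 := h2 n
  have h6 : (n : ℝ) ≤ 4 ^ (n + 1) := by
    have h7 : n < 4 ^ n := Nat.lt_pow_self (by norm_num)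
    have h8 : (n : ℝ) ≤ 4 ^ n := by exact_mod_cast h7.le
    have h9 : (0 : ℝ) < 4 ^ n := by positivity
    rw [pow_succ]
    linarith
  nlinarith

theorem triv (p : ℕ) [Fact p.Prime] (ψ : AddChar (ZMod p) ℂ) (a b : ZMod p) : ‖kl ψ a b‖ ≤ (p : ℝ) := by
  unfold kl
  refine (norm_sum_le _ _).trans ?_
  refine le_trans (Finset.sum_le_sum (g := fun _ => (1 : ℝ)) fun x _ => ?_) ?_
  · split_ifs
    · simp
    · rw [AddChar.norm_apply]
  · simp [ZMod.card]

end WEIM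

open WEIM in
theorem specWEI (hTOW : SpecTOW) (hBND : SpecBND) : SpecWEI := by
  intro p hp ψ a b hψ ha hb
  have hp0 : 0 < p := hp.out.pos
  have hP : (0 : ℝ) < p := by exact_mod_cast hp0
  by_cases hp2 : p = 2
  · have h1 := triv p ψ a b
    have h2 : (p : ℝ) = √p * √p := (Real.mul_self_sqrt hP.le).symm
    have h3 : √(p : ℝ) ≤ 2 := by
      rw [hp2]
      exact Real.sqrt_le_iff.2 ⟨by norm_num, by norm_num⟩
    have h4 : 0 ≤ √(p : ℝ) := Real.sqrt_nonneg _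
    nlinarith
  · obtain ⟨s, hs0, hs1, hs2⟩ := hTOW p ψ a b hp2 hψ ha hb
    set S : ℕ → ℝ := fun n => √((p : ℝ) ^ 2 ^ n) with hS
    have hSpos : ∀ n, 0 < S n := fun n => Real.sqrt_pos.2 (by positivity)
    have hSsq : ∀ n, S n ^ 2 = (p : ℝ) ^ 2 ^ n := fun n => Real.sq_sqrt (by positivity)
    have hSs : ∀ n, S (n + 1) = (p : ℝ) ^ 2 ^ n := by
      intro n
      simp only [hS]
      rw [pow_succ, pow_mul, Real.sqrt_sq (by positivity)]
    have h1 : ∀ n, (‖s n‖ / S n) ^ 2 - 2 ≤ ‖s (n + 1)‖ / S (n + 1) := by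
      intro n
      have h3 : ‖s n‖ ^ 2 - 2 * (p : ℝ) ^ 2 ^ n ≤ ‖s (n + 1)‖ := by
        rw [hs1 n]
        have h4 : ‖s n ^ 2‖ - ‖2 * (p : ℂ) ^ 2 ^ n‖ ≤ ‖2 * (p : ℂ) ^ 2 ^ n - s n ^ 2‖ := by
          rw [norm_sub_rev]
          exact norm_sub_norm_le _ _
        have h5 : ‖2 * (p : ℂ) ^ 2 ^ n‖ = 2 * (p : ℝ) ^ 2 ^ n := by
          rw [norm_mul, norm_pow, Complex.norm_natCast]
          norm_num
        rw [norm_pow, h5] at h4
        exact h4
      rw [hSs, div_pow, hSsq]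
      have h6 : (0 : ℝ) < (p : ℝ) ^ 2 ^ n := by positivity
      rw [le_div_iff₀ h6, sub_mul, div_mul_cancel₀ _ h6.ne']
      exact h3
    have h2 : ∀ n, ‖s (n + 1)‖ / S (n + 1) ≤ 9 * (p : ℝ) := by
      intro n
      obtain ⟨K, iF, iT, iA, hc, hK⟩ := hs2 (n + 1)
      have h3 := hBND p K (2 ^ n) ψ a b hp2 Nat.one_le_two_pow (by rw [hc, pow_succ, mul_comm]) hψ ha
      rw [← hK] at h3
      rw [hSs, div_le_iff₀ (by positivity)]
      exact h3
    have h3 := seq_le h1 h2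
    rw [div_le_iff₀ (hSpos 0)] at h3
    simp only [hS, pow_zero, pow_one] at h3
    rw [← hs0]
    exact h3

end Pool.Agent.Lib.MP_1446ad_nt.SM
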