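import Pool.Agent.Lib.MP_1446ad_nt.SM.SpecF

set_option autoImplicit false

namespace Pool.Agent.Lib.MP_1446ad_nt.SM

open Finset Filter
open scoped Classical

namespace WNCM

lemma V_bounds {d : ℝ} {n M2 Y0 X1 X2 : ℕ} (hn : 1 ≤ n) (hW : WN d n M2 Y0 X1 X2) :
    (n : ℝ) ^ (4 / 7 - 10 * d) ≤ (M2 : ℝ) * Y0 * X1 * X2 ∧
    (M2 : ℝ) * Y0 * X1 * X2 ≤ 4096 * (n : ℝ) ^ (4 / 7 - 10 * d) := by
  obtain ⟨⟨wa1, wa2⟩, ⟨wb1, wb2⟩, ⟨wc1, wc2⟩, ⟨wd1, wd2⟩⟩ := hW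
  have hn1 : (1 : ℝ) ≤ n := by exact_mod_cast hn
  have hn0 : (0 : ℝ) < n := by linarith
  have E : ∀ x y : ℝ, (n : ℝ) ^ x * (n : ℝ) ^ y = (n : ℝ) ^ (x + y) :=
    fun x y => (Real.rpow_add hn0 x y).symm
  have Ep : ∀ x : ℝ, 0 < (n : ℝ) ^ x := fun x => Real.rpow_pos_of_pos hn0 x
  constructor
  · calc (n : ℝ) ^ (4 / 7 - 10 * d) = (n : ℝ) ^ d * (n : ℝ) ^ (1 / 7 - 9 * d) *
          (n : ℝ) ^ (3 / 14 - 2 * d) * (n : ℝ) ^ (3 / 14 : ℝ) := by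
          rw [E, E, E]; ring_nf
      _ ≤ _ := by
        have := Ep d; have := Ep (1 / 7 - 9 * d); have := Ep (3 / 14 - 2 * d)
        have := Ep (3 / 14)
        gcongr
  · calc (M2 : ℝ) * Y0 * X1 * X2 ≤ (8 * (n : ℝ) ^ d) * (8 * (n : ℝ) ^ (1 / 7 - 9 * d)) *
          (8 * (n : ℝ) ^ (3 / 14 - 2 * d)) * (8 * (n : ℝ) ^ (3 / 14 : ℝ)) := by
          have := Ep d; have := Ep (1 / 7 - 9 * d); have := Ep (3 / 14 - 2 * d)
          have := Ep (3 / 14)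
          gcongr
      _ = 4096 * ((n : ℝ) ^ d * (n : ℝ) ^ (1 / 7 - 9 * d) *
          (n : ℝ) ^ (3 / 14 - 2 * d) * (n : ℝ) ^ (3 / 14 : ℝ)) := by ring
      _ = _ := by rw [E, E, E]; ring_nf

lemma x_bounds {d : ℝ} {n M2 Y0 X1 X2 : ℕ} (hn : 1 ≤ n) (hW : WN d n M2 Y0 X1 X2) :
    0 < (M2 : ℝ) * Y0 * X1 * X2 ∧
    (n : ℝ) ^ (3 / 7 + 10 * d) / 8192 ≤ n / (2 * ((M2 : ℝ) * Y0 * X1 * X2)) ∧
    n / (2 * ((M2 : ℝ) * Y0 * X1 * X2)) ≤ (n : ℝ) ^ (3 / 7 + 10 * d) / 2 := by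
  obtain ⟨h1, h2⟩ := V_bounds hn hW
  have hn1 : (1 : ℝ) ≤ n := by exact_mod_cast hn
  have hn0 : (0 : ℝ) < n := by linarith
  have Ep : ∀ x : ℝ, 0 < (n : ℝ) ^ x := fun x => Real.rpow_pos_of_pos hn0 x
  have En : (n : ℝ) ^ (3 / 7 + 10 * d) * (n : ℝ) ^ (4 / 7 - 10 * d) = n := by
    rw [← Real.rpow_add hn0]
    ring_nf
    exact Real.rpow_one _
  have V0 : 0 < (M2 : ℝ) * Y0 * X1 * X2 := lt_of_lt_of_le (Ep _) h1
  generalize (M2 : ℝ) * Y0 * X1 * X2 = V at *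
  have := Ep (3 / 7 + 10 * d)
  refine ⟨V0, ?_, ?_⟩
  · rw [le_div_iff₀ (by positivity)]
    calc (n : ℝ) ^ (3 / 7 + 10 * d) / 8192 * (2 * V) = (n : ℝ) ^ (3 / 7 + 10 * d) * V / 4096 := by
          ring
      _ ≤ (n : ℝ) ^ (3 / 7 + 10 * d) * (4096 * (n : ℝ) ^ (4 / 7 - 10 * d)) / 4096 := by gcongr
      _ = (n : ℝ) ^ (3 / 7 + 10 * d) * (n : ℝ) ^ (4 / 7 - 10 * d) := by ring
      _ = n := En
  · rw [div_le_iff₀ (by positivity)]
    calc (n : ℝ) = (n : ℝ) ^ (3 / 7 + 10 * d) * (n : ℝ) ^ (4 / 7 - 10 * d) := En.symm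
      _ ≤ (n : ℝ) ^ (3 / 7 + 10 * d) * V := by gcongr
      _ = _ := by ring

end WNCM

open WNCM in
theorem specWNC (hKTA : SpecKTA) (hPRP : SpecPRP) : SpecWNC := by
  intro d ν lam μ hd hd1 hν hν1 hνμ hl hl1 hμ hμ1
  have hlarge : ∀ᶠ n : ℕ in atTop, 8192 * (100 + 2 / μ + 2 / lam) ≤ (n : ℝ) ^ (3 / 7 + 10 * d) :=
    ((tendsto_rpow_atTop (by positivity : 0 < 3 / 7 + 10 * d)).comp
      tendsto_natCast_atTop_atTop).eventually_ge_atTop _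
  filter_upwards [hPRP d ν hd hd1 hν hν1, hKTA d ν hd hd1 hν hν1, hlarge,
    eventually_ge_atTop 1] with n hP hKT hL hn M2 Y0 X1 X2 hW
  obtain ⟨-, -, -, -, p2, -⟩ := hP M2 Y0 X1 X2 hW
  have hKT' := hKT M2 Y0 X1 X2 hW
  obtain ⟨V0, x1, x2⟩ := x_bounds hn hW
  have hn1 : (1 : ℝ) ≤ n := by exact_mod_cast hn
  have hn0 : (0 : ℝ) < n := by linarith
  obtain ⟨V, hV⟩ : ∃ V : ℕ, V = M2 * Y0 * X1 * X2 := ⟨_, rfl⟩
  have hVr : (M2 : ℝ) * Y0 * X1 * X2 = (V : ℝ) := by rw [hV]; push_cast; ring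
  rw [hVr] at V0 x1 x2
  rw [hVr]
  have p2' : ∀ r ∈ PR ν n M2 Y0 X1 X2, (V : ℝ) < r ∧ (r : ℝ) ≤ (1 + μ) * V := by
    intro r hr
    obtain ⟨h1, h2⟩ := p2 r hr
    rw [hVr] at h2
    rw [← hV] at h1
    exact ⟨by exact_mod_cast h1, h2.trans (by gcongr)⟩
  have hKT2 : ∀ (S S' : ℕ) (K : Finset ℕ) (c : ℕ → ℝ),
    0 < S → S ≤ S' → S' ≤ 2 * S → n ≤ 4 * V * S →
    (1 + μ) * (V : ℝ) * S' < n →
    (∀ k ∈ K, |c k| ≤ 1 ∧ 0 < k) →
    (∀ k ∈ K, ∀ m ∈ PR ν n M2 Y0 X1 X2, ∀ r ∈ PR ν n M2 Y0 X1 X2,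
      r * S < n - k * m ∧ n - k * m ≤ r * S') →
    |∑ k ∈ K, c k * ∑ m ∈ PR ν n M2 Y0 X1 X2, ∑ r ∈ PR ν n M2 Y0 X1 X2,
      ((if r ∣ n - k * m then (1 : ℝ) else 0) - 1 / (r : ℝ))| ≤ (n : ℝ) ^ (1 - d / 5) := by
    intro S S' K c a1 a2 a3 a4 a5 a6 a7
    refine hKT' S S' K c a1 a2 a3 (by rw [← hV]; exact a4) (lt_of_le_of_lt ?_ a5) a6 a7
    rw [hVr]
    gcongr
  generalize PR ν n M2 Y0 X1 X2 = W at *
  obtain ⟨x, hx⟩ : ∃ x : ℝ, x = n / (2 * (V : ℝ)) := ⟨_, rfl⟩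
  rw [← hx] at x1 x2
  rw [← hx]
  have hnx : (n : ℝ) = 2 * V * x := by rw [hx]; field_simp
  have hxB : 100 + 2 / μ + 2 / lam ≤ x := by
    have : 100 + 2 / μ + 2 / lam ≤ (n : ℝ) ^ (3 / 7 + 10 * d) / 8192 := by linarith
    linarith
  have q1 : 0 < 2 / μ := by positivity
  have q2 : 0 < 2 / lam := by positivity
  have hμx : 2 ≤ μ * x := by
    have : 2 / μ ≤ x := by linarith
    rw [div_le_iff₀ hμ] at this
    linarith
  have hlx : 2 ≤ lam * x := by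
    have : 2 / lam ≤ x := by linarith
    rw [div_le_iff₀ hl] at this
    linarith
  have hx100 : 100 ≤ x := by
    linarith
  have hx0 : 0 < x := by linarith
  obtain ⟨k1, hk1⟩ : ∃ k1 : ℕ, k1 = ⌈x⌉₊ := ⟨_, rfl⟩
  obtain ⟨k2, hk2⟩ : ∃ k2 : ℕ, k2 = ⌊(1 + lam) * x⌋₊ := ⟨_, rfl⟩
  obtain ⟨S, hS⟩ : ∃ S : ℕ, S = ⌊(1 - lam - 4 * μ) * x⌋₊ := ⟨_, rfl⟩
  obtain ⟨T, hT⟩ : ∃ T : ℕ, T = ⌊(1 - 3 * μ) * x⌋₊ := ⟨_, rfl⟩
  obtain ⟨T', hT'⟩ : ∃ T' : ℕ, T' = ⌈(1 + lam + 4 * μ) * x⌉₊ := ⟨_, rfl⟩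
  have k1a : x ≤ k1 := hk1 ▸ Nat.le_ceil x
  have k1b : (k1 : ℝ) < x + 1 := hk1 ▸ Nat.ceil_lt_add_one hx0.le
  have k2a : (k2 : ℝ) ≤ (1 + lam) * x := hk2 ▸ Nat.floor_le (by positivity)
  have k2b : (1 + lam) * x < k2 + 1 := hk2 ▸ Nat.lt_floor_add_one _
  have c1 : 0 ≤ 1 - lam - 4 * μ := by linarith
  have c2 : 0 ≤ 1 - 3 * μ := by linarith
  have Sa : (S : ℝ) ≤ (1 - lam - 4 * μ) * x := hS ▸ Nat.floor_le (by positivity)
  have Sb : (1 - lam - 4 * μ) * x < S + 1 := hS ▸ Nat.lt_floor_add_one _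
  have Ta : (T : ℝ) ≤ (1 - 3 * μ) * x := hT ▸ Nat.floor_le (by positivity)
  have Tb : (1 - 3 * μ) * x < T + 1 := hT ▸ Nat.lt_floor_add_one _
  have Ta' : (1 + lam + 4 * μ) * x ≤ T' := hT' ▸ Nat.le_ceil _
  have Tb' : (T' : ℝ) < (1 + lam + 4 * μ) * x + 1 := hT' ▸ Nat.ceil_lt_add_one (by positivity)
  have lx : lam * x ≤ 1 / 100 * x := by gcongr
  have mx : μ * x ≤ 1 / 1000 * x := by gcongr
  have lx0 : 0 < lam * x := by positivity
  have VX : 0 < V * x := by positivity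
  have Vmx : 2 * (V : ℝ) ≤ μ * x * V := by gcongr
  have lV : lam * (V * x) ≤ 1 / 100 * (V * x) := by gcongr
  have mV : μ * (V * x) ≤ 1 / 1000 * (V * x) := by gcongr
  have lmV : lam * μ * (V * x) ≤ 1 / 100 * (1 / 1000) * (V * x) := by gcongr
  have m2V : μ * μ * (V * x) ≤ 1 / 1000 * (1 / 1000) * (V * x) := by gcongr
  have mV1 : μ * V ≤ 1 / 1000 * V := by gcongr
  have V100 : 100 * (V : ℝ) ≤ V * x := by nlinarith
  have hm2V : 0 < μ * μ * (V * x) := by positivity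
  -- first window
  have km : ∀ k ∈ Ioc k1 k2, ∀ m ∈ W, x * V < (k : ℝ) * m ∧
      (k : ℝ) * m ≤ (1 + lam) * (1 + μ) * (V * x) := by
    intro k hk m hm
    obtain ⟨a1, a2⟩ := mem_Ioc.1 hk
    obtain ⟨b1, b2⟩ := p2' m hm
    have a1' : x < k := lt_of_le_of_lt k1a (by exact_mod_cast a1)
    have a2' : (k : ℝ) ≤ (1 + lam) * x := le_trans (by exact_mod_cast a2) k2a
    constructor
    · exact mul_lt_mul'' a1' b1 hx0.le V0.le
    · calc (k : ℝ) * m ≤ ((1 + lam) * x) * ((1 + μ) * V) := by gcongr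
        _ = _ := by ring
  have kmn : ∀ k ∈ Ioc k1 k2, ∀ m ∈ W, k * m < n := by
    intro k hk m hm
    obtain ⟨-, h2⟩ := km k hk m hm
    have : (k : ℝ) * m < n := by
      rw [hnx]
      nlinarith
    exact_mod_cast this
  have kmr : ∀ k ∈ Ioc k1 k2, ∀ m ∈ W, ∀ r ∈ W, r * S < n - k * m ∧ n - k * m ≤ r * k1 := by
    intro k hk m hm r hr
    obtain ⟨h1, h2⟩ := km k hk m hm
    have h3 := kmn k hk m hm
    obtain ⟨b1, b2⟩ := p2' r hr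
    have e : ((n - k * m : ℕ) : ℝ) = n - k * m := by
      rw [Nat.cast_sub h3.le]; push_cast; ring
    constructor
    · have : ((r * S : ℕ) : ℝ) < ((n - k * m : ℕ) : ℝ) := by
        rw [e]
        push_cast
        calc (r : ℝ) * S ≤ ((1 + μ) * V) * ((1 - lam - 4 * μ) * x) := by gcongr
          _ < n - k * m := by
            rw [hnx]
            nlinarith
      exact_mod_cast this
    · have : ((n - k * m : ℕ) : ℝ) ≤ ((r * k1 : ℕ) : ℝ) := by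
        rw [e]
        push_cast
        calc (n : ℝ) - k * m ≤ V * x := by rw [hnx]; linarith
          _ ≤ r * k1 := by gcongr
      exact_mod_cast this
  -- second window
  have sm : ∀ s ∈ Ioc S k1, ∀ m ∈ W, (1 - lam - 4 * μ) * (V * x) < (s : ℝ) * m ∧
      (s : ℝ) * m ≤ (1 + μ) * (V * x) + (1 + μ) * V := by
    intro s hs m hm
    obtain ⟨a1, a2⟩ := mem_Ioc.1 hs
    obtain ⟨b1, b2⟩ := p2' m hm
    have a1' : (1 - lam - 4 * μ) * x < s := lt_of_lt_of_le Sb (by exact_mod_cast a1)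
    have a2' : (s : ℝ) ≤ x + 1 := le_trans (by exact_mod_cast a2) k1b.le
    constructor
    · calc (1 - lam - 4 * μ) * (V * x) = ((1 - lam - 4 * μ) * x) * V := by ring
        _ < s * m := mul_lt_mul'' a1' b1 (by positivity) V0.le
    · calc (s : ℝ) * m ≤ (x + 1) * ((1 + μ) * V) := by gcongr
        _ = _ := by ring
  have smn : ∀ s ∈ Ioc S k1, ∀ m ∈ W, s * m < n := by
    intro s hs m hm
    obtain ⟨-, h2⟩ := sm s hs m hm
    have : (s : ℝ) * m < n := by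
      rw [hnx]
      nlinarith
    exact_mod_cast this
  have smr : ∀ s ∈ Ioc S k1, ∀ m ∈ W, ∀ r ∈ W, r * T < n - s * m ∧ n - s * m ≤ r * T' := by
    intro s hs m hm r hr
    obtain ⟨h1, h2⟩ := sm s hs m hm
    have h3 := smn s hs m hm
    obtain ⟨b1, b2⟩ := p2' r hr
    have e : ((n - s * m : ℕ) : ℝ) = n - s * m := by
      rw [Nat.cast_sub h3.le]; push_cast; ring
    constructor
    · have : ((r * T : ℕ) : ℝ) < ((n - s * m : ℕ) : ℝ) := by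
        rw [e]
        push_cast
        calc (r : ℝ) * T ≤ ((1 + μ) * V) * ((1 - 3 * μ) * x) := by gcongr
          _ < n - s * m := by
            rw [hnx]
            nlinarith
      exact_mod_cast this
    · have : ((n - s * m : ℕ) : ℝ) ≤ ((r * T' : ℕ) : ℝ) := by
        rw [e]
        push_cast
        calc (n : ℝ) - s * m ≤ V * ((1 + lam + 4 * μ) * x) := by rw [hnx]; linarith
          _ ≤ r * T' := by gcongr
      exact_mod_cast this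
  have S0 : (0 : ℝ) < S := by linarith
  have S0' : 0 < S := by exact_mod_cast S0
  have T0 : (0 : ℝ) < T := by linarith
  have T0' : 0 < T := by exact_mod_cast T0
  refine ⟨k1, k2, S, k1, ?_, ?_, ?_, ?_, ?_, ?_, ?_, ?_, kmn, smn, ?_, ?_, ?_⟩
  · have : (k1 : ℝ) < k2 := by linarith
    exact_mod_cast this.le
  · have : (S : ℝ) ≤ k1 := by linarith
    exact_mod_cast this
  · linarith
  · linarith
  · linarith
  · linarith
  · linarith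
  · linarith
  · intro k hk m hm r hr hdv
    obtain ⟨t, ht⟩ := hdv
    obtain ⟨h1, h2⟩ := kmr k hk m hm r hr
    have r0 : 0 < r := by
      have := (p2' r hr).1
      have : (0 : ℝ) < r := by linarith
      exact_mod_cast this
    rw [ht, Nat.mul_div_cancel_left _ r0]
    rw [ht] at h1 h2
    exact mem_Ioc.2 ⟨lt_of_mul_lt_mul_left h1 r0.le, le_of_mul_le_mul_left h2 r0⟩
  · intro c hc
    refine hKT2 S k1 _ c S0' ?_ ?_ ?_ ?_ (fun k hk => ⟨hc k hk, ?_⟩) kmr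
    · have : (S : ℝ) ≤ k1 := by linarith
      exact_mod_cast this
    · have : (k1 : ℝ) ≤ 2 * S := by linarith
      exact_mod_cast this
    · have : (n : ℝ) ≤ 4 * V * S := by
        rw [hnx]
        have : x ≤ 2 * S := by linarith
        nlinarith
      exact_mod_cast this
    · calc (1 + μ) * (V : ℝ) * k1 ≤ (1 + μ) * V * (x + 1) := by gcongr
        _ = (1 + μ) * (V * x) + (1 + μ) * V := by ring
        _ < n := by rw [hnx]; linarith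
    · have := (mem_Ioc.1 hk).1
      omega
  · intro c hc
    refine hKT2 T T' _ c T0' ?_ ?_ ?_ ?_ (fun k hk => ⟨hc k hk, ?_⟩) smr
    · have : (T : ℝ) ≤ T' := by linarith
      exact_mod_cast this
    · have : (T' : ℝ) ≤ 2 * T := by linarith
      exact_mod_cast this
    · have : (n : ℝ) ≤ 4 * V * T := by
        rw [hnx]
        have : x ≤ 2 * T := by linarith
        nlinarith
      exact_mod_cast this
    · calc (1 + μ) * (V : ℝ) * T' ≤ (1 + μ) * V * ((1 + lam + 4 * μ) * x + 1) := by gcongr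
        _ = (1 + lam + 5 * μ + lam * μ + 4 * (μ * μ)) * (V * x) + (1 + μ) * V := by ring
        _ < n := by rw [hnx]; linarith
    · have := (mem_Ioc.1 hk).1
      omega

end Pool.Agent.Lib.MP_1446ad_nt.SM
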