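import Pool.Agent.Lib.MP_1446ad_nt.SM.SpecD

/-!
# MP_1446ad_nt, part D: module ZEA, expanding the square
-/

set_option autoImplicit false

namespace Pool.Agent.Lib.MP_1446ad_nt.SM.ZEAM

open Finset
open scoped Classical

/-- The solutions `(P, Q)` of `A P = B Q + N`. -/
noncomputable def sol (S S' N lo hi A B : ℕ) : Finset (ℕ × ℕ) :=
  (Ioc lo hi ×ˢ Ioc S S').filter (fun x => A * x.1 = B * x.2 + N)

lemma GG_eq (Y : Finset ℕ) (S S' N lo hi A B : ℕ) :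
    GG Y S S' N lo hi A B = ∑ x ∈ sol S S' N lo hi A B, gg Y S S' x.1 := by
  unfold GG sol
  rw [sum_filter, sum_product]

lemma sq_split (s : Finset (ℕ × ℕ)) (g : ℕ → ℝ)
    (hinj : ∀ x ∈ s, ∀ y ∈ s, x.1 = y.1 → x = y) :
    (∑ x ∈ s, g x.1) ^ 2 = ∑ x ∈ s, g x.1 ^ 2 +
      2 * ∑ x ∈ s, ∑ y ∈ s, (if x.1 < y.1 then g x.1 * g y.1 else 0) := by
  rw [sq, sum_mul_sum]
  have h1 : ∀ x ∈ s, ∀ y ∈ s, g x.1 * g y.1 =
      (if x = y then g x.1 * g y.1 else 0) + (if x.1 < y.1 then g x.1 * g y.1 else 0) +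
      (if y.1 < x.1 then g y.1 * g x.1 else 0) := by
    intro x hx y hy
    rcases lt_trichotomy x.1 y.1 with h | h | h
    · have hne : x ≠ y := fun e => by rw [e] at h; exact lt_irrefl _ h
      rw [if_neg hne, if_pos h, if_neg (by omega)]
      ring
    · rw [if_pos (hinj x hx y hy h), if_neg (by omega), if_neg (by omega)]
      ring
    · have hne : x ≠ y := fun e => by rw [e] at h; exact lt_irrefl _ h
      rw [if_neg hne, if_neg (by omega), if_pos h]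
      ring
  rw [sum_congr rfl (fun x hx => sum_congr rfl (fun y hy => h1 x hx y hy))]
  simp only [sum_add_distrib]
  have h2 : ∑ x ∈ s, ∑ y ∈ s, (if x = y then g x.1 * g y.1 else 0) = ∑ x ∈ s, g x.1 ^ 2 := by
    apply sum_congr rfl
    intro x hx
    rw [sum_ite_eq, if_pos hx, sq]
  have h3 : ∑ x ∈ s, ∑ y ∈ s, (if y.1 < x.1 then g y.1 * g x.1 else 0) =
      ∑ x ∈ s, ∑ y ∈ s, (if x.1 < y.1 then g x.1 * g y.1 else 0) := by
    rw [sum_comm]
  rw [h2, h3]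
  ring

/-- quadruples `((B, A), ((P, Q), (P', Q')))` -/
noncomputable def UU (S S' B0 N lo hi : ℕ) :
    Finset ((ℕ × ℕ) × ((ℕ × ℕ) × (ℕ × ℕ))) :=
  ((Ioc B0 (2 * B0) ×ˢ Ioc 0 (8 * B0 * S)) ×ˢ
    ((Ioc lo hi ×ˢ Ioc S S') ×ˢ (Ioc lo hi ×ˢ Ioc S S'))).filter
    (fun u => Nat.Coprime u.1.2 u.1.1 ∧ u.1.2 * u.2.1.1 = u.1.1 * u.2.1.2 + N ∧
      u.1.2 * u.2.2.1 = u.1.1 * u.2.2.2 + N ∧ u.2.1.1 < u.2.2.1)

/-- `((t, P), (B, Q))` -/
noncomputable def VV (S S' B0 N lo hi : ℕ) : Finset ((ℕ × ℕ) × (ℕ × ℕ)) :=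
  ((Icc 1 hi ×ˢ Ioc lo hi) ×ˢ (Ioc B0 (2 * B0) ×ˢ Ioc S S')).filter
    (fun v => v.1.2 + v.1.1 * v.2.1 ≤ hi ∧ v.1.2 ∣ v.2.1 * v.2.2 + N ∧
      Nat.Coprime ((v.2.1 * v.2.2 + N) / v.1.2) v.2.1 ∧
      v.2.2 + v.1.1 * ((v.2.1 * v.2.2 + N) / v.1.2) ≤ S')

lemma OffC_eq (Y : Finset ℕ) (S S' B0 N lo hi : ℕ) :
    OffC Y S S' B0 N lo hi = ∑ v ∈ VV S S' B0 N lo hi,
      gg Y S S' v.1.2 * gg Y S S' (v.1.2 + v.1.1 * v.2.1) := by
  unfold OffC VV
  rw [sum_filter, sum_product, sum_product]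
  refine sum_congr rfl fun t _ => sum_congr rfl fun P _ => ?_
  rw [sum_product]
  refine sum_congr rfl fun B _ => ?_
  by_cases h : P + t * B ≤ hi
  · rw [if_pos h, card_filter]
    push_cast
    rw [mul_sum]
    refine sum_congr rfl fun Q _ => ?_
    by_cases h2 : P ∣ B * Q + N ∧ Nat.Coprime ((B * Q + N) / P) B ∧
        Q + t * ((B * Q + N) / P) ≤ S'
    · rw [if_pos h2, if_pos ⟨h, h2⟩, mul_one]
    · rw [if_neg h2, if_neg (fun h3 => h2 h3.2), mul_zero]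
  · rw [if_neg h]
    symm
    apply sum_eq_zero
    intro Q _
    rw [if_neg (fun h3 => h h3.1)]

lemma UU_eq (g : ℕ → ℝ) (S S' B0 N lo hi : ℕ) :
    ∑ B ∈ Ioc B0 (2 * B0), ∑ A ∈ Ioc 0 (8 * B0 * S),
      (if Nat.Coprime A B then
        ∑ x ∈ sol S S' N lo hi A B, ∑ y ∈ sol S S' N lo hi A B,
          (if x.1 < y.1 then g x.1 * g y.1 else 0) else 0) =
    ∑ u ∈ UU S S' B0 N lo hi, g u.2.1.1 * g u.2.2.1 := by
  unfold UU
  rw [sum_filter, sum_product, sum_product]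
  refine sum_congr rfl fun B _ => sum_congr rfl fun A _ => ?_
  rw [sum_product]
  by_cases hc : Nat.Coprime A B
  · rw [if_pos hc]
    unfold sol
    rw [sum_filter]
    refine sum_congr rfl fun x _ => ?_
    by_cases hx : A * x.1 = B * x.2 + N
    · rw [if_pos hx, sum_filter]
      refine sum_congr rfl fun y _ => ?_
      by_cases hy : A * y.1 = B * y.2 + N
      · rw [if_pos hy]
        by_cases hl : x.1 < y.1
        · rw [if_pos hl, if_pos ⟨hc, hx, hy, hl⟩]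
        · rw [if_neg hl, if_neg (fun h => hl h.2.2.2)]
      · rw [if_neg hy, if_neg (fun h => hy h.2.2.1)]
    · rw [if_neg hx]
      symm
      apply sum_eq_zero
      intro y _
      rw [if_neg (fun h => hx h.2.1)]
  · rw [if_neg hc]
    symm
    apply sum_eq_zero
    intro x _
    apply sum_eq_zero
    intro y _
    rw [if_neg (fun h => hc h.1)]

lemma bij (g : ℕ → ℝ) (S S' B0 N lo hi : ℕ) (hS2 : S' ≤ 2 * S) (hN0 : 0 < N)
    (hN4 : N ≤ 4 * B0 * S) :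
    ∑ v ∈ VV S S' B0 N lo hi, g v.1.2 * g (v.1.2 + v.1.1 * v.2.1) =
    ∑ u ∈ UU S S' B0 N lo hi, g u.2.1.1 * g u.2.2.1 := by
  apply sum_bij' (fun v _ => ((v.2.1, (v.2.1 * v.2.2 + N) / v.1.2),
      ((v.1.2, v.2.2), (v.1.2 + v.1.1 * v.2.1,
        v.2.2 + v.1.1 * ((v.2.1 * v.2.2 + N) / v.1.2)))))
    (fun u _ => (((u.2.2.1 - u.2.1.1) / u.1.1, u.2.1.1), (u.1.1, u.2.1.2)))
  · rintro ⟨⟨t, P⟩, ⟨B, Q⟩⟩ hv
    simp only [VV, UU, mem_filter, mem_product, mem_Ioc, mem_Icc] at hv ⊢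
    obtain ⟨⟨⟨⟨ht1, ht2⟩, hP1, hP2⟩, ⟨hB1, hB2⟩, hQ1, hQ2⟩, h1, h2, h3, h4⟩ := hv
    obtain ⟨A, hA⟩ := h2
    have hP0 : 0 < P := by omega
    have hdiv : (B * Q + N) / P = A := by
      rw [hA, Nat.mul_div_cancel_left _ hP0]
    rw [hdiv] at h3 h4 ⊢
    have hA0 : 0 < A := by
      rcases Nat.eq_zero_or_pos A with h | h
      · rw [h, mul_zero] at hA
        omega
      · exact h
    have hBQ : B * Q ≤ 2 * B0 * (2 * S) := Nat.mul_le_mul hB2 (hQ2.trans hS2)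
    have hA8 : A ≤ 8 * B0 * S := by
      have h5 : A ≤ P * A := Nat.le_mul_of_pos_left _ hP0
      have h6 : 2 * B0 * (2 * S) + 4 * B0 * S = 8 * B0 * S := by ring
      omega
    have ht : 0 < t * B := Nat.mul_pos (by omega) (by omega)
    refine ⟨⟨⟨⟨hB1, hB2⟩, hA0, hA8⟩, ⟨⟨hP1, hP2⟩, hQ1, hQ2⟩, ⟨by omega, h1⟩, by omega, h4⟩, h3, ?_,
      ?_, by omega⟩
    · rw [hA, mul_comm]
    · have h5 : A * (P + t * B) = P * A + A * (t * B) := by ring
      rw [h5, ← hA]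
      ring
  · rintro ⟨⟨B, A⟩, ⟨⟨P, Q⟩, ⟨P', Q'⟩⟩⟩ hu
    simp only [VV, UU, mem_filter, mem_product, mem_Ioc, mem_Icc] at hu ⊢
    obtain ⟨⟨⟨⟨hB1, hB2⟩, hA0, hA8⟩, ⟨⟨hP1, hP2⟩, hQ1, hQ2⟩, ⟨hP3, hP4⟩, hQ3, hQ4⟩, h1, h2, h3,
      h4⟩ := hu
    have hB0' : 0 < B := by omega
    have hP0 : 0 < P := by omega
    obtain ⟨e, rfl⟩ : ∃ e, P' = P + e := ⟨P' - P, by omega⟩
    have he : 0 < e := by omega
    have hQQ : Q < Q' := by
      by_contra hcon
      have h5 : B * Q' ≤ B * Q := Nat.mul_le_mul_left _ (by omega)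
      have h6 : A * (P + e) = A * P + A * e := by ring
      have h7 : 0 < A * e := Nat.mul_pos hA0 he
      omega
    obtain ⟨f, rfl⟩ : ∃ f, Q' = Q + f := ⟨Q' - Q, by omega⟩
    have h5 : A * e = B * f := by
      have h6 : A * (P + e) = A * P + A * e := by ring
      have h7 : B * (Q + f) = B * Q + B * f := by ring
      omega
    have h6 : B ∣ e := by
      apply Nat.Coprime.dvd_of_dvd_mul_left h1.symm
      exact ⟨f, h5⟩
    obtain ⟨t, rfl⟩ := h6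
    have ht0 : 0 < t := by
      rcases Nat.eq_zero_or_pos t with h | h
      · rw [h, mul_zero] at he
        omega
      · exact h
    have h7 : f = t * A := by
      have h8 : B * f = B * (t * A) := by rw [← h5]; ring
      exact Nat.eq_of_mul_eq_mul_left hB0' h8
    subst h7
    have h8 : P + B * t - P = B * t := by omega
    rw [h8, Nat.mul_div_cancel_left _ hB0']
    have h9 : (B * Q + N) / P = A := by
      rw [← h2, Nat.mul_div_cancel _ hP0]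
    rw [h9]
    have h10 : t ≤ B * t := Nat.le_mul_of_pos_left _ hB0'
    refine ⟨⟨⟨⟨ht0, by omega⟩, hP1, hP2⟩, ⟨hB1, hB2⟩, hQ1, hQ2⟩, ?_, ?_, h1, hQ4⟩
    · rw [mul_comm t B]
      exact hP4
    · rw [← h2]
      exact Dvd.intro_left A rfl
  · rintro ⟨⟨t, P⟩, ⟨B, Q⟩⟩ hv
    simp only [VV, mem_filter, mem_product, mem_Ioc, mem_Icc] at hv
    obtain ⟨⟨_, ⟨hB1, hB2⟩, _⟩, _⟩ := hv
    simp only [Prod.mk.injEq, and_true]
    rw [Nat.add_sub_cancel_left, Nat.mul_div_cancel _ (by omega)]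
  · rintro ⟨⟨B, A⟩, ⟨⟨P, Q⟩, ⟨P', Q'⟩⟩⟩ hu
    simp only [UU, mem_filter, mem_product, mem_Ioc] at hu
    obtain ⟨⟨⟨⟨hB1, hB2⟩, hA0, hA8⟩, ⟨⟨hP1, hP2⟩, hQ1, hQ2⟩, ⟨hP3, hP4⟩, hQ3, hQ4⟩, h1, h2, h3,
      h4⟩ := hu
    have hB0' : 0 < B := by omega
    have hP0 : 0 < P := by omega
    obtain ⟨e, rfl⟩ : ∃ e, P' = P + e := ⟨P' - P, by omega⟩
    have he : 0 < e := by omega
    have hQQ : Q < Q' := by
      by_contra hcon
      have h5 : B * Q' ≤ B * Q := Nat.mul_le_mul_left _ (by omega)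
      have h6 : A * (P + e) = A * P + A * e := by ring
      have h7 : 0 < A * e := Nat.mul_pos hA0 he
      omega
    obtain ⟨f, rfl⟩ : ∃ f, Q' = Q + f := ⟨Q' - Q, by omega⟩
    have h5 : A * e = B * f := by
      have h6 : A * (P + e) = A * P + A * e := by ring
      have h7 : B * (Q + f) = B * Q + B * f := by ring
      omega
    have h6 : B ∣ e := by
      apply Nat.Coprime.dvd_of_dvd_mul_left h1.symm
      exact ⟨f, h5⟩
    obtain ⟨t, rfl⟩ := h6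
    have h7 : f = t * A := by
      have h8 : B * f = B * (t * A) := by rw [← h5]; ring
      exact Nat.eq_of_mul_eq_mul_left hB0' h8
    subst h7
    have h8 : P + B * t - P = B * t := by omega
    have h9 : (B * Q + N) / P = A := by
      rw [← h2, Nat.mul_div_cancel _ hP0]
    simp only [h8, h9, Nat.mul_div_cancel_left _ hB0', mul_comm t B]
  · intro v _
    rfl

lemma count (T : ℝ) (S S' B0 N lo hi M B : ℕ) (hSS : S ≤ S') (hS2 : S' ≤ 2 * S) (hN0 : 0 < N)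
    (hN4 : N ≤ 4 * B0 * S) (hB2 : B ≤ 2 * B0)
    (hT : ∀ m : ℕ, 0 < m → m ≤ 8 * B0 * S → tau m ≤ T) (hT0 : 0 ≤ T) :
    ∑ A ∈ Ioc 0 M, ((sol S S' N lo hi A B).card : ℝ) ≤ S * T := by
  set W := ((Ioc 0 M) ×ˢ (Ioc lo hi ×ˢ Ioc S S')).filter
    (fun w : ℕ × (ℕ × ℕ) => w.1 * w.2.1 = B * w.2.2 + N) with hW
  have h1 : ∑ A ∈ Ioc 0 M, (sol S S' N lo hi A B).card = W.card := by
    rw [hW, card_filter, sum_product]
    refine sum_congr rfl fun A _ => ?_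
    unfold sol
    rw [card_filter]
  have h2 : W.card ≤ ((Ioc S S').sigma (fun Q => (B * Q + N).divisors)).card := by
    apply card_le_card_of_injOn (fun w => ⟨w.2.2, w.2.1⟩)
    · rintro ⟨A, P, Q⟩ hw
      rw [mem_coe, hW, mem_filter, mem_product, mem_product] at hw
      obtain ⟨⟨_, _, hQ⟩, he⟩ := hw
      rw [mem_coe, mem_sigma]
      refine ⟨hQ, ?_⟩
      rw [Nat.mem_divisors]
      refine ⟨⟨A, ?_⟩, by omega⟩
      simp only at he ⊢
      rw [← he, mul_comm]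
    · rintro ⟨A, P, Q⟩ hw ⟨A', P', Q'⟩ hw' heq
      rw [mem_coe, hW, mem_filter, mem_product, mem_product, mem_Ioc, mem_Ioc, mem_Ioc] at hw hw'
      simp only [Sigma.mk.injEq, heq_eq_eq] at heq
      obtain ⟨rfl, rfl⟩ := heq
      obtain ⟨⟨_, ⟨hP1, _⟩, _⟩, he⟩ := hw
      obtain ⟨_, he'⟩ := hw'
      simp only at he he' hP1
      have h3 : A * P = A' * P := by rw [he, he']
      have h4 : A = A' := Nat.eq_of_mul_eq_mul_right (by omega) h3
      rw [h4]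
  have h3 : (((Ioc S S').sigma (fun Q => (B * Q + N).divisors)).card : ℝ) ≤ S * T := by
    rw [card_sigma]
    push_cast
    have h4 : ∑ Q ∈ Ioc S S', ((B * Q + N).divisors.card : ℝ) ≤ ∑ _Q ∈ Ioc S S', T := by
      apply sum_le_sum
      intro Q hQ
      rw [mem_Ioc] at hQ
      have hBQ : B * Q ≤ 2 * B0 * (2 * S) := Nat.mul_le_mul hB2 (hQ.2.trans hS2)
      have h6 : 2 * B0 * (2 * S) + 4 * B0 * S = 8 * B0 * S := by ring
      exact hT (B * Q + N) (by omega) (by omega)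
    refine h4.trans ?_
    rw [sum_const, nsmul_eq_mul, Nat.card_Ioc]
    apply mul_le_mul_of_nonneg_right _ hT0
    exact_mod_cast (by omega : S' - S ≤ S)
  have h5 : ((∑ A ∈ Ioc 0 M, (sol S S' N lo hi A B).card : ℕ) : ℝ) ≤ S * T := by
    rw [h1]
    exact le_trans (by exact_mod_cast h2) h3
  push_cast at h5
  exact h5

end Pool.Agent.Lib.MP_1446ad_nt.SM.ZEAM

namespace Pool.Agent.Lib.MP_1446ad_nt.SM

open Finset ZEAM
open scoped Classical

theorem specZEA (hGGB : SpecGGB) : SpecZEA := by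
  intro T Y Y0 S S' B0 I N lo hi Dl h d
  obtain ⟨_, hg⟩ := hGGB T Y Y0 S S' B0 I N h
  have hS := h.S0
  have hB := h.B00
  have hBS : 0 < B0 * S := Nat.mul_pos hB hS
  have hT1 : (1 : ℝ) ≤ T := by
    have := (h.T1 1 one_pos (by nlinarith [hBS])).1
    simpa [tau] using this
  have hT0 : (0 : ℝ) ≤ T := by linarith
  have hY0B : Y0 ≤ B0 := le_trans (Nat.le_mul_of_pos_left _ h.I1) h.IYB
  have hhi : hi ≤ 8 * B0 * S := by
    have h1 := d.hi4
    have h2 : Y0 * S ≤ B0 * S := Nat.mul_le_mul_right _ hY0B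
    have h3 : 8 * B0 * S = 8 * (B0 * S) := by ring
    omega
  have key : ∀ B ∈ Ioc B0 (2 * B0), ∀ A ∈ Ioc 0 (8 * B0 * S),
      (if Nat.Coprime A B then GG Y S S' N lo hi A B ^ 2 else 0) ≤
        4 * T ^ 2 * ((sol S S' N lo hi A B).card : ℝ) +
        2 * (if Nat.Coprime A B then
          ∑ x ∈ sol S S' N lo hi A B, ∑ y ∈ sol S S' N lo hi A B,
            (if x.1 < y.1 then gg Y S S' x.1 * gg Y S S' y.1 else 0) else 0) := by
    intro B hB1 A hA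
    rw [mem_Ioc] at hB1 hA
    by_cases hc : Nat.Coprime A B
    · rw [if_pos hc, if_pos hc, GG_eq, sq_split]
      · apply add_le_add_left
        have h1 : ∑ x ∈ sol S S' N lo hi A B, gg Y S S' x.1 ^ 2 ≤
            ∑ _x ∈ sol S S' N lo hi A B, 4 * T ^ 2 := by
          apply sum_le_sum
          intro x hx
          rw [sol, mem_filter, mem_product, mem_Ioc] at hx
          have h2 := hg x.1 (by omega) (hx.1.1.2.trans hhi)
          have h3 := abs_le.1 h2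
          nlinarith [h3.1, h3.2]
        refine h1.trans ?_
        rw [sum_const, nsmul_eq_mul]
        exact le_of_eq (by ring)
      · intro x hx y hy hxy
        rw [sol, mem_filter] at hx hy
        have h2 : B * x.2 = B * y.2 := by
          have h3 := hx.2
          have h4 := hy.2
          rw [hxy] at h3
          omega
        exact Prod.ext hxy (Nat.eq_of_mul_eq_mul_left (by omega) h2)
    · rw [if_neg hc, if_neg hc]
      positivity
  have h1 := sum_le_sum (fun B hB1 => sum_le_sum (fun A hA => key B hB1 A hA))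
  refine h1.trans ?_
  simp only [sum_add_distrib, ← mul_sum]
  rw [UU_eq, ← bij _ _ _ _ _ _ _ h.S2 h.N0 h.N4, ← OffC_eq]
  have h2 : ∑ B ∈ Ioc B0 (2 * B0), ∑ A ∈ Ioc 0 (8 * B0 * S),
      ((sol S S' N lo hi A B).card : ℝ) ≤ B0 * (S * T) := by
    have h3 : ∑ B ∈ Ioc B0 (2 * B0), ∑ A ∈ Ioc 0 (8 * B0 * S),
        ((sol S S' N lo hi A B).card : ℝ) ≤ ∑ _B ∈ Ioc B0 (2 * B0), ((S : ℝ) * T) := by
      apply sum_le_sum
      intro B hB1
      rw [mem_Ioc] at hB1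
      exact count T S S' B0 N lo hi _ B h.SS h.S2 h.N0 h.N4 hB1.2 (fun m hm hm2 =>
        (h.T1 m hm hm2).1) hT0
    refine h3.trans (le_of_eq ?_)
    rw [sum_const, nsmul_eq_mul, Nat.card_Ioc]
    have h4 : 2 * B0 - B0 = B0 := by omega
    rw [h4]
  have h3 : 4 * T ^ 2 * (∑ B ∈ Ioc B0 (2 * B0), ∑ A ∈ Ioc 0 (8 * B0 * S),
      ((sol S S' N lo hi A B).card : ℝ)) ≤ 4 * T ^ 2 * (B0 * (S * T)) :=
    mul_le_mul_of_nonneg_left h2 (by positivity)
  have h4 : 4 * T ^ 2 * ((B0 : ℝ) * (S * T)) = 4 * T ^ 3 * B0 * S := by ring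
  have h5 := le_abs_self (OffC Y S S' B0 N lo hi)
  linarith

end Pool.Agent.Lib.MP_1446ad_nt.SM
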