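import Pool.Agent.Lib.MP_1446ad_nt.SM.SpecD

/-!
# MP_1446ad_nt (sums of two smooth numbers), module ZEB: Moebius inversion in the off-diagonal part
-/

set_option autoImplicit false

namespace Pool.Agent.Lib.MP_1446ad_nt.SM

open Finset
open scoped Classical

namespace ZEBM

lemma reindex (B0 e : ℕ) (he : 0 < e) (F : ℕ → ℕ → ℝ) :
    ∑ B ∈ Ioc B0 (2 * B0), (if e ∣ B then F B (B / e) else 0) =
      ∑ b ∈ Ioc 0 (2 * B0), (if B0 < e * b ∧ e * b ≤ 2 * B0 then F (e * b) b else 0) := by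
  rw [← Finset.sum_filter, ← Finset.sum_filter]
  symm
  apply Finset.sum_nbij' (fun b => e * b) (fun B => B / e)
  · intro b hb
    simp only [Finset.mem_filter, Finset.mem_Ioc] at hb ⊢
    exact ⟨hb.2, Dvd.intro _ rfl⟩
  · intro B hB
    simp only [Finset.mem_filter, Finset.mem_Ioc] at hB ⊢
    obtain ⟨⟨h1, h2⟩, h3⟩ := hB
    rw [Nat.mul_div_cancel' h3]
    refine ⟨⟨Nat.div_pos (Nat.le_of_dvd (by omega) h3) he, ?_⟩, h1, h2⟩
    exact (Nat.div_le_self _ _).trans h2
  · intro b hb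
    exact Nat.mul_div_cancel_left b he
  · intro B hB
    simp only [Finset.mem_filter] at hB ⊢
    exact Nat.mul_div_cancel' hB.2
  · intro b hb
    have h1 : e * b / e = b := Nat.mul_div_cancel_left b he
    rw [h1]

lemma sum_moebius (n : ℕ) :
    ∑ e ∈ n.divisors, (ArithmeticFunction.moebius e : ℝ) = if n = 1 then 1 else 0 := by
  have h1 := congrArg (fun f : ArithmeticFunction ℤ => f n)
    ArithmeticFunction.moebius_mul_coe_zeta
  simp only [ArithmeticFunction.coe_mul_zeta_apply, ArithmeticFunction.one_apply] at h1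
  have h2 : ((∑ e ∈ n.divisors, ArithmeticFunction.moebius e : ℤ) : ℝ) =
      ((if n = 1 then 1 else 0 : ℤ) : ℝ) := by rw [h1]
  push_cast at h2
  exact h2

/-- The indicator of coprimality. -/
lemma ind (N P B Q S' t : ℕ) (hN : 0 < N) :
    (if P ∣ B * Q + N ∧ Nat.Coprime ((B * Q + N) / P) B ∧ Q + t * ((B * Q + N) / P) ≤ S'
      then (1 : ℝ) else 0) =
    ∑ e ∈ N.divisors, (ArithmeticFunction.moebius e : ℝ) *
      (if e ∣ B then (if P ∣ (B / e) * Q + N / e ∧
        Q + t * (e * (((B / e) * Q + N / e) / P)) ≤ S' then (1 : ℝ) else 0) else 0) := by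
  -- rewrite the terms
  have hterm : ∀ e ∈ N.divisors,
      (if e ∣ B then (if P ∣ (B / e) * Q + N / e ∧
        Q + t * (e * (((B / e) * Q + N / e) / P)) ≤ S' then (1 : ℝ) else 0) else 0) =
      (if (P ∣ B * Q + N ∧ Q + t * ((B * Q + N) / P) ≤ S') ∧
        e ∣ Nat.gcd ((B * Q + N) / P) B then (1 : ℝ) else 0) := by
    intro e he
    have he1 : e ∣ N := Nat.dvd_of_mem_divisors he
    have he0 : 0 < e := Nat.pos_of_mem_divisors he
    by_cases hB : e ∣ B
    · rw [if_pos hB]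
      obtain ⟨b, rfl⟩ := hB
      obtain ⟨M, rfl⟩ := he1
      rw [Nat.mul_div_cancel_left _ he0, Nat.mul_div_cancel_left _ he0]
      have e1 : e * b * Q + e * M = e * (b * Q + M) := by ring
      rw [e1]
      have hiff : (P ∣ b * Q + M ∧ Q + t * (e * ((b * Q + M) / P)) ≤ S') ↔
          ((P ∣ e * (b * Q + M) ∧ Q + t * (e * (b * Q + M) / P) ≤ S') ∧
            e ∣ Nat.gcd (e * (b * Q + M) / P) (e * b)) := by
        constructor
        · rintro ⟨h1, h2⟩
          have h3 : e * (b * Q + M) / P = e * ((b * Q + M) / P) := Nat.mul_div_assoc e h1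
          rw [h3]
          exact ⟨⟨Dvd.dvd.mul_left h1 e, h2⟩, Nat.dvd_gcd (Dvd.intro _ rfl) (Dvd.intro _ rfl)⟩
        · rintro ⟨⟨h1, h2⟩, h3⟩
          have h4 : e ∣ e * (b * Q + M) / P := h3.trans (Nat.gcd_dvd_left _ _)
          obtain ⟨a, ha⟩ := h4
          have h5 : e * (b * Q + M) = P * (e * a) := by
            rw [← ha]
            exact (Nat.mul_div_cancel' h1).symm
          have h6 : b * Q + M = P * a := by
            have h7 : e * (b * Q + M) = e * (P * a) := by rw [h5]; ring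
            exact Nat.eq_of_mul_eq_mul_left he0 h7
          have h8 : P ∣ b * Q + M := ⟨a, h6⟩
          have h9 : e * (b * Q + M) / P = e * ((b * Q + M) / P) := Nat.mul_div_assoc e h8
          rw [h9] at h2
          exact ⟨h8, h2⟩
      by_cases h : (P ∣ b * Q + M ∧ Q + t * (e * ((b * Q + M) / P)) ≤ S')
      · rw [if_pos h, if_pos (hiff.mp h)]
      · rw [if_neg h, if_neg (fun h' => h (hiff.mpr h'))]
    · rw [if_neg hB, if_neg]
      rintro ⟨_, h3⟩
      exact hB (h3.trans (Nat.gcd_dvd_right _ _))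
  rw [Finset.sum_congr rfl (fun e he => by rw [hterm e he])]
  by_cases h1 : P ∣ B * Q + N ∧ Q + t * ((B * Q + N) / P) ≤ S'
  · have h2 : ∀ e, ((P ∣ B * Q + N ∧ Q + t * ((B * Q + N) / P) ≤ S') ∧
        e ∣ Nat.gcd ((B * Q + N) / P) B) ↔ e ∣ Nat.gcd ((B * Q + N) / P) B :=
      fun e => ⟨fun h => h.2, fun h => ⟨h1, h⟩⟩
    simp only [h2, mul_ite, mul_one, mul_zero]
    rw [← Finset.sum_filter]
    have h3 : N.divisors.filter (fun e => e ∣ Nat.gcd ((B * Q + N) / P) B) =
        (Nat.gcd ((B * Q + N) / P) B).divisors := by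
      have hg : Nat.gcd ((B * Q + N) / P) B ∣ N := by
        have h4 : Nat.gcd ((B * Q + N) / P) B ∣ B * Q + N := by
          refine (Nat.gcd_dvd_left _ _).trans ?_
          exact Nat.div_dvd_of_dvd h1.1
        have h5 : Nat.gcd ((B * Q + N) / P) B ∣ B * Q :=
          Dvd.dvd.mul_right (Nat.gcd_dvd_right _ _) Q
        exact (Nat.dvd_add_right h5).mp h4
      ext e
      simp only [Finset.mem_filter, Nat.mem_divisors]
      constructor
      · rintro ⟨_, h4⟩
        refine ⟨h4, ?_⟩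
        intro h5
        rw [h5] at hg
        exact hN.ne' (Nat.eq_zero_of_zero_dvd hg)
      · rintro ⟨h4, _⟩
        exact ⟨⟨h4.trans hg, hN.ne'⟩, h4⟩
    rw [h3, sum_moebius]
    by_cases hc : Nat.Coprime ((B * Q + N) / P) B
    · rw [if_pos ⟨h1.1, hc, h1.2⟩, if_pos hc]
    · rw [if_neg (fun h => hc h.2.1), if_neg hc]
  · rw [if_neg (fun h => h1 ⟨h.1, h.2.2⟩)]
    symm
    apply Finset.sum_eq_zero
    intro e _
    rw [if_neg (fun h => h1 h.1), mul_zero]

/-- The number of `Q`. -/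
lemma card_eq (N P B S S' t : ℕ) (hN : 0 < N) :
    (((Ioc S S').filter (fun Q => P ∣ B * Q + N ∧ Nat.Coprime ((B * Q + N) / P) B ∧
        Q + t * ((B * Q + N) / P) ≤ S')).card : ℝ) =
    ∑ e ∈ N.divisors, (ArithmeticFunction.moebius e : ℝ) *
      (if e ∣ B then (((Ioc S S').filter (fun Q => P ∣ (B / e) * Q + N / e ∧
        Q + t * (e * (((B / e) * Q + N / e) / P)) ≤ S')).card : ℝ) else 0) := by
  rw [Finset.card_filter, Nat.cast_sum]
  have h1 : ∀ Q ∈ Ioc S S', ((if P ∣ B * Q + N ∧ Nat.Coprime ((B * Q + N) / P) B ∧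
      Q + t * ((B * Q + N) / P) ≤ S' then 1 else 0 : ℕ) : ℝ) =
      ∑ e ∈ N.divisors, (ArithmeticFunction.moebius e : ℝ) *
      (if e ∣ B then (if P ∣ (B / e) * Q + N / e ∧
        Q + t * (e * (((B / e) * Q + N / e) / P)) ≤ S' then (1 : ℝ) else 0) else 0) := by
    intro Q _
    rw [← ind N P B Q S' t hN]
    push_cast
    rfl
  rw [Finset.sum_congr rfl h1, Finset.sum_comm]
  refine Finset.sum_congr rfl (fun e _ => ?_)
  rw [← Finset.mul_sum]
  congr 1
  by_cases hB : e ∣ B
  · simp only [if_pos hB]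
    rw [Finset.card_filter, Nat.cast_sum]
    refine Finset.sum_congr rfl (fun Q _ => ?_)
    push_cast
    rfl
  · simp only [if_neg hB]
    exact Finset.sum_const_zero

end ZEBM

open ZEBM in
/-- Moebius inversion in the off-diagonal part. -/
theorem specZEB : SpecZEB := by
  intro Y S S' B0 N lo hi hN
  unfold OffC OffE
  simp only [Finset.mul_sum]
  conv_rhs => rw [Finset.sum_comm]
  refine Finset.sum_congr rfl (fun t _ => ?_)
  conv_rhs => rw [Finset.sum_comm]
  refine Finset.sum_congr rfl (fun P _ => ?_)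
  have h1 : ∀ e ∈ N.divisors, ∑ b ∈ Ioc 0 (2 * B0), (ArithmeticFunction.moebius e : ℝ) *
      (if B0 < e * b ∧ e * b ≤ 2 * B0 ∧ P + t * (e * b) ≤ hi then
      gg Y S S' P * gg Y S S' (P + t * (e * b)) *
      (((Ioc S S').filter (fun Q => P ∣ b * Q + N / e ∧
        Q + t * (e * ((b * Q + N / e) / P)) ≤ S')).card : ℝ) else 0) =
      ∑ B ∈ Ioc B0 (2 * B0), (if e ∣ B then (ArithmeticFunction.moebius e : ℝ) *
      (if P + t * B ≤ hi then
      gg Y S S' P * gg Y S S' (P + t * B) *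
      (((Ioc S S').filter (fun Q => P ∣ (B / e) * Q + N / e ∧
        Q + t * (e * (((B / e) * Q + N / e) / P)) ≤ S')).card : ℝ) else 0) else 0) := by
    intro e he
    have he0 : 0 < e := Nat.pos_of_mem_divisors he
    rw [reindex B0 e he0 (fun B b => (ArithmeticFunction.moebius e : ℝ) *
      (if P + t * B ≤ hi then
      gg Y S S' P * gg Y S S' (P + t * B) *
      (((Ioc S S').filter (fun Q => P ∣ b * Q + N / e ∧
        Q + t * (e * ((b * Q + N / e) / P)) ≤ S')).card : ℝ) else 0))]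
    refine Finset.sum_congr rfl (fun b _ => ?_)
    by_cases h2 : B0 < e * b ∧ e * b ≤ 2 * B0
    · rw [if_pos h2]
      by_cases h3 : P + t * (e * b) ≤ hi
      · rw [if_pos h3, if_pos ⟨h2.1, h2.2, h3⟩]
      · rw [if_neg h3, if_neg (fun h => h3 h.2.2)]
    · rw [if_neg h2, if_neg (fun h => h2 ⟨h.1, h.2.1⟩), mul_zero]
  rw [Finset.sum_congr rfl h1]
  conv_rhs => rw [Finset.sum_comm]
  refine Finset.sum_congr rfl (fun B _ => ?_)
  by_cases h3 : P + t * B ≤ hi
  · simp only [if_pos h3]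
    rw [card_eq N P B S S' t hN, Finset.mul_sum]
    refine Finset.sum_congr rfl (fun e _ => ?_)
    split_ifs
    · ring
    · ring
  · simp only [if_neg h3, mul_zero, ite_self, Finset.sum_const_zero]

end Pool.Agent.Lib.MP_1446ad_nt.SM
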