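import Pool.Agent.Lib.MP_1446ad_nt.SM.AVG
import Pool.Agent.Lib.MP_1446ad_nt.SM.BIG
import Pool.Agent.Lib.MP_1446ad_nt.SM.BND
import Pool.Agent.Lib.MP_1446ad_nt.SM.BOX
import Pool.Agent.Lib.MP_1446ad_nt.SM.BPC
import Pool.Agent.Lib.MP_1446ad_nt.SM.DDB
import Pool.Agent.Lib.MP_1446ad_nt.SM.DEC
import Pool.Agent.Lib.MP_1446ad_nt.SM.DIV
import Pool.Agent.Lib.MP_1446ad_nt.SM.DSF
import Pool.Agent.Lib.MP_1446ad_nt.SM.DSP
import Pool.Agent.Lib.MP_1446ad_nt.SM.FIN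
import Pool.Agent.Lib.MP_1446ad_nt.SM.FOU
import Pool.Agent.Lib.MP_1446ad_nt.SM.GCS
import Pool.Agent.Lib.MP_1446ad_nt.SM.GEO
import Pool.Agent.Lib.MP_1446ad_nt.SM.GGB
import Pool.Agent.Lib.MP_1446ad_nt.SM.HCG
import Pool.Agent.Lib.MP_1446ad_nt.SM.HEB
import Pool.Agent.Lib.MP_1446ad_nt.SM.KLB
import Pool.Agent.Lib.MP_1446ad_nt.SM.KMU
import Pool.Agent.Lib.MP_1446ad_nt.SM.KPR
import Pool.Agent.Lib.MP_1446ad_nt.SM.KTA
import Pool.Agent.Lib.MP_1446ad_nt.SM.KTD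
import Pool.Agent.Lib.MP_1446ad_nt.SM.LDB
import Pool.Agent.Lib.MP_1446ad_nt.SM.MNP
import Pool.Agent.Lib.MP_1446ad_nt.SM.MRA
import Pool.Agent.Lib.MP_1446ad_nt.SM.MRB
import Pool.Agent.Lib.MP_1446ad_nt.SM.NSM
import Pool.Agent.Lib.MP_1446ad_nt.SM.OFE
import Pool.Agent.Lib.MP_1446ad_nt.SM.OQA
import Pool.Agent.Lib.MP_1446ad_nt.SM.PIG
import Pool.Agent.Lib.MP_1446ad_nt.SM.PRP
import Pool.Agent.Lib.MP_1446ad_nt.SM.QCT
import Pool.Agent.Lib.MP_1446ad_nt.SM.QEX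
import Pool.Agent.Lib.MP_1446ad_nt.SM.SPA
import Pool.Agent.Lib.MP_1446ad_nt.SM.SPL
import Pool.Agent.Lib.MP_1446ad_nt.SM.SQF
import Pool.Agent.Lib.MP_1446ad_nt.SM.STP
import Pool.Agent.Lib.MP_1446ad_nt.SM.THA
import Pool.Agent.Lib.MP_1446ad_nt.SM.THB
import Pool.Agent.Lib.MP_1446ad_nt.SM.TOW
import Pool.Agent.Lib.MP_1446ad_nt.SM.TRI
import Pool.Agent.Lib.MP_1446ad_nt.SM.UPP
import Pool.Agent.Lib.MP_1446ad_nt.SM.WEI
import Pool.Agent.Lib.MP_1446ad_nt.SM.WIN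
import Pool.Agent.Lib.MP_1446ad_nt.SM.WNC
import Pool.Agent.Lib.MP_1446ad_nt.SM.ZEA
import Pool.Agent.Lib.MP_1446ad_nt.SM.ZEB

/-!
# MP_1446ad_nt: assembly of all modules
-/

set_option autoImplicit false

namespace Pool.Agent.Lib.MP_1446ad_nt.SM

theorem allQEX : SpecQEX := specQEX specQCT
theorem allTOW : SpecTOW := specTOW allQEX
theorem allBND : SpecBND := specBND specSTP
theorem allWEI : SpecWEI := specWEI allTOW allBND
theorem allKPR : SpecKPR := specKPR allWEI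
theorem allSQF : SpecSQF := specSQF allKPR specKMU
theorem allKLB : SpecKLB := specKLB specKMU allSQF specTRI
theorem allBOX : SpecBOX := specBOX specFOU allKLB specGEO specGCS specDEC
theorem allAVG : SpecAVG := specAVG specDEC
theorem allUPP : SpecUPP := specUPP allBOX allAVG specSPA
theorem allMNP : SpecMNP := specMNP allBOX
theorem allOFE : SpecOFE := specOFE specGGB allUPP allMNP allAVG specSPA
theorem allBIG : SpecBIG := specBIG specGGB
theorem allZEA : SpecZEA := specZEA specGGB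
theorem allDSP : SpecDSP := specDSP allZEA specZEB allBIG allOFE
theorem allDSF : SpecDSF := specDSF allDSP
theorem allBPC : SpecBPC := specBPC specDDB
theorem allLDB : SpecLDB := specLDB specDDB allBPC
theorem allHEB : SpecHEB := specHEB specDDB
theorem allOQA : SpecOQA := specOQA allDSF specDDB specSPL specHCG allHEB allLDB
theorem allKTD : SpecKTD := specKTD specDDB allOQA
theorem allKTA : SpecKTA := specKTA allKTD specDIV specPRP
theorem allWNC : SpecWNC := specWNC allKTA specPRP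
theorem allWIN : SpecWIN := specWIN specPIG specPRP
theorem allNSM : SpecNSM := specNSM (specMRB specMRA)
theorem allTHA : SpecTHA := specTHA allWNC allWIN specPRP allNSM specFIN
theorem allTHB : SpecTHB := specTHB allTHA

end Pool.Agent.Lib.MP_1446ad_nt.SM
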