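import Pool.Agent.Lib.MP_1446ad_nt.SM.SpecF

set_option autoImplicit false

namespace Pool.Agent.Lib.MP_1446ad_nt.SM

open Finset Filter
open scoped Classical

namespace FINM

/-- the triples -/
noncomputable def TT (n : ℕ) (K W : Finset ℕ) (P : ℕ → Prop) : Finset (ℕ × ℕ × ℕ) :=
  (K ×ˢ W ×ˢ W).filter (fun t => P t.1 ∧ t.2.2 ∣ n - t.1 * t.2.1)

theorem cnt (n : ℕ) (K W : Finset ℕ) (P : ℕ → Prop) :
    ∑ k ∈ K, (if P k then (1 : ℝ) else 0) * ∑ m ∈ W, ∑ r ∈ W,
      ((if r ∣ n - k * m then (1 : ℝ) else 0) - 1 / (r : ℝ)) =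
    ((TT n K W P).card : ℝ) - (K.filter P).card * (W.card * ∑ r ∈ W, 1 / (r : ℝ)) := by
  have h1 : ((TT n K W P).card : ℝ) = ∑ k ∈ K, (if P k then (1 : ℝ) else 0) *
      ∑ m ∈ W, ∑ r ∈ W, (if r ∣ n - k * m then (1 : ℝ) else 0) := by
    unfold TT
    rw [Finset.card_filter, Finset.sum_product]
    push_cast
    refine Finset.sum_congr rfl fun k _ => ?_
    rw [Finset.sum_product]
    by_cases hk : P k
    · simp [hk]
    · simp [hk]
  have h2 : ((K.filter P).card : ℝ) * (W.card * ∑ r ∈ W, 1 / (r : ℝ)) =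
      ∑ k ∈ K, (if P k then (1 : ℝ) else 0) * (W.card * ∑ r ∈ W, 1 / (r : ℝ)) := by
    rw [← Finset.sum_mul, Finset.card_filter]
    push_cast
    rfl
  rw [h1, h2, ← Finset.sum_sub_distrib]
  refine Finset.sum_congr rfl fun k _ => ?_
  rw [← mul_sub]
  congr 1
  simp only [Finset.sum_sub_distrib, Finset.sum_const, nsmul_eq_mul]

end FINM

open FINM in
theorem specFIN : SpecFIN := by
  intro n K Ss W E bad hW hK hSs hdiv h1 h2 hE
  by_contra hcon
  push Not at hcon
  have e1 := h1 (fun _ => @ite ℝ True (Classical.propDecidable True) 1 0) (fun k _ => by simp)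
  have e2 := h1 (fun k => if bad k then (1 : ℝ) else 0) (fun k _ => by
    by_cases hb : bad k <;> simp [hb])
  have e3 := h2 (fun k => if bad k then (1 : ℝ) else 0) (fun k _ => by
    by_cases hb : bad k <;> simp [hb])
  have c1 := cnt n K W (fun _ => True)
  have c2 := cnt n K W bad
  have c3 := cnt n Ss W bad
  rw [c1] at e1
  rw [c2] at e2
  rw [c3] at e3
  -- the main inequality
  have hle : (TT n K W (fun _ => True)).card ≤ (TT n K W bad).card + (TT n Ss W bad).card := by
    have hsub : TT n K W (fun _ => True) ⊆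
        TT n K W bad ∪ TT n K W (fun k => ¬ bad k) := by
      intro t ht
      unfold TT at ht ⊢
      simp only [Finset.mem_union, Finset.mem_filter] at ht ⊢
      by_cases hb : bad t.1
      · exact Or.inl ⟨ht.1, hb, ht.2.2⟩
      · exact Or.inr ⟨ht.1, hb, ht.2.2⟩
    refine (Finset.card_le_card hsub).trans ((Finset.card_union_le _ _).trans ?_)
    refine Nat.add_le_add_left ?_ _
    refine Finset.card_le_card_of_injOn
      (fun t => ((n - t.1 * t.2.1) / t.2.2, t.2.2, t.2.1)) ?_ ?_
    · intro t ht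
      have ht' : t ∈ TT n K W (fun k => ¬ bad k) := ht
      unfold TT at ht'
      simp only [Finset.mem_filter, Finset.mem_product] at ht'
      obtain ⟨⟨hk, hm, hr⟩, hb, hd⟩ := ht'
      have hs := hdiv t.1 hk t.2.1 hm t.2.2 hr hd
      have hkm := hK t.1 hk t.2.1 hm
      have hmul : t.2.2 * ((n - t.1 * t.2.1) / t.2.2) = n - t.1 * t.2.1 := Nat.mul_div_cancel' hd
      have hsum : t.1 * t.2.1 + t.2.2 * ((n - t.1 * t.2.1) / t.2.2) = n := by
        rw [hmul]; omega
      have hbs : bad ((n - t.1 * t.2.1) / t.2.2) := by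
        by_contra hnb
        exact hcon t.1 hk _ hs t.2.1 hm t.2.2 hr hb hnb hsum
      show _ ∈ TT n Ss W bad
      unfold TT
      simp only [Finset.mem_filter, Finset.mem_product]
      refine ⟨⟨hs, hr, hm⟩, hbs, ?_⟩
      have h3 : n - (n - t.1 * t.2.1) / t.2.2 * t.2.2 = t.1 * t.2.1 := by
        rw [mul_comm, hmul]; omega
      rw [h3]
      exact Dvd.intro_left _ rfl
    · intro t ht t' ht' heq
      have ht1 : t ∈ TT n K W (fun k => ¬ bad k) := ht
      have ht2 : t' ∈ TT n K W (fun k => ¬ bad k) := ht'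
      unfold TT at ht1 ht2
      simp only [Finset.mem_filter, Finset.mem_product] at ht1 ht2
      obtain ⟨⟨hk, hm, hr⟩, hb, hd⟩ := ht1
      obtain ⟨⟨hk', hm', hr'⟩, hb', hd'⟩ := ht2
      simp only [Prod.mk.injEq] at heq
      obtain ⟨q1, q2, q3⟩ := heq
      obtain ⟨k, m, r⟩ := t
      obtain ⟨k', m', r'⟩ := t'
      simp only at q1 q2 q3 hk hm hr hd hk' hm' hr' hd'
      subst q2
      subst q3
      have hkm := hK k hk m hm
      have hkm' := hK k' hk' m hm
      have hmul : r * ((n - k * m) / r) = n - k * m := Nat.mul_div_cancel' hd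
      have hmul' : r * ((n - k' * m) / r) = n - k' * m := Nat.mul_div_cancel' hd'
      rw [q1] at hmul
      have h4 : k * m = k' * m := by omega
      have h5 : k = k' := Nat.eq_of_mul_eq_mul_right (hW m hm) h4
      rw [h5]
  have hle' : ((TT n K W (fun _ => True)).card : ℝ) ≤
      (TT n K W bad).card + (TT n Ss W bad).card := by exact_mod_cast hle
  have hKc : ∀ inst : DecidablePred (fun _ : ℕ => True),
      (@Finset.filter ℕ (fun _ => True) inst K).card = K.card := by
    intro inst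
    exact congrArg Finset.card (@Finset.filter_true_of_mem ℕ _ inst K (fun _ _ => trivial))
  rw [hKc] at e1
  have f1 := (abs_le.1 e1).1
  have f2 := (abs_le.1 e2).2
  have f3 := (abs_le.1 e3).2
  nlinarith

end Pool.Agent.Lib.MP_1446ad_nt.SM
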