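import Pool.Agent.Lib.MP_1446ad_nt.SM.SpecD

set_option autoImplicit false

namespace Pool.Agent.Lib.MP_1446ad_nt.SM.KTDM

open Finset

theorem a_le (K U : Finset ℕ) (c : ℕ → ℝ) (hK : ∀ k ∈ K, |c k| ≤ 1 ∧ 0 < k) (q : ℕ) (hq : 0 < q) :
    |∑ p ∈ (K ×ˢ U).filter (fun p => p.1 * p.2 = q), c p.1| ≤ tau q := by
  have h1 : |∑ p ∈ (K ×ˢ U).filter (fun p => p.1 * p.2 = q), c p.1|
      ≤ (((K ×ˢ U).filter (fun p => p.1 * p.2 = q)).card : ℝ) := by
    refine (Finset.abs_sum_le_sum_abs _ _).trans ?_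
    have := Finset.sum_le_card_nsmul ((K ×ˢ U).filter (fun p => p.1 * p.2 = q))
      (fun p => |c p.1|) 1 (fun p hp =>
        (hK p.1 (Finset.mem_product.1 (Finset.mem_filter.1 hp).1).1).1)
    simpa using this
  refine h1.trans ?_
  unfold tau
  have h2 : ((K ×ˢ U).filter (fun p => p.1 * p.2 = q)).card ≤ q.divisors.card := by
    apply Finset.card_le_card_of_injOn Prod.fst
    · intro p hp
      have hp' := (Finset.mem_filter.1 hp).2
      exact Nat.mem_divisors.2 ⟨⟨p.2, hp'.symm⟩, hq.ne'⟩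
    · intro p hp p' hp' h
      have e1 := (Finset.mem_filter.1 hp).2
      have e2 := (Finset.mem_filter.1 hp').2
      have k0 := (hK p.1 (Finset.mem_product.1 (Finset.mem_filter.1 hp).1).1).2
      have h' : p.1 = p'.1 := h
      rw [← e2, ← h'] at e1
      exact Prod.ext h' (Nat.eq_of_mul_eq_mul_left k0 e1)
  exact_mod_cast h2

theorem OM_nonneg (T : ℝ) (n M2 Y0 V S I : ℕ) (hT : 0 ≤ T) : 0 ≤ OM T n M2 Y0 V S I := by
  unfold OM
  positivity

end KTDM

open KTDM Finset in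
theorem specKTD (hDDB : SpecDDB) (hOQA : SpecOQA) : SpecKTD := by
  intro T n M2 Y0 V S S' I Mm Y R hK K U c hKc hU hcond
  obtain ⟨hT1, hcard, hinj, hD0, hDn, -⟩ := hDDB T n M2 Y0 V S S' I Mm Y R hK
  have hO := hOQA T n M2 Y0 V S S' I Mm Y R hK
  have hM20 := hK.M20
  have hM2' : (0 : ℝ) < M2 := by exact_mod_cast hM20
  have hOM := OM_nonneg T n M2 Y0 V S I (by linarith)
  set W : ℕ → ℝ := fun q => ∑ m ∈ Mm, DD Y R S S' (n - q * m) with hW
  -- rewrite the left side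
  have hL : ∑ k ∈ K, c k * ∑ u ∈ U, ∑ m ∈ Mm, ∑ y ∈ Y, ∑ r ∈ R,
      ((if y * r ∣ n - k * (u * m) then (1 : ℝ) else 0) - 1 / ((y : ℝ) * r))
      = ∑ p ∈ K ×ˢ U, c p.1 * W (p.1 * p.2) := by
    rw [Finset.sum_product]
    apply Finset.sum_congr rfl
    intro k hk
    rw [Finset.mul_sum]
    apply Finset.sum_congr rfl
    intro u hu
    congr 1
    simp only [hW]
    apply Finset.sum_congr rfl
    intro m hm
    unfold DD
    apply Finset.sum_congr rfl
    intro y hy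
    apply Finset.sum_congr rfl
    intro r hr
    have h1 := hcond k hk u hu m hm y hy r hr
    rw [mul_assoc k u m, if_pos h1]
  rw [hL]
  have hRHS : 0 ≤ T ^ 2 * ((n : ℝ) / M2) * (4 * T ^ 2 * n + (M2 : ℝ) ^ 2 * OM T n M2 Y0 V S I) := by
    positivity
  -- degenerate cases
  by_cases hne : Mm.Nonempty ∧ Y.Nonempty ∧ R.Nonempty
  swap
  · have hz : ∀ q, W q = 0 := by
      intro q
      simp only [hW]
      by_cases h1 : Mm.Nonempty
      · apply Finset.sum_eq_zero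
        intro m _
        unfold DD
        by_cases h2 : Y.Nonempty
        · have h3 : R = ∅ := by
            rw [← Finset.not_nonempty_iff_eq_empty]
            intro h3
            exact hne ⟨h1, h2, h3⟩
          rw [h3]
          simp
        · rw [Finset.not_nonempty_iff_eq_empty.1 h2]
          simp
      · rw [Finset.not_nonempty_iff_eq_empty.1 h1]
        simp
    have : ∑ p ∈ K ×ˢ U, c p.1 * W (p.1 * p.2) = 0 := by
      apply Finset.sum_eq_zero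
      intro p _
      rw [hz, mul_zero]
    rw [this]
    simpa using hRHS
  obtain ⟨⟨m0, hm0⟩, ⟨y0, hy0⟩, ⟨r0, hr0⟩⟩ := hne
  have hmaps : ∀ p ∈ K ×ˢ U, p.1 * p.2 ∈ Ioc 0 (n / M2) := by
    intro p hp
    obtain ⟨hk, hu⟩ := Finset.mem_product.1 hp
    have h1 := (hcond p.1 hk p.2 hu m0 hm0 y0 hy0 r0 hr0).1
    have h2 := (hK.Mp m0 hm0).2.1
    have hk0 := (hKc p.1 hk).2
    have hu0 := hU p.2 hu
    rw [Finset.mem_Ioc]
    refine ⟨Nat.mul_pos hk0 hu0, ?_⟩
    rw [Nat.le_div_iff_mul_le hM20]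
    have h3 : p.1 * (p.2 * m0) < n := by omega
    calc p.1 * p.2 * M2 ≤ p.1 * p.2 * m0 := Nat.mul_le_mul_left _ h2.le
      _ = p.1 * (p.2 * m0) := by ring
      _ ≤ n := h3.le
  set a : ℕ → ℝ := fun q => ∑ p ∈ (K ×ˢ U).filter (fun p => p.1 * p.2 = q), c p.1 with ha
  have hZ : ∑ p ∈ K ×ˢ U, c p.1 * W (p.1 * p.2) = ∑ q ∈ Ioc 0 (n / M2), a q * W q := by
    rw [← Finset.sum_fiberwise_of_maps_to hmaps]
    apply Finset.sum_congr rfl
    intro q _
    simp only [ha]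
    rw [Finset.sum_mul]
    apply Finset.sum_congr rfl
    intro p hp
    rw [(Finset.mem_filter.1 hp).2]
  rw [hZ]
  have hCS := Finset.sum_mul_sq_le_sq_mul_sq (Ioc 0 (n / M2)) a W
  have hnM : ((n / M2 : ℕ) : ℝ) ≤ (n : ℝ) / M2 := Nat.cast_div_le
  have hA : ∑ q ∈ Ioc 0 (n / M2), a q ^ 2 ≤ T ^ 2 * ((n : ℝ) / M2) := by
    have h1 : ∀ q ∈ Ioc 0 (n / M2), a q ^ 2 ≤ T ^ 2 := by
      intro q hq
      obtain ⟨q0, q1⟩ := Finset.mem_Ioc.1 hq
      have h2 := a_le K U c hKc q q0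
      have hqn : q ≤ n := q1.trans (Nat.div_le_self _ _)
      have h3 : q ≤ 16 * M2 * V * S := by
        have h4 := hK.nVS
        have h5 : 4 * V * S ≤ 16 * M2 * V * S := by
          have : 4 * V * S * 1 ≤ 4 * V * S * (4 * M2) := Nat.mul_le_mul_left _ (by omega)
          nlinarith
        omega
      have h6 := (hK.T1 q q0 h3).1
      rw [← sq_abs]
      exact pow_le_pow_left₀ (abs_nonneg _) (h2.trans h6) 2
    refine (Finset.sum_le_card_nsmul _ _ _ h1).trans ?_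
    rw [nsmul_eq_mul, Nat.card_Ioc, Nat.sub_zero, mul_comm]
    exact mul_le_mul_of_nonneg_left hnM (by positivity)
  have hWW : ∑ q ∈ Ioc 0 (n / M2), W q ^ 2 ≤ ∑ q ∈ Ioc 0 n, W q ^ 2 := by
    apply Finset.sum_le_sum_of_subset_of_nonneg
    · exact Finset.Ioc_subset_Ioc_right (Nat.div_le_self _ _)
    · intro q _ _; positivity
  have hMcard : (Mm.card : ℝ) ≤ M2 := by
    have : Mm ⊆ Ioc M2 (2 * M2) := by
      intro m hm
      exact Finset.mem_Ioc.2 ⟨(hK.Mp m hm).2.1, (hK.Mp m hm).2.2.1⟩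
    have h1 := Finset.card_le_card this
    rw [Nat.card_Ioc] at h1
    have h2 : Mm.card ≤ M2 := by omega
    exact_mod_cast h2
  have hexp : ∑ q ∈ Ioc 0 n, W q ^ 2 = ∑ m ∈ Mm, ∑ m' ∈ Mm,
      ∑ q ∈ Ioc 0 n, DD Y R S S' (n - q * m) * DD Y R S S' (n - q * m') := by
    simp only [hW, sq, Finset.sum_mul_sum]
    rw [Finset.sum_comm]
    apply Finset.sum_congr rfl
    intro m _
    rw [Finset.sum_comm]
  have hdiag : ∀ m ∈ Mm, ∑ q ∈ Ioc 0 n, DD Y R S S' (n - q * m) * DD Y R S S' (n - q * m)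
      ≤ ((n : ℝ) / M2) * (4 * T ^ 2) := by
    intro m hm
    have hmM := (hK.Mp m hm).2.1
    have h1 : ∑ q ∈ Ioc 0 n, DD Y R S S' (n - q * m) * DD Y R S S' (n - q * m)
        = ∑ q ∈ Ioc 0 (n / M2), DD Y R S S' (n - q * m) * DD Y R S S' (n - q * m) := by
      symm
      apply Finset.sum_subset (Finset.Ioc_subset_Ioc_right (Nat.div_le_self _ _))
      intro q hq hq'
      obtain ⟨q0, _⟩ := Finset.mem_Ioc.1 hq
      have h2 : ¬ q ≤ n / M2 := fun h => hq' (Finset.mem_Ioc.2 ⟨q0, h⟩)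
      have h3 : n ≤ q * m := by
        rw [Nat.le_div_iff_mul_le hM20, not_le] at h2
        exact h2.le.trans (Nat.mul_le_mul_left _ hmM.le)
      rw [Nat.sub_eq_zero_of_le h3, hD0, mul_zero]
    rw [h1]
    have h4 : ∀ q ∈ Ioc 0 (n / M2), DD Y R S S' (n - q * m) * DD Y R S S' (n - q * m)
        ≤ 4 * T ^ 2 := by
      intro q _
      have h5 := hDn (n - q * m) (Nat.sub_le _ _)
      rw [← sq, ← sq_abs]
      have h6 := pow_le_pow_left₀ (abs_nonneg _) h5 2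
      calc _ ≤ (2 * T) ^ 2 := h6
        _ = _ := by ring
    refine (Finset.sum_le_card_nsmul _ _ _ h4).trans ?_
    rw [nsmul_eq_mul, Nat.card_Ioc, Nat.sub_zero]
    exact mul_le_mul_of_nonneg_right hnM (by positivity)
  have hoff : ∀ m ∈ Mm, ∀ m' ∈ Mm, m ≠ m' →
      ∑ q ∈ Ioc 0 n, DD Y R S S' (n - q * m) * DD Y R S S' (n - q * m') ≤ OM T n M2 Y0 V S I := by
    intro m hm m' hm' hne
    rcases lt_or_gt_of_ne hne with h | h
    · exact (le_abs_self _).trans (hO m hm m' hm' h)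
    · have h1 := (le_abs_self _).trans (hO m' hm' m hm h)
      have e : ∑ q ∈ Ioc 0 n, DD Y R S S' (n - q * m) * DD Y R S S' (n - q * m')
          = ∑ q ∈ Ioc 0 n, DD Y R S S' (n - q * m') * DD Y R S S' (n - q * m) :=
        Finset.sum_congr rfl fun q _ => mul_comm _ _
      rw [e]
      exact h1
  have hW2 : ∑ q ∈ Ioc 0 n, W q ^ 2 ≤ 4 * T ^ 2 * n + (M2 : ℝ) ^ 2 * OM T n M2 Y0 V S I := by
    rw [hexp]
    have h1 : ∀ m ∈ Mm, ∑ m' ∈ Mm, ∑ q ∈ Ioc 0 n,
        DD Y R S S' (n - q * m) * DD Y R S S' (n - q * m')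
        ≤ ((n : ℝ) / M2) * (4 * T ^ 2) + M2 * OM T n M2 Y0 V S I := by
      intro m hm
      have h2 : ∀ m' ∈ Mm, ∑ q ∈ Ioc 0 n,
          DD Y R S S' (n - q * m) * DD Y R S S' (n - q * m')
          ≤ (if m = m' then ((n : ℝ) / M2) * (4 * T ^ 2) else 0) + OM T n M2 Y0 V S I := by
        intro m' hm'
        by_cases h : m = m'
        · subst h
          rw [if_pos rfl]
          have := hdiag m hm
          linarith
        · rw [if_neg h, zero_add]
          exact hoff m hm m' hm' h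
      refine (Finset.sum_le_sum h2).trans ?_
      rw [Finset.sum_add_distrib, Finset.sum_ite_eq, if_pos hm, Finset.sum_const, nsmul_eq_mul]
      have := mul_le_mul_of_nonneg_right hMcard hOM
      linarith
    refine (Finset.sum_le_card_nsmul _ _ _ h1).trans ?_
    rw [nsmul_eq_mul]
    calc (Mm.card : ℝ) * (((n : ℝ) / M2) * (4 * T ^ 2) + M2 * OM T n M2 Y0 V S I)
        ≤ (M2 : ℝ) * (((n : ℝ) / M2) * (4 * T ^ 2) + M2 * OM T n M2 Y0 V S I) :=
          mul_le_mul_of_nonneg_right hMcard (by positivity)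
      _ = _ := by field_simp
  calc (∑ q ∈ Ioc 0 (n / M2), a q * W q) ^ 2
      ≤ (∑ q ∈ Ioc 0 (n / M2), a q ^ 2) * ∑ q ∈ Ioc 0 (n / M2), W q ^ 2 := hCS
    _ ≤ (T ^ 2 * ((n : ℝ) / M2)) * (4 * T ^ 2 * n + (M2 : ℝ) ^ 2 * OM T n M2 Y0 V S I) :=
        mul_le_mul hA (hWW.trans hW2) (Finset.sum_nonneg fun q _ => sq_nonneg _) (by positivity)

end Pool.Agent.Lib.MP_1446ad_nt.SM
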