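import Pool.Agent.Lib.MP_1446ad_nt.SM.SpecW

/-!
# QEX: the Kloosterman sum of a quadratic extension
-/

set_option autoImplicit false

namespace Pool.Agent.Lib.MP_1446ad_nt.SM

open scoped Classical

namespace QEXM

/-- The term as a function of trace and norm. -/
noncomputable def F {k : Type} [Field k] (ψ : AddChar k ℂ) (a b : k) (v : k × k) : ℂ :=
  if v.2 = 0 then 0 else ψ (v.1 * (a + b * v.2⁻¹))

theorem kl_sq {k : Type} [Field k] [Fintype k] (ψ : AddChar k ℂ) (a b : k) :
    kl ψ a b ^ 2 = ∑ y : k × k, F ψ a b (y.1 + y.2, y.1 * y.2) := by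
  rw [pow_two, kl, Finset.sum_mul_sum, ← Finset.univ_product_univ, Finset.sum_product]
  refine Finset.sum_congr rfl fun y _ => Finset.sum_congr rfl fun z _ => ?_
  by_cases hy : y = 0
  · simp [hy, F]
  by_cases hz : z = 0
  · simp [hz, F]
  rw [if_neg hy, if_neg hz, F, if_neg (mul_ne_zero hy hz), ← AddChar.map_add_eq_mul]
  congr 1
  dsimp only
  field_simp
  ring

theorem trace_inv {k K : Type} [Field k] [Fintype k] [Field K] [Fintype K] [Algebra k K]
    (h2 : Module.finrank k K = 2) {x : K} (hx : x ≠ 0) :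
    Algebra.trace k K x⁻¹ = Algebra.trace k K x * (Algebra.norm k x)⁻¹ := by
  apply (algebraMap k K).injective
  rw [map_mul, map_inv₀ (algebraMap k K), FiniteField.algebraMap_trace_eq_sum_pow,
    FiniteField.algebraMap_trace_eq_sum_pow, FiniteField.algebraMap_norm_eq_prod_pow, h2]
  simp only [Finset.sum_range_succ, Finset.prod_range_succ, Finset.sum_range_zero,
    Finset.prod_range_zero, pow_zero, pow_one, zero_add, one_mul, inv_pow]
  have hq : x ^ Nat.card k ≠ 0 := pow_ne_zero _ hx
  field_simp
  ring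

theorem kl_ext {k K : Type} [Field k] [Fintype k] [Field K] [Fintype K] [Algebra k K]
    (h2 : Module.finrank k K = 2) (ψ : AddChar k ℂ) (a b : k) :
    kl (trc K ψ) (algebraMap k K a) (algebraMap k K b) =
      ∑ x : K, F ψ a b (Algebra.trace k K x, Algebra.norm k x) := by
  rw [kl]
  refine Finset.sum_congr rfl fun x _ => ?_
  have : FiniteDimensional k K := Module.finite_of_finrank_eq_succ h2
  by_cases hx : x = 0
  · rw [if_pos hx, F, if_pos]
    rw [hx]
    exact Algebra.norm_zero
  · have hn : Algebra.norm k x ≠ 0 := fun h => hx (Algebra.norm_eq_zero_iff.1 h)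
    rw [if_neg hx, F, if_neg hn]
    change ψ (Algebra.trace k K (algebraMap k K a * x + algebraMap k K b * x⁻¹)) = _
    rw [map_add, ← Algebra.smul_def, ← Algebra.smul_def, map_smul, map_smul, trace_inv h2 hx]
    congr 1
    simp only [smul_eq_mul]
    ring

theorem sum_F {k : Type} [Field k] [Fintype k] (ψ : AddChar k ℂ) (a b : k) (hψ : ψ ≠ 1)
    (ha : a ≠ 0) (hb : b ≠ 0) : ∑ v : k × k, F ψ a b v = (Fintype.card k : ℂ) := by
  rw [← Finset.univ_product_univ, Finset.sum_product_right]
  have h1 : ∀ n : k, ∑ t : k, F ψ a b (t, n) =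
      if n = -b * a⁻¹ then (Fintype.card k : ℂ) else 0 := by
    intro n
    by_cases hn : n = 0
    · rw [if_neg]
      · refine Finset.sum_eq_zero fun t _ => ?_
        simp [F, hn]
      · rw [hn]
        intro h
        have : b = 0 := by
          have h3 := congrArg (· * a) h
          simp [ha] at h3
          exact h3
        exact hb this
    · have h3 : ∑ t : k, F ψ a b (t, n) = ∑ t : k, ψ (t * (a + b * n⁻¹)) :=
        Finset.sum_congr rfl fun t _ => by simp [F, hn]
      rw [h3, AddChar.sum_mulShift _ (AddChar.IsPrimitive.of_ne_one hψ)]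
      have h4 : a + b * n⁻¹ = 0 ↔ n = -b * a⁻¹ := by
        constructor
        · intro h
          field_simp at h ⊢
          linear_combination h
        · intro h
          rw [h]
          field_simp
          ring
      by_cases h5 : n = -b * a⁻¹
      · rw [if_pos (h4.2 h5), if_pos h5]
      · rw [if_neg fun h => h5 (h4.1 h), if_neg h5]
        simp
  rw [Finset.sum_congr rfl fun n _ => h1 n, Finset.sum_ite_eq' Finset.univ]
  simp

theorem fib {α β : Type} [Fintype α] [Fintype β] (g : α → β) (f : β → ℂ) :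
    ∑ x, f (g x) = ∑ v, ({x | g x = v}.ncard : ℂ) * f v := by
  rw [← Finset.sum_fiberwise' Finset.univ g f]
  refine Finset.sum_congr rfl fun v _ => ?_
  rw [Finset.sum_const, nsmul_eq_mul]
  congr 2
  rw [← Set.ncard_coe_finset]
  congr 1
  ext x
  simp

end QEXM

open QEXM in
theorem specQEX (hQCT : SpecQCT) : SpecQEX := by
  intro k K _ _ _ _ _ h2 hc ψ a b hψ ha hb
  rw [kl_ext h2, kl_sq, eq_sub_iff_add_eq,
    fib (fun x : K => (Algebra.trace k K x, Algebra.norm k x)) (F ψ a b),
    fib (fun y : k × k => (y.1 + y.2, y.1 * y.2)) (F ψ a b), ← Finset.sum_add_distrib,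
    ← sum_F ψ a b hψ ha hb, Finset.mul_sum]
  refine Finset.sum_congr rfl fun v _ => ?_
  rw [← add_mul]
  congr 1
  have h3 := hQCT k K h2 hc v.1 v.2
  have h4 : {x : K | (Algebra.trace k K x, Algebra.norm k x) = v} =
      {x : K | Algebra.trace k K x = v.1 ∧ Algebra.norm k x = v.2} := by
    ext x
    simp [Prod.ext_iff]
  have h5 : {y : k × k | (y.1 + y.2, y.1 * y.2) = v} =
      {y : k × k | y.1 + y.2 = v.1 ∧ y.1 * y.2 = v.2} := by
    ext x
    simp [Prod.ext_iff]
  rw [h4, h5]
  exact_mod_cast h3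

end Pool.Agent.Lib.MP_1446ad_nt.SM
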