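import Pool.Agent.Lib.MP_1446ad_nt.SM.SpecK

/-!
# MP_1446ad_nt (sums of two smooth numbers), part D: the dispersion estimates

Every Spec is a closed proposition; its doc string contains a complete elementary proof. Module `XXX`
= file `SM/XXX.lean`, theorem `specXXX (hYYY : SpecYYY) .. : SpecXXX`, own lemmas in the namespace
`Pool.Agent.Lib.MP_1446ad_nt.SM.XXXM`.
-/

set_option autoImplicit false

namespace Pool.Agent.Lib.MP_1446ad_nt.SM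

open Finset
open scoped Classical

/-! ## D2: the sum over `A P = B Q + N` -/

/-- `g(P) = ∑ (1_{y ∣ P} - 1/y)` over the `y ∈ Y` with `y S < P ≤ y S'`. -/
noncomputable def gg (Y : Finset ℕ) (S S' P : ℕ) : ℝ :=
  ∑ y ∈ Y, if y * S < P ∧ P ≤ y * S' then ((if y ∣ P then (1 : ℝ) else 0) - 1 / (y : ℝ)) else 0

/-- `G(A,B) = ∑ g(P)` over `lo < P ≤ hi`, `S < Q ≤ S'`, `A P = B Q + N`. -/
noncomputable def GG (Y : Finset ℕ) (S S' N lo hi A B : ℕ) : ℝ :=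
  ∑ P ∈ Ioc lo hi, ∑ Q ∈ Ioc S S', if A * P = B * Q + N then gg Y S S' P else 0

/-- The hypotheses of the dispersion estimate. `P₀ = Y0 * S`. -/
structure DH (T : ℝ) (Y : Finset ℕ) (Y0 S S' B0 I N : ℕ) : Prop where
  S0 : 0 < S
  SS : S ≤ S'
  S2 : S' ≤ 2 * S
  Y00 : 0 < Y0
  B00 : 0 < B0
  I1 : 1 ≤ I
  N0 : 0 < N
  N4 : N ≤ 4 * B0 * S
  Yp : ∀ y ∈ Y, y.Prime ∧ Y0 < y ∧ y ≤ 2 * Y0 ∧ ¬ y ∣ N
  T1 : ∀ m : ℕ, 0 < m → m ≤ 8 * B0 * S → tau m ≤ T ∧ 1 + Real.log m ≤ T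
  IY : I ≤ Y0
  IYB : I * Y0 ≤ B0
  I3 : I ^ 3 * B0 ≤ Y0 * S
  SI : 2 * S * I < B0

/-- The hypotheses on the interval `(lo, hi]` (length at most `Dl`, about `P₀/I`). -/
structure DI (Y0 S I lo hi Dl : ℕ) : Prop where
  lo0 : Y0 * S ≤ lo
  lh : lo ≤ hi
  hi4 : hi ≤ 4 * (Y0 * S)
  len : hi ≤ lo + Dl
  D2 : Dl * I ≤ 2 * (Y0 * S)
  D1 : Y0 * S ≤ Dl * I

/-- The number of `Q` in `(s1, s2]` with `P ∣ b Q + M`. -/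
noncomputable def nQ (P b M s1 s2 : ℕ) : ℕ :=
  ((Ioc s1 s2).filter (fun Q => P ∣ b * Q + M)).card

/-- The off-diagonal part, with the condition that `A = (B Q + N)/P` is coprime to `B`. -/
noncomputable def OffC (Y : Finset ℕ) (S S' B0 N lo hi : ℕ) : ℝ :=
  ∑ t ∈ Icc 1 hi, ∑ P ∈ Ioc lo hi, ∑ B ∈ Ioc B0 (2 * B0),
    if P + t * B ≤ hi then gg Y S S' P * gg Y S S' (P + t * B) *
      (((Ioc S S').filter (fun Q => P ∣ B * Q + N ∧ Nat.Coprime ((B * Q + N) / P) B ∧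
        Q + t * ((B * Q + N) / P) ≤ S')).card : ℝ) else 0

/-- The off-diagonal part for `B = e b`, `A = e a`, `N = e M`. -/
noncomputable def OffE (Y : Finset ℕ) (S S' B0 lo hi e M : ℕ) : ℝ :=
  ∑ t ∈ Icc 1 hi, ∑ P ∈ Ioc lo hi, ∑ b ∈ Ioc 0 (2 * B0),
    if B0 < e * b ∧ e * b ≤ 2 * B0 ∧ P + t * (e * b) ≤ hi then
      gg Y S S' P * gg Y S S' (P + t * (e * b)) *
      (((Ioc S S').filter (fun Q => P ∣ b * Q + M ∧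
        Q + t * (e * ((b * Q + M) / P)) ≤ S')).card : ℝ) else 0

/-- **GGB** (80 lines).
Proof. `y S < P ≤ y S'` at most cuts the sum. `∑_y 1_{y ∣ P} ≤ τ(P) ≤ T`, `∑_y 1/y ≤ #Y/Y0 ≤ 1 ≤ T` (`Y` is a
subset of `(Y0, 2 Y0]`; `T ≥ 1` from `m = 1`); the difference is in `[-1, T]`. -/
def SpecGGB : Prop :=
  ∀ (T : ℝ) (Y : Finset ℕ) (Y0 S S' B0 I N : ℕ), DH T Y Y0 S S' B0 I N →
    Y.card ≤ Y0 ∧ ∀ P : ℕ, 0 < P → P ≤ 8 * B0 * S → |gg Y S S' P| ≤ 2 * T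

/-- **ZEA** (200 lines; from GGB). Expanding the square.
Proof. For fixed `A, B > 0` a solution is determined by `P`, and also by `Q`; so
`GG(A,B)^2 = ∑ g(P) g(P')` over the pairs of solutions `(P,Q), (P',Q')`. Diagonal `P = P'`: in total at most
`4 T^2 #{(A,B,P,Q) : A P = B Q + N, A > 0, P > 0}`, and for given `B, Q` the number of `(A,P)` is at most
`τ(B Q + N) ≤ T` (`B Q + N ≤ 2 B0 2 S + 4 B0 S = 8 B0 S`): at most `4 T^3 B0 (S'-S) ≤ 4 T^3 B0 S`.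
(`P ≤ hi ≤ 4 Y0 S ≤ 8 B0 S` because `Y0 ≤ I Y0 ≤ B0`, so GGB applies to every `P` in `(lo, hi]`.) `P < P'` and
`P > P'` give the same. For `P < P'`: `A (P'-P) = B (Q'-Q)`, `A, B` coprime, so `P' = P + t B`, `Q' = Q + t A`,
`t ≥ 1`, `t ≤ hi`. Conversely, for `t ≥ 1`, `P`, `B`, `Q` with `P ∣ B Q + N`, `A = (B Q + N)/P` coprime to `B`,
`P + t B ≤ hi`, `Q + t A ≤ S'`, the pairs `(P,Q)`, `(P + t B, Q + t A)` are solutions for `(A,B)`, `A > 0`,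
`A ≤ B Q + N ≤ 8 B0 S`. So the sum over `P < P'` is `OffC`. -/
def SpecZEA : Prop :=
  ∀ (T : ℝ) (Y : Finset ℕ) (Y0 S S' B0 I N lo hi Dl : ℕ), DH T Y Y0 S S' B0 I N →
    DI Y0 S I lo hi Dl →
    ∑ B ∈ Ioc B0 (2 * B0), ∑ A ∈ Ioc 0 (8 * B0 * S),
      (if Nat.Coprime A B then GG Y S S' N lo hi A B ^ 2 else 0) ≤
      4 * T ^ 3 * B0 * S + 2 * |OffC Y S S' B0 N lo hi|

/-- **ZEB** (150 lines). Möbius.
Proof. `1_{gcd(A,B) = 1} = ∑_{e ∣ gcd(A,B)} μ(e)` (`ArithmeticFunction.coe_moebius_mul_coe_zeta` /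
`sum_divisors_moebius..`), `A = (B Q + N)/P`. If `e ∣ A` and `e ∣ B` then `e ∣ A P - B Q = N`. Put `N = e M`,
`B = e b`: (`P ∣ B Q + N` and `e ∣ (B Q + N)/P`) iff `P ∣ b Q + M` (`B Q + N = e (b Q + M)`; if
`(B Q + N)/P = e a` then `e (b Q + M) = e a P`, cancel `e`), and then `(B Q + N)/P = e ((b Q + M)/P)`.
Interchange the sums; the `B` in `(B0, 2 B0]` divisible by `e` are the `e b` with `0 < b ≤ 2 B0`,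
`B0 < e b ≤ 2 B0`. -/
def SpecZEB : Prop :=
  ∀ (Y : Finset ℕ) (S S' B0 N lo hi : ℕ), 0 < N →
    OffC Y S S' B0 N lo hi =
      ∑ e ∈ N.divisors, (ArithmeticFunction.moebius e : ℝ) * OffE Y S S' B0 lo hi e (N / e)

/-- **BIG** (120 lines; from GGB). The trivial bound.
Proof. Terms are nonzero only if `t e b ≤ hi - P < Dl`, `e b > B0`, so `t B0 < Dl`: at most `Dl/B0` values of
`t`. For a given `t` the sum is at most `4 T^2` times the number of `(b, Q, P)` with `B0 < e b ≤ 2 B0`,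
`Q` in `(S,S']`, `P ∣ b Q + M`: at most `#b S T` (`b Q + M ≤ B Q + N ≤ 8 B0 S` has at most `T` divisors), and
`#b ≤ B0/e + 1`, `#b = 0` if `e > 2 B0`, so `#b ≤ 3 B0/e`. -/
def SpecBIG : Prop :=
  ∀ (T : ℝ) (Y : Finset ℕ) (Y0 S S' B0 I N lo hi Dl e M : ℕ), DH T Y Y0 S S' B0 I N →
    DI Y0 S I lo hi Dl → e * M = N →
    |OffE Y S S' B0 lo hi e M| ≤ 12 * T ^ 3 * Dl * S / e

/-- **UPP** (150 lines; from BOX, AVG, SPA). An upper bound of the right order.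
Proof. The `b` with `B0 < e b ≤ 2 B0` are the `b` in `(B0/e, 2 B0/e]` (floors), `W` of them,
`W ≤ B0/e + 1 ≤ 2 B0/e`. With `β = ⌊B0/e⌋ + 1`, `y = 1`, `q = s1 + 1`, `L = s2 - s1 ≤ S ≤ P`, `c = -M`:
`∑_b nQ P b M s1 s2 = cntB P 1 β (-M) q W L ≤ (W/P) cntB P 1 0 (-M) q P L + er P (-M)` (BOX). Sum over `P` in
`(lo, hi]` (`P > P₀ = Y0 S`): SPA with `Qm = 2 S` (`τ(M) ≤ T`, `M ≤ N ≤ 8 B0 S`) and AVG with `X = 4 P₀`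
(`4 P₀ ≤ 8 B0 S`): at most `(2 B0/(e P₀)) L T (Dl + 2 S) + 2 T^7 (4 P₀) √(4 P₀)`, and `S ≤ Dl` since
`S I ≤ Y0 S ≤ Dl I`. -/
def SpecUPP : Prop :=
  ∀ (T : ℝ) (Y : Finset ℕ) (Y0 S S' B0 I N lo hi Dl e M s1 s2 : ℕ), DH T Y Y0 S S' B0 I N →
    DI Y0 S I lo hi Dl → e * M = N → e ≤ B0 → S ≤ s1 → s1 ≤ s2 → s2 ≤ S' →
    ∑ P ∈ Ioc lo hi, ∑ b ∈ (Ioc 0 (2 * B0)).filter (fun b => B0 < e * b ∧ e * b ≤ 2 * B0),
      (nQ P b M s1 s2 : ℝ) ≤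
      6 * T * Dl * B0 * ((s2 : ℝ) - s1) / (e * (Y0 * S)) +
        16 * T ^ 7 * (Y0 * S) * √((Y0 : ℝ) * S)

/-- **MNP** (200 lines; from BOX, GGB). Cancellation in the sum over `b` for fixed `P` and `t`.
Proof. Let `S_P = cntB P 1 0 (-M) (S+1) P (s1-S)`, `er = er P (-M)`; `L = s1 - S ≤ S ≤ P`. Expand
`g(P + t e b)`: the sum is `∑_{y ∈ Y} ∑_{b in J_y} (1_{y ∣ P + t e b} - 1/y) nQ P b M S s1`, `J_y` the set of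
the `b` with `B0 < e b ≤ 2 B0`, `P + t e b ≤ hi`, `y S < P + t e b ≤ y S'`: an interval of integers (`t e > 0`) with
`W_y ≤ B0/e + 1 ≤ 2 B0/e` elements. (a) `y ∤ P`: `y` is prime and `0 < t e ≤ Y0 < y`, so `y ∤ t e` and
`y ∣ P + t e b` iff `b = β mod y`; these `b` in `J_y` are `β + y i`, `i < W'` (`β` the least one), and
`|W' - W_y/y| ≤ 1`. BOX with `(y, β, W')` (`gcd(y,P) = 1`) and with `(1, min J_y, W_y)`: the difference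
`∑_{b in J_y, y ∣ P + t e b} nQ - (1/y) ∑_{b in J_y} nQ` is at most `|W'/P - W_y/(y P)| S_P + er + er/y
≤ S_P/P + 2 er`. (b) `y ∣ P` (at most `τ(P) ≤ T` values of `y`): if `y ∣ P + t e b` then `y ∣ t e b`, so `y ∣ b`, and
`P ∣ b Q + M` would give `y ∣ M`, `y ∣ N`, excluded; the remaining part is
`(1/y) ∑_{b in J_y} nQ ≤ (1/Y0) ((W_y/P) S_P + er)`. There are at most `Y0` values of `y`. -/
def SpecMNP : Prop :=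
  ∀ (T : ℝ) (Y : Finset ℕ) (Y0 S S' B0 I N e M t P hi s1 : ℕ), DH T Y Y0 S S' B0 I N →
    e * M = N → e ≤ B0 → 1 ≤ t → t * e ≤ Y0 → Y0 * S < P → P ≤ 4 * (Y0 * S) →
    S ≤ s1 → s1 ≤ S' →
    |∑ b ∈ (Ioc 0 (2 * B0)).filter
        (fun b => B0 < e * b ∧ e * b ≤ 2 * B0 ∧ P + t * (e * b) ≤ hi),
      gg Y S S' (P + t * (e * b)) * (nQ P b M S s1 : ℝ)| ≤
      Y0 * ((cntB P 1 0 (-(M : ℤ)) ((S + 1 : ℕ) : ℤ) P (s1 - S) : ℝ) / P + 2 * er P (-(M : ℤ))) +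
      T / Y0 * ((2 * B0 / e) / P *
        (cntB P 1 0 (-(M : ℤ)) ((S + 1 : ℕ) : ℤ) P (s1 - S) : ℝ) + er P (-(M : ℤ)))

/-- **OFE** (250 lines; from GGB, UPP, MNP, AVG, SPA). The off-diagonal part for `e ≤ I^2`.
Proof. `P₀ = Y0 S`, `E = 16 T^7 P₀ √P₀`, `Θ = ⌊12 S/I⌋`, `s1 = max(S, S' - Θ)`. Terms with `t B0 ≥ Dl` vanish
(`t e b ≤ hi - lo ≤ Dl`, `e b > B0`), so there are at most `Dl/B0` values of `t`; for them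
`t e ≤ t I^2 < Dl I^2/B0 ≤ 2 P₀ I/B0 < Y0` (`2 S I < B0`); `e ≤ I^2 ≤ I Y0 ≤ B0`. Fix `t`. If `P ∣ b Q + M`,
`a = (b Q + M)/P`, then `t e a ≤ ((t e b) Q + t N)/P ≤ (Dl 2 S + (Dl/B0) 4 B0 S)/P₀ = 6 Dl S/P₀ ≤ 12 S/I`, so
`t e a ≤ Θ`. So for `Q ≤ s1` (when `s1 = S' - Θ`; otherwise there is no `Q` in `(S, s1]`) the condition
`Q + t e a ≤ S'` holds: the number of `Q` is `nQ P b M S s1` plus a number between 0 and `nQ P b M s1 S'`.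
Edge part: at most `4 T^2 (6 T Dl B0 Θ/(e P₀) + E)` (GGB, UPP, `S' - s1 ≤ Θ`). Main part: by MNP and
`|g(P)| ≤ 2 T` at most `2 T ∑_P [Y0 (S_P/P + 2 er) + (T/Y0)((2 B0/e)/P S_P + er)]`, and
`∑_P S_P ≤ S T (Dl + 2 S) ≤ 3 T Dl S` (SPA), `∑_P er ≤ E` (AVG, `X = 4 P₀`): at most
`2 T [Y0 (3 T Dl S/P₀ + 2 E) + (T/Y0)(6 T B0 Dl S/P₀ + E)]`. Multiply by the number of `t`, `Dl/B0`, and use
`Dl ≤ 2 P₀/I`, `Θ ≤ 12 S/I`, `Y0/B0 ≤ 1/I`, `1/Y0 ≤ 1/I`, `1 ≤ T`, `1 ≤ Y0`: the parts are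
`24 T^3 Dl^2 Θ/P₀ ≤ 1152 T^3 P₀ S/I^3`, `6 T^2 Y0 Dl^2 S/(P₀ B0) ≤ 24 T^3 P₀ S/I^3`,
`12 T^3 Dl^2 S/(P₀ Y0) ≤ 48 T^3 P₀ S/I^3` and
`(Dl/B0)(4 T^2 + 4 T Y0 + 2 T^2/Y0) E ≤ (2 P₀/(I B0)) 10 T^2 Y0 E = 320 T^9 P₀^2 √P₀ Y0/(I B0)`. -/
def SpecOFE : Prop :=
  ∀ (T : ℝ) (Y : Finset ℕ) (Y0 S S' B0 I N lo hi Dl e M : ℕ), DH T Y Y0 S S' B0 I N →
    DI Y0 S I lo hi Dl → e * M = N → e ≤ I ^ 2 →
    |OffE Y S S' B0 lo hi e M| ≤ 1224 * T ^ 3 * (Y0 * S) * S / I ^ 3 +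
      320 * T ^ 9 * (Y0 * S) ^ 2 * √((Y0 : ℝ) * S) * Y0 / (I * B0)

/-- **DSP** (120 lines; from ZEA, ZEB, BIG, OFE). The dispersion of one interval.
Proof. `|OffC| ≤ ∑_{e ∣ N} |OffE e (N/e)|`, at most `T` values of `e` (`N ≤ 8 B0 S`). For `e ≤ I^2` OFE. For
`e > I^2` BIG: `12 T^3 Dl S/e ≤ 12 T^3 (2 P₀/I) S/I^2 = 24 T^3 P₀ S/I^3`. Diagonal: `4 T^3 B0 S ≤ 4 T^3 P₀ S/I^3`.
Total `≤ (4 T^3 + 2 T (1224 + 24) T^3) P₀ S/I^3 + 640 T^10 P₀^2 √P₀ Y0/(I B0)`. -/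
def SpecDSP : Prop :=
  ∀ (T : ℝ) (Y : Finset ℕ) (Y0 S S' B0 I N lo hi Dl : ℕ), DH T Y Y0 S S' B0 I N →
    DI Y0 S I lo hi Dl →
    ∑ B ∈ Ioc B0 (2 * B0), ∑ A ∈ Ioc 0 (8 * B0 * S),
      (if Nat.Coprime A B then GG Y S S' N lo hi A B ^ 2 else 0) ≤
      2500 * T ^ 10 * ((Y0 * S) * S / (I : ℝ) ^ 3 +
        ((Y0 : ℝ) * S) ^ 2 * √((Y0 : ℝ) * S) * Y0 / (I * B0))

/-- **DSF** (150 lines; from DSP). The full range of `P`, any set of coprime pairs.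
Proof. `P₀ = Y0 S`, `Dl = ⌈P₀/I⌉`, so `P₀ ≤ Dl I < P₀ + I ≤ 2 P₀`. The range `(P₀, 4 P₀]` is the union of the
`3 I` intervals `(lo_i, hi_i]`, `lo_i = min(P₀ + i Dl, 4 P₀)`, `hi_i = min(P₀ + (i+1) Dl, 4 P₀)` (`3 I Dl ≥ 3 P₀`).
So `GG = ∑_i GG_i`, `GG^2 ≤ 3 I ∑_i GG_i^2`, and `∑_{(A,B) ∈ O} GG_i(A,B)^2` is at most the bound of DSP (`GG_i = 0`
if `A = 0` as `N > 0`, or if `A > 8 B0 S`, because `A ≤ A P = B Q + N ≤ 8 B0 S`). So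
`∑_O GG^2 ≤ 9 I^2 2500 T^10 (..)`; Cauchy. -/
def SpecDSF : Prop :=
  ∀ (T : ℝ) (Y : Finset ℕ) (Y0 S S' B0 I N : ℕ) (O : Finset (ℕ × ℕ)), DH T Y Y0 S S' B0 I N →
    (∀ p ∈ O, Nat.Coprime p.1 p.2 ∧ B0 < p.2 ∧ p.2 ≤ 2 * B0) →
    (∑ p ∈ O, |GG Y S S' N (Y0 * S) (4 * (Y0 * S)) p.1 p.2|) ^ 2 ≤
      22500 * T ^ 10 * (I : ℝ) ^ 2 * O.card * ((Y0 * S) * S / (I : ℝ) ^ 3 +
        ((Y0 : ℝ) * S) ^ 2 * √((Y0 : ℝ) * S) * Y0 / (I * B0))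

/-! ## D1: reduction to D2 -/

/-- `D(x) = ∑ (1_{y r ∣ x} - 1/(y r))` over `y ∈ Y`, `r ∈ R` with `y r S < x ≤ y r S'`. -/
noncomputable def DD (Y R : Finset ℕ) (S S' x : ℕ) : ℝ :=
  ∑ y ∈ Y, ∑ r ∈ R, if y * r * S < x ∧ x ≤ y * r * S' then
    ((if y * r ∣ x then (1 : ℝ) else 0) - 1 / ((y : ℝ) * r)) else 0

/-- The hypotheses of part D1. -/
structure DK (T : ℝ) (n M2 Y0 V S S' I : ℕ) (Mm Y R : Finset ℕ) : Prop where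
  n0 : 0 < n
  S0 : 0 < S
  SS : S ≤ S'
  S2 : S' ≤ 2 * S
  M20 : 0 < M2
  MY : 2 * M2 < Y0
  MV : M2 ≤ V
  Mp : ∀ m ∈ Mm, m.Prime ∧ M2 < m ∧ m ≤ 2 * M2 ∧ ¬ m ∣ n
  Yp : ∀ y ∈ Y, y.Prime ∧ Y0 < y ∧ y ≤ 2 * Y0 ∧ ¬ y ∣ n
  R0 : ∀ r ∈ R, 0 < r
  Rp : ∀ r ∈ R, ∀ p : ℕ, p.Prime → p ∣ r → M2 < p ∧ p ∉ Y ∧ ¬ p ∣ n
  RV : ∀ y ∈ Y, ∀ r ∈ R, V < y * r ∧ y * r ≤ 2 * V
  top : ∀ y ∈ Y, ∀ r ∈ R, y * r * S' < n
  nVS : n ≤ 4 * V * S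
  T1 : ∀ m : ℕ, 0 < m → m ≤ 16 * M2 * V * S → tau m ≤ T ∧ 1 + Real.log m ≤ T
  I1 : 1 ≤ I
  IY : I ≤ Y0
  IYB : I * Y0 ≤ M2 * V
  I3 : I ^ 3 * (2 * M2 * V) ≤ Y0 * S
  SI : 2 * S * I < M2 * V

/-- **DDB** (120 lines).
Proof. `(y,r) ↦ y r` is injective on `Y × R`: if `y r = y' r'`, `y ≠ y'`, then the prime `y` divides `r'`, excluded by
`Rp` (`y ∈ Y`). All `y r` lie in `(V, 2V]`; so there are at most `V` pairs. `∑ 1_{y r ∣ x} ≤ τ(x) ≤ T` for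
`0 < x ≤ n` (`n ≤ 4 V S ≤ 16 M2 V S`), `∑ 1/(y r) ≤ V/V = 1 ≤ T`. `DD(0) = 0` as `y r S < 0` is impossible.
`#R ≤ 2V/Y0` unless `Y` is empty: the `r` satisfy `r ≤ 2V/y < 2V/Y0`. -/
def SpecDDB : Prop :=
  ∀ (T : ℝ) (n M2 Y0 V S S' I : ℕ) (Mm Y R : Finset ℕ), DK T n M2 Y0 V S S' I Mm Y R →
    1 ≤ T ∧ ((Y ×ˢ R).card ≤ V) ∧
    (∀ p ∈ Y ×ˢ R, ∀ q ∈ Y ×ˢ R, p.1 * p.2 = q.1 * q.2 → p = q) ∧
    DD Y R S S' 0 = 0 ∧ (∀ x : ℕ, x ≤ n → |DD Y R S S' x| ≤ 2 * T) ∧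
    (Y.Nonempty → (R.card : ℝ) ≤ 2 * V / Y0)

/-- `H(x) = ∑_{r ∈ R, r ∣ x} g(x/r)`. -/
noncomputable def HH (Y R : Finset ℕ) (S S' x : ℕ) : ℝ :=
  ∑ r ∈ R, if r ∣ x then gg Y S S' (x / r) else 0

/-- `L(x) = ∑ (1/y)(1_{r ∣ x} - 1/r)` over `y r S < x ≤ y r S'`. -/
noncomputable def LL (Y R : Finset ℕ) (S S' x : ℕ) : ℝ :=
  ∑ y ∈ Y, ∑ r ∈ R, if y * r * S < x ∧ x ≤ y * r * S' then
    (1 / (y : ℝ)) * ((if r ∣ x then (1 : ℝ) else 0) - 1 / (r : ℝ)) else 0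

/-- `C(x)`: the number of `(y,r)` with `y r S < x ≤ y r S'`, `y r ∣ x`. -/
noncomputable def CC (Y R : Finset ℕ) (S S' x : ℕ) : ℝ :=
  ∑ y ∈ Y, ∑ r ∈ R, if (y * r * S < x ∧ x ≤ y * r * S') ∧ y * r ∣ x then (1 : ℝ) else 0

/-- `E(x) = ∑ 1/(y r)` over `y r S < x ≤ y r S'`. -/
noncomputable def EE (Y R : Finset ℕ) (S S' x : ℕ) : ℝ :=
  ∑ y ∈ Y, ∑ r ∈ R, if y * r * S < x ∧ x ≤ y * r * S' then 1 / ((y : ℝ) * r) else 0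

/-- **SPL** (80 lines). Two decompositions of `DD`.
Proof. (a) termwise: for `r ∣ x`, `x = r P`: `y r S < x ≤ y r S'` iff `y S < P ≤ y S'`, and `y r ∣ x` iff `y ∣ P`; for
`r ∤ x` also `y r ∤ x`. And `1_{y r ∣ x} - 1/(y r) = (1_{y r ∣ x} - (1/y) 1_{r ∣ x}) + (1/y)(1_{r ∣ x} - 1/r)`.
(b) trivial. -/
def SpecSPL : Prop :=
  ∀ (Y R : Finset ℕ) (S S' x : ℕ), (∀ y ∈ Y, 0 < y) → (∀ r ∈ R, 0 < r) →
    DD Y R S S' x = HH Y R S S' x + LL Y R S S' x ∧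
    DD Y R S S' x = CC Y R S S' x - EE Y R S S' x

/-- **HCG** (200 lines). The main part is a sum of the `GG`.
Proof. `m, m'` distinct primes, `m < m'`. Expand: the left side is the sum over `r1 ∈ R`, `(y,r)`, `q` with
`n - q m > 0`, `r1 ∣ n - q m = r1 P`, `y r ∣ n - q m' = y r Q`, `y r S < y r Q ≤ y r S'`, i.e. `S < Q ≤ S'`, of `g(P)`.
(The subtractions are truncated; `y r Q > 0` makes `q m' < n`, so `q m < n` also.) Then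
`m' r1 P = m' n - m m' q` and `m y r Q = m n - m m' q`, so `(m' r1) P = (m y r) Q + n (m' - m)`. `g(P) ≠ 0` implies
`y' S < P ≤ y' S'` for some `y' ∈ Y`, so `Y0 S < P ≤ 4 Y0 S`. Conversely let `(m' r1) P = (m y r) Q + n (m'-m)`,
`g(P) ≠ 0`, `S < Q ≤ S'`: `r1 P ≤ r1 y' S' < n` (`top`), and modulo `m`: `m' r1 P = n m'`, so `m ∣ n - r1 P =: q m`,
`q > 0`, `q ≤ n`, and then `m y r Q = m' r1 P - n (m'-m) = m n - m m' q`, `n - q m' = y r Q`. So the two sums agree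
term by term (bijection `q ↔ (P,Q)`). If `m' r1` and `m y r` are not coprime then `GG = 0`: let `p` be a common
prime; a solution gives `p ∣ n (m' - m)`. `p` is `m`, `m'`, or a prime of `r1` or of `y r`, so `p ∤ n` and `p > M2`,
but `0 < m' - m < M2`: contradiction. -/
def SpecHCG : Prop :=
  ∀ (T : ℝ) (n M2 Y0 V S S' I : ℕ) (Mm Y R : Finset ℕ), DK T n M2 Y0 V S S' I Mm Y R →
    ∀ m ∈ Mm, ∀ m' ∈ Mm, m < m' →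
    (∑ q ∈ Ioc 0 n, HH Y R S S' (n - q * m) * CC Y R S S' (n - q * m')) =
      ∑ r1 ∈ R, ∑ y ∈ Y, ∑ r ∈ R, if Nat.Coprime (m' * r1) (m * (y * r)) then
        GG Y S S' (n * (m' - m)) (Y0 * S) (4 * (Y0 * S)) (m' * r1) (m * (y * r)) else 0

/-- **HEB** (150 lines; from DDB).
Proof. The sum is `∑_{(y1,r1)} ∑_{(y,r)} (1/(y r)) ∑_{q ∈ J} (1_{y1 r1 ∣ x} - (1/y1) 1_{r1 ∣ x})`, `x = n - q m`, `J` the
interval of the `q` with `y1 r1 S < n - q m ≤ y1 r1 S'`, `y r S < n - q m' ≤ y r S'` (as in SPL (a)). If `m ∣ r1` then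
`r1 ∤ n - q m` (as `m ∤ n`) and the inner sum is 0. Otherwise `m` is coprime to `y1 r1` (`y1 > Y0 > 2 M2 ≥ m`), so the
`q` with `y1 r1 ∣ n - q m` form a residue class modulo `y1 r1`, those with `r1 ∣ n - q m` a class modulo `r1`; the
numbers of them in `J` are `#J/(y1 r1) + θ`, `#J/r1 + θ'`, `|θ|, |θ'| ≤ 1`: the inner sum is at most `1 + 1/y1 ≤ 2`.
So the total is at most `V V (1/V) 2`. -/
def SpecHEB : Prop :=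
  ∀ (T : ℝ) (n M2 Y0 V S S' I : ℕ) (Mm Y R : Finset ℕ), DK T n M2 Y0 V S S' I Mm Y R →
    ∀ m ∈ Mm, ∀ m' ∈ Mm, m < m' →
    |∑ q ∈ Ioc 0 n, HH Y R S S' (n - q * m) * EE Y R S S' (n - q * m')| ≤ 2 * V

/-- **BPC** (120 lines; from DDB). The number of bad pairs.
Proof. (1) `m ∣ r1`: then `y1 r1` is a multiple of `m > M2` in `(V, 2V]`: at most `V/M2 + 1 ≤ 2 V/M2` pairs
`(y1,r1)`, times `V` pairs `(y,r)`. (2) `m' ∣ y r`: the same. (3) `gcd(r1, y r) > 1`: for each of the `V` pairs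
`(y1,r1)`, for each prime `p ∣ r1` (at most `τ(r1) ≤ T`; `r1 ≤ 2V ≤ 16 M2 V S`), `p > M2`: the pairs `(y,r)` with `p ∣ y r`:
at most `2 V/M2`. Total `(4 + 2 T) V^2/M2 ≤ 6 T V^2/M2`. -/
def SpecBPC : Prop :=
  ∀ (T : ℝ) (n M2 Y0 V S S' I : ℕ) (Mm Y R : Finset ℕ), DK T n M2 Y0 V S S' I Mm Y R →
    ∀ m ∈ Mm, ∀ m' ∈ Mm, m < m' →
    ((((Y ×ˢ R) ×ˢ (Y ×ˢ R)).filter (fun p : (ℕ × ℕ) × (ℕ × ℕ) =>
      m ∣ p.1.2 ∨ m' ∣ p.2.1 * p.2.2 ∨ ¬ Nat.Coprime p.1.2 (p.2.1 * p.2.2))).card : ℝ) ≤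
      6 * T * V ^ 2 / M2

/-- **LDB** (200 lines; from DDB, BPC).
Proof. The sum is `∑_{(y1,r1)} ∑_{(y,r)} (1/y1) ∑_{q ∈ J} (1_{r1 ∣ x} - 1/r1)(1_{y r ∣ x'} - 1/(y r))`,
`x = n - q m`, `x' = n - q m'`, `J` the interval of the `q` with `y1 r1 S < x ≤ y1 r1 S'`, `y r S < x' ≤ y r S'`;
`#J ≤ n/M2` (`q m < n`). Good pairs (`m ∤ r1`, `m' ∤ y r`, `r1` and `y r` coprime): the conditions `r1 ∣ x`,
`y r ∣ x'` and both together are residue classes of `q` modulo `r1`, `y r`, `r1 y r`, so the inner sum is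
`θ1 - θ2/(y r) - θ3/r1`, at most 3: in total at most `V V 3/Y0`. Bad pairs (number: BPC): both conditions
together are impossible: if `m ∣ r1` then `r1 ∤ x` as `m ∤ n`; if `m' ∣ y r` the same; if a prime `p` divides `r1` and
`y r` then `p ∣ m' x - m x' = n (m' - m)`, but `p ∤ n`, `p > M2 > m' - m > 0`. And `#{q ∈ J : r1 ∣ x} ≤ #J/r1 + 1`
(0 if `m ∣ r1`), same for `y r`. So the inner sum is at most
`(#J/r1 + 1)/(y r) + (#J/(y r) + 1)/r1 + #J/(r1 y r) ≤ 3 #J/(r1 y r) + 2`; times `1/y1`: at most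
`3 (n/M2)/V^2 + 2/Y0`; times `6 T V^2/M2`: at most `18 T n/M2^2 + 12 T V^2/(M2 Y0)`. Sum `≤ 15 T V^2/Y0 + 18 T n/M2^2`. -/
def SpecLDB : Prop :=
  ∀ (T : ℝ) (n M2 Y0 V S S' I : ℕ) (Mm Y R : Finset ℕ), DK T n M2 Y0 V S S' I Mm Y R →
    ∀ m ∈ Mm, ∀ m' ∈ Mm, m < m' →
    |∑ q ∈ Ioc 0 n, LL Y R S S' (n - q * m) * DD Y R S S' (n - q * m')| ≤
      15 * T * V ^ 2 / Y0 + 18 * T * n / M2 ^ 2

/-- The bound for the off-diagonal correlations. -/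
noncomputable def OM (T : ℝ) (n M2 Y0 V S I : ℕ) : ℝ :=
  √(45000 * T ^ 10 * (I : ℝ) ^ 2 * ((V : ℝ) ^ 2 / Y0) * ((Y0 * S) * S / (I : ℝ) ^ 3 +
        ((Y0 : ℝ) * S) ^ 2 * √((Y0 : ℝ) * S) * Y0 / (I * (M2 * V)))) +
    15 * T * V ^ 2 / Y0 + 2 * V + 18 * T * n / M2 ^ 2

/-- **OQA** (150 lines; from DSF, DDB, SPL, HCG, HEB, LDB). Proof. `DD(x) DD(x') = HH(x) CC(x') - HH(x) EE(x')
+ LL(x) DD(x')`. The first sum is (HCG) a sum of `GG(A,B)` over the coprime pairs `A = m' r1`, `B = m y r`; they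
are distinct for distinct `(r1, (y,r))` (DDB), `B` is in `(B0, 2 B0]` with `B0 = m V`, and their number is at most
`(2V/Y0) V`. DSF applies with `N = n (m' - m)`: the hypotheses `DH` with `B0 = m V`, `M2 < m ≤ 2 M2`:
`N ≤ n M2 ≤ 4 V S m`; `8 m V S ≤ 16 M2 V S`; `y ∤ N` (`y ∤ n`, `0 < m' - m < M2 < y`); `I Y0 ≤ M2 V ≤ m V`;
`I^3 m V ≤ I^3 2 M2 V ≤ Y0 S`; `2 S I < M2 V ≤ m V`. In the bound `1/B0 ≤ 1/(M2 V)`. -/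
def SpecOQA : Prop :=
  ∀ (T : ℝ) (n M2 Y0 V S S' I : ℕ) (Mm Y R : Finset ℕ), DK T n M2 Y0 V S S' I Mm Y R →
    ∀ m ∈ Mm, ∀ m' ∈ Mm, m < m' →
    |∑ q ∈ Ioc 0 n, DD Y R S S' (n - q * m) * DD Y R S S' (n - q * m')| ≤ OM T n M2 Y0 V S I

/-- **KTD** (200 lines; from DDB, OQA). The bilinear estimate.
Proof. By hypothesis `y r S < n - k m1 m2 ≤ y r S'`, so the inner sum over `(y,r)` is `DD(n - q m2)`, `q = k m1`; also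
`q m2 < n`, so `0 < q ≤ n/M2`. Let `a(q) = ∑_{k m1 = q} c(k)`, `|a(q)| ≤ τ(q) ≤ T`. Cauchy:
`|sum|^2 ≤ ∑_{q ≤ n/M2} a(q)^2 ∑_{q ≤ n} (∑_{m ∈ Mm} DD(n - q m))^2 ≤ T^2 (n/M2) (..)`. Expand the square: diagonal:
for each of the at most `M2` primes `m` at most `n/m ≤ n/M2` values of `q` with `n - q m > 0`, and
`DD^2 ≤ 4 T^2` (DDB; `DD(0) = 0`): at most `4 T^2 n`. Off-diagonal: at most `M2^2` ordered pairs, each at most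
`OM` (OQA, symmetric). -/
def SpecKTD : Prop :=
  ∀ (T : ℝ) (n M2 Y0 V S S' I : ℕ) (Mm Y R : Finset ℕ), DK T n M2 Y0 V S S' I Mm Y R →
    ∀ (K U : Finset ℕ) (c : ℕ → ℝ), (∀ k ∈ K, |c k| ≤ 1 ∧ 0 < k) → (∀ u ∈ U, 0 < u) →
    (∀ k ∈ K, ∀ u ∈ U, ∀ m ∈ Mm, ∀ y ∈ Y, ∀ r ∈ R,
      y * r * S < n - k * (u * m) ∧ n - k * (u * m) ≤ y * r * S') →
    (∑ k ∈ K, c k * ∑ u ∈ U, ∑ m ∈ Mm, ∑ y ∈ Y, ∑ r ∈ R,
      ((if y * r ∣ n - k * (u * m) then (1 : ℝ) else 0) - 1 / ((y : ℝ) * r))) ^ 2 ≤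
      T ^ 2 * (n / M2) * (4 * T ^ 2 * n + (M2 : ℝ) ^ 2 * OM T n M2 Y0 V S I)

end Pool.Agent.Lib.MP_1446ad_nt.SM
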