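import Pool.Agent.Lib.MP_1446ad_nt.SM.SpecD

/-!
# MP_1446ad_nt (sums of two smooth numbers), part F: the final argument

Every Spec is a closed proposition; its doc string contains a complete elementary proof. Module `XXX`
= file `SM/XXX.lean`, theorem `specXXX (hYYY : SpecYYY) .. : SpecXXX`, own lemmas in the namespace
`Pool.Agent.Lib.MP_1446ad_nt.SM.XXXM`.
-/

set_option autoImplicit false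

namespace Pool.Agent.Lib.MP_1446ad_nt.SM

open Finset Filter
open scoped Classical

/-- The primes in `(X, (1+ν) X]` that do not divide `n`. -/
noncomputable def pw (ν : ℝ) (n X : ℕ) : Finset ℕ :=
  (Ioc X (2 * X)).filter (fun p : ℕ => p.Prime ∧ (p : ℝ) ≤ (1 + ν) * X ∧ ¬ p ∣ n)

/-- The set of the products `(u y)(p q)` of primes from the four windows. -/
noncomputable def PR (ν : ℝ) (n M2 Y0 X1 X2 : ℕ) : Finset ℕ :=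
  ((pw ν n M2 ×ˢ pw ν n Y0) ×ˢ (pw ν n X1 ×ˢ pw ν n X2)).image
    (fun t : (ℕ × ℕ) × (ℕ × ℕ) => (t.1.1 * t.1.2) * (t.2.1 * t.2.2))

/-- The sizes of the windows: exponents `d`, `1/7 - 9d`, `3/14 - 2d`, `3/14`; their sum is
`4/7 - 10 d = 1 - κ`, `κ = 3/7 + 10 d`. -/
structure WN (d : ℝ) (n M2 Y0 X1 X2 : ℕ) : Prop where
  a1 : (n : ℝ) ^ d ≤ M2 ∧ (M2 : ℝ) ≤ 8 * (n : ℝ) ^ d
  a2 : (n : ℝ) ^ (1 / 7 - 9 * d) ≤ Y0 ∧ (Y0 : ℝ) ≤ 8 * (n : ℝ) ^ (1 / 7 - 9 * d)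
  a3 : (n : ℝ) ^ (3 / 14 - 2 * d) ≤ X1 ∧ (X1 : ℝ) ≤ 8 * (n : ℝ) ^ (3 / 14 - 2 * d)
  a4 : (n : ℝ) ^ (3 / 14 : ℝ) ≤ X2 ∧ (X2 : ℝ) ≤ 8 * (n : ℝ) ^ (3 / 14 : ℝ)

/-- **DIV** (60 lines). The divisor bound; `card_divisors_le_rpow` is in
`Pool.Agent.Lib.MP_391708_nt.Div` (import it). Proof. `τ(m) ≤ C m^(ε/6) ≤ C n^(ε/2) ≤ n^ε`,
`1 + log m ≤ 1 + 3 log n ≤ n^ε`. -/
def SpecDIV : Prop :=
  ∀ ε : ℝ, 0 < ε → ∀ᶠ n : ℕ in atTop, ∀ m : ℕ, 0 < m → m ≤ n ^ 3 →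
    tau m ≤ (n : ℝ) ^ ε ∧ 1 + Real.log m ≤ (n : ℝ) ^ ε

/-- **PRP** (150 lines). The products.
Proof. For large `n`: `16 n^d < n^(1/7-9d)`, `16 n^(1/7-9d) < n^(3/14-2d)`, `16 n^(3/14-2d) < n^(3/14)`
(`d ≤ 1/1000`), so `2 M2 < Y0`, `2 Y0 < X1`, `2 X1 < X2` and the four windows are disjoint sets of primes; a product
`u y p q` determines `u < y < p < q` (unique factorization: `u` is its least prime factor etc., or: if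
`u y p q = u' y' p' q'` then the prime `u` divides the right side, so `u` is one of the four primes, and it is `u'`
because of the windows; and so on). This gives (1). (2): multiply the inequalities. (3): a prime dividing
`u y p q` is one of the four; `p ≤ 2 X2 ≤ 16 n^(3/14)`. -/
def SpecPRP : Prop :=
  ∀ d ν : ℝ, 0 < d → d ≤ 1 / 1000 → 0 < ν → ν ≤ 1 / 8 → ∀ᶠ n : ℕ in atTop,
    ∀ M2 Y0 X1 X2 : ℕ, WN d n M2 Y0 X1 X2 →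
    2 * M2 < Y0 ∧ 2 * Y0 < X1 ∧ 2 * X1 < X2 ∧
    (∀ f : ℕ → ℝ, ∑ r ∈ PR ν n M2 Y0 X1 X2, f r = ∑ u ∈ pw ν n M2, ∑ y ∈ pw ν n Y0,
      ∑ p ∈ pw ν n X1, ∑ q ∈ pw ν n X2, f ((u * y) * (p * q))) ∧
    (∀ r ∈ PR ν n M2 Y0 X1 X2, M2 * Y0 * X1 * X2 < r ∧
      (r : ℝ) ≤ (1 + ν) ^ 4 * ((M2 : ℝ) * Y0 * X1 * X2)) ∧
    (∀ r ∈ PR ν n M2 Y0 X1 X2, ∀ p : ℕ, p.Prime → p ∣ r →
      M2 < p ∧ ¬ p ∣ n ∧ (p : ℝ) ≤ 16 * (n : ℝ) ^ (3 / 14 : ℝ))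

/-- **KTA** (300 lines; from KTD, DIV, PRP). The bilinear estimate with the chosen sizes.
Proof. `κ = 3/7 + 10 d`, `V = M2 Y0 X1 X2`, so `n^(1-κ) ≤ V ≤ 8^4 n^(1-κ)`; `n ≤ 4 V S` and `V S' < n` give
`n^κ/(4 8^4) ≤ S ≤ n^κ`. Apply KTD with `T = n^(d/100)`, `I = ⌊n^(3d)⌋ ≥ n^(3d)/2`, `Mm = pw ν n M2`,
`Y = pw ν n Y0`, `R = {u (p q)}`, `U = {y (p q)}` (images; `u ∈ pw M2`, `y ∈ pw Y0`, `p ∈ pw X1`,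
`q ∈ pw X2`): by PRP the sum over `r ∈ PR` is the sum over `y ∈ Y`, `r1 ∈ R` of `f(y r1)`, the sum over `m ∈ PR` is
the sum over `u' ∈ U`, `m2 ∈ Mm` of `f(u' m2)`. Check of `DK`: `MY`, `MV`, `Mp`, `Yp`, `R0` clear; `Rp`: primes of `R` are `u, p, q`,
which are `> M2`, do not divide `n` and are not in `pw Y0`; `RV`: `V < y r1 ≤ (1+ν)^4 V ≤ 2 V`
(`(9/8)^4 < 2`); `top`: `y r1 S' ≤ (1+ν)^4 V S' < n`; `T1`: DIV (`16 M2 V S ≤ n^3`); `IY`, `IYB` clear;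
`I3`: `I^3 2 M2 V ≤ 2 8^5 n^(9d + d + 1 - κ)` and `Y0 S ≥ n^(1/7 - 9d + κ)/(4 8^4)`, where
`1/7 - 9d + κ = 1 - κ + 11 d` (since `2 κ = 6/7 + 20 d`); `SI`: `2 S I ≤ 2 n^(κ+3d)`, `M2 V ≥ n^(1-κ+d)`, `2κ + 2d < 1`.
The bound (`Y0 ≤ 8 n^(1/7-9d)`, `P₀ = Y0 S ≤ 8 n^(1-κ+11d)`, `V^2/Y0 ≤ 8^8 n^(2-2κ-1/7+9d) = 8^8 n^(1-11d)`,
`C` absolute constants): `I^2 P₀ S/I^3 = P₀ S/I ≤ C n^(1+8d)`;
`I^2 P₀^2 √P₀ Y0/(I M2 V) ≤ C n^(3d + (5/2)(1-κ+11d) + 1/7 - 9d - (1-κ) - d) = C n^(1+5.5d)`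
(`(3/2)(1-κ) = 6/7 - 15d`, so the exponent is `6/7 - 15d + 27.5d + 1/7 - 7d = 1 + 5.5 d`). So the square root in `OM`
is at most `C T^5 n^(1 - 1.5 d)` and `OM ≤ C T^5 n^(1-1.5d)` (`V^2/Y0 ≤ C n^(1-11d)`, `V ≤ C n^(1-κ)`,
`n/M2^2 ≤ n^(1-2d)`). Finally `T^2 (n/M2)(4 T^2 n + M2^2 OM) ≤ 4 T^4 n^(2-d) + T^2 n M2 OM
≤ C T^7 n^(2 - d/2) ≤ n^(2 - 2d/5)` as `T^7 = n^(7d/100)` and `7/100 < 1/10`. -/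
def SpecKTA : Prop :=
  ∀ d ν : ℝ, 0 < d → d ≤ 1 / 1000 → 0 < ν → ν ≤ 1 / 8 → ∀ᶠ n : ℕ in atTop,
    ∀ M2 Y0 X1 X2 : ℕ, WN d n M2 Y0 X1 X2 → ∀ (S S' : ℕ) (K : Finset ℕ) (c : ℕ → ℝ),
    0 < S → S ≤ S' → S' ≤ 2 * S → n ≤ 4 * (M2 * Y0 * X1 * X2) * S →
    (1 + ν) ^ 4 * ((M2 : ℝ) * Y0 * X1 * X2) * S' < n →
    (∀ k ∈ K, |c k| ≤ 1 ∧ 0 < k) →
    (∀ k ∈ K, ∀ m ∈ PR ν n M2 Y0 X1 X2, ∀ r ∈ PR ν n M2 Y0 X1 X2,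
      r * S < n - k * m ∧ n - k * m ≤ r * S') →
    |∑ k ∈ K, c k * ∑ m ∈ PR ν n M2 Y0 X1 X2, ∑ r ∈ PR ν n M2 Y0 X1 X2,
      ((if r ∣ n - k * m then (1 : ℝ) else 0) - 1 / (r : ℝ))| ≤ (n : ℝ) ^ (1 - d / 5)

/-- **PIG** (150 lines). A short window with many primes.
Proof. Chebyshev: `θ(4x) - θ(x) ≥ 4x log 2 - x log 4 - o(x) ≥ x` for large `x` (`Chebyshev.theta_ge`,
`Chebyshev.theta_le_log4_mul_x`), so there are at least `x/log(4x)` primes in `(x, 4x]`, at least `x/log(4x) - 1`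
in `(x+1, 4x]`. Let `J ≥ 1` with `(1+ν/2)^J ≥ 4 > (1+ν/2)^(J-1)` and `X_i = ⌈x (1+ν/2)^i⌉`, `i < J`; `X_i ≤ 4x + 1 ≤ 8x`;
`(X_i, (1+ν) X_i]` contains `(x (1+ν/2)^i + 1, x (1+ν/2)^(i+1) + 1]` when `x ν/2 ≥ 1`, so these windows cover
`(x+1, 4x]`, and one of them contains at least `(x/log(4x) - 1)/J ≥ x/(2 J log x)·(1/2)` primes. -/
def SpecPIG : Prop :=
  ∀ ν : ℝ, 0 < ν → ν ≤ 1 → ∃ c x0 : ℝ, 0 < c ∧ ∀ x : ℝ, x0 ≤ x → ∃ X : ℕ, x ≤ X ∧ (X : ℝ) ≤ 8 * x ∧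
    c * x / Real.log x ≤
      (((Ioc X (2 * X)).filter (fun p : ℕ => p.Prime ∧ (p : ℝ) ≤ (1 + ν) * X)).card : ℝ)

/-- **WIN** (150 lines; from PIG, PRP). The windows.
Proof. PIG with `x = n^a`, `a = d, 1/7 - 9d, 3/14 - 2d, 3/14`. The number of primes `> n^a` dividing `n` is at most
`1/a ≤ 1/d` (their product is at most `n`). So `#pw ν n X ≥ c n^a/log n - 1/d ≥ (c/2) n^a/log n` (`a ≤ 1`). By PRP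
(`f = 1`) `#PR` is the product of the four numbers, at least `(c/2)^4 n^(Σ a)/(log n)^4`, and
`M2 Y0 X1 X2 ≤ 8^4 n^(Σ a)`; `log n ≥ (16/c)^4` for large `n`. -/
def SpecWIN : Prop :=
  ∀ d ν : ℝ, 0 < d → d ≤ 1 / 1000 → 0 < ν → ν ≤ 1 / 8 → ∀ᶠ n : ℕ in atTop,
    ∃ M2 Y0 X1 X2 : ℕ, WN d n M2 Y0 X1 X2 ∧
      ((M2 : ℝ) * Y0 * X1 * X2) / Real.log n ^ 5 ≤ ((PR ν n M2 Y0 X1 X2).card : ℝ)

/-- **MRA** (120 lines). Mertens' first theorem. `mertens_upper`, `nonprime_bd` are in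
`Pool.Agent.Lib.MP_5b6025_nt.RP.Mertens`.
Proof. Upper bound: `log p = Λ(p)` and `mertens_upper`. Lower bound:
`∑_{d ≤ N} Λ(d) ⌊N/d⌋ = log N! ≥ N log N - N`, so `∑_{d ≤ N} Λ(d)/d ≥ log N - 1`; the `d` that are not prime
contribute at most a constant (`nonprime_bd`; `Λ(d) = 0` unless `d` is a prime power). -/
def SpecMRA : Prop :=
  ∃ C : ℝ, 0 ≤ C ∧ ∀ N : ℕ, 1 ≤ N →
    |(∑ p ∈ (Ioc 0 N).filter Nat.Prime, Real.log p / (p : ℝ)) - Real.log N| ≤ C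

/-- **MRB** (150 lines; from MRA).
Proof. `A(t) = ∑_{p ≤ t} log p/p = log t + R(t)`, `|R| ≤ C`. Then
`∑_{a < p ≤ b} 1/p = ∑_{a < t ≤ b} (A(t) - A(t-1))/log t`, the part from `log` is
`∑ (log t - log(t-1))/log t ≤ ∑ (log log t - log log (t-1)) = log(log b/log a)` (for `t - 1 ≥ 2`:
`log(log t/log(t-1)) ≥ 1 - log(t-1)/log t`), and the part from `R` is by partial summation at most
`C/log b + C/log(a+1) + C ∑ (1/log t - 1/log(t+1)) ≤ 3 C/log a`. -/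
def SpecMRB : Prop :=
  ∃ C : ℝ, 0 ≤ C ∧ ∀ a b : ℕ, 2 ≤ a → a ≤ b →
    ∑ p ∈ (Ioc a b).filter Nat.Prime, 1 / (p : ℝ) ≤
      Real.log (Real.log b / Real.log a) + C / Real.log a

/-- **NSM** (180 lines; from MRB). The numbers with a large prime factor in an interval.
Proof. Such a `k` in `(x, x+h]` has a prime factor `p` with `n^θ < p ≤ k ≤ n^κ`; for each `p` at most `h/p + 1`
multiples. With `a = ⌊n^θ⌋`, `b = ⌊n^κ⌋`: at most `h ∑_{a < p ≤ b} 1/p + π(b)`, and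
`∑ ≤ log(log b/log a) + C/log a → log(κ/θ)`, `π(b) ≤ C' b/log b = o(n^κ)` (`Chebyshev.pi_le..`), while
`n^κ ≤ h/c`. -/
def SpecNSM : Prop :=
  ∀ θ κ ε c : ℝ, 0 < θ → θ < κ → κ < 1 → 0 < ε → 0 < c → ∀ᶠ n : ℕ in atTop, ∀ x h : ℕ,
    (x : ℝ) + h ≤ (n : ℝ) ^ κ → c * (n : ℝ) ^ κ ≤ h →
    (((Ioc x (x + h)).filter (fun k : ℕ => ∃ p : ℕ, p.Prime ∧ p ∣ k ∧ (n : ℝ) ^ θ < p)).card : ℝ) ≤
      (Real.log (κ / θ) + ε) * h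

/-- **FIN** (120 lines). The counting argument.
Proof. `L = #W ∑_{r ∈ W} 1/r`. (1) `c = 1`: the number `X1` of the triples `(k,m,r)`, `k ∈ K`, `r ∣ n - k m`, is at least
`#K L - E`. (2) `c = 1_bad`: the number of those with `bad k` is at most `#bad(K) L + E`. (3) The number of the
`(s,r,m)`, `s ∈ Ss` bad, `m ∣ n - s r`, is at most `#bad(Ss) L + E`. If the conclusion fails then for each triple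
of (1) put `s = (n - k m)/r ∈ Ss`; `k m + r s = n`, so `k` or `s` is bad; if `s` is bad then `(s,r,m)` is counted in
(3) (`n - s r = k m`), and `(k,m,r) ↦ (s,r,m)` is injective (`m > 0`). So `X1` is at most
`(#bad(K) + #bad(Ss)) L + 2 E`, contradiction. -/
def SpecFIN : Prop :=
  ∀ (n : ℕ) (K Ss W : Finset ℕ) (E : ℝ) (bad : ℕ → Prop),
    (∀ r ∈ W, 0 < r) → (∀ k ∈ K, ∀ m ∈ W, k * m < n) → (∀ s ∈ Ss, ∀ r ∈ W, s * r < n) →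
    (∀ k ∈ K, ∀ m ∈ W, ∀ r ∈ W, r ∣ n - k * m → (n - k * m) / r ∈ Ss) →
    (∀ c : ℕ → ℝ, (∀ k ∈ K, |c k| ≤ 1) →
      |∑ k ∈ K, c k * ∑ m ∈ W, ∑ r ∈ W,
        ((if r ∣ n - k * m then (1 : ℝ) else 0) - 1 / (r : ℝ))| ≤ E) →
    (∀ c : ℕ → ℝ, (∀ s ∈ Ss, |c s| ≤ 1) →
      |∑ s ∈ Ss, c s * ∑ r ∈ W, ∑ m ∈ W,
        ((if m ∣ n - s * r then (1 : ℝ) else 0) - 1 / (m : ℝ))| ≤ E) →
    3 * E < (W.card * ∑ r ∈ W, 1 / (r : ℝ)) *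
      ((K.card : ℝ) - (K.filter bad).card - (Ss.filter bad).card) →
    ∃ k ∈ K, ∃ s ∈ Ss, ∃ m ∈ W, ∃ r ∈ W, ¬ bad k ∧ ¬ bad s ∧ k * m + r * s = n

/-- **WNC** (250 lines; from KTA, PRP). The two window choices.
Proof. Let `V = M2 Y0 X1 X2`, `x = n/(2V)`; `n^κ/(2 8^4) ≤ x ≤ n^κ/2`, `κ = 3/7 + 10 d`, so `x → ∞` and `V/n → 0`;
`(1+ν)^4 ≤ 1 + μ`. `K = (⌈x⌉, ⌊(1+λ)x⌋]`, `S = ⌊(1-λ-4μ)x⌋`, `S' = ⌈x⌉`. For `k ∈ K`, `m, r ∈ PR ⊂ (V, (1+μ)V]`: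
`n/2 < k m ≤ (1+λ)(1+μ) n/2`, so `n - k m < n/2 = x V ≤ r S'` and
`n - k m ≥ (1-λ-μ-λμ) n/2 > (1+μ)(1-λ-4μ) n/2 ≥ r S` (the difference of the factors is `2μ + 4μ^2 > 0`). Also
`S ≥ x/2` (large `x`), `S' ≤ 2 S`, `(1+μ) V S' ≤ (1+μ)(n/2 + V) < n`. So KTA applies to `K`, `(S,S']`, and
`r ∣ n - k m` implies `(n - k m)/r ∈ (S, S']`. For the second application the role of `K` is played by
`(S, S']`: for `s` in it and `m, r ∈ PR`: `n - s r ≥ n - (1+μ)(n/2 + V) > (1+μ)(1-3μ) n/2 ≥ m S2`, `S2 = ⌊(1-3μ)x⌋`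
(difference `(μ + 3μ^2) n/2 - (1+μ) V > 0`), and `n - s r < n - ((1-λ-4μ)x - 1) V = (1+λ+4μ) n/2 + V
≤ (1+λ+5μ) n/2 ≤ m S2'`, `S2' = ⌈(1+λ+5μ)x⌉`; `S2' ≤ 2 S2`, `n ≤ 4 V S2`, `(1+μ) V S2' < n`. The counts:
`#K ≥ λ x - 2`, `#(S,S'] ≤ (λ+4μ)x + 2`, and both intervals are contained in `(0, n^κ]`. -/
def SpecWNC : Prop :=
  ∀ d ν lam μ : ℝ, 0 < d → d ≤ 1 / 1000 → 0 < ν → ν ≤ 1 / 8 → (1 + ν) ^ 4 ≤ 1 + μ →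
    0 < lam → lam ≤ 1 / 100 → 0 < μ → μ ≤ 1 / 1000 → ∀ᶠ n : ℕ in atTop,
    ∀ M2 Y0 X1 X2 : ℕ, WN d n M2 Y0 X1 X2 → ∃ k1 k2 S S' : ℕ,
      k1 ≤ k2 ∧ S ≤ S' ∧ (k2 : ℝ) ≤ (n : ℝ) ^ (3 / 7 + 10 * d) ∧
      (S' : ℝ) ≤ (n : ℝ) ^ (3 / 7 + 10 * d) ∧
      lam * (n / (2 * ((M2 : ℝ) * Y0 * X1 * X2))) - 2 ≤ (k2 : ℝ) - k1 ∧
      (k2 : ℝ) - k1 ≤ lam * (n / (2 * ((M2 : ℝ) * Y0 * X1 * X2))) ∧
      lam * (n / (2 * ((M2 : ℝ) * Y0 * X1 * X2))) ≤ (S' : ℝ) - S ∧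
      (S' : ℝ) - S ≤ (lam + 4 * μ) * (n / (2 * ((M2 : ℝ) * Y0 * X1 * X2))) + 2 ∧
      (∀ k ∈ Ioc k1 k2, ∀ m ∈ PR ν n M2 Y0 X1 X2, k * m < n) ∧
      (∀ s ∈ Ioc S S', ∀ m ∈ PR ν n M2 Y0 X1 X2, s * m < n) ∧
      (∀ k ∈ Ioc k1 k2, ∀ m ∈ PR ν n M2 Y0 X1 X2, ∀ r ∈ PR ν n M2 Y0 X1 X2,
        r ∣ n - k * m → (n - k * m) / r ∈ Ioc S S') ∧
      (∀ c : ℕ → ℝ, (∀ k ∈ Ioc k1 k2, |c k| ≤ 1) →
        |∑ k ∈ Ioc k1 k2, c k * ∑ m ∈ PR ν n M2 Y0 X1 X2, ∑ r ∈ PR ν n M2 Y0 X1 X2,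
          ((if r ∣ n - k * m then (1 : ℝ) else 0) - 1 / (r : ℝ))| ≤ (n : ℝ) ^ (1 - d / 5)) ∧
      (∀ c : ℕ → ℝ, (∀ s ∈ Ioc S S', |c s| ≤ 1) →
        |∑ s ∈ Ioc S S', c s * ∑ r ∈ PR ν n M2 Y0 X1 X2, ∑ m ∈ PR ν n M2 Y0 X1 X2,
          ((if m ∣ n - s * r then (1 : ℝ) else 0) - 1 / (m : ℝ))| ≤ (n : ℝ) ^ (1 - d / 5))

/-- **THA** (200 lines; from WNC, WIN, PRP, NSM, FIN). The theorem for `n` itself.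
Proof. `log((3/7)/θ) < 1/2` as `θ > 3/(7 √e)`. Choose `0 < d ≤ 1/1000` and `0 < ε ≤ 1/100` with
`log(κ/θ) + ε ≤ 1/2 - 3ε`, `κ = 3/7 + 10d` (`κ < 1`), `λ = 1/100`, `μ = ε λ ≤ 1/1000`, `ν = μ/8`
(`(1+ν)^4 ≤ 1 + 8ν` for `ν ≤ 1/8`). Windows from WIN; `V = M2 Y0 X1 X2`, `x = n/(2V)`, and `K = (k1,k2]`,
`Ss = (S,S']` from WNC; `W = PR`; `E = n^(1-d/5)`; `bad k`: `k` has a prime factor `> n^θ`. NSM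
(`c = λ/(4 8^4)`; `x ≥ n^κ/(2 8^4)`) gives `#bad(K) ≤ (1/2-3ε) #K` and `#bad(Ss) ≤ (1/2-3ε) #Ss`. So
`#K - #bad(K) - #bad(Ss) ≥ (1/2+3ε)(λx - 2) - (1/2-3ε)((λ+4μ)x + 2) ≥ (6ελ - 2μ)x - 4 ≥ ελ x` for large `n`.
`#W ∑ 1/r ≥ (#W)^2/(2V) ≥ V/(2 (log n)^10)` (`r ≤ 2V`). The product is at least
`ελ x V/(2 (log n)^10) = ελ n/(4 (log n)^10) > 3 n^(1-d/5)`. FIN gives `k m + r s = n`; `a = k m`, `b = r s`; they are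
positive (`k > k1 ≥ 0`, `s > S ≥ 0`); prime factors of `k`, `s` are at most `n^θ`, those of `m`, `r` at most
`16 n^(3/14) ≤ n^θ` (PRP; `θ > 3/(7 √e) > 1/4 > 3/14`, since `√e < 12/7`). -/
def SpecTHA : Prop :=
  ∀ θ : ℝ, 3 / (7 * √(Real.exp 1)) < θ → θ < 3 / 7 → ∀ᶠ n : ℕ in atTop,
    ∃ a b : ℕ, 0 < a ∧ 0 < b ∧ a + b = n ∧
      (∀ p : ℕ, p.Prime → p ∣ a → (p : ℝ) ≤ (n : ℝ) ^ θ) ∧
      (∀ p : ℕ, p.Prime → p ∣ b → (p : ℝ) ≤ (n : ℝ) ^ θ)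

/-- **THB** (80 lines; from THA). The final theorem.
Proof. We may assume `ε < 3/7` (monotone in `ε` for `N ≥ 1`). THA gives `n0`; for `n ≥ n0` take its `a, b`
(`n^ε ≤ N^ε`). For `2 ≤ n < n0` write `n = 1 + (n-1)`: all primes are `≤ n0 ≤ N^ε` for `N ≥ N₀`. -/
def SpecTHB : Prop :=
  ∀ ε : ℝ, 3 / (7 * √(Real.exp 1)) < ε → ∃ N₀ : ℕ, ∀ N : ℕ, N₀ ≤ N → ∀ n : ℕ, 2 ≤ n → n ≤ N →
      ∃ a b : ℕ, 0 < a ∧ 0 < b ∧ a + b = n ∧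
        (∀ p : ℕ, p.Prime → p ∣ a → (p : ℝ) ≤ (N : ℝ) ^ ε) ∧
        (∀ p : ℕ, p.Prime → p ∣ b → (p : ℝ) ≤ (N : ℝ) ^ ε)

end Pool.Agent.Lib.MP_1446ad_nt.SM
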