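import Pool.Agent.Lib.MP_1446ad_nt.SM.SpecW

/-!
# MP_1446ad_nt (sums of two smooth numbers), part K: Kloosterman sums modulo `m` and completion

Every Spec is a closed proposition; its doc string contains a complete elementary proof. Module `XXX`
= file `SM/XXX.lean`, theorem `specXXX (hYYY : SpecYYY) .. : SpecXXX`, own lemmas in the namespace
`Pool.Agent.Lib.MP_1446ad_nt.SM.XXXM`.
-/

set_option autoImplicit false

namespace Pool.Agent.Lib.MP_1446ad_nt.SM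

open Finset
open scoped Classical

/-- The number of divisors, as a real number. -/
noncomputable def tau (m : ℕ) : ℝ := (m.divisors.card : ℝ)

/-- `∑_{x z = c mod P} e((h x + k z)/P)`. -/
noncomputable def kc (P : ℕ) [NeZero P] (c h k : ℤ) : ℂ :=
  ∑ x : ZMod P, ∑ z : ZMod P,
    if x * z = (c : ZMod P) then ZMod.stdAddChar ((h : ZMod P) * x + (k : ZMod P) * z) else 0

/-- **KPR** (120 lines; from WEI). The case of a prime modulus.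
Proof. Let `ψ = ZMod.stdAddChar`, nontrivial. (i) `p ∤ c`: `x ≠ 0`, `z = c x⁻¹`, so
`kc p c h k = ∑_{x ≠ 0} ψ(h x + k c x⁻¹) = kl ψ h (k c)`. If `p ∤ h k` WEI gives `2 √p`, and both gcds are 1. If
`p ∣ h`: trivial bound `p - 1 ≤ 2 √p √p` (`gcd(h,p) = p`). If `p ∤ h`, `p ∣ k`: `∑_{x ≠ 0} ψ(h x) = -1`. (ii) `p ∣ c`:
`gcd(c,p) = p`; the pairs are `x = 0` or `z = 0`: `kc = ∑_z ψ(k z) + ∑_x ψ(h x) - 1`, of absolute value at most
`2 p - 1` always, the required bound is `2 √p √(gcd(h,p)) √p ≥ 2 p`. -/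
def SpecKPR : Prop :=
  ∀ (p : ℕ) [NeZero p], p.Prime → ∀ c h k : ℤ,
    ‖kc p c h k‖ ≤ 2 * √(p : ℝ) * √(Int.gcd h p : ℝ) * √(Int.gcd c p : ℝ)

/-- **KMU** (120 lines). Multiplicativity.
Proof. Take integers `a v + b u = 1`. `ZMod.chineseRemainder : ZMod (u v) ≃+* ZMod u × ZMod v`; for an integer
`t`: `e(t/(u v)) = e(a t / u) e(b t / v)` (`ZMod.stdAddChar_coe`), so `stdAddChar s` = product of
`stdAddChar (a s_1)` and `stdAddChar (b s_2)` for `s ↦ (s_1,s_2)`. The double sum over `ZMod (u v)` becomes a sum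
over `(x_1,x_2,z_1,z_2)`, the condition `x z = c` becomes `x_1 z_1 = c`, `x_2 z_2 = c`. -/
def SpecKMU : Prop :=
  ∀ (u v : ℕ) [NeZero u] [NeZero v] [NeZero (u * v)], Nat.Coprime u v → ∀ c h k : ℤ,
    ∃ a b : ℤ, Int.gcd a u = 1 ∧ Int.gcd b v = 1 ∧
      kc (u * v) c h k = kc u c (a * h) (a * k) * kc v c (b * h) (b * k)

/-- **SQF** (100 lines; from KPR, KMU). Squarefree modulus.
Proof. Induction (for all `c h k`): `u = 1`: the sum has one term. `u > 1`: `u = p u'`, `p` prime, coprime. By KMU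
and the induction hypothesis, and `gcd(a h, p) = gcd(h, p)` as `gcd(a,p) = 1` (same for `u'`),
`gcd(h, p) gcd(h, u') = gcd(h, u)`, `τ(p) τ(u') = τ(u)`, `τ(p) = 2`. -/
def SpecSQF : Prop :=
  ∀ (u : ℕ) [NeZero u], Squarefree u → ∀ c h k : ℤ,
    ‖kc u c h k‖ ≤ tau u * √(u : ℝ) * √(Int.gcd h u : ℝ) * √(Int.gcd c u : ℝ)

/-- **TRI** (100 lines). The trivial bound.
Proof. The sum is at most the number of pairs with `x z = c` in `ZMod v`. For given `x` (`0 ≤ x < v`) the number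
of `z` is 0 or the number of `z` with `x z = 0`, i.e. at most `gcd(x, v)`. And
`∑_{x < v} gcd(x,v) ≤ ∑_{d ∣ v} d #{x < v : d ∣ x} = ∑_{d ∣ v} d (v/d) = τ(v) v`. -/
def SpecTRI : Prop :=
  ∀ (v : ℕ) [NeZero v] (c h k : ℤ), ‖kc v c h k‖ ≤ tau v * v

/-- **KLB** (60 lines; from KMU, SQF, TRI). Proof. KMU, SQF for `u`, TRI for `v`, `τ(u) τ(v) = τ(u v)`,
`gcd(a h, u) = gcd(h, u)`. -/
def SpecKLB : Prop :=
  ∀ (u v : ℕ) [NeZero (u * v)], Nat.Coprime u v → Squarefree u → ∀ c h k : ℤ,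
    ‖kc (u * v) c h k‖ ≤
      tau (u * v) * √(u : ℝ) * (v : ℝ) * √(Int.gcd h u : ℝ) * √(Int.gcd c u : ℝ)

/-- **GEO** (80 lines). Geometric sums.
Proof. `z = e(h/P) ≠ 1`: `|∑_{i<W} z^i| = |z^W - 1|/|z - 1| ≤ 2/|z-1|`, and `|z - 1| = 2 sin(π h/P)`
`≥ 2 (2/π) π min(h, P-h)/P = 4 min(h,P-h)/P` (Jordan: `Real.mul_le_sin`; `sin(π h/P) = sin(π (P-h)/P)`). -/
def SpecGEO : Prop :=
  ∀ (P : ℕ) [NeZero P] (W h : ℕ), 0 < h → h < P →
    ‖∑ i ∈ range W, ZMod.stdAddChar (((h * i : ℕ) : ZMod P))‖ ≤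
      (P : ℝ) / (2 * min (h : ℝ) ((P : ℝ) - h))

/-- **GCS** (100 lines).
Proof. The summands for `h` and `P - h` are equal, so the sum is at most twice the sum over `2 h ≤ P`, where
`min = h`. `√(gcd(h,P)) ≤ ∑_{d ∣ P, d ∣ h} √d`, so the latter is
`≤ ∑_{d ∣ P} √d ∑_{j ≤ P/(2d)} 1/(d j) ≤ ∑_{d ∣ P} (1/√d) (1 + log P) ≤ τ(P) (1 + log P)`. -/
def SpecGCS : Prop :=
  ∀ P : ℕ, 0 < P →
    ∑ h ∈ Ioo 0 P, √(Nat.gcd h P : ℝ) / min (h : ℝ) ((P : ℝ) - h) ≤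
      2 * tau P * (1 + Real.log P)

/-- The number of `(i,j)`, `i < W`, `j < L`, with `(β + y i)(q + j) = c mod P`. -/
noncomputable def cntB (P : ℕ) (y β c q : ℤ) (W L : ℕ) : ℕ :=
  ((range W ×ˢ range L).filter
    (fun t : ℕ × ℕ => (P : ℤ) ∣ (β + y * (t.1 : ℤ)) * (q + (t.2 : ℤ)) - c)).card

/-- **FOU** (120 lines). The Fourier expansion.
Proof. For `s : ZMod P` and `x : ZMod P`: `1_{s = x} = (1/P) ∑_h ψ(h (x - s))` (`AddChar.sum_mulShift` or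
`AddChar.expect..`), `h` over `range P`. For fixed `(i,j)`, `s = β + y i`, `t = q + j`:
`1_{s t = c} = ∑_{x z = c} 1_{x = s} 1_{z = t} = (1/P²) ∑_h ∑_k ψ(-h s) ψ(-k t) ∑_{x z = c} ψ(h x + k z)`.
Sum over `i`, `j`. -/
def SpecFOU : Prop :=
  ∀ (P : ℕ) [NeZero P] (y β c q : ℤ) (W L : ℕ),
    ((cntB P y β c q W L : ℕ) : ℂ) = (1 / (P : ℂ) ^ 2) * ∑ h ∈ range P, ∑ k ∈ range P,
      (∑ i ∈ range W, ZMod.stdAddChar ((-((h : ℤ) * (β + y * (i : ℤ))) : ℤ) : ZMod P)) *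
      (∑ j ∈ range L, ZMod.stdAddChar ((-((k : ℤ) * (q + (j : ℤ))) : ℤ) : ZMod P)) *
      kc P c h k

/-- The product of the primes `p` that divide `P` exactly once. -/
noncomputable def uu (P : ℕ) : ℕ := ∏ p ∈ P.primeFactors.filter (fun p => ¬ p ^ 2 ∣ P), p

/-- The complementary divisor of `P`: the powerful part. -/
noncomputable def vv (P : ℕ) : ℕ := P / uu P

/-- **DEC** (120 lines). Proof. `uu P` is a product of distinct primes dividing `P`, so `uu P ∣ P` and squarefree;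
the exponent of `p` in `vv P` is `v_p(P)` if `p² ∣ P` and 0 otherwise (`Nat.factorization`). `vv P = d² b`,
`d = ∏ p^(⌊v_p/2⌋)`, `b = ∏_{v_p odd} p` over the primes `p` of `vv P`; all `v_p ≥ 2`, so `b ∣ d`. -/
def SpecDEC : Prop :=
  ∀ P : ℕ, 0 < P → uu P * vv P = P ∧ Nat.Coprime (uu P) (vv P) ∧ Squarefree (uu P) ∧
    ∃ d b : ℕ, vv P = d ^ 2 * b ∧ b ∣ d

/-- The error term of the completion. -/
noncomputable def er (P : ℕ) (c : ℤ) : ℝ :=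
  2 * tau P ^ 2 * (1 + Real.log P) ^ 2 * √(uu P : ℝ) * (vv P : ℝ) * √(Int.gcd c (uu P) : ℝ)

/-- **BOX** (180 lines; from FOU, KLB, GEO, GCS, DEC). Solutions of `(β + y i)(q + j) = c mod P` in a box.
Proof. Put `F(h) = ∑_i e(-h (β + y i)/P)`, `G(k) = ∑_j e(-k (q+j)/P)`. By FOU the count is
`(1/P²) ∑_{h,k} F(h) G(k) kc(h,k)`. Since `F(0) = W`, the part `h = 0` is `(W/P²) ∑_k G(k) kc(0,k)`; FOU for
`cntB P 1 0 c q P L` (there `∑_{i<P} e(-h i/P) = 0` for `0 < h < P` and `= P` for `h = 0`) shows that it equals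
`(W/P) cntB P 1 0 c q P L`. The rest is, by KLB for `P = uu P * vv P`, at most
`(1/P²) (∑_{0<h<P} |F(h)| √gcd(h,P)) (∑_k |G(k)|) τ(P) √u v √gcd(c,u)` (`gcd(h,u) ≤ gcd(h,P)`).
`|F(h)| = |∑_{i<W} e(h' i/P)|`, `h' = - h y mod P` in `(0,P)`, `gcd(h',P) = gcd(h,P)`, `h ↦ h'` a bijection of
`(0,P)`; so GEO and GCS give `∑_{0<h<P} |F(h)| √gcd(h,P) ≤ (P/2) 2 τ(P) (1 + log P)`. Similarly
`∑_k |G(k)| ≤ L + (P/2) ∑_{0<k<P} 1/min(k,P-k) ≤ P + P (1 + log P) ≤ 2 P (1 + log P)` (`L ≤ P`; the harmonic sum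
`∑_{0<k<P} 1/min(k,P-k) ≤ 2 (1 + log P)`). The product is `er P c`. (`P = 1`: the sums over `0 < h < P` are empty.) -/
def SpecBOX : Prop :=
  ∀ (P : ℕ) (y β c q : ℤ) (W L : ℕ), 0 < P → Int.gcd y P = 1 → L ≤ P →
    |(cntB P y β c q W L : ℝ) - (W : ℝ) / P * (cntB P 1 0 c q P L : ℝ)| ≤ er P c

/-- **AVG** (180 lines; from DEC). The error term on average.
Proof. `T ≥ 1` (`m = 1`). Let `v = vv P`, `g = gcd(c, uu P)`. `√(uu P) v = √P √v ≤ √X √v`. So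
`er P c ≤ 2 T^4 √X √v √g`. By DEC `v = d² b` with `b ∣ d`, `d ≤ X`; `g ∣ c`; `g ∣ uu P`, so `v g ∣ P`. The number of
`P ≤ X` with `d² b g ∣ P` is at most `X/(d² b g)`. So
`∑_P √v √g ≤ ∑_{d ≤ X} ∑_{b ∣ d} ∑_{g ∣ c} d √b √g X/(d² b g) ≤ X ∑_{d ≤ X} (1/d) τ(d) τ(c) ≤ X T^2 (1 + log X)
≤ X T^3`. -/
def SpecAVG : Prop :=
  ∀ (T : ℝ) (X : ℕ) (c : ℤ), 1 ≤ X → c ≠ 0 →
    (∀ m : ℕ, 0 < m → m ≤ X → tau m ≤ T ∧ 1 + Real.log m ≤ T) → tau c.natAbs ≤ T →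
    ∑ P ∈ Ioc 0 X, er P c ≤ 2 * T ^ 7 * X * √(X : ℝ)

/-- **SPA** (120 lines). The main term on average.
Proof. `cntB P 1 0 c q P L = ∑_{j<L} #{x < P : P ∣ x (q+j) - c}`. Put `Q = q + j`, `0 < Q ≤ Qm`. If there is a
solution `x` then `g = gcd(Q,P)` divides `c`, and the solutions form one residue class modulo `P/g`: their
number is `g`. So the number is at most `∑_{g ∣ c, g ∣ Q, g ∣ P} g`. Sum over `P`:
`∑_{g ∣ c, g ∣ Q} g #{P in (lo,hi] : g ∣ P} ≤ ∑_g g ((hi-lo)/g + 1) ≤ τ(c) ((hi - lo) + Qm)`. -/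
def SpecSPA : Prop :=
  ∀ (T : ℝ) (c : ℤ) (lo hi q L Qm : ℕ), c ≠ 0 → tau c.natAbs ≤ T → 0 < q → q + L ≤ Qm + 1 →
    lo ≤ hi →
    ∑ P ∈ Ioc lo hi, (cntB P 1 0 c q P L : ℝ) ≤ (L : ℝ) * T * (((hi : ℝ) - lo) + Qm)

end Pool.Agent.Lib.MP_1446ad_nt.SM
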