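import Pool.Agent.Lib.MP_1446ad_nt.SM.SpecF

set_option autoImplicit false

namespace Pool.Agent.Lib.MP_1446ad_nt.SM

namespace WINM

open Finset Filter

/-- few prime divisors above `n^a` -/
theorem few (n : ℕ) (hn : 2 ≤ n) (a : ℝ) (ha : 0 < a) (D : Finset ℕ)
    (hD : ∀ p ∈ D, p.Prime ∧ p ∣ n ∧ (n : ℝ) ^ a ≤ p) : (D.card : ℝ) ≤ 1 / a := by
  have hn0 : (0 : ℝ) < n := by exact_mod_cast (by omega : 0 < n)
  have hn1 : (1 : ℝ) < n := by exact_mod_cast (by omega : 1 < n)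
  have h1 : ∏ p ∈ D, p ∣ n := by
    apply Finset.prod_primes_dvd
    · intro p hp; exact (hD p hp).1.prime
    · intro p hp; exact (hD p hp).2.1
  have h2 : ∏ p ∈ D, p ≤ n := Nat.le_of_dvd (by omega) h1
  have h3 : ((n : ℝ) ^ a) ^ D.card ≤ ∏ p ∈ D, (p : ℝ) := by
    rw [← prod_const]
    apply Finset.prod_le_prod
    · intro p _; positivity
    · intro p hp; exact (hD p hp).2.2
  have h4 : ((n : ℝ) ^ a) ^ D.card ≤ n := by
    refine h3.trans ?_
    rw [← Nat.cast_prod]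
    exact_mod_cast h2
  rw [← Real.rpow_natCast, ← Real.rpow_mul hn0.le] at h4
  have h5 : (n : ℝ) ^ (a * (D.card : ℝ)) ≤ (n : ℝ) ^ (1 : ℝ) := by rwa [Real.rpow_one]
  have h6 := (Real.rpow_le_rpow_left_iff hn1).1 h5
  rw [le_div_iff₀ ha]
  linarith

theorem one (ν c x0 d a : ℝ) (hc : 0 < c) (hd : 0 < d) (hda : d ≤ a) (ha1 : a ≤ 1)
    (H : ∀ x : ℝ, x0 ≤ x → ∃ X : ℕ, x ≤ X ∧ (X : ℝ) ≤ 8 * x ∧
      c * x / Real.log x ≤
        (((Ioc X (2 * X)).filter (fun p : ℕ => p.Prime ∧ (p : ℝ) ≤ (1 + ν) * X)).card : ℝ)) :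
    ∀ᶠ n : ℕ in atTop, ∃ X : ℕ, (n : ℝ) ^ a ≤ X ∧ (X : ℝ) ≤ 8 * (n : ℝ) ^ a ∧
      c / 2 * ((n : ℝ) ^ a / Real.log n) ≤ ((pw ν n X).card : ℝ) := by
  have ha : 0 < a := by linarith
  have e1 : ∀ᶠ n : ℕ in atTop, x0 ≤ (n : ℝ) ^ a :=
    tendsto_natCast_atTop_atTop.eventually ((tendsto_rpow_atTop ha).eventually_ge_atTop x0)
  have e2 : ∀ᶠ n : ℕ in atTop, Real.log n ≤ c * d / 2 * (n : ℝ) ^ a := by
    have h := (isLittleO_log_rpow_atTop ha).bound (show 0 < c * d / 2 by positivity)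
    have h2 := (tendsto_natCast_atTop_atTop (R := ℝ)).eventually h
    filter_upwards [h2, eventually_ge_atTop 1] with n hn hn1
    rw [Real.norm_of_nonneg (Real.log_nonneg (by exact_mod_cast hn1)),
      Real.norm_of_nonneg (Real.rpow_nonneg (Nat.cast_nonneg _) _)] at hn
    exact hn
  filter_upwards [e1, e2, eventually_ge_atTop 2] with n h1 h2 hn
  obtain ⟨X, hX1, hX2, hX3⟩ := H _ h1
  refine ⟨X, hX1, hX2, ?_⟩
  have hn0 : (0 : ℝ) < n := by exact_mod_cast (by omega : 0 < n)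
  have hn1 : (1 : ℝ) < n := by exact_mod_cast (by omega : 1 < n)
  have hlog : 0 < Real.log n := Real.log_pos hn1
  have hpos : 0 < (n : ℝ) ^ a := Real.rpow_pos_of_pos hn0 _
  rw [Real.log_rpow hn0] at hX3
  -- split the window
  set W := (Ioc X (2 * X)).filter (fun p : ℕ => p.Prime ∧ (p : ℝ) ≤ (1 + ν) * X) with hW
  have hsplit : W.card = (pw ν n X).card + (W.filter (fun p => p ∣ n)).card := by
    have e : pw ν n X = W.filter (fun p => ¬ p ∣ n) := by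
      rw [pw, hW, filter_filter]
      apply filter_congr
      intro p _
      tauto
    rw [e, add_comm]
    exact (card_filter_add_card_filter_not (s := W) (fun p => p ∣ n)).symm
  have hfew : ((W.filter (fun p => p ∣ n)).card : ℝ) ≤ 1 / a := by
    apply few n hn a ha
    intro p hp
    rw [mem_filter, hW, mem_filter, mem_Ioc] at hp
    refine ⟨hp.1.2.1, hp.2, hX1.trans ?_⟩
    exact_mod_cast hp.1.1.1.le
  have hcard : (W.card : ℝ) = ((pw ν n X).card : ℝ) + ((W.filter (fun p => p ∣ n)).card : ℝ) := by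
    exact_mod_cast hsplit
  have h3 : 1 / a ≤ 1 / d := one_div_le_one_div_of_le hd hda
  have h4 : c * ((n : ℝ) ^ a / Real.log n) ≤ c * (n : ℝ) ^ a / (a * Real.log n) := by
    rw [← mul_div_assoc]
    apply div_le_div_of_nonneg_left (by positivity) (by positivity)
    nlinarith
  have h5 : 1 / d ≤ c / 2 * ((n : ℝ) ^ a / Real.log n) := by
    rw [← mul_div_assoc, div_le_div_iff₀ hd hlog]
    linarith
  linarith

end WINM

open WINM Finset Filter in
theorem specWIN (hPIG : SpecPIG) (hPRP : SpecPRP) : SpecWIN := by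
  intro d ν hd hd1 hν hν1
  obtain ⟨c, x0, hc, H⟩ := hPIG ν hν (by linarith)
  have w1 := one ν c x0 d d hc hd le_rfl (by linarith) H
  have w2 := one ν c x0 d (1 / 7 - 9 * d) hc hd (by linarith) (by linarith) H
  have w3 := one ν c x0 d (3 / 14 - 2 * d) hc hd (by linarith) (by linarith) H
  have w4 := one ν c x0 d (3 / 14) hc hd (by linarith) (by norm_num) H
  have hl : ∀ᶠ n : ℕ in atTop, (16 / c) ^ 4 ≤ Real.log n :=
    (Real.tendsto_log_atTop.comp tendsto_natCast_atTop_atTop).eventually_ge_atTop _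
  filter_upwards [w1, w2, w3, w4, hl, hPRP d ν hd hd1 hν hν1, eventually_ge_atTop 2]
    with n h1 h2 h3 h4 h5 h6 hn
  obtain ⟨M2, a1, b1, c1⟩ := h1
  obtain ⟨Y0, a2, b2, c2⟩ := h2
  obtain ⟨X1, a3, b3, c3⟩ := h3
  obtain ⟨X2, a4, b4, c4⟩ := h4
  have hWN : WN d n M2 Y0 X1 X2 := ⟨⟨a1, b1⟩, ⟨a2, b2⟩, ⟨a3, b3⟩, ⟨a4, b4⟩⟩
  refine ⟨M2, Y0, X1, X2, hWN, ?_⟩
  have hs := (h6 M2 Y0 X1 X2 hWN).2.2.2.1 (fun _ => 1)
  have hcard : ((PR ν n M2 Y0 X1 X2).card : ℝ) =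
      ((pw ν n M2).card : ℝ) * (((pw ν n Y0).card : ℝ) *
        (((pw ν n X1).card : ℝ) * ((pw ν n X2).card : ℝ))) := by
    simpa using hs
  rw [hcard]
  have hn0 : (0 : ℝ) < n := by exact_mod_cast (by omega : 0 < n)
  have hn1 : (1 : ℝ) < n := by exact_mod_cast (by omega : 1 < n)
  have hlog : 0 < Real.log n := Real.log_pos hn1
  set L := Real.log n with hL
  set z1 := (n : ℝ) ^ d
  set z2 := (n : ℝ) ^ (1 / 7 - 9 * d)
  set z3 := (n : ℝ) ^ (3 / 14 - 2 * d)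
  set z4 := (n : ℝ) ^ (3 / 14 : ℝ)
  have p1 : 0 < z1 := Real.rpow_pos_of_pos hn0 _
  have p2 : 0 < z2 := Real.rpow_pos_of_pos hn0 _
  have p3 : 0 < z3 := Real.rpow_pos_of_pos hn0 _
  have p4 : 0 < z4 := Real.rpow_pos_of_pos hn0 _
  have hlow : (c / 2 * (z1 / L)) * ((c / 2 * (z2 / L)) * ((c / 2 * (z3 / L)) * (c / 2 * (z4 / L))))
      ≤ ((pw ν n M2).card : ℝ) * (((pw ν n Y0).card : ℝ) *
        (((pw ν n X1).card : ℝ) * ((pw ν n X2).card : ℝ))) := by
    apply mul_le_mul c1 _ (by positivity) (by positivity)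
    apply mul_le_mul c2 _ (by positivity) (by positivity)
    exact mul_le_mul c3 c4 (by positivity) (by positivity)
  have hup : (M2 : ℝ) * Y0 * X1 * X2 ≤ (8 * z1) * (8 * z2) * (8 * z3) * (8 * z4) := by
    apply mul_le_mul _ b4 (by positivity) (by positivity)
    apply mul_le_mul _ b3 (by positivity) (by positivity)
    exact mul_le_mul b1 b2 (by positivity) (by positivity)
  refine le_trans ?_ hlow
  rw [div_le_iff₀ (by positivity)]
  refine hup.trans ?_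
  have e : (c / 2 * (z1 / L)) * ((c / 2 * (z2 / L)) * ((c / 2 * (z3 / L)) * (c / 2 * (z4 / L))))
      * L ^ 5 = (c / 2) ^ 4 * (z1 * z2 * z3 * z4) * L := by
    field_simp
  rw [e]
  have h7 : (c / 2) ^ 4 * (16 / c) ^ 4 = 8 ^ 4 := by
    rw [← mul_pow]
    congr 1
    field_simp
    norm_num
  have h8 : (8 : ℝ) ^ 4 ≤ (c / 2) ^ 4 * L := by
    rw [← h7]
    exact mul_le_mul_of_nonneg_left h5 (by positivity)
  calc (8 * z1) * (8 * z2) * (8 * z3) * (8 * z4) = 8 ^ 4 * (z1 * z2 * z3 * z4) := by ring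
    _ ≤ (c / 2) ^ 4 * L * (z1 * z2 * z3 * z4) := mul_le_mul_of_nonneg_right h8 (by positivity)
    _ = (c / 2) ^ 4 * (z1 * z2 * z3 * z4) * L := by ring

end Pool.Agent.Lib.MP_1446ad_nt.SM
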